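import Pool.Agent.NH35.HE.StmF

/-! Arithmetic of the weights: `S_ar`. -/

set_option autoImplicit false

namespace Pool.Agent.NH35.HE

open Finset Pool.Agent.H916R2 Pool.Agent.H916K
open Pool.Agent.NH35.HG (EW)

namespace Ar

/-- reduction from `ZMod (2 * n)` to `ZMod n` -/
def red (n : ℕ) : ZMod (2 * n) →+* ZMod n := ZMod.castHom (Dvd.intro_left 2 rfl) (ZMod n)

theorem red_natCast (n k : ℕ) : red n ((k : ℕ) : ZMod (2 * n)) = ((k : ℕ) : ZMod n) :=
  map_natCast _ _

theorem val_two {n : ℕ} [NeZero n] (y : ZMod (2 * n)) : (2 * y).val = 2 * (red n y).val := by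
  have : NeZero (2 * n) := ⟨by have := NeZero.ne n; omega⟩
  have h1 : (2 * y) = ((2 * y.val : ℕ) : ZMod (2 * n)) := by
    push_cast
    rw [ZMod.natCast_zmod_val]
  have h2 : red n y = ((y.val : ℕ) : ZMod n) := by
    conv_lhs => rw [← ZMod.natCast_zmod_val y]
    rw [red_natCast]
  rw [h1, h2, ZMod.val_natCast, ZMod.val_natCast, Nat.mul_mod_mul_left]

/-- the sum of the residues -/
def BB (n : ℕ) {m : ℕ} (s : Multiset (ZMod m)) (t : ZMod n) : ℕ :=
  (s.map fun z => (((z.val : ℕ) : ZMod n) * t).val).sum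

theorem BB_cast {n m : ℕ} [NeZero n] (s : Multiset (ZMod m)) (t : ZMod n) :
    ((BB n s t : ℕ) : ZMod n) = (((s.map fun z => z.val).sum : ℕ) : ZMod n) * t := by
  unfold BB
  induction s using Multiset.induction_on with
  | empty => simp
  | cons a S ih =>
    rw [Multiset.map_cons, Multiset.sum_cons, Multiset.map_cons, Multiset.sum_cons, Nat.cast_add,
      Nat.cast_add, add_mul, ZMod.natCast_zmod_val, ih]

theorem sum_cast {m : ℕ} [NeZero m] (s : Multiset (ZMod m)) :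
    (((s.map fun z => z.val).sum : ℕ) : ZMod m) = s.sum := by
  induction s using Multiset.induction_on with
  | empty => simp
  | cons a S ih =>
    rw [Multiset.map_cons, Multiset.sum_cons, Nat.cast_add, ih, Multiset.sum_cons,
      ZMod.natCast_zmod_val]

theorem dvd_BB {n m : ℕ} [NeZero n] [NeZero m] (hnm : n ∣ m) (s : Multiset (ZMod m))
    (hs : s.sum = 0) (t : ZMod n) : n ∣ BB n s t := by
  rw [← ZMod.natCast_eq_zero_iff]
  have h2 : m ∣ (s.map fun z => z.val).sum := by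
    rw [← ZMod.natCast_eq_zero_iff, sum_cast, hs]
  rw [BB_cast, (ZMod.natCast_eq_zero_iff _ _).mpr (hnm.trans h2), zero_mul]

theorem wl {n m : ℕ} [NeZero n] [NeZero m] (hnm : n ∣ m) (s : Multiset (ZMod m))
    (hs : s.sum = 0) (T : ZMod (2 * n)) :
    n * (((s.toList.map fun z => ((2 * z.val : ℕ) : ZMod (2 * n))).map
      fun a => (-(a * T)).val).sum / (2 * n)) = BB n s (-(red n T)) := by
  have h1 : ((s.toList.map fun z => ((2 * z.val : ℕ) : ZMod (2 * n))).map
      fun a => (-(a * T)).val).sum = 2 * BB n s (-(red n T)) := by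
    rw [List.map_map]
    have : (s.toList.map ((fun a : ZMod (2 * n) => (-(a * T)).val) ∘
        fun z => ((2 * z.val : ℕ) : ZMod (2 * n)))) =
        s.toList.map fun z => 2 * (((z.val : ℕ) : ZMod n) * (-(red n T))).val := by
      apply List.map_congr_left
      intro z _
      simp only [Function.comp]
      have h2 : (-((((2 * z.val : ℕ) : ZMod (2 * n))) * T)) =
          2 * (((z.val : ℕ) : ZMod (2 * n)) * (-T)) := by
        push_cast
        ring
      rw [h2, val_two, map_mul, map_neg, red_natCast]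
    rw [this, Multiset.sum_map_toList, Multiset.sum_map_mul_left]
    rfl
  rw [h1, Nat.mul_div_mul_left _ _ (by norm_num : 0 < 2)]
  exact Nat.mul_div_cancel' (dvd_BB hnm s hs _)

theorem wk {n b r : ℕ} [NeZero n] (T : ZMod (2 * n)) (hb : ((b : ℕ) : ZMod n) * red n T ≠ 0) :
    ((n * Wk (2 * n) b r T : ℕ) : ℤ) = (r : ℤ) * n - r * (((b : ℕ) : ZMod n) * red n T).val +
      (((b : ℕ) : ZMod n) * (red n T * (r : ZMod n))).val := by
  have h1 : (-(((2 * b : ℕ) : ZMod (2 * n)) * T)).val =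
      2 * (-(((b : ℕ) : ZMod n) * red n T)).val := by
    have h2 : (-(((2 * b : ℕ) : ZMod (2 * n)) * T)) = 2 * (-(((b : ℕ) : ZMod (2 * n)) * T)) := by
      push_cast
      ring
    rw [h2, val_two, map_neg, map_mul, red_natCast]
  have h3 : ((r : ZMod (2 * n)) * (((2 * b : ℕ) : ZMod (2 * n)) * T)).val =
      2 * (((b : ℕ) : ZMod n) * (red n T * (r : ZMod n))).val := by
    have h2 : ((r : ZMod (2 * n)) * (((2 * b : ℕ) : ZMod (2 * n)) * T)) =
        2 * (((b : ℕ) : ZMod (2 * n)) * (T * ((r : ℕ) : ZMod (2 * n)))) := by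
      push_cast
      ring
    rw [h2, val_two, map_mul, map_mul, red_natCast, red_natCast]
  have h4 : Wk (2 * n) b r T = (r * (-(((b : ℕ) : ZMod n) * red n T)).val +
      (((b : ℕ) : ZMod n) * (red n T * (r : ZMod n))).val) / n := by
    unfold Wk
    rw [h1, h3, ← Nat.mul_div_mul_left _ n (by norm_num : 0 < 2)]
    congr 1
    ring
  have h5 : n ∣ (r * (-(((b : ℕ) : ZMod n) * red n T)).val +
      (((b : ℕ) : ZMod n) * (red n T * (r : ZMod n))).val) := by
    rw [← ZMod.natCast_eq_zero_iff]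
    push_cast
    rw [ZMod.natCast_zmod_val, ZMod.natCast_zmod_val]
    ring
  rw [h4, Nat.mul_div_cancel' h5]
  have h6 : (-(((b : ℕ) : ZMod n) * red n T)).val = n - (((b : ℕ) : ZMod n) * red n T).val := by
    rw [ZMod.neg_val, if_neg hb]
  have h7 : (((b : ℕ) : ZMod n) * red n T).val ≤ n := (ZMod.val_lt _).le
  rw [h6]
  push_cast [Nat.cast_sub h7]
  ring

/-- the telescoping sum -/
theorem tele {n r f : ℕ} [NeZero n] (hf : (r : ZMod n) ^ f = 1) (c : ZMod n) :
    ∑ j ∈ range f, ((r : ℤ) ^ (f - j) * (r * ((c * (r : ZMod n) ^ j).val : ℤ) -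
      ((c * (r : ZMod n) ^ (j + 1)).val : ℤ))) = r * ((r : ℤ) ^ f - 1) * (c.val : ℤ) := by
  have h1 : ∀ j ∈ range f, ((r : ℤ) ^ (f - j) * (r * ((c * (r : ZMod n) ^ j).val : ℤ) -
      ((c * (r : ZMod n) ^ (j + 1)).val : ℤ))) =
      (r : ℤ) ^ (f + 1 - j) * ((c * (r : ZMod n) ^ j).val : ℤ) -
      (r : ℤ) ^ (f + 1 - (j + 1)) * ((c * (r : ZMod n) ^ (j + 1)).val : ℤ) := by
    intro j hj
    rw [mem_range] at hj
    have h2 : f + 1 - j = (f - j) + 1 := by omega
    have h3 : f + 1 - (j + 1) = f - j := by omega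
    rw [h2, h3, pow_succ]
    ring
  rw [sum_congr rfl h1, sum_range_sub' (fun j => (r : ℤ) ^ (f + 1 - j) *
    ((c * (r : ZMod n) ^ j).val : ℤ))]
  rw [hf]
  simp only [pow_zero, mul_one, Nat.sub_zero]
  rw [Nat.add_sub_cancel_left, pow_one, pow_succ]
  ring

/-- the digit sum of a unit -/
def AA (n : ℕ) {m : ℕ} (r f : ℕ) (s : Multiset (ZMod m)) (t : ZMod n) : ℤ :=
  ∑ j ∈ range f, (r : ℤ) ^ (f - j) * (BB n s (t * (r : ZMod n) ^ j) : ℤ)

theorem sum_dI {n m r f : ℕ} [NeZero n] [NeZero m] (s : Multiset (ZMod m)) (t t' : (ZMod n)ˣ) :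
    ∑ z : ZMod m, (s.count z : ℤ) * dI r n f t t' z =
      AA n r f s (t : ZMod n) - AA n r f s (t' : ZMod n) := by
  have h1 : ∑ z : ZMod m, (s.count z : ℤ) * dI r n f t t' z = (s.map fun z => dI r n f t t' z).sum := by
    rw [Finset.sum_multiset_map_count]
    symm
    apply Finset.sum_subset_zero_on_sdiff (subset_univ _)
    · intro x hx
      rw [mem_sdiff, Multiset.mem_toFinset] at hx
      rw [Multiset.count_eq_zero_of_notMem hx.2]
      simp
    · intro x _
      rw [nsmul_eq_mul]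
  rw [h1]
  clear h1
  induction s using Multiset.induction_on with
  | empty => simp [AA, BB]
  | cons a S ih =>
    rw [Multiset.map_cons, Multiset.sum_cons, ih]
    unfold AA dI
    rw [← sum_sub_distrib, ← sum_sub_distrib, ← sum_add_distrib]
    refine sum_congr rfl fun j _ => ?_
    have h2 : ∀ u : ZMod n, (BB n (a ::ₘ S) (u * (r : ZMod n) ^ j) : ℤ) =
        ((u * ((r : ZMod n) ^ j * (a.val : ZMod n))).val : ℤ) + (BB n S (u * (r : ZMod n) ^ j) : ℤ) := by
      intro u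
      unfold BB
      rw [Multiset.map_cons, Multiset.sum_cons]
      push_cast
      congr 3
      ring
    rw [h2, h2]
    ring

/-- the main formula -/
theorem ew {n m b r f : ℕ} [NeZero n] [NeZero m] (hnm : n ∣ m) (s : Multiset (ZMod m))
    (hs : s.sum = 0) (N0 kr : ℕ) (T : (ZMod (2 * n))ˣ) (hf : (r : ZMod n) ^ f = 1)
    (hb : ∀ u : (ZMod n)ˣ, ((b : ℕ) : ZMod n) * (u : ZMod n) ≠ 0) (hr : IsUnit (r : ZMod n)) :
    (n : ℤ) * EW (2 * n) r f (WT (2 * n) b r N0 kr
      (s.toList.map fun z => ((2 * z.val : ℕ) : ZMod (2 * n)))) T =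
      N0 * AA n r f s (-(red n T)) + kr * ((∑ j ∈ range f, (r : ℤ) ^ (f - j) * (r * n)) -
        r * ((r : ℤ) ^ f - 1) * ((((b : ℕ) : ZMod n) * red n T).val : ℤ)) := by
  rw [← tele hf, ← sum_sub_distrib]
  unfold EW AA
  rw [mul_sum, mul_sum, mul_sum, ← sum_add_distrib]
  refine sum_congr rfl fun j _ => ?_
  obtain ⟨u, hu⟩ := hr
  have hT : red n ((T : ZMod (2 * n)) * (r : ZMod (2 * n)) ^ j) = red n T * (r : ZMod n) ^ j := by
    rw [map_mul, map_pow]
    congr 2
    exact red_natCast n r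
  have h1 := wl hnm s hs ((T : ZMod (2 * n)) * (r : ZMod (2 * n)) ^ j)
  have hne : ((b : ℕ) : ZMod n) * red n ((T : ZMod (2 * n)) * (r : ZMod (2 * n)) ^ j) ≠ 0 := by
    have := hb (Units.map (red n : ZMod (2 * n) →* ZMod n) T * u ^ j)
    rw [hT]
    rw [Units.val_mul, Units.val_pow_eq_pow_val, hu, Units.coe_map] at this
    exact this
  have h2 := wk (b := b) (r := r) ((T : ZMod (2 * n)) * (r : ZMod (2 * n)) ^ j) hne
  rw [hT] at h1 h2
  have h3 : -(red n T) * (r : ZMod n) ^ j = -(red n T * (r : ZMod n) ^ j) := by ring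
  rw [h3, ← h1]
  unfold WT
  have h4 : (((b : ℕ) : ZMod n) * red n T * (r : ZMod n) ^ j) =
    ((b : ℕ) : ZMod n) * (red n T * (r : ZMod n) ^ j) := by ring
  have h5 : (((b : ℕ) : ZMod n) * red n T * (r : ZMod n) ^ (j + 1)) =
    ((b : ℕ) : ZMod n) * (red n T * (r : ZMod n) ^ j * (r : ZMod n)) := by ring
  rw [h4, h5]
  push_cast at h2 ⊢
  linear_combination (kr : ℤ) * (r : ℤ) ^ (f - j) * h2

end Ar

open Ar in
theorem ar : S_ar := by
  intro r a n e b f m _ hr hr2 ha hrn hm hn hb he hf0 hrf s hs N0 kr hN0 H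
  have hn0 : n ≠ 0 := by
    rintro rfl
    exact hrn (dvd_zero _)
  have : NeZero n := ⟨hn0⟩
  have h2n : NeZero (2 * n) := ⟨by omega⟩
  have hnm : n ∣ m := ⟨r ^ a, by rw [← hm]; ring⟩
  have hbpos : 0 < b := hb.pos
  have h4 : 4 ≤ 2 ^ e := by
    calc 4 = 2 ^ 2 := by norm_num
    _ ≤ 2 ^ e := Nat.pow_le_pow_right (by norm_num) he
  have hbn : b < n := by
    rw [hn]
    nlinarith
  have hn1 : 1 < n := by omega
  have hfn : (r : ZMod n) ^ f = 1 := by
    have := congrArg (red n) hrf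
    rw [map_pow, map_one] at this
    rw [← this]
    congr 1
    exact (red_natCast n r).symm
  have hru : IsUnit (r : ZMod n) := by
    apply IsUnit.of_pow_eq_one hfn hf0.ne'
  have hbu : ∀ u : (ZMod n)ˣ, ((b : ℕ) : ZMod n) * (u : ZMod n) ≠ 0 := by
    intro u hu
    have h1 : ((b : ℕ) : ZMod n) = 0 := (Units.mul_left_eq_zero u).mp hu
    rw [ZMod.natCast_eq_zero_iff] at h1
    exact absurd (Nat.le_of_dvd hbpos h1) (by omega)
  refine ⟨f, hf0, hfn, N0, -(kr : ℤ) * r * b, by exact_mod_cast hN0, ?_⟩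
  intro t t'
  rw [sum_dI]
  have hsurj := ZMod.unitsMap_surjective (n := n) (m := 2 * n) (Dvd.intro_left 2 rfl)
  obtain ⟨T, hT⟩ := hsurj (-t)
  obtain ⟨T', hT'⟩ := hsurj (-t')
  have hrT : red n T = -(t : ZMod n) := by
    have := congrArg (fun u : (ZMod n)ˣ => (u : ZMod n)) hT
    simpa [ZMod.unitsMap, red] using this
  have hrT' : red n T' = -(t' : ZMod n) := by
    have := congrArg (fun u : (ZMod n)ˣ => (u : ZMod n)) hT'
    simpa [ZMod.unitsMap, red] using this
  have h1 := ew (b := b) (r := r) (f := f) hnm s hs N0 kr T hfn hbu hru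
  have h2 := ew (b := b) (r := r) (f := f) hnm s hs N0 kr T' hfn hbu hru
  rw [hrT, neg_neg] at h1
  rw [hrT', neg_neg] at h2
  -- residues of `-b t`
  have h3 : ∀ u : (ZMod n)ˣ, ∃ q : ℤ, ((((b : ℕ) : ZMod n) * -(u : ZMod n)).val : ℤ) =
      b * (n - ((u : ZMod n).val : ℤ)) + n * q := by
    intro u
    have hz : (((((((b : ℕ) : ZMod n) * -(u : ZMod n)).val : ℤ) -
        b * (n - ((u : ZMod n).val : ℤ))) : ℤ) : ZMod n) = 0 := by
      push_cast
      rw [ZMod.natCast_zmod_val, ZMod.natCast_zmod_val, ZMod.natCast_self]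
      ring
    rw [ZMod.intCast_zmod_eq_zero_iff_dvd] at hz
    obtain ⟨q, hq⟩ := hz
    exact ⟨q, by linarith⟩
  obtain ⟨q, hq⟩ := h3 t
  obtain ⟨q', hq'⟩ := h3 t'
  obtain ⟨w, hw⟩ := H T T'
  refine ⟨w + kr * r * (q - q'), ?_⟩
  rw [hq] at h1
  rw [hq'] at h2
  have h5 : (n : ℤ) * (EW (2 * n) r f (WT (2 * n) b r N0 kr
      (s.toList.map fun z => ((2 * z.val : ℕ) : ZMod (2 * n)))) T - EW (2 * n) r f
      (WT (2 * n) b r N0 kr (s.toList.map fun z => ((2 * z.val : ℕ) : ZMod (2 * n)))) T') =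
      n * (((r : ℤ) ^ f - 1) * w) := by
    rw [← hw]
  rw [mul_sub, h1, h2] at h5
  linear_combination h5

end Pool.Agent.NH35.HE

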