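import Pool.Agent.NH35.HE.StmF
import Pool.Agent.NH35.HG.Asm

/-! Assembly of the number theoretic core, degree divisible by four. -/

set_option autoImplicit false
set_option linter.unusedSectionVars false

namespace Pool.Agent.NH35.HE

open Finset Pool.Agent.H916R2 Pool.Agent.H916K NumberField Ideal
open Pool.Agent.NH35.HD (sa xw iw zt)
open Pool.Agent.NH35.HC (Hk)
open Pool.Agent.NH35.HG (EW asm_tau asm_psi asm_int_dvd asm_field)
open scoped ComplexConjugate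

namespace EA

section
variable {n : ℕ} [NeZero n] {K : Type} [Field K] [NumberField K] [IsCyclotomicExtension {n} ℚ K]

theorem xw_add (W W' : (ZMod n)ˣ → ℕ) (β : 𝓞 K) :
    xw n K (fun t => W t + W' t) β = xw n K W β * xw n K W' β := by
  unfold xw
  rw [← Finset.prod_mul_distrib]
  exact Finset.prod_congr rfl fun t _ => pow_add _ _ _

theorem xw_smul (k : ℕ) (W : (ZMod n)ˣ → ℕ) (β : 𝓞 K) :
    xw n K (fun t => k * W t) β = xw n K W β ^ k := by
  unfold xw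
  rw [← Finset.prod_pow]
  exact Finset.prod_congr rfl fun t _ => by
    change sa n K t⁻¹ β ^ (k * W t) = _
    rw [mul_comm, pow_mul]

theorem mon_xw (P : List (ZMod n × ZMod n)) (β : 𝓞 K) :
    mon P (fun a b => xw n K (WW a b) β) = xw n K (mw P) β := by
  induction P with
  | nil =>
    unfold mon mw xw
    simp
  | cons p P ih =>
    have e1 : mon (p :: P) (fun a b => xw n K (WW a b) β) =
        xw n K (WW p.1 p.2) β * mon P (fun a b => xw n K (WW a b) β) := by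
      unfold mon
      rw [List.map_cons, List.prod_cons]
    have e2 : mw (p :: P) = fun t => WW p.1 p.2 t + mw P t := by
      funext t
      unfold mw
      rw [List.map_cons, List.sum_cons]
    rw [e1, ih, e2, xw_add]

theorem norm_nonneg' (h1 : 2 < n) (α : 𝓞 K) : 0 ≤ Algebra.norm ℤ α := by
  refine HD.norm_nonneg (m := n) (W := fun t => if 2 * (t : ZMod n).val < n then 1 else 0) ?_ α
  intro t
  have : Fact (1 < n) := ⟨by omega⟩
  have h2 : ((-t : (ZMod n)ˣ) : ZMod n).val = n - (t : ZMod n).val := by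
    rw [Units.val_neg, ZMod.neg_val, if_neg t.ne_zero]
  have h3 := ZMod.val_lt (t : ZMod n)
  have h4 : 2 * (t : ZMod n).val ≠ n := by
    intro h5
    have h6 : Nat.Coprime (t : ZMod n).val n := ZMod.val_coe_unit_coprime t
    have h7 : (t : ZMod n).val ∣ n := ⟨2, by omega⟩
    have h8 := Nat.Coprime.eq_one_of_dvd h6 h7
    omega
  simp only [h2]
  split_ifs <;> omega

end

theorem circle_inj {G : Type} [CommGroup G] [Finite G] [h : IsCyclic G] :
    ∃ ω : G →* Circle, Function.Injective ω := by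
  have : NeZero (Nat.card G) := ⟨Nat.card_pos.ne'⟩
  refine ⟨((ZMod.toCircle (N := Nat.card G)).toMonoidHom).comp
    ((zmodCyclicMulEquiv h).symm : G →* Multiplicative (ZMod (Nat.card G))), ?_⟩
  rw [MonoidHom.coe_comp]
  refine Function.Injective.comp ?_ (zmodCyclicMulEquiv h).symm.injective
  intro x y hxy
  exact ZMod.injective_toCircle hxy

section
variable {K : Type} [Field K] [NumberField K]

theorem comb {Ψ : Ideal (𝓞 K) → ℂ} {I0 : Ideal (𝓞 K)} (h0 : Hk Ψ I0 (fun _ => 1))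
    (S : Finset ℕ) (κ : ℕ → Ideal (𝓞 K) → ℂ) (M : ℕ → ℕ)
    (h : ∀ p ∈ S, Hk (κ p) (span {((M p : ℕ) : 𝓞 K)}) (fun _ => 1)) (N0 : ℕ) (k : ℕ → ℕ) :
    ∃ X : Ideal (𝓞 K) → ℂ, Hk X (I0 * ∏ p ∈ S, span {((M p : ℕ) : 𝓞 K)}) (fun _ => 1) ∧
      ∀ I, IsCoprime I (I0 * ∏ p ∈ S, span {((M p : ℕ) : 𝓞 K)}) →
        X I = Ψ I ^ N0 * ∏ p ∈ S, (conj (κ p I)) ^ k p := by
  classical
  set J : Ideal (𝓞 K) := I0 * ∏ p ∈ S, span {((M p : ℕ) : 𝓞 K)} with hJ
  have hcop : ∀ I, IsCoprime I J → IsCoprime I I0 ∧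
      ∀ p ∈ S, IsCoprime I (span {((M p : ℕ) : 𝓞 K)}) := by
    intro I hI
    rw [hJ, IsCoprime.mul_right_iff, IsCoprime.prod_right_iff] at hI
    exact hI
  refine ⟨fun I => if IsCoprime I J then Ψ I ^ N0 * ∏ p ∈ S, (conj (κ p I)) ^ k p else 0,
    ⟨?_, ?_, ?_, ?_, ?_, ?_, ?_, ?_⟩, fun I hI => if_pos hI⟩
  · rw [hJ]
    exact mul_ne_zero h0.m0 (Finset.prod_ne_zero_iff.2 fun p hp => (h p hp).m0)
  · intro I hI
    exact if_neg hI
  · intro I hI
    obtain ⟨c0, c1⟩ := hcop I hI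
    simp only [if_pos hI]
    rw [norm_mul, norm_pow, h0.one I c0, one_pow, one_mul, norm_prod]
    refine Finset.prod_eq_one fun p hp => ?_
    rw [norm_pow, RCLike.norm_conj, (h p hp).one I (c1 p hp), one_pow]
  · intro I I'
    by_cases hI : IsCoprime (I * I') J
    · have h1 := IsCoprime.mul_left_iff.1 hI
      simp only [if_pos hI, if_pos h1.1, if_pos h1.2]
      rw [h0.mul, mul_pow]
      have e1 : ∏ p ∈ S, (conj (κ p (I * I'))) ^ k p =
          (∏ p ∈ S, (conj (κ p I)) ^ k p) * ∏ p ∈ S, (conj (κ p I')) ^ k p := by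
        rw [← Finset.prod_mul_distrib]
        refine Finset.prod_congr rfl fun p hp => ?_
        rw [(h p hp).mul, map_mul, mul_pow]
      rw [e1]
      ring
    · have h1 : ¬ IsCoprime I J ∨ ¬ IsCoprime I' J := by
        by_contra h2
        push Not at h2
        exact hI (IsCoprime.mul_left_iff.2 h2)
      simp only [if_neg hI]
      rcases h1 with h1 | h1
      · rw [if_neg h1, zero_mul]
      · rw [if_neg h1, mul_zero]
  · intro α hα hα1
    have hI : IsCoprime (span {α}) J := HC.coprime_span hα1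
    simp only [if_pos hI]
    have l0 : J ≤ I0 := by rw [hJ]; exact Ideal.mul_le_left
    rw [h0.prin α hα (l0 hα1), one_pow, one_mul]
    refine Finset.prod_eq_one fun p hp => ?_
    have l1 : J ≤ span {((M p : ℕ) : 𝓞 K)} := by
      rw [← Ideal.dvd_iff_le, hJ]
      exact Dvd.dvd.mul_left (Finset.dvd_prod_of_mem _ hp) _
    rw [(h p hp).prin α hα (l1 hα1), map_one, one_pow]
  · intro x y _ _
    rw [mul_one]
  · intro x _
    exact norm_one
  · exact ⟨0, le_refl _, fun x x' _ _ δ _ _ => by simp⟩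

end

section
variable {F : Type} [Field F] [Fintype F]

theorem lsum {n m : ℕ} [NeZero m] {s : Multiset (ZMod m)} (hs : s.sum = 0) (hnm : n ∣ m) :
    (s.toList.map fun z => ((2 * z.val : ℕ) : ZMod (2 * n))).sum = 0 := by
  have e1 : (s.toList.map fun z => ((2 * z.val : ℕ) : ZMod (2 * n))).sum =
      ((2 * (s.map fun z : ZMod m => z.val).sum : ℕ) : ZMod (2 * n)) := by
    have e2 : ∀ l : List (ZMod m), (l.map fun z => ((2 * z.val : ℕ) : ZMod (2 * n))).sum =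
        ((2 * (l.map fun z : ZMod m => z.val).sum : ℕ) : ZMod (2 * n)) := by
      intro l
      induction l with
      | nil => simp
      | cons a l ih =>
        rw [List.map_cons, List.sum_cons, ih, List.map_cons, List.sum_cons]
        push_cast
        ring
    rw [e2]
    congr 2
    conv_rhs => rw [← Multiset.coe_toList s]
    rw [Multiset.map_coe, Multiset.sum_coe]
  have e3 : (((s.map fun z : ZMod m => z.val).sum : ℕ) : ZMod m) = 0 := by
    rw [← hs]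
    clear hs e1
    induction s using Multiset.induction_on with
    | empty => simp
    | cons a s ih =>
      rw [Multiset.map_cons, Multiset.sum_cons, Multiset.sum_cons, Nat.cast_add, ih,
        ZMod.natCast_zmod_val]
  rw [e1, ZMod.natCast_eq_zero_iff]
  rw [ZMod.natCast_eq_zero_iff] at e3
  exact Nat.mul_dvd_mul_left 2 (hnm.trans e3)

/-- the relation between the products in the residue field of `R` -/
theorem rel {n : ℕ} [NeZero n] {K : Type} [Field K] [NumberField K]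
    [IsCyclotomicExtension {2 * n} ℚ K] [NeZero (2 * n)] (h4 : S_gp) (hn : 2 < 2 * n)
    {m r a b : ℕ} [NeZero m] {s : Multiset (ZMod m)} (hs : s.sum = 0) (hnm : n ∣ m)
    {χ : MulChar F (𝓞 K)} (hχ : orderOf χ = 2 * n) {τ : 𝓞 K →+* AI} (hτ : Function.Injective τ)
    {k : Type} [Field k] (φ : AI →+* k) {P : Finset ℕ} (hP : ∀ p ∈ P, ((p : ℕ) : F) ≠ 0)
    (κ : ℕ → ℕ) {ψ : AddChar F AI} (hψ : ψ ≠ 1)
    (H : ∀ χ1 : MulChar F AI, orderOf χ1 = n →
      φ ((s.map fun z => -gaussSum (χ1 ^ ((z.val : ℕ) : ZMod n).val) ψ).prod ^ (r ^ a * b)) =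
      φ (∏ p ∈ P, ((χ1 ^ (r ^ a * b)) ((p : ℕ) : F)) ^ κ p)) :
    Ideal.Quotient.mk (RingHom.ker (φ.comp τ))
      (mon (gl 0 (s.toList.map fun z => ((2 * z.val : ℕ) : ZMod (2 * n)))) (yj χ) ^ (r ^ a * b)) =
    Ideal.Quotient.mk (RingHom.ker (φ.comp τ))
      (∏ p ∈ P, ((χ ^ (2 * b)) ((p : ℕ) : F)) ^ (r ^ a * κ p)) := by
  set L : List (ZMod (2 * n)) := s.toList.map fun z => ((2 * z.val : ℕ) : ZMod (2 * n)) with hL
  have hLsum : L.sum = 0 := lsum hs hnm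
  have hg := h4 (2 * n) K hn F χ hχ L hLsum AI τ ψ hψ
  set χ' : MulChar F AI := χ.ringHomComp τ with hχ'
  have hord : orderOf χ' = 2 * n := by
    rw [← hχ]
    exact orderOf_injective (MulChar.ringHomCompHom τ) (MulChar.injective_ringHomComp hτ) χ
  have hord1 : orderOf (χ' ^ 2) = n := by
    rw [orderOf_pow_of_dvd two_ne_zero (by rw [hord]; exact Dvd.intro _ rfl), hord]
    omega
  have e4 : (L.map fun a => -gaussSum (χ' ^ a.val) ψ).prod =
      (s.map fun z => -gaussSum ((χ' ^ 2) ^ ((z.val : ℕ) : ZMod n).val) ψ).prod := by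
    conv_rhs => rw [← Multiset.coe_toList s]
    rw [Multiset.map_coe, Multiset.prod_coe, hL, List.map_map]
    congr 1
    refine List.map_congr_left fun z _ => ?_
    simp only [Function.comp_apply]
    rw [ZMod.val_natCast, ZMod.val_natCast, Nat.mul_mod_mul_left, pow_mul]
  have H1 := H (χ' ^ 2) hord1
  rw [← e4, ← hg] at H1
  have H2 : ∏ p ∈ P, (((χ' ^ 2) ^ (r ^ a * b)) ((p : ℕ) : F)) ^ κ p =
      τ (∏ p ∈ P, ((χ ^ (2 * b)) ((p : ℕ) : F)) ^ (r ^ a * κ p)) := by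
    rw [map_prod]
    refine Finset.prod_congr rfl fun p hp => ?_
    have hp0 := hP p hp
    rw [mulChar_pow_apply _ _ hp0, mulChar_pow_apply _ _ hp0, mulChar_pow_apply _ _ hp0, hχ',
      MulChar.ringHomComp_apply, map_pow, map_pow, ← pow_mul, ← pow_mul, ← pow_mul]
    congr 1
    ring
  rw [Ideal.Quotient.eq, RingHom.mem_ker, map_sub, sub_eq_zero, RingHom.comp_apply,
    RingHom.comp_apply, map_pow, H1, H2]

end

end EA

/-- (N14) **the number theoretic core** -/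
theorem thmE_of (h0 : HG.S_dn) (h1 : S_fam) (h2 : S_hk) (h3 : S_jac) (h4 : S_gp) (h5 : S_gw)
    (h6 : S_kum) (h7 : S_beta) (h8 : S_we2) (h9 : S_ar) : S_thmE := by
  intro m _ hm4 s hs hW r a n hr hr2 ha hrn hm
  have hm0 : 0 < m := Nat.pos_of_ne_zero (NeZero.ne m)
  have hn0 : 0 < n := Nat.pos_of_ne_zero (by rintro rfl; rw [mul_zero] at hm; omega)
  have hn : NeZero n := ⟨hn0.ne'⟩
  have hN : NeZero (2 * n) := ⟨by omega⟩
  have hnm : n ∣ m := ⟨r ^ a, by rw [← hm]; ring⟩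
  obtain ⟨e, b, P, κ, hnb, hb, hP, hE⟩ := h8 r a n m hr hr2 ha hrn hm hm4 hm0 s hW
  have hro : Odd r := hr.odd_of_ne_two hr2
  have h4n : 4 ∣ n := by
    have h10 : Nat.Coprime 4 (r ^ a) := by
      have : Nat.Coprime 2 r := (Nat.coprime_two_left).2 hro
      exact ((this.pow_left 2).pow_right a)
    exact h10.dvd_of_dvd_mul_left (hm ▸ hm4)
  have he2 : 2 ≤ e := by
    by_contra hlt
    have h10 : e = 0 ∨ e = 1 := by omega
    obtain ⟨c, hc⟩ := hb
    rcases h10 with rfl | rfl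
    · rw [pow_zero, one_mul] at hnb
      omega
    · rw [pow_one] at hnb
      omega
  have hn4 : 4 ≤ n := Nat.le_of_dvd hn0 h4n
  have hN2 : 2 < 2 * n := by omega
  have hNb : 2 * n = 2 ^ (e + 1) * b := by rw [hnb]; ring
  have hrN : ¬ r ∣ 2 * n := by
    intro h10
    rcases (Nat.Prime.dvd_mul hr).1 h10 with h11 | h11
    · exact hr2 ((Nat.prime_dvd_prime_iff_eq hr Nat.prime_two).1 h11)
    · exact hrn h11
  have hrunit : IsUnit ((r : ℕ) : ZMod (2 * n)) :=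
    (ZMod.isUnit_iff_coprime r (2 * n)).2 ((Nat.Prime.coprime_iff_not_dvd hr).2 hrN)
  set f := orderOf ((r : ℕ) : ZMod (2 * n)) with hf
  have hf0 : 0 < f := by
    obtain ⟨u, hu⟩ := hrunit
    rw [hf, ← hu, orderOf_units]
    exact orderOf_pos u
  have hf1 : ((r : ℕ) : ZMod (2 * n)) ^ f = 1 := pow_orderOf_eq_one _
  -- the field
  obtain ⟨K, _, _, _⟩ := asm_field (2 * n)
  have hnn : ∀ α : 𝓞 K, 0 ≤ Algebra.norm ℤ α := EA.norm_nonneg' (n := 2 * n) hN2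
  obtain ⟨τ, hτ⟩ := asm_tau K
  obtain ⟨kr, _, _, ⟨φr⟩⟩ := exists_red hr
  set R : Ideal (𝓞 K) := RingHom.ker (φr.comp τ) with hR
  have hRp : R.IsPrime := RingHom.ker_isPrime _
  have hrR : (r : 𝓞 K) ∈ R := by
    rw [hR, RingHom.mem_ker, map_natCast]
    exact CharP.cast_eq_zero kr r
  have hR0 : R ≠ ⊥ := by
    intro h10
    rw [h10, Ideal.mem_bot] at hrR
    exact hr.ne_zero (by exact_mod_cast hrR)
  have hfin : Finite (𝓞 K ⧸ R) := Ideal.finiteQuotientOfFreeOfNeBot R hR0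
  have hdom : IsDomain (𝓞 K ⧸ R) := Ideal.Quotient.isDomain R
  obtain ⟨ω, hω⟩ := EA.circle_inj (G := (𝓞 K ⧸ R)ˣ)
  set L : List (ZMod (2 * n)) := s.toList.map fun z => ((2 * z.val : ℕ) : ZMod (2 * n)) with hL
  obtain ⟨Ψ, hΨ, hΨ1⟩ := h2 (2 * n) K hN2 r hr R hRp hrR ω (gl 0 L)
  -- the Kummer characters
  have hkum : ∀ p : ℕ, ∃ (κp : Ideal (𝓞 K) → ℂ) (M u : ℕ), p ∈ P → 0 < M ∧ Odd u ∧
      Hk κp (span {((M : ℕ) : 𝓞 K)}) (fun _ => 1) ∧
      (∀ (F : Type) [Field F] [Fintype F] (π : 𝓞 K →+* F), Function.Surjective π →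
        (Fintype.card F).Prime → ((M : ℕ) : F) ≠ 0 → ((p : ℕ) : F) ≠ 0 →
        ∀ χ : MulChar F (𝓞 K), orderOf χ = 2 * n → Fam (n := 2 * n) (RingHom.ker π) (yj χ) →
        ∃ h : IsUnit (Ideal.Quotient.mk R ((χ ^ (2 * b)) ((p : ℕ) : F))),
          κp (RingHom.ker π) = (ω h.unit : ℂ) ^ u) ∧
      (p ≠ r → ¬ r ∣ M) ∧
      (p = r → ∀ β : 𝓞 K, β ≠ 0 → β - 1 ∈ span {((2 * n : ℕ) : 𝓞 K) ^ 2} →
        IsCoprime (span {β}) (span {((r : ℕ) : 𝓞 K)}) → ((Algebra.norm ℤ β : ℤ) : ZMod r) = 1 →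
        ∃ h : IsUnit (Ideal.Quotient.mk R (xw (2 * n) K (fun t => Wk (2 * n) b r t) β)),
          κp (span {β}) * (ω h.unit : ℂ) = 1) := by
    intro p
    by_cases hp : p ∈ P
    · obtain ⟨κp, M, u, hx⟩ := h6 (2 * n) e b K hNb hb he2 r hr hr2 hrN R hRp hrR ω p (hP p hp)
      exact ⟨κp, M, u, fun _ => hx⟩
    · exact ⟨fun _ => 0, 0, 0, fun h => absurd h hp⟩
  choose κp Mp up hkum using hkum
  set U : ℕ := ∏ p ∈ P, up p with hU
  have hUodd : Odd U := by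
    rw [hU]
    exact Finset.prod_induction up Odd (fun _ _ ha hb => ha.mul hb) odd_one
      fun p hp => (hkum p hp).2.1
  set N0 : ℕ := r ^ a * b * U with hN0
  have hN0odd : Odd N0 := ((hro.pow).mul hb).mul hUodd
  set kk : ℕ → ℕ := fun p => r ^ a * κ p * (U / up p) with hkk
  have hup : ∀ p ∈ P, up p ∣ U := fun p hp => Finset.dvd_prod_of_mem up hp
  set kr' : ℕ := if r ∈ P then kk r else 0 with hkr'
  refine h9 r a n e b f m hr hr2 ha hrn hm hnb hb he2 hf0 hf1 s hs N0 kr' hN0odd ?_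
  intro t t'
  by_contra hne
  -- the moduli
  obtain ⟨M1, B, hM1, hE1⟩ := hE kr φr
  obtain ⟨v, w, hrw, hM1w⟩ := Nat.exists_eq_pow_mul_and_not_dvd hM1.ne' r hr.ne_one
  have hw0 : 0 < w := Nat.pos_of_ne_zero (by rintro rfl; exact hrw (dvd_zero _))
  set Q : ℕ := ∏ p ∈ P.erase r, Mp p with hQ
  have hQ0 : 0 < Q := Finset.prod_pos fun p hp => (hkum p (Finset.mem_of_mem_erase hp)).1
  have hrQ : ¬ r ∣ Q := by
    intro h10
    obtain ⟨p, hp, hpd⟩ := (Prime.dvd_finsetProd_iff hr.prime _).1 h10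
    exact (hkum p (Finset.mem_of_mem_erase hp)).2.2.2.2.1 (Finset.ne_of_mem_erase hp) hpd
  set Mb : ℕ := (2 * n) ^ 2 * w * Q with hMb
  have hMb0 : 0 < Mb := Nat.mul_pos (Nat.mul_pos (pow_pos (by omega) _) hw0) hQ0
  have hrMb : ¬ r ∣ Mb := by
    intro h10
    rcases (Nat.Prime.dvd_mul hr).1 h10 with h11 | h11
    · rcases (Nat.Prime.dvd_mul hr).1 h11 with h12 | h12
      · exact hrN (hr.dvd_of_dvd_pow h12)
      · exact hrw h12
    · exact hrQ h11
  obtain ⟨β, hβ0, hβ1, hβN, hβr, hβx⟩ := h7 (2 * n) K hN2 r f hr hrN rfl R hRp hrR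
    (WT (2 * n) b r N0 kr' L) t t' hne Mb (v + 1) hMb0 hrMb (Nat.succ_pos v)
  have hβ1' : ((Mb : ℕ) : 𝓞 K) ∣ β - 1 := Ideal.mem_span_singleton.1 hβ1
  have hsub : ∀ x : ℕ, x ∣ Mb → β - 1 ∈ span {((x : ℕ) : 𝓞 K)} := by
    intro x hx
    rw [Ideal.mem_span_singleton]
    exact (Nat.cast_dvd_cast hx).trans hβ1'
  have hβN2 : β - 1 ∈ span {((2 * n : ℕ) : 𝓞 K) ^ 2} := by
    have h10 := hsub ((2 * n) ^ 2) ⟨w * Q, by rw [hMb]; ring⟩
    rwa [Nat.cast_pow] at h10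
  have hmk : ∀ x y : ℕ, span {((x * y : ℕ) : 𝓞 K)} = span {(x : 𝓞 K)} * span {(y : 𝓞 K)} := by
    intro x y
    rw [Ideal.span_singleton_mul_span_singleton, Nat.cast_mul]
  have hcopx : ∀ x : ℕ, x ∣ Mb → IsCoprime (span {β}) (span {((x : ℕ) : 𝓞 K)}) := fun x hx =>
    HC.coprime_span (hsub x hx)
  have hcopI0 : IsCoprime (span {β}) (span {(((2 * n) ^ 2 * r : ℕ) : 𝓞 K)}) := by
    rw [hmk]
    exact IsCoprime.mul_right (hcopx _ ⟨w * Q, by rw [hMb]; ring⟩) hβr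
  have hnorm_r : ((Algebra.norm ℤ β : ℤ) : ZMod r) = 1 := by
    have h10 := congrArg (ZMod.castHom (dvd_pow_self r (Nat.succ_ne_zero v)) (ZMod r)) hβN
    rw [map_intCast, map_one] at h10
    exact h10
  -- the combined character
  obtain ⟨X, hX, hX1⟩ := EA.comb hΨ P κp Mp (fun p hp => (hkum p hp).2.2.1) N0 kk
  have hfamβ := (h1 (2 * n) K hN2).2.2 β hβ0 hβN2
  obtain ⟨hu, hΨβ⟩ := hΨ1 (span {β}) _ hcopI0 hfamβ
  have hMpMb : ∀ p ∈ P, p ≠ r → Mp p ∣ Mb := by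
    intro p hp hpr
    rw [hMb]
    exact Dvd.dvd.mul_left (Finset.dvd_prod_of_mem Mp (Finset.mem_erase.2 ⟨hpr, hp⟩)) _
  have hκβ : ∀ p ∈ P, p ≠ r → κp p (span {β}) = 1 := fun p hp hpr =>
    (hkum p hp).2.2.1.prin β hβ0 (hsub (Mp p) (hMpMb p hp hpr))
  have hκr : r ∈ P → ∃ h : IsUnit (Ideal.Quotient.mk R
      (xw (2 * n) K (fun t => Wk (2 * n) b r t) β)),
      κp r (span {β}) * (ω h.unit : ℂ) = 1 := fun hp =>
    (hkum r hp).2.2.2.2.2 rfl β hβ0 hβN2 hβr hnorm_r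
  have hcopX : IsCoprime (span {β}) (span {(((2 * n) ^ 2 * r : ℕ) : 𝓞 K)} *
      ∏ p ∈ P, span {((Mp p : ℕ) : 𝓞 K)}) := by
    refine IsCoprime.mul_right hcopI0 (IsCoprime.prod_right fun p hp => ?_)
    by_cases hpr : p = r
    · by_contra hcon
      subst hpr
      obtain ⟨h', hh⟩ := hκr hp
      rw [(hkum p hp).2.2.1.zero _ hcon, zero_mul] at hh
      exact zero_ne_one hh
    · exact hcopx (Mp p) (hMpMb p hp hpr)
  -- the total weight
  have hWT : xw (2 * n) K (fun u => WT (2 * n) b r N0 kr' L u) β =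
      xw (2 * n) K (mw (gl 0 L)) β ^ N0 * xw (2 * n) K (fun t => Wk (2 * n) b r t) β ^ kr' := by
    rw [← EA.xw_smul, ← EA.xw_smul, ← EA.xw_add]
    congr 1
    funext u
    have h10 := h5 (2 * n) hN2 L (EA.lsum hs hnm) u
    unfold WT
    rw [← h10, Nat.mul_div_cancel_left _ (by omega : 0 < 2 * n)]
  rw [hWT] at hβx
  have hXβ : X (span {β}) ≠ 1 := by
    intro h10
    rw [hX1 _ hcopX, hΨβ] at h10
    by_cases hrP : r ∈ P
    · obtain ⟨h', hh⟩ := hκr hrP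
      have h11 : ∏ p ∈ P, (conj (κp p (span {β}))) ^ kk p = ((ω h'.unit : Circle) : ℂ) ^ kr' := by
        rw [Finset.prod_eq_single r]
        · rw [hkr', if_pos hrP]
          congr 1
          have h12 : κp r (span {β}) = ((ω h'.unit : Circle) : ℂ)⁻¹ := eq_inv_of_mul_eq_one_left hh
          rw [h12, ← Circle.coe_inv, Circle.coe_inv_eq_conj, Complex.conj_conj]
        · intro p hp hpr
          rw [hκβ p hp hpr, map_one, one_pow]
        · intro h12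
          exact absurd hrP h12
      rw [h11, ← Circle.coe_pow, ← Circle.coe_pow, ← Circle.coe_mul, ← map_pow, ← map_pow,
        ← map_mul] at h10
      have h12 : ω (hu.unit ^ N0 * h'.unit ^ kr') = 1 := Circle.ext h10
      have h13 : hu.unit ^ N0 * h'.unit ^ kr' = 1 := hω (by rw [h12, map_one])
      apply hβx
      have h14 := congrArg Units.val h13
      rw [Units.val_mul, Units.val_pow_eq_pow_val, Units.val_pow_eq_pow_val, IsUnit.unit_spec,
        IsUnit.unit_spec, Units.val_one, EA.mon_xw] at h14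
      rw [map_mul, map_pow, map_pow]
      exact h14
    · have h11 : ∏ p ∈ P, (conj (κp p (span {β}))) ^ kk p = 1 := by
        refine Finset.prod_eq_one fun p hp => ?_
        rw [hκβ p hp (fun h12 => hrP (h12 ▸ hp)), map_one, one_pow]
      rw [h11, mul_one, ← Circle.coe_pow, ← map_pow] at h10
      have h12 : ω (hu.unit ^ N0) = 1 := Circle.ext h10
      have h13 : hu.unit ^ N0 = 1 := hω (by rw [h12, map_one])
      apply hβx
      have h14 := congrArg Units.val h13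
      rw [Units.val_pow_eq_pow_val, IsUnit.unit_spec, Units.val_one, EA.mon_xw] at h14
      have h15 : kr' = 0 := by rw [hkr', if_neg hrP]
      rw [h15, pow_zero, mul_one, map_pow]
      exact h14
  -- the modulus of the norms
  set M : ℕ := 2 * n * w * r ^ (v + 1) with hM
  have hM0 : 0 < M := Nat.mul_pos (Nat.mul_pos (by omega) hw0) (pow_pos hr.pos _)
  have hnwMb : 2 * n * w ∣ Mb := ⟨2 * n * Q, by rw [hMb]; ring⟩
  have hrnw : ¬ r ∣ 2 * n * w := fun h10 => hrMb (h10.trans hnwMb)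
  have hcopM : IsCoprime (span {β}) (span {((M : ℕ) : 𝓞 K)}) := by
    rw [hM, hmk]
    refine IsCoprime.mul_right (hcopx _ hnwMb) ?_
    rw [Nat.cast_pow, ← Ideal.span_singleton_pow]
    exact IsCoprime.pow_right hβr
  have hnM : 2 * n ∣ M := by rw [hM, mul_assoc]; exact Dvd.intro _ rfl
  have hM1M : M1 ∣ M := by
    rw [hM1w, hM]
    exact ⟨2 * n * r, by ring⟩
  have hPM0 : absNorm (span {β}) = (Algebra.norm ℤ β).natAbs := Ideal.absNorm_span_singleton β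
  have hnormM : ((absNorm (span {β}) : ℕ) : ZMod M) = 1 := by
    have e1 : ((absNorm (span {β}) : ℕ) : ZMod M) = ((Algebra.norm ℤ β : ℤ) : ZMod M) := by
      rw [hPM0, ← Int.cast_natCast, Int.natAbs_of_nonneg (hnn β)]
    have e2 : ((2 * n * w : ℕ) : ℤ) ∣ Algebra.norm ℤ β - 1 := by
      apply asm_int_dvd (2 * n) (K := K)
      have h6 := HD.xw_cong (m := 2 * n) (W := fun _ => 1) (N := ((2 * n * w : ℕ) : 𝓞 K))
        (fun u => map_natCast _ _) (Ideal.mem_span_singleton.mp (hsub _ hnwMb))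
      have h7 : xw (2 * n) K (fun _ => 1) β = ((Algebra.norm ℤ β : ℤ) : 𝓞 K) := by
        rw [HD.norm_prod (2 * n) K β]
        unfold xw
        exact Fintype.prod_equiv (Equiv.inv _) _ _ fun u => pow_one _
      rw [h7] at h6
      push_cast at h6 ⊢
      exact h6
    have e3 : ((r ^ (v + 1) : ℕ) : ℤ) ∣ Algebra.norm ℤ β - 1 := by
      rw [← ZMod.intCast_zmod_eq_zero_iff_dvd]
      push_cast
      rw [hβN, sub_self]
    have e4 : ((M : ℕ) : ℤ) ∣ Algebra.norm ℤ β - 1 := by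
      rw [hM, Nat.cast_mul]
      refine IsCoprime.mul_dvd ?_ e2 e3
      rw [Nat.isCoprime_iff_coprime]
      exact (((Nat.Prime.coprime_iff_not_dvd hr).mpr hrnw).symm).pow_right _
    rw [e1]
    rw [← ZMod.intCast_zmod_eq_zero_iff_dvd] at e4
    push_cast at e4
    exact sub_eq_zero.mp e4
  obtain ⟨𝔭, h𝔭, h𝔭prime, h𝔭B, h𝔭M, h𝔭cop, hX𝔭⟩ := h0 (2 * n) K hnn X _ hX M hM0 hnM β hβ0 hcopX
    hcopM hnormM hXβ (B + ∑ p ∈ P, p)
  apply hX𝔭
  -- the residue field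
  have h𝔭0 : 𝔭 ≠ ⊥ := by
    rintro rfl
    rw [Ideal.absNorm_bot] at h𝔭prime
    exact Nat.not_prime_zero h𝔭prime
  have h𝔭max : 𝔭.IsMaximal := h𝔭.isMaximal h𝔭0
  let _ : Field (𝓞 K ⧸ 𝔭) := Ideal.Quotient.field 𝔭
  have hfin𝔭 : Finite (𝓞 K ⧸ 𝔭) := Ideal.finiteQuotientOfFreeOfNeBot 𝔭 h𝔭0
  let _ : Fintype (𝓞 K ⧸ 𝔭) := Fintype.ofFinite _
  have hcardF : Fintype.card (𝓞 K ⧸ 𝔭) = absNorm 𝔭 := by
    rw [Ideal.absNorm_apply, Submodule.cardQuot_apply, Nat.card_eq_fintype_card]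
  have hcardp : (Fintype.card (𝓞 K ⧸ 𝔭)).Prime := by rw [hcardF]; exact h𝔭prime
  have hx0 : ∀ x : ℕ, IsCoprime 𝔭 (span {((x : ℕ) : 𝓞 K)}) → ((x : ℕ) : 𝓞 K ⧸ 𝔭) ≠ 0 := by
    intro x hx h6
    have h7 : ((x : ℕ) : 𝓞 K) ∈ 𝔭 := by
      rw [← Ideal.Quotient.eq_zero_iff_mem, map_natCast]
      exact h6
    have h8 : 𝔭 ⊔ span {((x : ℕ) : 𝓞 K)} = ⊤ := Ideal.isCoprime_iff_sup_eq.mp hx
    have h9 : span {((x : ℕ) : 𝓞 K)} ≤ 𝔭 := (Ideal.span_singleton_le_iff_mem _).2 h7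
    rw [sup_eq_left.mpr h9] at h8
    exact h𝔭.ne_top h8
  rw [IsCoprime.mul_right_iff, IsCoprime.prod_right_iff] at h𝔭cop
  obtain ⟨hc0, hc1⟩ := h𝔭cop
  have hNF : ((2 * n : ℕ) : 𝓞 K ⧸ 𝔭) ≠ 0 := by
    apply hx0
    rw [hmk, Nat.cast_pow, ← Ideal.span_singleton_pow] at hc0
    exact (IsCoprime.pow_right_iff (by norm_num : 0 < 2)).1 (IsCoprime.mul_right_iff.1 hc0).1
  have hpF : ∀ p ∈ P, ((p : ℕ) : 𝓞 K ⧸ 𝔭) ≠ 0 := by
    intro p hp h6
    let ee : ZMod (absNorm 𝔭) ≃+* (𝓞 K ⧸ 𝔭) := ZMod.ringEquivOfPrime _ h𝔭prime hcardF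
    have h7 : ee ((p : ℕ) : ZMod (absNorm 𝔭)) = 0 := by rw [map_natCast]; exact h6
    have h8 : ((p : ℕ) : ZMod (absNorm 𝔭)) = 0 := by
      rw [← map_zero ee] at h7
      exact ee.injective h7
    rw [ZMod.natCast_eq_zero_iff] at h8
    have h9 := Nat.le_of_dvd (hP p hp).pos h8
    have h10 : p ≤ ∑ p ∈ P, p := Finset.single_le_sum (f := fun p => p) (fun _ _ => Nat.zero_le _) hp
    omega
  obtain ⟨χ, hord, -, hfam⟩ := h3 (2 * n) K hN2 (𝓞 K ⧸ 𝔭) (Ideal.Quotient.mk 𝔭)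
    Ideal.Quotient.mk_surjective hcardp hNF
  have hfam' : Fam (n := 2 * n) 𝔭 (yj χ) := by rw [Ideal.mk_ker] at hfam; exact hfam
  obtain ⟨ψ, hψ⟩ := asm_psi (F := 𝓞 K ⧸ 𝔭) hcardp
  have hrel := EA.rel (n := n) (K := K) h4 hN2 hs hnm hord hτ φr hpF κ hψ (r := r) (a := a) (b := b)
    (fun χ1 hχ1 => hE1 (absNorm 𝔭) (by omega) h𝔭prime (h𝔭M.of_dvd hM1M) (𝓞 K ⧸ 𝔭) hcardF χ1 ψ
      hχ1 hψ)
  obtain ⟨hu2, hΨ2⟩ := hΨ1 𝔭 (yj χ) hc0 hfam'
  have hg : ∀ p : ℕ, ∃ g : (𝓞 K ⧸ R)ˣ, p ∈ P →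
      (g : 𝓞 K ⧸ R) = Ideal.Quotient.mk R ((χ ^ (2 * b)) ((p : ℕ) : 𝓞 K ⧸ 𝔭)) ∧
      κp p 𝔭 = (ω g : ℂ) ^ up p := by
    intro p
    by_cases hp : p ∈ P
    · obtain ⟨hh, hh2⟩ := (hkum p hp).2.2.2.1 (𝓞 K ⧸ 𝔭) (Ideal.Quotient.mk 𝔭)
        Ideal.Quotient.mk_surjective hcardp (hx0 _ (hc1 p hp)) (hpF p hp) χ hord hfam
      rw [Ideal.mk_ker] at hh2
      exact ⟨hh.unit, fun _ => ⟨IsUnit.unit_spec hh, hh2⟩⟩
    · exact ⟨1, fun h => absurd h hp⟩
  choose g hg using hg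
  have hunit : hu2.unit ^ (r ^ a * b) = ∏ p ∈ P, g p ^ (r ^ a * κ p) := by
    apply Units.ext
    rw [Units.val_pow_eq_pow_val, IsUnit.unit_spec, Units.coe_prod, ← map_pow, hrel, map_prod]
    refine Finset.prod_congr rfl fun p hp => ?_
    rw [map_pow, Units.val_pow_eq_pow_val, (hg p hp).1]
  have hcirc : ω hu2.unit ^ N0 = ∏ p ∈ P, ω (g p) ^ (up p * kk p) := by
    have h10 := congrArg ω hunit
    rw [map_pow, map_prod] at h10
    rw [hN0, pow_mul, h10, ← Finset.prod_pow]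
    refine Finset.prod_congr rfl fun p hp => ?_
    rw [map_pow, ← pow_mul]
    congr 1
    obtain ⟨c, hc⟩ := hup p hp
    have hup0 : 0 < up p := (hkum p hp).2.1.pos
    rw [hkk]
    simp only
    rw [hc, Nat.mul_div_cancel_left _ hup0]
    ring
  have hc𝔭 : IsCoprime 𝔭 (span {(((2 * n) ^ 2 * r : ℕ) : 𝓞 K)} *
      ∏ p ∈ P, span {((Mp p : ℕ) : 𝓞 K)}) :=
    IsCoprime.mul_right hc0 (IsCoprime.prod_right hc1)
  rw [hX1 𝔭 hc𝔭, hΨ2]
  have h11 : ∏ p ∈ P, (conj (κp p 𝔭)) ^ kk p =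
      (((∏ p ∈ P, ω (g p) ^ (up p * kk p))⁻¹ : Circle) : ℂ) := by
    rw [← Finset.prod_inv_distrib]
    have h12 : ∀ (T : Finset ℕ) (c : ℕ → Circle), ((∏ p ∈ T, c p : Circle) : ℂ) =
        ∏ p ∈ T, ((c p : Circle) : ℂ) := fun T c => map_prod Circle.coeHom c T
    rw [h12]
    refine Finset.prod_congr rfl fun p hp => ?_
    rw [(hg p hp).2, map_pow, ← pow_mul, ← Circle.coe_inv_eq_conj, ← Circle.coe_pow, inv_pow]
  rw [h11, ← Circle.coe_pow, hcirc, ← Circle.coe_mul, mul_inv_cancel]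
  rfl

end Pool.Agent.NH35.HE
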