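import Pool.Agent.NH35.HE.StmF
import Pool.Agent.NH35.HG.Fb

/-! The choice of the element `β` (S_beta). -/

set_option autoImplicit false
set_option linter.unusedSectionVars false

namespace Pool.Agent.NH35.HE

open Finset NumberField Ideal IsCyclotomicExtension
open Pool.Agent.NH35.HD (sa xw iw zt sa_mul sa_one sa_zt sa_inv sa_inv' mem_map_sa map_map_sa
  map_sa_one norm_prod xw_mul xw_one zt_prim)
open Pool.Agent.NH35.HG (EW)

/-- **(N11)** the choice of the element `β`. -/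
theorem beta : S_beta := by
  intro n _ K _ _ _ hn2 r f hr hrn hf R hRp hrR W t t' hW M A hM hrM hA
  classical
  have hR0 := HG.Fb.Rne hr R hrR
  have hRm : R.IsMaximal := hRp.isMaximal hR0
  have hcop : r.Coprime n := (Nat.Prime.coprime_iff_not_dvd hr).2 hrn
  obtain ⟨ru, hru⟩ : ∃ ru : (ZMod n)ˣ, (ru : ZMod n) = (r : ZMod n) :=
    ⟨ZMod.unitOfCoprime r hcop, ZMod.coe_unitOfCoprime r hcop⟩
  have hfo : f = orderOf ru := by rw [hf, ← hru, orderOf_units]
  have hchar := HG.Fb.charR hr R hrR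
  let _ : Field (𝓞 K ⧸ R) := Ideal.Quotient.field R
  have hfin : Finite (𝓞 K ⧸ R) := Ring.HasFiniteQuotients.finiteQuotient hR0
  obtain ⟨g, hg⟩ := IsCyclic.exists_generator (α := (𝓞 K ⧸ R)ˣ)
  have hog : orderOf g = r ^ f - 1 := by
    rw [orderOf_eq_card_of_forall_mem_zpowers hg, Nat.card_units, HG.Fb.cardR hr R hrR hrn, ← hf]
  have key : ∀ (s : (ZMod n)ˣ) (c : 𝓞 K), ∃ β : 𝓞 K, β - 1 ∈ span {(M : 𝓞 K)} ∧
      ∀ V : (ZMod n)ˣ → ℕ, Ideal.Quotient.mk R (xw n K V β) =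
        Ideal.Quotient.mk R c ^ HG.Fb.ex r f ru V s := by
    intro s c
    obtain ⟨β, h1, h2, h3⟩ := HG.Fb.crt R hRm (univ.filter fun u => s⁻¹ * u ∉ Subgroup.zpowers ru) s
      (M := span {(M : 𝓞 K)}) (by
        intro u hu h
        rw [Finset.mem_filter] at hu
        apply hu.2
        apply HG.Fb.stabR hr R hrR hrn ru hru
        rw [← map_map_sa, h, map_map_sa, inv_mul_cancel, map_sa_one]) (by
        have h4 : (R.map (sa n K s)).IsMaximal := Ideal.map_isMaximal_of_equiv (sa n K s)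
        rw [Ideal.isCoprime_iff_sup_eq]
        by_contra hne
        have h5 := h4.eq_of_le hne le_sup_left
        have h6 : (M : 𝓞 K) ∈ R.map (sa n K s) := by
          rw [h5]
          exact Ideal.mem_sup_right (Ideal.mem_span_singleton_self _)
        rw [mem_map_sa, map_natCast] at h6
        have h7 := (Nat.isCoprime_iff_coprime.2 ((Nat.Prime.coprime_iff_not_dvd hr).2 hrM))
        obtain ⟨x, y, hxy⟩ := h7
        apply hRp.ne_top
        rw [Ideal.eq_top_iff_one]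
        have h8 := congrArg (Int.cast : ℤ → 𝓞 K) hxy
        push_cast at h8
        rw [← h8]
        exact Ideal.add_mem _ (Ideal.mul_mem_left _ _ hrR) (Ideal.mul_mem_left _ _ h6)) c
    refine ⟨β, h1, fun V => ?_⟩
    exact HG.Fb.val hr R hrR ru hru hfo s h2 (fun u hu => h3 u (by
      rw [Finset.mem_filter]; exact ⟨Finset.mem_univ _, hu⟩)) V
  obtain ⟨a, ha⟩ := Ideal.Quotient.mk_surjective (g : 𝓞 K ⧸ R)
  obtain ⟨b, hb⟩ := Ideal.Quotient.mk_surjective ((g⁻¹ : (𝓞 K ⧸ R)ˣ) : 𝓞 K ⧸ R)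
  obtain ⟨β1, h11, h12⟩ := key t a
  obtain ⟨β2, h21, h22⟩ := key t' b
  set β0 : 𝓞 K := β1 * β2 with hβ0
  have hval : ∀ V : (ZMod n)ˣ → ℕ, Ideal.Quotient.mk R (xw n K V β0) =
      ((g ^ ((HG.Fb.ex r f ru V t : ℤ) - (HG.Fb.ex r f ru V t' : ℤ)) : (𝓞 K ⧸ R)ˣ) : 𝓞 K ⧸ R) := by
    intro V
    rw [hβ0, xw_mul, map_mul, h12, h22, ha, hb, zpow_sub, zpow_natCast, zpow_natCast,
      Units.val_mul, Units.val_pow_eq_pow_val, ← inv_pow, Units.val_pow_eq_pow_val]
  have hnorm : (r : ℤ) ∣ Algebra.norm ℤ β0 - 1 := by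
    have h1 := congrArg (Ideal.Quotient.mk R) (HG.Fb.norm_xw (n := n) β0)
    rw [hval] at h1
    have h2 : HG.Fb.ex r f ru (fun _ => 1) t = HG.Fb.ex r f ru (fun _ => 1) t' := rfl
    rw [h2, sub_self, zpow_zero, Units.val_one, map_intCast] at h1
    rw [← CharP.intCast_eq_zero_iff (𝓞 K ⧸ R) r]
    push_cast
    rw [h1, sub_self]
  have hM0 : β0 - 1 ∈ span {(M : 𝓞 K)} := by
    have e : β0 - 1 = (β1 - 1) * β2 + (β2 - 1) := by rw [hβ0]; ring
    rw [e]
    exact Ideal.add_mem _ (Ideal.mul_mem_right _ _ h11) h21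
  have hnA : (r : ℤ) ^ A ∣ Algebra.norm ℤ (β0 ^ (r ^ (A - 1))) - 1 := by
    have h1 := dvd_sub_pow_of_dvd_sub hnorm (A - 1)
    rw [Nat.sub_add_cancel hA, one_pow, ← map_pow] at h1
    exact h1
  have hr1 : (r : ℤ) ∣ Algebra.norm ℤ (β0 ^ (r ^ (A - 1))) - 1 :=
    (dvd_pow_self _ hA.ne').trans hnA
  set β : 𝓞 K := β0 ^ (r ^ (A - 1)) with hβ
  refine ⟨β, ?_, ?_, ?_, ?_, ?_⟩
  · intro h0
    rw [h0, Algebra.norm_zero, zero_sub, Int.dvd_neg] at hr1
    exact hr.one_lt.ne' (by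
      have := Int.natAbs_dvd_natAbs.2 hr1
      simpa using this)
  · have h1 : β0 - 1 ∣ β - 1 := by simpa using sub_dvd_pow_sub_pow β0 1 (r ^ (A - 1))
    obtain ⟨z, hz⟩ := h1
    rw [hz]
    exact Ideal.mul_mem_right _ _ hM0
  · have h1 : ((Algebra.norm ℤ β - 1 : ℤ) : ZMod (r ^ A)) = 0 := by
      rw [ZMod.intCast_zmod_eq_zero_iff_dvd]
      push_cast
      exact hnA
    push_cast at h1
    exact sub_eq_zero.1 h1
  · rw [Ideal.isCoprime_iff_exists]
    obtain ⟨z, hz⟩ := hr1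
    refine ⟨((Algebra.norm ℤ β : ℤ) : 𝓞 K), ?_, -((r : 𝓞 K) * (z : 𝓞 K)), ?_, ?_⟩
    · rw [Ideal.mem_span_singleton, norm_prod n K β]
      have h1 : sa n K 1 β ∣ ∏ u : (ZMod n)ˣ, sa n K u β := Finset.dvd_prod_of_mem _ (mem_univ _)
      rwa [sa_one] at h1
    · exact neg_mem (Ideal.mul_mem_right _ _ (Ideal.mem_span_singleton_self _))
    · have h1 := congrArg (Int.cast : ℤ → 𝓞 K) hz
      push_cast at h1
      rw [← h1]
      ring
  · rw [hβ, HG.Fb.xw_pow', map_pow, hval]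
    intro h
    have : Fact r.Prime := ⟨hr⟩
    have h1 := Pool.Agent.H916K.pow_one_of_char (q := r) h
    rw [← Units.val_one, Units.val_inj] at h1
    have h2 := orderOf_dvd_iff_zpow_eq_one.2 h1
    rw [hog] at h2
    apply hW
    have e1 : ((r ^ f - 1 : ℕ) : ℤ) = (r : ℤ) ^ f - 1 := by
      rw [Nat.cast_sub (Nat.one_le_pow _ _ hr.pos)]
      push_cast
      rfl
    have e2 : ∀ s : (ZMod n)ˣ, EW n r f W s = (HG.Fb.ex r f ru (fun u => W u) s : ℤ) := by
      intro s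
      unfold EW HG.Fb.ex
      push_cast
      refine Finset.sum_congr rfl fun j _ => ?_
      rw [hru]
    rw [e1] at h2
    rw [e2, e2]
    exact h2

end Pool.Agent.NH35.HE
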