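import Pool.Agent.NH35.HE.StmC

/-! The combinatorial core for degrees divisible by four: reduction to the levels `4`, `4 * r` and
`4 * q * r`. -/

set_option autoImplicit false

namespace Pool.Agent.NH35.HE

open Finset Pool.Agent.H916R2

private lemma c4_four {x : ZMod 4 → ℤ} (hx : Rel x) {Q : Type} [AddCommGroup Q] {c : ZMod 4 → Q}
    (hc : OddDist c) : ∑ b, x b • c b = 0 := by
  have e0 : c 0 = 0 := hc.half 0 (by decide)
  have e2 : c 2 = 0 := hc.half 2 (by decide)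
  have e3 : c 3 = - c 1 := by
    have := hc.neg 1
    rwa [show (-1 : ZMod 4) = 3 by decide] at this
  have hr := hx 1
  have s : ∀ f : ZMod 4 → ℤ, ∑ b, f b = f 0 + f 1 + f 2 + f 3 := fun f => Fin.sum_univ_four f
  have s' : ∑ b, x b • c b = x 0 • c 0 + x 1 • c 1 + x 2 • c 2 + x 3 • c 3 :=
    Fin.sum_univ_four fun b => x b • c b
  rw [s] at hr
  simp only [Units.val_one, one_mul] at hr
  have a0 : saw (0 : ZMod 4) = 0 := by decide
  have a1 : saw (1 : ZMod 4) = -2 := by decide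
  have a2 : saw (2 : ZMod 4) = 0 := by decide
  have a3 : saw (3 : ZMod 4) = 2 := by decide
  rw [a0, a1, a2, a3] at hr
  have h13 : x 1 = x 3 := by linarith
  rw [s', e0, e2, e3, h13, smul_zero, smul_zero, smul_neg]
  abel

private lemma c4_dvd_four {l : ℕ} (hl : l.Prime) {e : ℕ} (h : l ∣ 2 ^ e) : l = 2 :=
  (Nat.prime_dvd_prime_iff_eq hl Nat.prime_two).1 (hl.dvd_of_dvd_pow h)

private lemma c4_zero (h0 : S_red) {e m : ℕ} [NeZero m] (he : 2 ≤ e) (hm : 2 ^ e = m)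
    {x : ZMod m → ℤ} (hx : Rel x) {Q : Type} [AddCommGroup Q] {c : ZMod m → Q}
    (hc : OddDist c) : ∑ b, x b • c b = 0 := by
  have hk : 2 ^ (e - 2) * 4 = m := by
    rw [← hm]
    conv_rhs => rw [show e = e - 2 + 2 by omega, pow_add]
    norm_num
  obtain ⟨x0, hx0, hs⟩ := h0 m 4 (2 ^ (e - 2)) hk (by
    intro p hp hd
    rw [← hm] at hd
    rw [c4_dvd_four hp hd]
    decide) (fun _ => dvd_rfl) x hx
  rw [hs Q c hc]
  exact c4_four hx0 (hc.comp_iota hk)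

private lemma c4_one (h0 : S_red) (h1 : S_low) (h2 : S_four1) {r e a m : ℕ} [NeZero m]
    (hr : r.Prime) (hr2 : r ≠ 2) (he : 2 ≤ e) (ha : 0 < a) (hm : 2 ^ e * r ^ a = m)
    {x : ZMod m → ℤ} (hx : Rel x) (hce : CEall m x) {Q : Type} [AddCommGroup Q] {c : ZMod m → Q}
    (hc : OddDist c) : ∑ b, x b • c b = 0 := by
  have : Fact r.Prime := ⟨hr⟩
  have : NeZero (4 * r) := ⟨Nat.mul_ne_zero (by norm_num) hr.ne_zero⟩
  have h4 : 2 ^ e = 2 ^ (e - 2) * 4 := by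
    conv_lhs => rw [show e = e - 2 + 2 by omega, pow_add]
    norm_num
  have hra : r ^ a = r ^ (a - 1) * r := by rw [← pow_succ, Nat.sub_add_cancel ha]
  have hk : (2 ^ (e - 2) * r ^ (a - 1)) * (4 * r) = m := by
    rw [← hm, h4, hra]
    ring
  have hn : ¬ r ∣ 2 ^ e := fun h => hr2 (c4_dvd_four hr h)
  obtain ⟨x0, hx0, hs⟩ := h0 m (4 * r) _ hk (by
    intro p hp hd
    rw [← hm] at hd
    rcases (Nat.Prime.dvd_mul hp).1 hd with h | h
    · rw [c4_dvd_four hp h]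
      exact Dvd.dvd.mul_right (by decide) _
    · rw [(Nat.prime_dvd_prime_iff_eq hp hr).1 (hp.dvd_of_dvd_pow h)]
      exact Dvd.intro_left _ rfl) (fun _ => Dvd.intro _ rfl) x hx
  have hm' : r ^ a * 2 ^ e = m := by rw [mul_comm]; exact hm
  have h3 : CE r 4 x0 := h1 r a (2 ^ e) 4 _ m (4 * r) hr hr2 ha hn hm' (mul_comm r 4) hk
    (by rw [h4]; exact Dvd.intro_left _ rfl) (by
      intro l hl hd
      rw [c4_dvd_four hl hd]
      decide) x x0 hs (hce r a (2 ^ e) hr hr2 ha hn hm')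
  rw [hs Q c hc]
  exact h2 r hr2 x0 hx0 h3 (hc.comp_iota hk)

private lemma c4_two (h0 : S_red) (h1 : S_low) (h3 : S_four2) {q r e a b m : ℕ} [NeZero m]
    (hq : q.Prime) (hr : r.Prime) (hq2 : q ≠ 2) (hr2 : r ≠ 2) (hqr : q ≠ r) (he : 2 ≤ e)
    (ha : 0 < a) (hb : 0 < b) (hm : 2 ^ e * (q ^ a * r ^ b) = m) {x : ZMod m → ℤ} (hx : Rel x)
    (hce : CEall m x) {Q : Type} [AddCommGroup Q] {c : ZMod m → Q}
    (hc : OddDist c) : ∑ b, x b • c b = 0 := by
  have : Fact q.Prime := ⟨hq⟩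
  have : Fact r.Prime := ⟨hr⟩
  have : NeZero (4 * q * r) :=
    ⟨Nat.mul_ne_zero (Nat.mul_ne_zero (by norm_num) hq.ne_zero) hr.ne_zero⟩
  have h4 : 2 ^ e = 2 ^ (e - 2) * 4 := by
    conv_lhs => rw [show e = e - 2 + 2 by omega, pow_add]
    norm_num
  have hqa : q ^ a = q ^ (a - 1) * q := by rw [← pow_succ, Nat.sub_add_cancel ha]
  have hrb : r ^ b = r ^ (b - 1) * r := by rw [← pow_succ, Nat.sub_add_cancel hb]
  have hk : (2 ^ (e - 2) * (q ^ (a - 1) * r ^ (b - 1))) * (4 * q * r) = m := by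
    rw [← hm, h4, hqa, hrb]
    ring
  have nd : ∀ l l' k : ℕ, l.Prime → l'.Prime → l ≠ 2 → l ≠ l' → ¬ l ∣ 2 ^ e * l' ^ k := by
    intro l l' k hl hl' hl2 hll h
    rcases (Nat.Prime.dvd_mul hl).1 h with h | h
    · exact hl2 (c4_dvd_four hl h)
    · exact hll ((Nat.prime_dvd_prime_iff_eq hl hl').1 (hl.dvd_of_dvd_pow h))
  have hnr := nd r q a hr hq hr2 hqr.symm
  have hnq := nd q r b hq hr hq2 hqr
  obtain ⟨x0, hx0, hs⟩ := h0 m (4 * q * r) _ hk (by
    intro p hp hd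
    rw [← hm] at hd
    rcases (Nat.Prime.dvd_mul hp).1 hd with h | h
    · rw [c4_dvd_four hp h]
      exact Dvd.dvd.mul_right (Dvd.dvd.mul_right (by decide) _) _
    · rcases (Nat.Prime.dvd_mul hp).1 h with h | h
      · rw [(Nat.prime_dvd_prime_iff_eq hp hq).1 (hp.dvd_of_dvd_pow h)]
        exact Dvd.dvd.mul_right (Dvd.intro_left _ rfl) _
      · rw [(Nat.prime_dvd_prime_iff_eq hp hr).1 (hp.dvd_of_dvd_pow h)]
        exact Dvd.intro_left _ rfl)
    (fun _ => Dvd.dvd.mul_right (Dvd.intro _ rfl) _) x hx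
  have mr : r ^ b * (2 ^ e * q ^ a) = m := by rw [← hm]; ring
  have mq : q ^ a * (2 ^ e * r ^ b) = m := by rw [← hm]; ring
  have low : ∀ l l' k : ℕ, l'.Prime → 0 < k → 4 * l' ∣ 2 ^ e * l' ^ k ∧
      ∀ p : ℕ, p.Prime → p ∣ 2 ^ e * l' ^ k → p ∣ 4 * l' := by
    intro l l' k hl' hk0
    refine ⟨Nat.mul_dvd_mul (by rw [h4]; exact Dvd.intro_left _ rfl) (dvd_pow_self l' hk0.ne'),
      fun p hp hd => ?_⟩
    rcases (Nat.Prime.dvd_mul hp).1 hd with h | h
    · rw [c4_dvd_four hp h]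
      exact Dvd.dvd.mul_right (by decide) _
    · rw [(Nat.prime_dvd_prime_iff_eq hp hl').1 (hp.dvd_of_dvd_pow h)]
      exact Dvd.intro_left _ rfl
  have c1 : CE r (4 * q) x0 := h1 r b (2 ^ e * q ^ a) (4 * q) _ m (4 * q * r) hr hr2 hb hnr mr
    (by ring) hk (low r q a hq ha).1 (low r q a hq ha).2 x x0 hs
    (hce r b _ hr hr2 hb hnr mr)
  have c2 : CE q (4 * r) x0 := h1 q a (2 ^ e * r ^ b) (4 * r) _ m (4 * q * r) hq hq2 ha hnq mq
    (by ring) hk (low q r b hr hb).1 (low q r b hr hb).2 x x0 hs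
    (hce q a _ hq hq2 ha hnq mq)
  rw [hs Q c hc]
  exact h3 q r hq2 hr2 hqr x0 hx0 c1 c2 (hc.comp_iota hk)

/-- (C8) the combinatorial core -/
theorem core4_of (h0 : S_red) (h1 : S_low) (h2 : S_four1) (h3 : S_four2) : S_core4 := by
  intro m _ h4 hcard x hx hce Q _ c hc
  have hm0 : m ≠ 0 := NeZero.ne m
  have hfac : ∏ p ∈ m.primeFactors, p ^ m.factorization p = m :=
    Nat.prod_factorization_pow_eq_self hm0
  have h2m : 2 ∣ m := (by norm_num : 2 ∣ 4).trans h4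
  have h2mem : 2 ∈ m.primeFactors := Nat.mem_primeFactors.2 ⟨Nat.prime_two, h2m, hm0⟩
  have he : 2 ≤ m.factorization 2 :=
    (Nat.prime_two.pow_dvd_iff_le_factorization hm0).1 (by norm_num; exact h4)
  rw [← Finset.mul_prod_erase _ _ h2mem] at hfac
  have hpr : ∀ p ∈ m.primeFactors.erase 2, p.Prime ∧ p ≠ 2 ∧ 0 < m.factorization p := by
    intro p hp
    have h := Nat.prime_of_mem_primeFactors (Finset.mem_of_mem_erase hp)
    exact ⟨h, Finset.ne_of_mem_erase hp, h.factorization_pos_of_dvd hm0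
      (Nat.dvd_of_mem_primeFactors (Finset.mem_of_mem_erase hp))⟩
  obtain h | h | h : (m.primeFactors.erase 2).card = 0 ∨ (m.primeFactors.erase 2).card = 1 ∨
      (m.primeFactors.erase 2).card = 2 := by omega
  · rw [Finset.card_eq_zero] at h
    rw [h, Finset.prod_empty, mul_one] at hfac
    exact c4_zero h0 he hfac hx hc
  · obtain ⟨p, hp⟩ := Finset.card_eq_one.1 h
    rw [hp, Finset.prod_singleton] at hfac
    obtain ⟨p1, p2, p3⟩ := hpr p (by rw [hp]; simp)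
    exact c4_one h0 h1 h2 p1 p2 he p3 hfac hx hce hc
  · obtain ⟨p, q, hpq, hp⟩ := Finset.card_eq_two.1 h
    rw [hp, Finset.prod_pair hpq] at hfac
    obtain ⟨p1, p2, p3⟩ := hpr p (by rw [hp]; simp)
    obtain ⟨q1, q2, q3⟩ := hpr q (by rw [hp]; simp)
    exact c4_two h0 h1 h3 p1 q1 p2 q2 hpq he p3 q3 hfac hx hce hc

end Pool.Agent.NH35.HE
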