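import Pool.Agent.NH35.HE.StmF

/-! Families with the formal properties of the normalised Jacobi sums: basic operations. -/

set_option autoImplicit false
set_option linter.unusedSectionVars false

namespace Pool.Agent.NH35.HE

open Finset NumberField Ideal
open Pool.Agent.NH35.HD (sa xw iw zt)

section
variable {n : ℕ} [NeZero n] {K : Type} [Field K] [NumberField K] [IsCyclotomicExtension {n} ℚ K]

/-- the additive characters of `ℤ / n` -/
noncomputable def fzz (n : ℕ) [NeZero n] (K : Type) [Field K] [NumberField K]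
    [IsCyclotomicExtension {n} ℚ K] (x : ZMod n) : 𝓞 K := zt n K ^ x.val

theorem fzz_add (x y : ZMod n) : fzz n K (x + y) = fzz n K x * fzz n K y := by
  unfold fzz
  rw [← pow_add, ZMod.val_add]
  exact (pow_eq_pow_mod _ (HD.zt_prim n K).pow_eq_one).symm

theorem fzz_zero : fzz n K (0 : ZMod n) = 1 := by
  unfold fzz
  rw [ZMod.val_zero, pow_zero]

theorem fzz_ne {u : ZMod n} (hu : u ≠ 0) : fzz n K u ≠ 1 := by
  unfold fzz
  exact (HD.zt_prim n K).pow_ne_one_of_pos_of_lt (by rwa [Ne, ZMod.val_eq_zero])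
    (ZMod.val_lt u)

theorem fzz_sum (u : ZMod n) :
    ∑ a : ZMod n, fzz n K (a * u) = if u = 0 then ((n : ℕ) : 𝓞 K) else 0 := by
  split_ifs with hu
  · rw [hu]
    simp only [mul_zero, fzz_zero, Finset.sum_const, Finset.card_univ, ZMod.card, nsmul_eq_mul,
      mul_one]
  · have h1 : fzz n K u * ∑ a : ZMod n, fzz n K (a * u) = ∑ a : ZMod n, fzz n K (a * u) := by
      rw [Finset.mul_sum]
      refine Fintype.sum_equiv (Equiv.addRight (1 : ZMod n)) _ _ fun a => ?_
      rw [← fzz_add, Equiv.coe_addRight]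
      congr 1
      ring
    have h2 : (fzz n K u - 1) * ∑ a : ZMod n, fzz n K (a * u) = 0 := by
      rw [sub_mul, one_mul, h1, sub_self]
    exact (mul_eq_zero.1 h2).resolve_left (sub_ne_zero.2 (fzz_ne hu))

theorem fzz_sum2 (u v : ZMod n) : ∑ a : ZMod n, ∑ b : ZMod n, fzz n K (a * u + b * v) =
    (if u = 0 then ((n : ℕ) : 𝓞 K) else 0) * (if v = 0 then ((n : ℕ) : 𝓞 K) else 0) := by
  rw [← fzz_sum (K := K) u, ← fzz_sum (K := K) v, Finset.sum_mul_sum]
  exact Finset.sum_congr rfl fun a _ => Finset.sum_congr rfl fun b _ => fzz_add _ _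

theorem fzz_dvd (u v : ZMod n) : ((n : ℕ) : 𝓞 K) ^ 2 ∣
    ∑ a : ZMod n, ∑ b : ZMod n, fzz n K (a * u + b * v) := by
  rw [fzz_sum2, sq]
  split_ifs
  · exact dvd_rfl
  · rw [mul_zero]; exact dvd_zero _
  · rw [zero_mul]; exact dvd_zero _
  · rw [zero_mul]; exact dvd_zero _

theorem fcard_ne : ((n : ℕ) : 𝓞 K) ^ 2 ≠ 0 :=
  pow_ne_zero 2 (Nat.cast_ne_zero.2 (NeZero.ne n))

/-- Fourier inversion -/
theorem finv {y G : ZMod n → ZMod n → 𝓞 K}
    (h : ∀ u v, ∑ a : ZMod n, ∑ b : ZMod n, fzz n K (a * u + b * v) * y a b =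
      ((n : ℕ) : 𝓞 K) ^ 2 * G u v) (a b : ZMod n) :
    y a b = ∑ u : ZMod n, ∑ v : ZMod n, fzz n K (-(a * u + b * v)) * G u v := by
  classical
  apply mul_left_cancel₀ (fcard_ne (n := n) (K := K))
  have h1 : ((n : ℕ) : 𝓞 K) ^ 2 * ∑ u : ZMod n, ∑ v : ZMod n, fzz n K (-(a * u + b * v)) * G u v =
      ∑ u : ZMod n, ∑ v : ZMod n, ∑ a' : ZMod n, ∑ b' : ZMod n,
        fzz n K (u * (a' - a) + v * (b' - b)) * y a' b' := by
    rw [Finset.mul_sum]
    refine Finset.sum_congr rfl fun u _ => ?_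
    rw [Finset.mul_sum]
    refine Finset.sum_congr rfl fun v _ => ?_
    rw [mul_left_comm, ← h, Finset.mul_sum]
    refine Finset.sum_congr rfl fun a' _ => ?_
    rw [Finset.mul_sum]
    refine Finset.sum_congr rfl fun b' _ => ?_
    rw [← mul_assoc, ← fzz_add]
    congr 2
    ring
  rw [h1]
  have h2 : ∑ u : ZMod n, ∑ v : ZMod n, ∑ a' : ZMod n, ∑ b' : ZMod n,
        fzz n K (u * (a' - a) + v * (b' - b)) * y a' b' =
      ∑ a' : ZMod n, ∑ b' : ZMod n, (∑ u : ZMod n, ∑ v : ZMod n,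
        fzz n K (u * (a' - a) + v * (b' - b))) * y a' b' := by
    simp only [Finset.sum_mul]
    have e1 : ∀ u : ZMod n, ∑ v : ZMod n, ∑ a' : ZMod n, ∑ b' : ZMod n,
        fzz n K (u * (a' - a) + v * (b' - b)) * y a' b' =
        ∑ a' : ZMod n, ∑ b' : ZMod n, ∑ v : ZMod n,
          fzz n K (u * (a' - a) + v * (b' - b)) * y a' b' := by
      intro u
      rw [Finset.sum_comm]
      exact Finset.sum_congr rfl fun a' _ => Finset.sum_comm
    rw [Finset.sum_congr rfl fun u _ => e1 u, Finset.sum_comm]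
    exact Finset.sum_congr rfl fun a' _ => Finset.sum_comm
  rw [h2]
  simp only [fzz_sum2]
  rw [Finset.sum_eq_single a, Finset.sum_eq_single b]
  · rw [sub_self, sub_self, if_pos rfl, sq]
  · intro b' _ hb'
    rw [if_neg (sub_ne_zero.2 hb'), mul_zero, zero_mul]
  · intro hb; exact absurd (Finset.mem_univ b) hb
  · intro a' _ ha'
    refine Finset.sum_eq_zero fun b' _ => ?_
    rw [if_neg (sub_ne_zero.2 ha'), zero_mul, zero_mul]
  · intro ha; exact absurd (Finset.mem_univ a) ha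

/-- the divisibility is multiplicative -/
theorem fit_mul {y y' : ZMod n → ZMod n → 𝓞 K}
    (h : ∀ u v : ZMod n, ((n : ℕ) : 𝓞 K) ^ 2 ∣
      ∑ a : ZMod n, ∑ b : ZMod n, fzz n K (a * u + b * v) * y a b)
    (h' : ∀ u v : ZMod n, ((n : ℕ) : 𝓞 K) ^ 2 ∣
      ∑ a : ZMod n, ∑ b : ZMod n, fzz n K (a * u + b * v) * y' a b) (u v : ZMod n) :
    ((n : ℕ) : 𝓞 K) ^ 2 ∣
      ∑ a : ZMod n, ∑ b : ZMod n, fzz n K (a * u + b * v) * (y a b * y' a b) := by
  choose G hG using h
  have h1 := finv (y := y) (G := G) hG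
  have h2 : ∑ a : ZMod n, ∑ b : ZMod n, fzz n K (a * u + b * v) * (y a b * y' a b) =
      ∑ u' : ZMod n, ∑ v' : ZMod n, G u' v' * ∑ a : ZMod n, ∑ b : ZMod n,
        fzz n K (a * (u - u') + b * (v - v')) * y' a b := by
    have e1 : ∀ a b : ZMod n, fzz n K (a * u + b * v) * (y a b * y' a b) =
        ∑ u' : ZMod n, ∑ v' : ZMod n, G u' v' *
          (fzz n K (a * (u - u') + b * (v - v')) * y' a b) := by
      intro a b
      rw [h1 a b, Finset.sum_mul, Finset.mul_sum]
      refine Finset.sum_congr rfl fun u' _ => ?_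
      rw [Finset.sum_mul, Finset.mul_sum]
      refine Finset.sum_congr rfl fun v' _ => ?_
      have e2 : fzz n K (a * (u - u') + b * (v - v')) =
          fzz n K (a * u + b * v) * fzz n K (-(a * u' + b * v')) := by
        rw [← fzz_add]
        congr 1
        ring
      rw [e2]
      ring
    simp only [e1, Finset.mul_sum]
    have e3 : ∀ a : ZMod n, ∑ b : ZMod n, ∑ u' : ZMod n, ∑ v' : ZMod n, G u' v' *
          (fzz n K (a * (u - u') + b * (v - v')) * y' a b) =
        ∑ u' : ZMod n, ∑ v' : ZMod n, ∑ b : ZMod n, G u' v' *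
          (fzz n K (a * (u - u') + b * (v - v')) * y' a b) := by
      intro a
      rw [Finset.sum_comm]
      exact Finset.sum_congr rfl fun u' _ => Finset.sum_comm
    rw [Finset.sum_congr rfl fun a _ => e3 a, Finset.sum_comm]
    exact Finset.sum_congr rfl fun u' _ => Finset.sum_comm
  rw [h2]
  exact Finset.dvd_sum fun u' _ => Finset.dvd_sum fun v' _ => (h' _ _).mul_left _

/-- the unit ideal -/
theorem fam_top : Fam (n := n) (⊤ : Ideal (𝓞 K)) (fun _ _ => 1) := by
  refine ⟨fun _ => rfl, fun a _ => ?_, fun a b => ?_, fun a b => ?_, fun t a b => map_one _,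
    fun u v => ?_⟩
  · rw [Ideal.absNorm_top, Nat.cast_one]
  · rw [← Ideal.span_singleton_one, HD.iw_span, HD.xw_one]
  · rw [map_one, Ideal.absNorm_top, Nat.cast_one, one_pow, one_mul]
  · simp only [mul_one]
    exact fzz_dvd u v

theorem fam_mul {I I' : Ideal (𝓞 K)} {y y' : ZMod n → ZMod n → 𝓞 K} (h : Fam I y)
    (h' : Fam I' y') : Fam (I * I') (fun a b => y a b * y' a b) := by
  refine ⟨fun b => ?_, fun a ha => ?_, fun a b => ?_, fun a b => ?_, fun t a b => ?_,
    fit_mul h.it h'.it⟩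
  · show y 0 b * y' 0 b = 1
    rw [h.zl, h'.zl, one_mul]
  · show y a 0 * y' a 0 = _
    rw [h.zr a ha, h'.zr a ha, map_mul, Nat.cast_mul]
  · rw [HD.iw_mul, ← h.sp, ← h'.sp, Ideal.span_singleton_mul_span_singleton]
  · show y a b * y' a b * sa n K (-1) (y a b * y' a b) = _
    rw [map_mul, map_mul]
    push_cast
    rw [mul_pow, ← h.nm, ← h'.nm]
    ring
  · show sa n K t (y a b * y' a b) = _
    rw [map_mul, h.ga, h'.ga]

theorem fnorm_nonneg (hn : 2 < n) (α : 𝓞 K) : 0 ≤ Algebra.norm ℤ α := by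
  refine HD.norm_nonneg (m := n) (W := fun t => if 2 * (t : ZMod n).val < n then 1 else 0) ?_ α
  intro t
  have ht0 : (t : ZMod n) ≠ 0 := by
    have : Fact (1 < n) := ⟨by omega⟩
    exact t.ne_zero
  have h1 : ((-t : (ZMod n)ˣ) : ZMod n).val = n - (t : ZMod n).val := by
    have : NeZero (t : ZMod n) := ⟨ht0⟩
    rw [Units.val_neg, ZMod.val_neg_of_ne_zero]
  have h2 : 2 * (t : ZMod n).val ≠ n := by
    intro h
    have h3 : Nat.Coprime (t : ZMod n).val n := ZMod.val_coe_unit_coprime t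
    have h4 : (t : ZMod n).val ∣ n := ⟨2, by omega⟩
    have h5 := Nat.Coprime.eq_one_of_dvd h3 h4
    omega
  have h3 := ZMod.val_lt (t : ZMod n)
  have h4 : (t : ZMod n).val ≠ 0 := by rwa [Ne, ZMod.val_eq_zero]
  show (if 2 * (t : ZMod n).val < n then 1 else 0) +
    (if 2 * ((-t : (ZMod n)ˣ) : ZMod n).val < n then 1 else 0) = 1
  rw [h1]
  split_ifs <;> omega

theorem fWW_add (a b : ZMod n) (t : (ZMod n)ˣ) :
    WW a b t + WW a b (-t) = cc a b := by
  unfold WW cc
  by_cases hb : b = 0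
  · by_cases ha : a = 0
    · simp [ha, hb]
    · simp [ha, hb]
  · rw [if_neg hb, if_neg hb, if_neg hb]
    by_cases hc : a = 0 ∨ a + b = 0
    · rw [if_pos hc, if_pos hc, if_pos hc]
    · rw [if_neg hc, if_neg hc, if_neg hc]
      push Not at hc
      exact HG.jw_add hc.1 hb hc.2 t

theorem fWW_mul (a b : ZMod n) (s t : (ZMod n)ˣ) :
    WW a b (s * t) = WW ((s : ZMod n) * a) ((s : ZMod n) * b) t := by
  unfold WW
  have h1 : ∀ c : ZMod n, (s : ZMod n) * c = 0 ↔ c = 0 := fun c => Units.mul_right_eq_zero s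
  have h2 : (s : ZMod n) * a + (s : ZMod n) * b = 0 ↔ a + b = 0 := by
    rw [← mul_add]; exact h1 _
  have h3 : ∀ c : ZMod n, c * ((s * t : (ZMod n)ˣ) : ZMod n) = (s : ZMod n) * c * (t : ZMod n) := by
    intro c
    rw [Units.val_mul]
    ring
  simp only [h1, h2, h3]

theorem fabs (hn : 2 < n) (α : 𝓞 K) :
    ((absNorm (span {α}) : ℕ) : 𝓞 K) = ((Algebra.norm ℤ α : ℤ) : 𝓞 K) := by
  rw [Ideal.absNorm_span_singleton]
  have h7 : (((Algebra.norm ℤ α).natAbs : ℕ) : 𝓞 K) =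
      ((((Algebra.norm ℤ α).natAbs : ℕ) : ℤ) : 𝓞 K) := by
    simp
  rw [h7, Int.natAbs_of_nonneg (fnorm_nonneg hn α)]

theorem fam_prin (hn : 2 < n) {α : 𝓞 K}
    (h1 : α - 1 ∈ span {((n : ℕ) : 𝓞 K) ^ 2}) :
    Fam (n := n) (span {α}) (fun a b => xw n K (WW a b) α) := by
  refine ⟨fun b => ?_, fun a ha => ?_, fun a b => (HD.iw_span α).symm, fun a b => ?_,
    fun t a b => ?_, fun u v => ?_⟩
  · show xw n K (WW 0 b) α = 1
    unfold xw
    refine Finset.prod_eq_one fun t _ => ?_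
    have : WW (0 : ZMod n) b t = 0 := by
      unfold WW
      simp
    rw [this, pow_zero]
  · show xw n K (WW a 0) α = _
    rw [fabs hn, HD.norm_prod n K α]
    unfold xw
    refine Fintype.prod_equiv (Equiv.inv _) _ _ fun t => ?_
    have : WW a (0 : ZMod n) t = 1 := by
      unfold WW
      simp [ha]
    rw [this, pow_one]
    rfl
  · show xw n K (WW a b) α * sa n K (-1) (xw n K (WW a b) α) = _
    rw [HD.xw_norm (fWW_add a b), fabs hn]
  · show sa n K t (xw n K (WW a b) α) = xw n K (WW ((t : ZMod n) * a) ((t : ZMod n) * b)) α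
    unfold xw
    rw [map_prod]
    refine Fintype.prod_equiv (Equiv.mulLeft t⁻¹) _ _ fun s => ?_
    have e1 : WW a b s = WW ((t : ZMod n) * a) ((t : ZMod n) * b) (t⁻¹ * s) := by
      rw [← fWW_mul, mul_inv_cancel_left]
    have e2 : (t⁻¹ * s)⁻¹ = t * s⁻¹ := by
      rw [mul_inv_rev, inv_inv, mul_comm]
    rw [Equiv.coe_mulLeft, e2, HD.sa_mul, map_pow, ← e1]
  · have h2 : ((n : ℕ) : 𝓞 K) ^ 2 ∣ ∑ a : ZMod n, ∑ b : ZMod n,
        fzz n K (a * u + b * v) * (xw n K (WW a b) α - 1) := by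
      refine Finset.dvd_sum fun a _ => Finset.dvd_sum fun b _ => Dvd.dvd.mul_left ?_ _
      refine HD.xw_cong (fun s => ?_) (Ideal.mem_span_singleton.1 h1)
      rw [map_pow, map_natCast]
    have h3 := dvd_add h2 (fzz_dvd (K := K) u v)
    have h4 : ∑ a : ZMod n, ∑ b : ZMod n, zt n K ^ (a * u + b * v).val * xw n K (WW a b) α =
        ∑ a : ZMod n, ∑ b : ZMod n, fzz n K (a * u + b * v) * (xw n K (WW a b) α - 1) +
          ∑ a : ZMod n, ∑ b : ZMod n, fzz n K (a * u + b * v) := by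
      rw [← Finset.sum_add_distrib]
      refine Finset.sum_congr rfl fun a _ => ?_
      rw [← Finset.sum_add_distrib]
      refine Finset.sum_congr rfl fun b _ => ?_
      show fzz n K (a * u + b * v) * _ = _
      ring
    rw [h4]
    exact h3

end

/-- (N1) -/
theorem fam : S_fam := fun _ _ _ _ _ _ hn =>
  ⟨fam_top, fun _ _ _ _ h h' => fam_mul h h', fun _ _ h1 => fam_prin hn h1⟩

end Pool.Agent.NH35.HE
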