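import Pool.Agent.NH35.HE.StmF
import Pool.Agent.NH35.HG.OddM
import Pool.Agent.NH35.HE.Core

/-! The main theorem for degrees divisible by four. -/

set_option autoImplicit false
set_option linter.unusedSectionVars false

namespace Pool.Agent.NH35.HE

open Finset Pool.Agent.H916R2 Pool.Agent.H916K Pool.Agent.NH35.HG

/-- (N12), for classes which are rational over number fields of odd degree over abelian ones -/
def S_we1w : Prop := ∀ (m : ℕ), 4 ∣ m → 0 < m → ∀ s : Multiset (ZMod m × ℤ),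
  Even (Multiset.card s) → (∀ z ∈ s, z.1 ≠ 0 ∧ z.2 ≠ 0) → WeakClass m s →
  WeakE m (s.map Prod.fst)

private lemma wd_prod_neg {α R : Type} [CommRing R] (s : Multiset α) (g : α → R) :
    (s.map fun z => -g z).prod = (-1) ^ Multiset.card s * (s.map g).prod := by
  induction s using Multiset.induction_on with
  | empty => simp
  | cons a s ih =>
    rw [Multiset.map_cons, Multiset.prod_cons, ih, Multiset.card_cons, Multiset.map_cons,
      Multiset.prod_cons, pow_succ]
    ring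

/-- `-1` is an `m`-th power -/
private lemma wd_neg_one {F : Type} [Field F] [Fintype F] {ℓ m : ℕ} (hF : Fintype.card F = ℓ)
    (hℓ : 2 < ℓ) (hm : 0 < m) (hd : 2 * m ∣ ℓ - 1) {R : Type} [CommRing R] {χ : MulChar F R}
    (hχ : orderOf χ = m) : χ (-1) = 1 := by
  classical
  obtain ⟨g, hg⟩ := IsCyclic.exists_generator (α := Fˣ)
  have hord : orderOf g = ℓ - 1 := by
    rw [orderOf_eq_card_of_forall_mem_zpowers hg, Nat.card_eq_fintype_card, Fintype.card_units, hF]
  obtain ⟨k, hk⟩ := hd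
  have hk0 : 0 < k := by
    rcases Nat.eq_zero_or_pos k with h | h
    · rw [h] at hk; omega
    · exact h
  have h1 : (((g ^ k) ^ m : Fˣ) : F) ^ 2 = 1 := by
    have : ((g ^ k) ^ m) ^ 2 = 1 := by
      rw [← pow_mul, ← pow_mul, ← orderOf_dvd_iff_pow_eq_one, hord, hk]
      exact ⟨1, by ring⟩
    rw [← Units.val_pow_eq_pow_val, this, Units.val_one]
  have h2 : (((g ^ k) ^ m : Fˣ) : F) ≠ 1 := by
    intro h
    have h3 : (g ^ k) ^ m = 1 := Units.ext h
    rw [← pow_mul, ← orderOf_dvd_iff_pow_eq_one, hord, hk] at h3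
    have h4 := Nat.le_of_dvd (by positivity) h3
    have h5 : 0 < k * m := by positivity
    have h6 : 2 * m * k = 2 * (k * m) := by ring
    omega
  have h3 : (((g ^ k) ^ m : Fˣ) : F) = -1 := (sq_eq_one_iff.mp h1).resolve_left h2
  rw [← h3, Units.val_pow_eq_pow_val, map_pow]
  exact mulChar_pow_one hχ (Units.ne_zero _)

/-- a character at an integer as a product over primes -/
private lemma wd_int {F : Type} [Field F] {R : Type} [CommRing R] (χ : MulChar F R)
    (hχ : χ (-1) = 1) (P : Finset ℕ) (c : ℤ) (hc : c ≠ 0) (hP : c.natAbs.primeFactors ⊆ P) :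
    χ (c : F) = ∏ p ∈ P, χ ((p : ℕ) : F) ^ c.natAbs.factorization p := by
  have h1 : χ (c : F) = χ ((c.natAbs : ℕ) : F) := by
    rcases Int.natAbs_eq c with h | h
    · conv_lhs => rw [h]
      rw [Int.cast_natCast]
    · conv_lhs => rw [h]
      rw [Int.cast_neg, Int.cast_natCast, ← neg_one_mul, map_mul, hχ, one_mul]
  have h0 : c.natAbs ≠ 0 := Int.natAbs_ne_zero.mpr hc
  rw [h1]
  conv_lhs => rw [← Nat.prod_factorization_pow_eq_self h0]
  rw [Finsupp.prod, Nat.support_factorization, Nat.cast_prod, map_prod]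
  rw [← Finset.prod_subset hP]
  · refine Finset.prod_congr rfl fun p _ => ?_
    rw [Nat.cast_pow, map_pow]
  · intro p _ hp
    rw [← Nat.support_factorization, Finsupp.notMem_support_iff] at hp
    rw [hp, pow_zero]

private lemma wd_exch {α R : Type} [CommRing R] (s : Multiset α) (P : Finset ℕ) (x : ℕ → R)
    (v : α → ℕ → ℕ) (w : α → ℕ) :
    (s.map fun z => (∏ p ∈ P, x p ^ v z p) ^ w z).prod =
      ∏ p ∈ P, x p ^ (s.map fun z => w z * v z p).sum := by
  induction s using Multiset.induction_on with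
  | empty => simp
  | cons a s ih =>
    rw [Multiset.map_cons, Multiset.prod_cons, ih, ← Finset.prod_pow, ← Finset.prod_mul_distrib]
    refine Finset.prod_congr rfl fun p _ => ?_
    rw [Multiset.map_cons, Multiset.sum_cons, pow_add, ← pow_mul, mul_comm (v a p)]

/-- (N12) -/
theorem we1_w : S_we1w := by
  classical
  intro m hm4 hm0 s hs hne hR
  obtain ⟨M0, N, e, mo, hM0, hme, hmo, hN⟩ := hR
  refine ⟨e, mo, M0 * (2 * m), N + 2 + (s.map fun z : ZMod m × ℤ => z.2.natAbs).sum,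
    (s.map fun z : ZMod m × ℤ => z.2.natAbs).prod.primeFactors,
    fun p => (s.map fun z : ZMod m × ℤ => z.1.val * z.2.natAbs.factorization p).sum, hme, hmo,
    by positivity,
    fun p hp => Nat.prime_of_mem_primeFactors hp, ?_⟩
  intro ℓ hℓN hℓ hℓM F _ _ hF χ ψ hχ hψ
  have hℓ0 : ℓ ≡ 1 [MOD M0] := Nat.ModEq.of_mul_right _ hℓM
  have hℓm : ℓ ≡ 1 [MOD (2 * m)] := Nat.ModEq.of_mul_left _ hℓM
  have : Fact ℓ.Prime := ⟨hℓ⟩
  have : CharP F ℓ := charP_of_card_eq_prime hF
  have hd : 2 * m ∣ ℓ - 1 := (Nat.modEq_iff_dvd' hℓ.one_lt.le).mp hℓm.symm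
  have hneg : χ (-1) = 1 := wd_neg_one hF (by omega) hm0 hd hχ
  have h2 := hN ℓ (by omega) hℓ hℓ0 F hF χ ψ hχ hψ
  rw [Multiset.map_map]
  have h3 : (s.map ((fun z => -gaussSum (χ ^ z.val) ψ) ∘ Prod.fst)).prod ^ mo =
      ((ℓ : ℂ) ^ (Multiset.card s / 2) * (s.map fun z => (χ ^ z.1.val) (z.2 : F)).prod) ^ mo := by
    change (s.map fun z => -gaussSum (χ ^ z.1.val) ψ).prod ^ mo = _
    rw [wd_prod_neg, hs.neg_one_pow, one_mul, h2]
  rw [h3, mul_pow, ← pow_mul, Multiset.card_map, ← Multiset.prod_map_pow]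
  congr 1
  have hnegm : (χ ^ mo) (-1) = 1 := by
    rw [mulChar_pow_apply χ mo (neg_ne_zero.mpr one_ne_zero), hneg, one_pow]
  have h4 : (s.map fun z => (χ ^ z.1.val) (z.2 : F) ^ mo) = s.map fun z =>
      (∏ p ∈ (s.map fun z : ZMod m × ℤ => z.2.natAbs).prod.primeFactors,
        (χ ^ mo) ((p : ℕ) : F) ^ z.2.natAbs.factorization p) ^ z.1.val := by
    refine Multiset.map_congr rfl fun z hz => ?_
    have hz0 : (z.2 : F) ≠ 0 := by
      apply int_cast_ne_zero (ℓ := ℓ) (hne z hz).2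
      have : z.2.natAbs ≤ (s.map fun z => z.2.natAbs).sum :=
        Multiset.single_le_sum (fun _ _ => Nat.zero_le _) _ (Multiset.mem_map_of_mem _ hz)
      omega
    rw [← wd_int (χ ^ mo) hnegm _ z.2 (hne z hz).2, mulChar_pow_apply χ _ hz0,
      mulChar_pow_apply χ _ hz0, pow_right_comm]
    apply Nat.primeFactors_mono
    · exact Multiset.dvd_prod (Multiset.mem_map_of_mem _ hz)
    · intro h0
      rw [Multiset.prod_eq_zero_iff, Multiset.mem_map] at h0
      obtain ⟨y, hy, hy0⟩ := h0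
      exact (hne y hy).2 (Int.natAbs_eq_zero.mp hy0)
  rw [h4, wd_exch]

/-- **The main theorem.** -/
theorem main4 (ho : S_odd) (h1 : S_we1w) (hA : S_thmE) (hC : S_core4) {m : ℕ} (hm2 : 2 ≤ m)
    (h4 : 4 ∣ m) (hc : (m.primeFactors.erase 2).card ≤ 2)
    {s : Multiset (ZMod m × ℤ)} (hs : s ≠ 0) (heven : Even (Multiset.card s))
    (h0 : ∀ z ∈ s, z.1 ≠ 0 ∧ z.2 ≠ 0) (hsum : (s.map Prod.fst).sum = 0)
    (hR : OddClass m s) : Generated m (fun _ => False) (s.map Prod.fst) := by
  classical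
  have hm3 : 2 < m := by
    obtain ⟨j, hj⟩ := h4
    omega
  have hW := ho m hm3 s heven h0 hsum hR
  have hH := hodge_of_weak hm2 (fun z hz => (h0 z hz).1) heven hsum (fun z hz => (h0 z hz).2) hW
  have hne : s.map Prod.fst ≠ 0 := fun h => hs (Multiset.map_eq_zero.mp h)
  have : NeZero m := ⟨by omega⟩
  have hw := h1 m h4 (by omega) s heven h0 hW
  have key : ∑ z : ZMod m, ((s.map Prod.fst).count z : ℤ) • cQ m (fun _ => False) z = 0 :=
    hC m h4 hc _ hH.rel (hA m h4 _ hsum hw) cQ_oddDist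
  rw [sum_count, cQ_sum, QuotientAddGroup.eq_zero_iff] at key
  exact generated_of_mem_LL (fun _ h => h.elim) (fun _ h => h.elim) hH.1 hH.2.1 hne key

end Pool.Agent.NH35.HE
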