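import Pool.Agent.NH35.HE.Four2A
import Pool.Agent.NH35.HG.Gs
import Pool.Agent.NH35.HG.Lev3

/-! Relations at level `4 * q * r`. -/

set_option autoImplicit false
set_option linter.unusedSectionVars false

namespace Pool.Agent.NH35.HE

open Finset Pool.Agent.H916R2 Pool.Agent.H916K
open Pool.Agent.NH35.HG (FH gauss_odd lev3_saw lev3_neg)

namespace F4

section back
variable {q r : ℕ} [hq : Fact q.Prime] [hr : Fact r.Prime]

/-- coefficients of level `4 * q * r` from coefficients in three coordinates -/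
def x4 (x' : ZMod 3 → ZMod q → ZMod r → ℤ) (a : ZMod 4) (v : ZMod q) (w : ZMod r) : ℤ :=
  if a = 0 then x' 0 (2⁻¹ * v) (2⁻¹ * w) else if a = 1 then x' 1 v w else
    if a = -1 then x' (-1) v w else 0

variable (x' : ZMod 3 → ZMod q → ZMod r → ℤ)

lemma x4_0 (v : ZMod q) (w : ZMod r) : x4 x' 0 v w = x' 0 (2⁻¹ * v) (2⁻¹ * w) := if_pos rfl

lemma x4_1 (v : ZMod q) (w : ZMod r) : x4 x' 1 v w = x' 1 v w := by
  unfold x4; rw [if_neg (by decide), if_pos rfl]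

lemma x4_n (v : ZMod q) (w : ZMod r) : x4 x' (-1) v w = x' (-1) v w := by
  unfold x4; rw [if_neg (by decide), if_neg (by decide), if_pos rfl]

lemma x4_2 (v : ZMod q) (w : ZMod r) : x4 x' 2 v w = 0 := by
  unfold x4; rw [if_neg (by decide), if_neg (by decide), if_neg (by decide)]

lemma XX_x4 (hq2 : q ≠ 2) (hr2 : r ≠ 2) : XX (x4 x') = x' := by
  funext u v w
  revert u
  refine cases3 _ ?_ ?_ ?_
  · show x4 x' 0 (2 * v) (2 * w) + x4 x' 2 v w - x4 x' 2 (2 * v) (2 * w) = _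
    rw [x4_0, x4_2, x4_2, inv_mul_cancel_left₀ (two_ne hq2), inv_mul_cancel_left₀ (two_ne hr2)]
    ring
  · unfold XX; rw [if_neg (by decide), if_pos rfl, x4_1]
  · unfold XX; rw [if_neg (by decide), if_neg (by decide), x4_n]

/-- the odd part in the first coordinate `ZMod 4` -/
def yo (y : ZMod 4 → ZMod q → ZMod r → ℤ) (a : ZMod 4) (v : ZMod q) (w : ZMod r) : ℤ :=
  y a v w - y (-a) (-v) (-w)

lemma yo_0 (v : ZMod q) (w : ZMod r) : yo (x4 x') 0 v w = Y3 x' 0 (2⁻¹ * v) (2⁻¹ * w) := by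
  unfold yo Y3
  rw [neg_zero, x4_0, x4_0, mul_neg, mul_neg, neg_zero]

lemma yo_1 (v : ZMod q) (w : ZMod r) : yo (x4 x') 1 v w = Y3 x' 1 v w := by
  unfold yo Y3
  rw [x4_1, x4_n]

lemma yo_n (v : ZMod q) (w : ZMod r) : yo (x4 x') (-1) v w = Y3 x' (-1) v w := by
  unfold yo Y3
  rw [x4_n, neg_neg, x4_1, neg_neg]

lemma yo_2 (v : ZMod q) (w : ZMod r) : yo (x4 x') 2 v w = 0 := by
  unfold yo
  have : (-2 : ZMod 4) = 2 := by decide
  rw [this, x4_2, x4_2, sub_zero]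

/-- doubling by symmetry -/
lemma dbl (y : ZMod 4 → ZMod q → ZMod r → ℤ) (g : ZMod 4 → ZMod q → ℤ)
    (gn : ∀ a v, g (-a) (-v) = - g a v) :
    2 * ∑ a, ∑ v, ∑ w : ZMod r, (if w = 0 then 0 else y a v w * g a v) =
      ∑ a, ∑ v, ∑ w : ZMod r, (if w = 0 then 0 else yo y a v w * g a v) := by
  have h1 : ∑ a, ∑ v, ∑ w : ZMod r, (if w = 0 then 0 else y a v w * g a v) =
      ∑ a, ∑ v, ∑ w : ZMod r, (if w = 0 then 0 else - (y (-a) (-v) (-w) * g a v)) := by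
    rw [← sum_neg (fun a => ∑ v, ∑ w : ZMod r, (if w = 0 then 0 else y a v w * g a v))]
    refine sum_congr rfl fun a _ => ?_
    rw [← sum_neg (fun v => ∑ w : ZMod r, (if w = 0 then 0 else y (-a) v w * g (-a) v))]
    refine sum_congr rfl fun v _ => ?_
    rw [← sum_neg (fun w : ZMod r => (if w = 0 then 0 else y (-a) (-v) w * g (-a) (-v)))]
    refine sum_congr rfl fun w _ => ?_
    simp only [neg_eq_zero, gn, mul_neg]
  rw [two_mul]
  nth_rewrite 2 [h1]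
  rw [← sum_add_distrib]
  refine sum_congr rfl fun a _ => ?_
  rw [← sum_add_distrib]
  refine sum_congr rfl fun v _ => ?_
  rw [← sum_add_distrib]
  refine sum_congr rfl fun w _ => ?_
  unfold yo
  split_ifs
  · ring
  · ring

/-- the sum when the test function vanishes on the first coordinate `0` -/
lemma sideB (y : ZMod 4 → ZMod q → ZMod r → ℤ) (g : ZMod 4 → ZMod q → ℤ)
    (gn : ∀ a v, g (-a) (-v) = - g a v) (g0 : ∀ v, g 0 v = 0) (y2 : ∀ v w, yo y 2 v w = 0)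
    (y1 : ∀ v w, v ≠ 0 → w ≠ 0 → yo y 1 v w = 0) :
    ∑ a, ∑ v, ∑ w : ZMod r, (if w = 0 then 0 else y a v w * g a v) =
      g 1 0 * ∑ w ∈ univ.erase (0 : ZMod r), yo y 1 0 w := by
  have hyn : ∀ v w, yo y (-1) v w = - yo y 1 (-v) (-w) := by
    intro v w
    unfold yo
    rw [neg_neg, neg_neg, neg_neg]
    ring
  have h2 : 2 * ∑ a, ∑ v, ∑ w : ZMod r, (if w = 0 then 0 else y a v w * g a v) =
      2 * (g 1 0 * ∑ w ∈ univ.erase (0 : ZMod r), yo y 1 0 w) := by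
    rw [dbl y g gn, s4]
    have k0 : ∑ v, ∑ w : ZMod r, (if w = 0 then 0 else yo y 0 v w * g 0 v) = 0 :=
      sum_eq_zero fun v _ => sum_eq_zero fun w _ => by rw [g0]; simp
    have k2 : ∑ v, ∑ w : ZMod r, (if w = 0 then 0 else yo y 2 v w * g 2 v) = 0 :=
      sum_eq_zero fun v _ => sum_eq_zero fun w _ => by rw [y2]; simp
    have k1 : ∑ v, ∑ w : ZMod r, (if w = 0 then 0 else yo y 1 v w * g 1 v) =
        g 1 0 * ∑ w ∈ univ.erase (0 : ZMod r), yo y 1 0 w := by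
      rw [← add_sum_erase _ _ (mem_univ (0 : ZMod q))]
      have e1 : ∑ v ∈ univ.erase (0 : ZMod q), ∑ w : ZMod r,
          (if w = 0 then 0 else yo y 1 v w * g 1 v) = 0 := by
        refine sum_eq_zero fun v hv => sum_eq_zero fun w _ => ?_
        by_cases hw : w = 0
        · simp [hw]
        · rw [if_neg hw, y1 v w (ne_of_mem_erase hv) hw, zero_mul]
      rw [e1, add_zero, ← add_sum_erase _ _ (mem_univ (0 : ZMod r)), if_pos rfl, zero_add, mul_sum]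
      refine sum_congr rfl fun w hw => ?_
      rw [if_neg (ne_of_mem_erase hw)]
      ring
    have kn : ∑ v, ∑ w : ZMod r, (if w = 0 then 0 else yo y (-1) v w * g (-1) v) =
        g 1 0 * ∑ w ∈ univ.erase (0 : ZMod r), yo y 1 0 w := by
      rw [← k1, ← sum_neg (fun v => ∑ w : ZMod r, (if w = 0 then 0 else yo y 1 v w * g 1 v))]
      refine sum_congr rfl fun v _ => ?_
      rw [← sum_neg (fun w : ZMod r => (if w = 0 then 0 else yo y 1 (-v) w * g 1 (-v)))]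
      refine sum_congr rfl fun w _ => ?_
      have h3 := gn 1 (-v)
      rw [neg_neg] at h3
      simp only [neg_eq_zero]
      rw [hyn, h3]
      split_ifs
      · rfl
      · ring
    rw [k0, k1, k2, kn]
    ring
  linarith

end back

/-! ### Units and values -/

section val
variable {P : ℕ} [hP : Fact P.Prime] (hP2 : P ≠ 2)

lemma ex_unit (α : (ZMod 4)ˣ) (β : (ZMod P)ˣ) : ∃ t : (ZMod (4 * P))ˣ,
    e2 hP2 (t : ZMod (4 * P)) = ((α : ZMod 4), (β : ZMod P)) := by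
  refine ⟨Units.map ((e2 hP2).symm : ZMod 4 × ZMod P →* ZMod (4 * P))
    (MulEquiv.prodUnits.symm (α, β)), ?_⟩
  rw [Units.coe_map]
  exact (e2 hP2).apply_symm_apply _

include hP2 in
lemma val_0 {y : ZMod (4 * P)} {b : ZMod P} (h : e2 hP2 y = (0, 4 * b)) :
    (y.val : ℤ) = 4 * (b.val : ℤ) := by
  have h1 : y = ((4 * b.val : ℕ) : ZMod (4 * P)) := by
    apply (e2 hP2).injective
    rw [h, e2_nat]
    push_cast
    rw [ZMod.natCast_zmod_val]
    have : (4 : ZMod 4) = 0 := by decide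
    rw [this, zero_mul]
  have h2 : 4 * b.val < 4 * P := Nat.mul_lt_mul_of_pos_left (ZMod.val_lt b) (by norm_num)
  rw [h1, ZMod.val_natCast, Nat.mod_eq_of_lt h2]
  push_cast
  rfl

include hP2 in
lemma val_1 {y : ZMod (4 * P)} {a : ZMod 4} (h : e2 hP2 y = ((P : ZMod 4) * a, 0)) :
    (y.val : ℤ) = P * (a.val : ℤ) := by
  have h1 : y = ((P * a.val : ℕ) : ZMod (4 * P)) := by
    apply (e2 hP2).injective
    rw [h, e2_nat]
    push_cast
    rw [ZMod.natCast_zmod_val]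
    simp
  have h2 : P * a.val < 4 * P := by
    rw [mul_comm 4 P]
    exact Nat.mul_lt_mul_of_pos_left (ZMod.val_lt a) hP.out.pos
  rw [h1, ZMod.val_natCast, Nat.mod_eq_of_lt h2]
  push_cast
  rfl

/-- difference of the residues of `t y` and `t' y` -/
def dif (t t' : (ZMod (4 * P))ˣ) (y : ZMod (4 * P)) : ℤ :=
  (((t : ZMod (4 * P)) * y).val : ℤ) - (((t' : ZMod (4 * P)) * y).val : ℤ)

instance : NeZero (4 * P) := ⟨Nat.mul_ne_zero (by norm_num) hP.out.ne_zero⟩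

lemma dif_neg (t t' : (ZMod (4 * P))ˣ) (y : ZMod (4 * P)) : dif t t' (-y) = - dif t t' y := by
  have h := lev3_neg (dvd_refl (4 * P)) t t' y
  simp only [ZMod.natCast_zmod_val] at h
  exact h

lemma dif_one (t t' : (ZMod (4 * P))ˣ) {α α' : ZMod 4} {β β' : ZMod P}
    (ht : e2 hP2 (t : ZMod (4 * P)) = (α, β)) (ht' : e2 hP2 (t' : ZMod (4 * P)) = (α', β')) :
    (((((t : ZMod (4 * P)).val : ℤ) - ((t' : ZMod (4 * P)).val : ℤ)) : ℤ) : ZMod 4) = α - α' := by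
  have h1 : ∀ y : ZMod (4 * P), ((y.val : ℤ) : ZMod 4) = (e2 hP2 y).1 := by
    intro y
    have := e2_nat hP2 y.val
    rw [ZMod.natCast_zmod_val] at this
    rw [this]
    push_cast
    rfl
  push_cast
  have h2 := h1 (t : ZMod (4 * P))
  have h3 := h1 (t' : ZMod (4 * P))
  rw [ht] at h2
  rw [ht'] at h3
  push_cast at h2 h3
  rw [h2, h3]

end val

section main
variable {q r : ℕ} [hq : Fact q.Prime] [hr : Fact r.Prime] (hq2 : q ≠ 2) (hr2 : r ≠ 2)
  (hqr : q ≠ r) [NeZero (4 * q * r)]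

lemma val_e4 (b : ZMod (4 * q * r)) : ((b.val : ℕ) : ZMod 4) = (e4 hq2 hr2 hqr b).1.1 ∧
    ((b.val : ℕ) : ZMod q) = (e4 hq2 hr2 hqr b).1.2 ∧
    ((b.val : ℕ) : ZMod r) = (e4 hq2 hr2 hqr b).2 := by
  have h1 := e4_nat hq2 hr2 hqr b.val
  rw [ZMod.natCast_zmod_val] at h1
  rw [h1]
  exact ⟨rfl, rfl, rfl⟩

lemma FH_r (x : ZMod (4 * q * r) → ℤ) (t t' : (ZMod (4 * q))ˣ) :
    FH r (4 * q) x t t' = ∑ a, ∑ v, ∑ w, if w = 0 then 0 else
      tf hq2 hr2 hqr x a v w * dif t t' ((e2 hq2).symm (a, v)) := by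
  unfold FH
  rw [sum_e4 hq2 hr2 hqr]
  refine sum_congr rfl fun a _ => sum_congr rfl fun v _ => sum_congr rfl fun w _ => ?_
  unfold tf
  beta_reduce
  set b := (e4 hq2 hr2 hqr).symm ((a, v), w) with hb
  have hb' : e4 hq2 hr2 hqr b = ((a, v), w) := by rw [hb, RingEquiv.apply_symm_apply]
  obtain ⟨h1, h2, h3⟩ := val_e4 hq2 hr2 hqr b
  rw [hb'] at h1 h2 h3
  simp only at h1 h2 h3
  have h4 : ((b.val : ℕ) : ZMod (4 * q)) = (e2 hq2).symm (a, v) := by
    rw [RingEquiv.eq_symm_apply, e2_nat, h1, h2]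
  rw [h3, h4]
  rfl

lemma FH_q (x : ZMod (4 * q * r) → ℤ) (t t' : (ZMod (4 * r))ˣ) :
    FH q (4 * r) x t t' = ∑ a, ∑ w, ∑ v, if v = 0 then 0 else
      tf hq2 hr2 hqr x a v w * dif t t' ((e2 hr2).symm (a, w)) := by
  unfold FH
  rw [sum_e4 hq2 hr2 hqr]
  refine sum_congr rfl fun a _ => ?_
  rw [sum_comm]
  refine sum_congr rfl fun w _ => sum_congr rfl fun v _ => ?_
  unfold tf
  beta_reduce
  set b := (e4 hq2 hr2 hqr).symm ((a, v), w) with hb
  have hb' : e4 hq2 hr2 hqr b = ((a, v), w) := by rw [hb, RingEquiv.apply_symm_apply]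
  obtain ⟨h1, h2, h3⟩ := val_e4 hq2 hr2 hqr b
  rw [hb'] at h1 h2 h3
  simp only at h1 h2 h3
  have h4 : ((b.val : ℕ) : ZMod (4 * r)) = (e2 hr2).symm (a, w) := by
    rw [RingEquiv.eq_symm_apply, e2_nat, h1, h3]
  rw [h2, h4]
  rfl

/-- coefficients of level `4 * q * r` -/
noncomputable def lx (x' : ZMod 3 → ZMod q → ZMod r → ℤ) (b : ZMod (4 * q * r)) : ℤ :=
  x4 x' (e4 hq2 hr2 hqr b).1.1 (e4 hq2 hr2 hqr b).1.2 (e4 hq2 hr2 hqr b).2

lemma tf_lx (x' : ZMod 3 → ZMod q → ZMod r → ℤ) :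
    tf hq2 hr2 hqr (lx hq2 hr2 hqr x') = x4 x' := by
  funext a v w
  unfold tf lx
  rw [RingEquiv.apply_symm_apply]

lemma lx_sum {x : ZMod (4 * q * r) → ℤ} {x' : ZMod 3 → ZMod q → ZMod r → ℤ}
    (key : ∀ {Q : Type} [AddCommGroup Q] {c : ZMod 3 → ZMod q → ZMod r → Q}, G3 (mu q r) c →
      ∑ u, ∑ v, ∑ w, XX (tf hq2 hr2 hqr x) u v w • c u v w = ∑ u, ∑ v, ∑ w, x' u v w • c u v w)
    {Q : Type} [AddCommGroup Q] {c : ZMod (4 * q * r) → Q} (hc : OddDist c) :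
    ∑ b, x b • c b = ∑ b, lx hq2 hr2 hqr x' b • c b := by
  rw [sum_e4 hq2 hr2 hqr (fun b => x b • c b), sum_e4 hq2 hr2 hqr
    (fun b => lx hq2 hr2 hqr x' b • c b)]
  have hd := tf_d4 hq2 hr2 hqr hc
  have h1 := key (ccf_g3 hq2 hr2 hd)
  have h2 := sum_XX hq2 hr2 (tf hq2 hr2 hqr x) hd
  have h3 := sum_XX hq2 hr2 (x4 x') hd
  rw [XX_x4 x' hq2 hr2] at h3
  rw [← tf_lx hq2 hr2 hqr x'] at h3
  exact h2.trans (h1.trans h3.symm)

lemma rel_gr3 {x : ZMod (4 * q * r) → ℤ} (hx : Rel x) : GR3 (mu q r) (XX (tf hq2 hr2 hqr x)) := by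
  intro g hg
  have h1 := fcc_d4 hq2 hr2 hg
  have h2 := rel_int hx (d4_odd hq2 hr2 hqr h1)
  rw [sum_e4 hq2 hr2 hqr] at h2
  have h3 := sum_XX hq2 hr2 (tf hq2 hr2 hqr x) h1
  rw [ccf_fcc hq2 hr2] at h3
  simp only [smul_eq_mul] at h3
  rw [← h3, ← h2]
  refine sum_congr rfl fun u _ => sum_congr rfl fun v _ => sum_congr rfl fun w _ => ?_
  unfold tf
  simp

lemma lx_rel {x : ZMod (4 * q * r) → ℤ} (hx : Rel x) {x' : ZMod 3 → ZMod q → ZMod r → ℤ}
    (key : ∀ {Q : Type} [AddCommGroup Q] {c : ZMod 3 → ZMod q → ZMod r → Q}, G3 (mu q r) c →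
      ∑ u, ∑ v, ∑ w, XX (tf hq2 hr2 hqr x) u v w • c u v w =
        ∑ u, ∑ v, ∑ w, x' u v w • c u v w) :
    Rel (lx hq2 hr2 hqr x') := by
  intro t
  have h1 := lx_sum hq2 hr2 hqr key (lev3_saw t)
  simp only [smul_eq_mul] at h1
  rw [← h1]
  exact hx t

end main

/-! ### The faces -/

section faces
variable {q r : ℕ} [hq : Fact q.Prime] [hr : Fact r.Prime]

lemma iota_one {m : ℕ} [NeZero m] (b : ZMod m) : (iota 1 b : ZMod m) = b := by
  unfold iota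
  rw [one_mul, ZMod.natCast_zmod_val]

/-- the first face -/
theorem face0 (hq2 : q ≠ 2) (hr2 : r ≠ 2) {x' : ZMod 3 → ZMod q → ZMod r → ℤ}
    (htop : ∀ u v w, u ≠ 0 → v ≠ 0 → w ≠ 0 → Y3 x' u v w = 0) (hf : IsFace (FF x'))
    {A : ZMod q} (hA0 : A ≠ 0)
    (hA : ¬ (2 : ℤ) ∣ ∑ u ∈ HS q, (((A * u).val : ℤ) - (u.val : ℤ)))
    {g : ZMod 4 → ZMod q → ℤ} (gn : ∀ a v, g (-a) (-v) = - g a v) (gz : ∀ a, g a 0 = 0)
    (g0 : ∀ v, g 0 v = 4 * (((A * (4⁻¹ * v)).val : ℤ) - ((4⁻¹ * v).val : ℤ)))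
    {N : ℤ} (hN : Odd N) {κ : ℤ} (hκ : (4 : ℤ) ∣ κ)
    (hdvd : (4 * (q : ℤ) * ((r : ℤ) - 1)) ∣
      N * (∑ a, ∑ v, ∑ w : ZMod r, (if w = 0 then 0 else x4 x' a v w * g a v)) -
        ((r : ℤ) - 1) * κ) : EvF (FF x') := by
  classical
  by_contra hE
  set S : ℤ := ∑ a, ∑ v, ∑ w : ZMod r, (if w = 0 then 0 else x4 x' a v w * g a v) with hS
  set hh : ZMod q → ℤ := fun v => ((A * (2⁻¹ * v)).val : ℤ) - ((2⁻¹ * v).val : ℤ) with hhh
  have hcan : ∀ v : ZMod q, 4⁻¹ * (2 * v) = 2⁻¹ * v := by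
    intro v
    have h2 := two_ne hq2
    have h4 : (4 : ZMod q) = 2 * 2 := by norm_num
    rw [h4]
    field_simp
  have hvn : ∀ y : ZMod q, y ≠ 0 → ((-y).val : ℤ) = (q : ℤ) - (y.val : ℤ) := by
    intro y hy
    rw [ZMod.neg_val, if_neg hy, Nat.cast_sub (ZMod.val_lt y).le]
  have kn : ∀ y : ZMod q, y ≠ 0 → (((A * -y).val : ℤ) - ((-y).val : ℤ)) =
      - (((A * y).val : ℤ) - (y.val : ℤ)) := by
    intro y hy
    rw [mul_neg, hvn _ (mul_ne_zero hA0 hy), hvn _ hy]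
    ring
  have hhn : ∀ v, v ≠ 0 → hh (-v) = - hh v := by
    intro v hv
    simp only [hhh]
    rw [mul_neg (2⁻¹ : ZMod q) v]
    exact kn _ (mul_ne_zero (inv_ne_zero (two_ne hq2)) hv)
  have hS2 : 2 * S = ∑ v ∈ univ.erase (0 : ZMod q), ∑ w ∈ univ.erase (0 : ZMod r),
      FF x' v w * (4 * hh v) := by
    rw [hS, dbl (x4 x') g gn, s4]
    have k1 : ∀ a : ZMod 4, (∀ v w, v ≠ 0 → w ≠ 0 → yo (x4 x') a v w = 0) →
        ∑ v, ∑ w : ZMod r, (if w = 0 then 0 else yo (x4 x') a v w * g a v) = 0 := by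
      intro a ha
      refine sum_eq_zero fun v _ => sum_eq_zero fun w _ => ?_
      by_cases hw : w = 0
      · simp [hw]
      · by_cases hv : v = 0
        · rw [hv, gz]; simp
        · rw [if_neg hw, ha v w hv hw, zero_mul]
    rw [k1 1 (fun v w hv hw => by rw [yo_1]; exact htop _ _ _ (by decide) hv hw),
      k1 2 (fun v w _ _ => yo_2 x' v w),
      k1 (-1) (fun v w hv hw => by rw [yo_n]; exact htop _ _ _ (by decide) hv hw),
      add_zero, add_zero, add_zero]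
    rw [← sum_two_mul hq2 (fun v => ∑ w : ZMod r, (if w = 0 then 0 else yo (x4 x') 0 v w * g 0 v))]
    rw [← add_sum_erase _ _ (mem_univ (0 : ZMod q))]
    have e0 : ∑ w : ZMod r, (if w = 0 then 0 else yo (x4 x') 0 (2 * 0) w * g 0 (2 * 0)) = 0 := by
      refine sum_eq_zero fun w _ => ?_
      rw [mul_zero, gz]; simp
    rw [e0, zero_add]
    refine sum_congr rfl fun v _ => ?_
    rw [← sum_two_mul hr2 (fun w : ZMod r =>
      (if w = 0 then 0 else yo (x4 x') 0 (2 * v) w * g 0 (2 * v)))]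
    rw [← add_sum_erase _ _ (mem_univ (0 : ZMod r)), mul_zero, if_pos rfl, zero_add]
    refine sum_congr rfl fun w hw => ?_
    rw [if_neg (mul_ne_zero (two_ne hr2) (ne_of_mem_erase hw)), yo_0, g0, hcan,
      inv_mul_cancel_left₀ (two_ne hq2), inv_mul_cancel_left₀ (two_ne hr2)]
    rfl
  set T : ℤ := ∑ v ∈ HS q, hh v * fa (FF x') v with hT
  have hS3 : S = 2 * ((r : ℤ) - 1) * T := by
    have e1 : 2 * (2 * S) = ((r : ℤ) - 1) * (4 * ∑ v ∈ univ.erase (0 : ZMod q),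
        hh v * fa (FF x') v) := by
      rw [hS2, mul_sum, mul_sum, mul_sum]
      refine sum_congr rfl fun v hv => ?_
      rw [← sum_mul, ← mul_assoc, hf.sum_second (ne_of_mem_erase hv)]
      ring
    have e2 : ∑ v ∈ univ.erase (0 : ZMod q), hh v * fa (FF x') v = 2 * T := by
      rw [(half_HS hq2).sum_all, hT, mul_sum]
      refine sum_congr rfl fun v hv => ?_
      rw [hhn v ((half_HS hq2).ne v hv), hf.fa_neg]
      ring
    rw [e2] at e1
    linarith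
  have hTodd : ¬ (2 : ℤ) ∣ T := by
    intro h2
    apply hA
    have e1 : (2 : ℤ) ∣ ∑ v ∈ HS q, (hh v * fa (FF x') v - hh v) := by
      refine dvd_sum fun v hv => ?_
      have h3 : ¬ 2 ∣ fa (FF x') v := fun h4 => hE ((hf.fa_even ((half_HS hq2).ne v hv)).mp h4)
      have h4 : (2 : ℤ) ∣ fa (FF x') v - 1 := by omega
      have h5 : hh v * fa (FF x') v - hh v = hh v * (fa (FF x') v - 1) := by ring
      rw [h5]
      exact Dvd.dvd.mul_left h4 _
    rw [sum_sub_distrib] at e1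
    have e2 : (2 : ℤ) ∣ ∑ v ∈ HS q, hh v := (dvd_sub_right h2).mp e1
    have e2' := (ZMod.intCast_zmod_eq_zero_iff_dvd _ 2).mpr e2
    refine (ZMod.intCast_zmod_eq_zero_iff_dvd _ 2).mp ?_
    push_cast at e2' ⊢
    have e3 := Half.sum_mul (Q := ZMod 2) (half_HS hq2) (inv_ne_zero (two_ne hq2))
      (fun u => ((((A * u).val : ℤ) - (u.val : ℤ) : ℤ) : ZMod 2)) (by
        intro u
        by_cases hu : u = 0
        · rw [hu, neg_zero]
        · rw [kn u hu]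
          push_cast
          generalize (((A * u).val : ZMod 2) - (u.val : ZMod 2)) = z
          revert z; decide)
    push_cast at e3
    rw [← e3]
    simpa [hhh] using e2'
  obtain ⟨j, hj⟩ := hdvd
  obtain ⟨κ', rfl⟩ := hκ
  have hr1 : ((r : ℤ) - 1) ≠ 0 := by
    have := hr.out.two_le
    omega
  have e1 : ((r : ℤ) - 1) * (2 * (N * T)) = ((r : ℤ) - 1) * (4 * (q * j + κ')) := by
    rw [hS3] at hj
    linear_combination hj
  have e2 := mul_left_cancel₀ hr1 e1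
  have e3 : N * T = 2 * (q * j + κ') := by linarith
  have e4 : (2 : ℤ) ∣ N * T := ⟨_, e3⟩
  rcases Int.prime_two.dvd_or_dvd e4 with h | h
  · exact (Int.not_even_iff_odd.mpr hN) (even_iff_two_dvd.mpr h)
  · exact hTodd h

end faces

section units
variable {P : ℕ} [hP : Fact P.Prime] (hP2 : P ≠ 2)

lemma dif_symm_neg (t t' : (ZMod (4 * P))ˣ) (a : ZMod 4) (v : ZMod P) :
    dif t t' ((e2 hP2).symm (-a, -v)) = - dif t t' ((e2 hP2).symm (a, v)) := by
  rw [← dif_neg, ← map_neg]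
  rfl

lemma e2_mul_symm (t : ZMod (4 * P)) {α : ZMod 4} {β : ZMod P} (ht : e2 hP2 t = (α, β))
    (a : ZMod 4) (v : ZMod P) : e2 hP2 (t * (e2 hP2).symm (a, v)) = (α * a, β * v) := by
  rw [map_mul, ht, RingEquiv.apply_symm_apply]
  rfl

lemma main_units {A : ZMod P} (hA : A ≠ 0) : ∃ t t' : (ZMod (4 * P))ˣ,
    (∀ a, dif t t' ((e2 hP2).symm (a, 0)) = 0) ∧
    (∀ v, dif t t' ((e2 hP2).symm (0, v)) =
      4 * (((A * (4⁻¹ * v)).val : ℤ) - ((4⁻¹ * v).val : ℤ))) ∧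
    (4 : ℤ) ∣ (((t : ZMod (4 * P)).val : ℤ) - ((t' : ZMod (4 * P)).val : ℤ)) := by
  obtain ⟨t, ht⟩ := ex_unit hP2 1 (Units.mk0 A hA)
  obtain ⟨t', ht'⟩ := ex_unit hP2 1 (1 : (ZMod P)ˣ)
  simp only [Units.val_one, Units.val_mk0] at ht ht'
  refine ⟨t, t', fun a => ?_, fun v => ?_, ?_⟩
  · have h1 : (t : ZMod (4 * P)) * (e2 hP2).symm (a, 0) =
        (t' : ZMod (4 * P)) * (e2 hP2).symm (a, 0) := by
      apply (e2 hP2).injective
      rw [e2_mul_symm hP2 _ ht, e2_mul_symm hP2 _ ht', mul_zero, mul_zero]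
    unfold dif
    rw [h1, sub_self]
  · have h1 := e2_mul_symm hP2 _ ht 0 v
    have h2 := e2_mul_symm hP2 _ ht' 0 v
    have h3 := val_0 hP2 (b := A * (4⁻¹ * v)) (h1.trans (by
      rw [mul_zero]
      congr 1
      have := four_ne hP2
      field_simp))
    have h4 := val_0 hP2 (b := 4⁻¹ * v) (h2.trans (by
      rw [mul_zero, one_mul, mul_inv_cancel_left₀ (four_ne hP2)]))
    unfold dif
    rw [h3, h4]
    ring
  · have h1 := dif_one hP2 t t' ht ht'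
    rw [sub_self] at h1
    exact (ZMod.intCast_zmod_eq_zero_iff_dvd _ 4).mp h1

lemma side_units : ∃ t t' : (ZMod (4 * P))ˣ,
    (∀ v, dif t t' ((e2 hP2).symm (0, v)) = 0) ∧
    (∃ s : ℤ, Odd s ∧ dif t t' ((e2 hP2).symm (1, 0)) = 2 * s) ∧
    (2 : ℤ) ∣ (((t : ZMod (4 * P)).val : ℤ) - ((t' : ZMod (4 * P)).val : ℤ)) := by
  obtain ⟨t, ht⟩ := ex_unit hP2 1 (1 : (ZMod P)ˣ)
  obtain ⟨t', ht'⟩ := ex_unit hP2 (-1) (1 : (ZMod P)ˣ)
  simp only [Units.val_one, Units.val_neg] at ht ht'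
  refine ⟨t, t', fun v => ?_, ?_, ?_⟩
  · have h1 : (t : ZMod (4 * P)) * (e2 hP2).symm (0, v) =
        (t' : ZMod (4 * P)) * (e2 hP2).symm (0, v) := by
      apply (e2 hP2).injective
      rw [e2_mul_symm hP2 _ ht, e2_mul_symm hP2 _ ht', mul_zero, mul_zero]
    unfold dif
    rw [h1, sub_self]
  · have h1 := e2_mul_symm hP2 _ ht 1 0
    have h2 := e2_mul_symm hP2 _ ht' 1 0
    have hodd : Odd (P : ℤ) := by exact_mod_cast hP.out.odd_of_ne_two hP2
    rcases mod4 hP2 with ⟨-, h⟩ | ⟨-, h⟩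
    · have h3 := val_1 hP2 (a := 1) (h1.trans (by rw [h, mul_one, mul_zero]))
      have h4 := val_1 hP2 (a := -1) (h2.trans (by rw [h, mul_one, one_mul, one_mul]))
      refine ⟨-(P : ℤ), hodd.neg, ?_⟩
      unfold dif
      rw [h3, h4]
      have e1 : (1 : ZMod 4).val = 1 := by decide
      have e2 : (-1 : ZMod 4).val = 3 := by decide
      rw [e1, e2]
      push_cast
      ring
    · have h3 := val_1 hP2 (a := -1) (h1.trans (by
        rw [h, mul_one, mul_zero, neg_mul_neg, one_mul]))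
      have h4 := val_1 hP2 (a := 1) (h2.trans (by rw [h, mul_one, mul_zero]))
      refine ⟨(P : ℤ), hodd, ?_⟩
      unfold dif
      rw [h3, h4]
      have e1 : (1 : ZMod 4).val = 1 := by decide
      have e2 : (-1 : ZMod 4).val = 3 := by decide
      rw [e1, e2]
      push_cast
      ring
  · have h1 := dif_one hP2 t t' ht ht'
    set κ : ℤ := (((t : ZMod (4 * P)).val : ℤ) - ((t' : ZMod (4 * P)).val : ℤ))
    have h2 : ((κ - 2 : ℤ) : ZMod 4) = 0 := by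
      push_cast
      rw [h1]
      decide
    have h3 : (4 : ℤ) ∣ κ - 2 := (ZMod.intCast_zmod_eq_zero_iff_dvd _ 4).mp h2
    omega

/-- the parity of a side face -/
lemma par_side {l P : ℕ} [hl : Fact l.Prime] {S s B F N κ : ℤ} (hs : Odd s) (hN : Odd N)
    (h1 : S = 2 * s * B) (h2 : 2 * B = ((l : ℤ) - 1) * F) (hκ : (2 : ℤ) ∣ κ)
    (h : (4 * (P : ℤ) * ((l : ℤ) - 1)) ∣ N * S - ((l : ℤ) - 1) * κ) : (2 : ℤ) ∣ F := by
  obtain ⟨j, hj⟩ := h
  obtain ⟨κ', rfl⟩ := hκ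
  have hr1 : ((l : ℤ) - 1) ≠ 0 := by
    have := hl.out.two_le
    omega
  have e0 : S = s * (((l : ℤ) - 1) * F) := by rw [← h2, h1]; ring
  have e1 : ((l : ℤ) - 1) * (N * s * F) = ((l : ℤ) - 1) * (2 * (2 * P * j + κ')) := by
    rw [e0] at hj
    linear_combination hj
  have e2 := mul_left_cancel₀ hr1 e1
  have e3 : (2 : ℤ) ∣ (N * s) * F := ⟨_, e2⟩
  rcases Int.prime_two.dvd_or_dvd e3 with h | h
  · exact absurd (even_iff_two_dvd.mpr h) (Int.not_even_iff_odd.mpr (hN.mul hs))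
  · exact h

end units

end F4

open F4 in
/-- **Relations at level `4 * q * r`.** -/
theorem four2 (h0 : S_low) (h1 : S_cf) (h2 : S_thin) (h3 : S_zero) : S_four2 := by
  intro q r hq hr hm hq2 hr2 hqr x hx cr cq Q _ c hc
  classical
  have : Fact (Nat.Prime 3) := ⟨Nat.prime_three⟩
  have hrq : r ≠ q := fun h => hqr h.symm
  have ok := mu_ok hq2 hr2 hqr
  obtain ⟨x', hT, key⟩ := h2 3 q r (by norm_num) hq2 hr2 (mu q r) ok
    (XX (tf hq2 hr2 hqr x)) (rel_gr3 hq2 hr2 hqr hx)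
  obtain ⟨hT1, f0, fin⟩ := h3 3 q r (by norm_num) hq2 hr2 (mu q r) ok x' hT
  have ok1 : (mu q r).rot.Ok := ⟨ok.2.2.2.1, ok.2.2.1, ok.2.2.2.2.2, ok.2.2.2.2.1, ok.1, ok.2.1⟩
  obtain ⟨hT2, f1, -⟩ := h3 q r 3 hq2 hr2 (by norm_num) (mu q r).rot ok1 (rt x') hT1
  have ok2 : (mu q r).rot.rot.Ok :=
    ⟨ok1.2.2.2.1, ok1.2.2.1, ok1.2.2.2.2.2, ok1.2.2.2.2.1, ok1.1, ok1.2.1⟩
  obtain ⟨-, f2, -⟩ := h3 r 3 q hr2 (by norm_num) hq2 (mu q r).rot.rot ok2 (rt (rt x')) hT2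
  -- the criteria for the reduced relation
  set X : ZMod (4 * q * r) → ℤ := lx hq2 hr2 hqr x' with hX
  have hXrel : Rel X := lx_rel hq2 hr2 hqr hx key
  have hXsum : ∀ (Q : Type) [AddCommGroup Q] (c : ZMod (4 * q * r) → Q), OddDist c →
      ∑ z, x z • c z = ∑ b : ZMod (4 * q * r), X b • c (iota 1 b) := by
    intro Q _ c hc
    simp only [iota_one]
    exact lx_sum hq2 hr2 hqr key hc
  have hnd : ∀ {l p : ℕ}, l.Prime → p.Prime → l ≠ 2 → l ≠ p → ¬ l ∣ 4 * p := by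
    intro l p hl hp hl2 hlp h
    rcases (Nat.Prime.dvd_mul hl).mp h with h | h
    · have h4 : l ∣ 2 ^ 2 := h
      exact hl2 ((Nat.prime_dvd_prime_iff_eq hl Nat.prime_two).mp (hl.dvd_of_dvd_pow h4))
    · exact hlp ((Nat.prime_dvd_prime_iff_eq hl hp).mp h)
  have h4p : ∀ {p : ℕ}, p.Prime → 1 < 4 * p := fun hp => by have := hp.two_le; omega
  have CR : CF r (4 * q) X := by
    have e1 : CE r (4 * q) X := h0 r 1 (4 * q) (4 * q) 1 (4 * q * r) (4 * q * r) hr.out hr2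
      one_pos (hnd hr.out hq.out hr2 hrq) (by ring) (by ring) (by ring) dvd_rfl
      (fun _ _ h => h) x X hXsum cr
    exact h1 r (4 * q) (4 * q * r) hr.out hr2 (hnd hr.out hq.out hr2 hrq) (h4p hq.out) (by ring)
      X hXrel e1
  have CQ : CF q (4 * r) X := by
    have e1 : CE q (4 * r) X := h0 q 1 (4 * r) (4 * r) 1 (4 * q * r) (4 * q * r) hq.out hq2
      one_pos (hnd hq.out hr.out hq2 hqr) (by ring) (by ring) (by ring) dvd_rfl
      (fun _ _ h => h) x X hXsum cq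
    exact h1 q (4 * r) (4 * q * r) hq.out hq2 (hnd hq.out hr.out hq2 hqr) (h4p hr.out) (by ring)
      X hXrel e1
  obtain ⟨N, k, hN, hcr⟩ := CR
  obtain ⟨N', k', hN', hcq⟩ := CQ
  -- the first face
  have E0 : EvF (FF x') := by
    obtain ⟨A, hA⟩ := FiniteField.exists_nonsquare (F := ZMod q) (by
      rw [ZMod.ringChar_zmod_n]; exact hq2)
    have hA0 : A ≠ 0 := fun h => hA (h ▸ IsSquare.zero)
    obtain ⟨t, t', u1, u2, u3⟩ := main_units hq2 hA0
    have h4 := hcr t t'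
    rw [FH_r hq2 hr2 hqr, hX, tf_lx] at h4
    refine face0 hq2 hr2 hT.top f0 hA0 (gauss_odd hq2 hA)
      (g := fun a v => dif t t' ((e2 hq2).symm (a, v))) (fun a v => dif_symm_neg hq2 t t' a v)
      u1 u2 hN (κ := k * (((t : ZMod (4 * q)).val : ℤ) - ((t' : ZMod (4 * q)).val : ℤ)))
      (Dvd.dvd.mul_left u3 k) ?_
    push_cast at h4
    convert h4 using 1
    ring
  -- the second face
  have E1 : EvF (FF (rt x')) := by
    obtain ⟨t, t', u1, ⟨s, hs, u2⟩, u3⟩ := side_units hq2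
    have h4 := hcr t t'
    rw [FH_r hq2 hr2 hqr, hX, tf_lx] at h4
    have h5 := sideB (x4 x') (fun a v => dif t t' ((e2 hq2).symm (a, v)))
      (fun a v => dif_symm_neg hq2 t t' a v) u1 (fun v w => yo_2 x' v w)
      (fun v w hv hw => by rw [yo_1]; exact hT.top _ _ _ one_ne_zero hv hw)
    simp only [u2] at h5
    refine par_side (l := r) (P := q) hs hN (h5.trans rfl) ?_ (Dvd.dvd.mul_left u3 k) ?_
    · simp only [yo_1]
      exact f1.sum_first (w := (1 : ZMod 3)) one_ne_zero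
    · push_cast at h4
      convert h4 using 1
      ring
  -- the third face
  have E2 : EvF (FF (rt (rt x'))) := by
    obtain ⟨t, t', u1, ⟨s, hs, u2⟩, u3⟩ := side_units hr2
    have h4 := hcq t t'
    rw [FH_q hq2 hr2 hqr, hX, tf_lx] at h4
    have h5 := sideB (fun a w v => x4 x' a v w) (fun a w => dif t t' ((e2 hr2).symm (a, w)))
      (fun a v => dif_symm_neg hr2 t t' a v) u1
      (fun w v => yo_2 x' v w)
      (fun w v hw hv => (yo_1 x' v w).trans (hT.top _ _ _ one_ne_zero hv hw))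
    simp only [u2] at h5
    rw [← f2.fa_even (v := (1 : ZMod 3)) one_ne_zero]
    refine par_side (l := q) (P := r) hs hN' (h5.trans rfl) ?_ (Dvd.dvd.mul_left u3 k') ?_
    · have h6 : ∀ v, yo (fun a w v => x4 x' a v w) 1 0 v = Y3 x' 1 v 0 := fun v => yo_1 x' v 0
      simp only [h6]
      exact f2.sum_second (v := (1 : ZMod 3)) one_ne_zero
    · push_cast at h4
      convert h4 using 1
      ring
  have hd := ccf_g3 hq2 hr2 (tf_d4 hq2 hr2 hqr hc)
  have h7 := fin E0 E1 E2 hd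
  rw [← key hd, ← sum_XX hq2 hr2 (tf hq2 hr2 hqr x) (tf_d4 hq2 hr2 hqr hc)] at h7
  rw [sum_e4 hq2 hr2 hqr]
  exact h7

end Pool.Agent.NH35.HE
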