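import Pool.Agent.NH35.HE.StmC
import Pool.Agent.H916K.LevelThree

/-! Relations at level `4 * q * r`: coordinates. -/

set_option autoImplicit false
set_option linter.unusedSectionVars false

namespace Pool.Agent.NH35.HE

open Finset Pool.Agent.H916R2 Pool.Agent.H916K

namespace F4

lemma s3 {Q : Type*} [AddCommMonoid Q] (f : ZMod 3 → Q) : ∑ u, f u = f 0 + f 1 + f (-1) :=
  Fin.sum_univ_three f

lemma s4 {Q : Type*} [AddCommMonoid Q] (f : ZMod 4 → Q) : ∑ a, f a = f 0 + f 1 + f 2 + f (-1) :=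
  Fin.sum_univ_four f

lemma mod4 {q : ℕ} [hq : Fact q.Prime] (hq2 : q ≠ 2) :
    (q % 4 = 1 ∧ (q : ZMod 4) = 1) ∨ (q % 4 ≠ 1 ∧ (q : ZMod 4) = -1) := by
  have h1 : q % 2 = 1 := hq.out.eq_two_or_odd.resolve_left hq2
  have h2 : (q : ZMod 4) = ((q % 4 : ℕ) : ZMod 4) := by rw [ZMod.natCast_mod]
  rw [h2]
  have h3 : q % 4 = 1 ∨ q % 4 = 3 := by omega
  rcases h3 with h | h
  · left; rw [h]; exact ⟨rfl, by decide⟩
  · right; rw [h]; exact ⟨by decide, by decide⟩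

lemma cop4 {q : ℕ} [hq : Fact q.Prime] (hq2 : q ≠ 2) : Nat.Coprime 4 q := by
  have h1 : Nat.Coprime 2 q := (Nat.coprime_primes Nat.prime_two hq.out).mpr (fun h => hq2 h.symm)
  exact Nat.Coprime.pow_left 2 h1

/-- coordinates on `ZMod (4 * q)` -/
noncomputable def e2 {q : ℕ} [Fact q.Prime] (hq2 : q ≠ 2) : ZMod (4 * q) ≃+* ZMod 4 × ZMod q :=
  ZMod.chineseRemainder (cop4 hq2)

lemma e2_nat {q : ℕ} [Fact q.Prime] (hq2 : q ≠ 2) (n : ℕ) :
    e2 hq2 (n : ZMod (4 * q)) = ((n : ZMod 4), (n : ZMod q)) := by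
  rw [map_natCast]; rfl

variable {q r : ℕ} [hq : Fact q.Prime] [hr : Fact r.Prime]

lemma cop4r (hr2 : r ≠ 2) (hqr : q ≠ r) : (4 * q).Coprime r :=
  Nat.Coprime.mul_left (cop4 hr2) ((Nat.coprime_primes hq.out hr.out).mpr hqr)

/-- coordinates on `ZMod (4 * q * r)` -/
noncomputable def e4 (hq2 : q ≠ 2) (hr2 : r ≠ 2) (hqr : q ≠ r) :
    ZMod (4 * q * r) ≃+* (ZMod 4 × ZMod q) × ZMod r :=
  (ZMod.chineseRemainder (cop4r hr2 hqr)).trans (RingEquiv.prodCongr (e2 hq2) (RingEquiv.refl _))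

variable (hq2 : q ≠ 2) (hr2 : r ≠ 2) (hqr : q ≠ r)

lemma e4_nat (n : ℕ) : e4 hq2 hr2 hqr (n : ZMod (4 * q * r)) =
    (((n : ZMod 4), (n : ZMod q)), (n : ZMod r)) := by
  rw [map_natCast]; rfl

/-- a function in coordinates -/
noncomputable def tf {Q : Type*} (c : ZMod (4 * q * r) → Q) (a : ZMod 4) (v : ZMod q)
    (w : ZMod r) : Q := c ((e4 hq2 hr2 hqr).symm ((a, v), w))

lemma tf_apply {Q : Type*} (c : ZMod (4 * q * r) → Q) (b : ZMod (4 * q * r)) :
    c b = tf hq2 hr2 hqr c (e4 hq2 hr2 hqr b).1.1 (e4 hq2 hr2 hqr b).1.2 (e4 hq2 hr2 hqr b).2 := by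
  unfold tf
  rw [Prod.mk.eta, RingEquiv.symm_apply_apply]

lemma e4_shift (b : ZMod (4 * q * r)) (i d : ℕ) :
    e4 hq2 hr2 hqr (b + (i : ZMod (4 * q * r)) * (d : ZMod (4 * q * r))) =
      (((e4 hq2 hr2 hqr b).1.1 + (i : ZMod 4) * (d : ZMod 4),
        (e4 hq2 hr2 hqr b).1.2 + (i : ZMod q) * (d : ZMod q)),
        (e4 hq2 hr2 hqr b).2 + (i : ZMod r) * (d : ZMod r)) := by
  rw [map_add, map_mul, e4_nat, e4_nat]; rfl

lemma e4_mul (n : ℕ) (b : ZMod (4 * q * r)) :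
    e4 hq2 hr2 hqr ((n : ZMod (4 * q * r)) * b) =
      (((n : ZMod 4) * (e4 hq2 hr2 hqr b).1.1, (n : ZMod q) * (e4 hq2 hr2 hqr b).1.2),
        (n : ZMod r) * (e4 hq2 hr2 hqr b).2) := by
  rw [map_mul, e4_nat]; rfl

/-- odd distributions of level `4 * q * r` in coordinates -/
structure D4 {Q : Type*} [AddCommGroup Q] (F : ZMod 4 → ZMod q → ZMod r → Q) : Prop where
  neg : ∀ a v w, F (-a) (-v) (-w) = - F a v w
  h0 : F 0 0 0 = 0
  h2 : F 2 0 0 = 0
  d2 : ∀ a v w, F a v w + F (a + 2) v w = F (2 * a) (2 * v) (2 * w)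
  dq : ∀ a w, ∑ v, F a v w = F ((q : ZMod 4) * a) 0 ((q : ZMod r) * w)
  dr : ∀ a v, ∑ w, F a v w = F ((r : ZMod 4) * a) ((r : ZMod q) * v) 0

lemma two_ne {q : ℕ} [hq : Fact q.Prime] (hq2 : q ≠ 2) : (2 : ZMod q) ≠ 0 := by
  have := pq_ne (p := q) (q := 2) hq2
  exact_mod_cast this

lemma four_ne {q : ℕ} [hq : Fact q.Prime] (hq2 : q ≠ 2) : (4 : ZMod q) ≠ 0 := by
  have h1 := two_ne hq2
  have : (4 : ZMod q) = 2 * 2 := by norm_num
  rw [this]
  exact mul_ne_zero h1 h1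

lemma odd_mul_two {q : ℕ} [hq : Fact q.Prime] (hq2 : q ≠ 2) : (q : ZMod 4) * 2 = 2 := by
  rcases mod4 hq2 with ⟨-, h⟩ | ⟨-, h⟩ <;> rw [h] <;> decide

variable [NeZero (4 * q * r)]

lemma tf_d4 {Q : Type*} [AddCommGroup Q] {c : ZMod (4 * q * r) → Q} (hc : OddDist c) :
    D4 (tf hq2 hr2 hqr c) where
  neg := fun u v w => by
    unfold tf
    rw [← hc.neg, ← map_neg]; rfl
  h0 := by
    unfold tf
    have : (((0 : ZMod 4), (0 : ZMod q)), (0 : ZMod r)) = 0 := rfl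
    rw [this, map_zero]
    exact hc.half 0 (by simp)
  h2 := by
    unfold tf
    apply hc.half
    rw [← map_add]
    have : (((2 : ZMod 4), (0 : ZMod q)), (0 : ZMod r)) + (((2 : ZMod 4), (0 : ZMod q)), (0 : ZMod r))
        = 0 := by
      refine Prod.ext (Prod.ext ?_ ?_) ?_
      · show (2 : ZMod 4) + 2 = 0
        decide
      · exact add_zero _
      · exact add_zero _
    rw [this, map_zero]
  d2 := fun a v w => by
    have h1 := hc.dist 2 (2 * q * r) Nat.prime_two (by ring) ((e4 hq2 hr2 hqr).symm ((a, v), w))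
    rw [sum_range_succ, sum_range_one] at h1
    rw [tf_apply hq2 hr2 hqr c (_ + ((0 : ℕ) : ZMod (4 * q * r)) * _),
      tf_apply hq2 hr2 hqr c (_ + ((1 : ℕ) : ZMod (4 * q * r)) * _),
      tf_apply hq2 hr2 hqr c (_ * _), e4_shift, e4_shift, e4_mul,
      RingEquiv.apply_symm_apply] at h1
    have e1 : ((2 * q * r : ℕ) : ZMod 4) = 2 := by
      push_cast
      have h3 := odd_mul_two (q := q) hq2
      have h4 := odd_mul_two (q := r) hr2
      calc (2 : ZMod 4) * q * r = r * (q * 2) := by ring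
        _ = 2 := by rw [h3, h4]
    have e2 : ((2 * q * r : ℕ) : ZMod q) = 0 := by
      rw [ZMod.natCast_eq_zero_iff]; exact ⟨2 * r, by ring⟩
    have e3 : ((2 * q * r : ℕ) : ZMod r) = 0 := by
      rw [ZMod.natCast_eq_zero_iff]; exact ⟨2 * q, by ring⟩
    simp only [e1, e2, e3, Nat.cast_zero, Nat.cast_one, zero_mul, one_mul, add_zero] at h1
    exact h1
  dq := fun a w => by
    have h1 := hc.dist q (4 * r) hq.out (by ring) ((e4 hq2 hr2 hqr).symm ((a, 0), w))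
    rw [tf_apply hq2 hr2 hqr c (_ * _), e4_mul, RingEquiv.apply_symm_apply, mul_zero] at h1
    rw [← h1, ← sum_range_shift (fun v => tf hq2 hr2 hqr c a v w) 0
      (k := ((4 * r : ℕ) : ZMod q)) (by
        push_cast
        exact mul_ne_zero (four_ne hq2) (pq_ne hqr))]
    refine sum_congr rfl fun i _ => ?_
    have e1 : ((4 * r : ℕ) : ZMod 4) = 0 := by
      rw [ZMod.natCast_eq_zero_iff]; exact ⟨r, rfl⟩
    have e3 : ((4 * r : ℕ) : ZMod r) = 0 := by
      rw [ZMod.natCast_eq_zero_iff]; exact ⟨4, by ring⟩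
    rw [tf_apply hq2 hr2 hqr c (_ + _), e4_shift, RingEquiv.apply_symm_apply, e1, e3, mul_zero,
      mul_zero, add_zero, add_zero]
  dr := fun a v => by
    have h1 := hc.dist r (4 * q) hr.out (by ring) ((e4 hq2 hr2 hqr).symm ((a, v), 0))
    rw [tf_apply hq2 hr2 hqr c (_ * _), e4_mul, RingEquiv.apply_symm_apply, mul_zero] at h1
    rw [← h1, ← sum_range_shift (fun w => tf hq2 hr2 hqr c a v w) 0
      (k := ((4 * q : ℕ) : ZMod r)) (by
        push_cast
        exact mul_ne_zero (four_ne hr2) (pq_ne (fun h => hqr h.symm)))]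
    refine sum_congr rfl fun i _ => ?_
    have e1 : ((4 * q : ℕ) : ZMod 4) = 0 := by
      rw [ZMod.natCast_eq_zero_iff]; exact ⟨q, rfl⟩
    have e3 : ((4 * q : ℕ) : ZMod q) = 0 := by
      rw [ZMod.natCast_eq_zero_iff]; exact ⟨4, by ring⟩
    rw [tf_apply hq2 hr2 hqr c (_ + _), e4_shift, RingEquiv.apply_symm_apply, e1, e3, mul_zero,
      mul_zero, add_zero, add_zero]

lemma d4_odd {g : ZMod 4 → ZMod q → ZMod r → ℤ} (hg : D4 g) :
    OddDist (fun b : ZMod (4 * q * r) =>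
      g (e4 hq2 hr2 hqr b).1.1 (e4 hq2 hr2 hqr b).1.2 (e4 hq2 hr2 hqr b).2) where
  neg := fun a => by
    rw [map_neg]
    exact hg.neg _ _ _
  half := fun a ha => by
    have h1 : a = -a := eq_neg_of_add_eq_zero_left ha
    have h2 : g (e4 hq2 hr2 hqr a).1.1 (e4 hq2 hr2 hqr a).1.2 (e4 hq2 hr2 hqr a).2 =
        - g (e4 hq2 hr2 hqr a).1.1 (e4 hq2 hr2 hqr a).1.2 (e4 hq2 hr2 hqr a).2 := by
      conv_lhs => rw [h1, map_neg]
      exact hg.neg _ _ _
    linarith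
  dist := fun l d hl hd a => by
    have hcase : l = 2 ∨ l = q ∨ l = r := by
      have h1 : l ∣ 4 * q * r := by rw [← hd]; exact dvd_mul_right l d
      rcases (Nat.Prime.dvd_mul hl).mp h1 with h | h
      · rcases (Nat.Prime.dvd_mul hl).mp h with h | h
        · left
          have h2 : l ∣ 2 ^ 2 := h
          exact (Nat.prime_dvd_prime_iff_eq hl Nat.prime_two).mp (hl.dvd_of_dvd_pow h2)
        · exact Or.inr (Or.inl ((Nat.prime_dvd_prime_iff_eq hl hq.out).mp h))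
      · exact Or.inr (Or.inr ((Nat.prime_dvd_prime_iff_eq hl hr.out).mp h))
    rcases hcase with h | h | h
    · have hd' : d = 2 * q * r := by
        have h9 : 2 * d = 2 * (2 * q * r) := by
          rw [h] at hd
          rw [hd]; ring
        exact Nat.eq_of_mul_eq_mul_left (by norm_num) h9
      rw [h, hd', sum_range_succ, sum_range_one]
      simp only [e4_shift, e4_mul]
      have e1 : ((2 * q * r : ℕ) : ZMod 4) = 2 := by
        push_cast
        have h3 := odd_mul_two (q := q) hq2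
        have h4 := odd_mul_two (q := r) hr2
        calc (2 : ZMod 4) * q * r = r * (q * 2) := by ring
          _ = 2 := by rw [h3, h4]
      have e2 : ((2 * q * r : ℕ) : ZMod q) = 0 := by
        rw [ZMod.natCast_eq_zero_iff]; exact ⟨2 * r, by ring⟩
      have e3 : ((2 * q * r : ℕ) : ZMod r) = 0 := by
        rw [ZMod.natCast_eq_zero_iff]; exact ⟨2 * q, by ring⟩
      simp only [e1, e2, e3, Nat.cast_zero, Nat.cast_one, zero_mul, one_mul, add_zero, mul_zero]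
      have h5 := hg.d2 (e4 hq2 hr2 hqr a).1.1 (e4 hq2 hr2 hqr a).1.2 (e4 hq2 hr2 hqr a).2
      exact_mod_cast h5
    · have hd' : d = 4 * r := Nat.eq_of_mul_eq_mul_left hq.out.pos (by rw [← h, hd, h]; ring)
      rw [h, hd']
      have e1 : ((4 * r : ℕ) : ZMod 4) = 0 := by
        rw [ZMod.natCast_eq_zero_iff]; exact ⟨r, rfl⟩
      have e3 : ((4 * r : ℕ) : ZMod r) = 0 := by
        rw [ZMod.natCast_eq_zero_iff]; exact ⟨4, by ring⟩
      simp only [e4_shift, e4_mul, e1, e3, mul_zero, add_zero]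
      rw [sum_range_shift (fun v => g (e4 hq2 hr2 hqr a).1.1 v (e4 hq2 hr2 hqr a).2) _
        (k := ((4 * r : ℕ) : ZMod q)) (by
          push_cast
          exact mul_ne_zero (four_ne hq2) (pq_ne hqr)), hg.dq]
      simp
    · have hd' : d = 4 * q := Nat.eq_of_mul_eq_mul_left hr.out.pos (by rw [← h, hd, h]; ring)
      rw [h, hd']
      have e1 : ((4 * q : ℕ) : ZMod 4) = 0 := by
        rw [ZMod.natCast_eq_zero_iff]; exact ⟨q, rfl⟩
      have e3 : ((4 * q : ℕ) : ZMod q) = 0 := by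
        rw [ZMod.natCast_eq_zero_iff]; exact ⟨4, by ring⟩
      simp only [e4_shift, e4_mul, e1, e3, mul_zero, add_zero]
      rw [sum_range_shift (fun w => g (e4 hq2 hr2 hqr a).1.1 (e4 hq2 hr2 hqr a).1.2 w) _
        (k := ((4 * q : ℕ) : ZMod r)) (by
          push_cast
          exact mul_ne_zero (four_ne hr2) (pq_ne (fun h => hqr h.symm))), hg.dr]
      simp

lemma sum_e4 {Q : Type*} [AddCommMonoid Q] (F : ZMod (4 * q * r) → Q) :
    ∑ b, F b = ∑ a, ∑ v, ∑ w, tf hq2 hr2 hqr F a v w := by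
  have h1 : ∑ u, ∑ v, ∑ w, tf hq2 hr2 hqr F u v w =
      ∑ x : (ZMod 4 × ZMod q) × ZMod r, tf hq2 hr2 hqr F x.1.1 x.1.2 x.2 := by
    rw [Fintype.sum_prod_type (f := fun x : (ZMod 4 × ZMod q) × ZMod r =>
      tf hq2 hr2 hqr F x.1.1 x.1.2 x.2), Fintype.sum_prod_type]
  rw [h1]
  exact Fintype.sum_equiv (e4 hq2 hr2 hqr).toEquiv _ _ fun a => tf_apply hq2 hr2 hqr F a

/-! ### The coordinates of `ZMod 3` -/

section cc
variable {Q : Type*} [AddCommGroup Q]

/-- from `ZMod 4` to `ZMod 3` in the first coordinate -/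
def CCF (F : ZMod 4 → ZMod q → ZMod r → Q) (u : ZMod 3) (v : ZMod q) (w : ZMod r) : Q :=
  if u = 0 then F 0 (2 * v) (2 * w) else if u = 1 then F 1 v w else F (-1) v w

lemma CCF_0 (F : ZMod 4 → ZMod q → ZMod r → Q) (v : ZMod q) (w : ZMod r) :
    CCF F 0 v w = F 0 (2 * v) (2 * w) := if_pos rfl

lemma CCF_1 (F : ZMod 4 → ZMod q → ZMod r → Q) (v : ZMod q) (w : ZMod r) :
    CCF F 1 v w = F 1 v w := by
  unfold CCF
  rw [if_neg (by decide), if_pos rfl]

lemma CCF_n (F : ZMod 4 → ZMod q → ZMod r → Q) (v : ZMod q) (w : ZMod r) :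
    CCF F (-1) v w = F (-1) v w := by
  unfold CCF
  rw [if_neg (by decide), if_neg (by decide)]

/-- from `ZMod 3` to `ZMod 4` in the first coordinate -/
noncomputable def FCC (C : ZMod 3 → ZMod q → ZMod r → Q) (a : ZMod 4) (v : ZMod q) (w : ZMod r) :
    Q :=
  if a = 0 then C 0 (2⁻¹ * v) (2⁻¹ * w) else if a = 1 then C 1 v w else
    if a = -1 then C (-1) v w else C 0 v w - C 0 (2⁻¹ * v) (2⁻¹ * w)

lemma FCC_0 (C : ZMod 3 → ZMod q → ZMod r → Q) (v : ZMod q) (w : ZMod r) :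
    FCC C 0 v w = C 0 (2⁻¹ * v) (2⁻¹ * w) := if_pos rfl

lemma FCC_1 (C : ZMod 3 → ZMod q → ZMod r → Q) (v : ZMod q) (w : ZMod r) :
    FCC C 1 v w = C 1 v w := by
  unfold FCC
  rw [if_neg (by decide), if_pos rfl]

lemma FCC_n (C : ZMod 3 → ZMod q → ZMod r → Q) (v : ZMod q) (w : ZMod r) :
    FCC C (-1) v w = C (-1) v w := by
  unfold FCC
  rw [if_neg (by decide), if_neg (by decide), if_pos rfl]

lemma FCC_2 (C : ZMod 3 → ZMod q → ZMod r → Q) (v : ZMod q) (w : ZMod r) :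
    FCC C 2 v w = C 0 v w - C 0 (2⁻¹ * v) (2⁻¹ * w) := by
  unfold FCC
  rw [if_neg (by decide), if_neg (by decide), if_neg (by decide)]

/-- the residue of `n` modulo `4` as a sign in `ZMod 3` -/
def eps (n : ℕ) : ZMod 3 := if n % 4 = 1 then 1 else -1

/-- the multipliers -/
def mu (q r : ℕ) : Mu 3 q r where
  pq := 2
  pr := 2
  qp := eps q
  qr := (q : ZMod r)
  rp := eps r
  rq := (r : ZMod q)

lemma eps_ne (n : ℕ) : eps n ≠ 0 := by
  unfold eps
  split_ifs <;> decide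

include hq2 hr2 hqr in
lemma mu_ok : (mu q r).Ok :=
  ⟨two_ne hq2, two_ne hr2, eps_ne q, pq_ne (fun h => hqr h.symm), eps_ne r, pq_ne hqr⟩

/-- multiplication by an odd prime in the first coordinate -/
lemma CCF_eps {l : ℕ} [Fact l.Prime] (hl2 : l ≠ 2) (F : ZMod 4 → ZMod q → ZMod r → Q)
    (v : ZMod q) (w : ZMod r) :
    (CCF F (eps l * 0) v w = F ((l : ZMod 4) * 0) (2 * v) (2 * w)) ∧
    (CCF F (eps l * 1) v w = F ((l : ZMod 4) * 1) v w) ∧
    (CCF F (eps l * -1) v w = F ((l : ZMod 4) * -1) v w) := by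
  refine ⟨by rw [mul_zero, mul_zero]; exact CCF_0 F v w, ?_, ?_⟩
  · rcases mod4 hl2 with ⟨h1, h2⟩ | ⟨h1, h2⟩
    · rw [h2, eps, if_pos h1, mul_one, mul_one]; exact CCF_1 F v w
    · rw [h2, eps, if_neg h1, mul_one, mul_one]; exact CCF_n F v w
  · rcases mod4 hl2 with ⟨h1, h2⟩ | ⟨h1, h2⟩
    · rw [h2, eps, if_pos h1, one_mul, one_mul]; exact CCF_n F v w
    · rw [h2, eps, if_neg h1, neg_mul_neg, neg_mul_neg, one_mul, one_mul]; exact CCF_1 F v w

lemma FCC_eps {l : ℕ} [Fact l.Prime] (hl2 : l ≠ 2) (C : ZMod 3 → ZMod q → ZMod r → Q)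
    (v : ZMod q) (w : ZMod r) :
    (FCC C ((l : ZMod 4) * 1) v w = C (eps l * 1) v w) ∧
    (FCC C ((l : ZMod 4) * -1) v w = C (eps l * -1) v w) := by
  refine ⟨?_, ?_⟩
  · rcases mod4 hl2 with ⟨h1, h2⟩ | ⟨h1, h2⟩
    · rw [h2, eps, if_pos h1, mul_one, mul_one]; exact FCC_1 C v w
    · rw [h2, eps, if_neg h1, mul_one, mul_one]; exact FCC_n C v w
  · rcases mod4 hl2 with ⟨h1, h2⟩ | ⟨h1, h2⟩
    · rw [h2, eps, if_pos h1, one_mul, one_mul]; exact FCC_n C v w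
    · rw [h2, eps, if_neg h1, neg_mul_neg, neg_mul_neg, one_mul, one_mul]; exact FCC_1 C v w

lemma cases3 (P : ZMod 3 → Prop) (h0 : P 0) (h1 : P 1) (hn : P (-1)) : ∀ u, P u := by
  intro u
  have : u = 0 ∨ u = 1 ∨ u = -1 := by
    revert u; decide
  rcases this with rfl | rfl | rfl
  exacts [h0, h1, hn]

lemma cases4 (P : ZMod 4 → Prop) (h0 : P 0) (h1 : P 1) (h2 : P 2) (hn : P (-1)) : ∀ u, P u := by
  intro u
  have : u = 0 ∨ u = 1 ∨ u = 2 ∨ u = -1 := by
    revert u; decide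
  rcases this with rfl | rfl | rfl | rfl
  exacts [h0, h1, h2, hn]

lemma sum_two_mul {n : ℕ} [Fact n.Prime] (hn2 : n ≠ 2) (f : ZMod n → Q) :
    ∑ v, f (2 * v) = ∑ v, f v :=
  Fintype.sum_bijective (fun v : ZMod n => 2 * v) (mulLeft_bijective₀ _ (two_ne hn2)) _ _
    fun _ => rfl

lemma sum_half_mul {n : ℕ} [Fact n.Prime] (hn2 : n ≠ 2) (f : ZMod n → Q) :
    ∑ v, f (2⁻¹ * v) = ∑ v, f v :=
  Fintype.sum_bijective (fun v : ZMod n => 2⁻¹ * v)
    (mulLeft_bijective₀ _ (inv_ne_zero (two_ne hn2))) _ _ fun _ => rfl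

include hq2 hr2 in
lemma ccf_g3 {F : ZMod 4 → ZMod q → ZMod r → Q} (h : D4 F) : G3 (mu q r) (CCF F) where
  neg := by
    intro u v w
    revert u
    refine cases3 _ ?_ ?_ ?_
    · rw [neg_zero, CCF_0, CCF_0, mul_neg, mul_neg, ← h.neg, neg_zero]
    · rw [CCF_n, CCF_1, h.neg]
    · rw [neg_neg, CCF_n, CCF_1, ← h.neg, neg_neg]
  zero := by rw [CCF_0, mul_zero, mul_zero, h.h0]
  dp := by
    intro v w
    show ∑ u, CCF F u v w = CCF F 0 (2 * v) (2 * w)
    rw [s3, CCF_0, CCF_0, CCF_1, CCF_n]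
    have h1 := h.d2 1 v w
    have e1 : (1 : ZMod 4) + 2 = -1 := by decide
    have e2 : (2 : ZMod 4) * 1 = 0 + 2 := by decide
    rw [e1, e2] at h1
    have h2 := h.d2 0 (2 * v) (2 * w)
    rw [mul_zero] at h2
    rw [add_assoc, h1, h2]
  dq := by
    intro u w
    show ∑ v, CCF F u v w = CCF F (eps q * u) 0 ((q : ZMod r) * w)
    revert u
    refine cases3 _ ?_ ?_ ?_
    · rw [(CCF_eps hq2 F 0 ((q : ZMod r) * w)).1, mul_zero, mul_zero]
      simp only [CCF_0]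
      rw [sum_two_mul hq2 (fun v => F 0 v (2 * w)), h.dq, mul_zero]
      congr 1
      ring
    · rw [(CCF_eps hq2 F 0 ((q : ZMod r) * w)).2.1, ← h.dq]
      simp only [CCF_1]
    · rw [(CCF_eps hq2 F 0 ((q : ZMod r) * w)).2.2, ← h.dq]
      simp only [CCF_n]
  dr := by
    intro u v
    show ∑ w, CCF F u v w = CCF F (eps r * u) ((r : ZMod q) * v) 0
    revert u
    refine cases3 _ ?_ ?_ ?_
    · rw [(CCF_eps hr2 F ((r : ZMod q) * v) 0).1, mul_zero, mul_zero]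
      simp only [CCF_0]
      rw [sum_two_mul hr2 (fun w => F 0 (2 * v) w), h.dr, mul_zero]
      congr 1
      ring
    · rw [(CCF_eps hr2 F ((r : ZMod q) * v) 0).2.1, ← h.dr]
      simp only [CCF_1]
    · rw [(CCF_eps hr2 F ((r : ZMod q) * v) 0).2.2, ← h.dr]
      simp only [CCF_n]

include hq2 hr2 in
lemma fcc_d4 {C : ZMod 3 → ZMod q → ZMod r → Q} (h : G3 (mu q r) C) : D4 (FCC C) where
  neg := by
    intro a v w
    have hC : ∀ v w, C 0 (-v) (-w) = - C 0 v w := fun v w => by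
      have := h.neg 0 v w
      rwa [neg_zero] at this
    revert a
    refine cases4 _ ?_ ?_ ?_ ?_
    · rw [neg_zero, FCC_0, FCC_0, mul_neg, mul_neg, hC]
    · rw [FCC_n, FCC_1, h.neg]
    · have e1 : (-2 : ZMod 4) = 2 := by decide
      rw [e1, FCC_2, FCC_2, mul_neg, mul_neg, hC, hC]
      abel
    · rw [neg_neg, FCC_n, FCC_1, ← h.neg, neg_neg]
  h0 := by rw [FCC_0, mul_zero, mul_zero, h.zero]
  h2 := by rw [FCC_2, mul_zero, mul_zero, sub_self]
  d2 := by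
    intro a v w
    have e0 : (2 : ZMod q)⁻¹ * (2 * v) = v := inv_mul_cancel_left₀ (two_ne hq2) v
    have e0' : (2 : ZMod r)⁻¹ * (2 * w) = w := inv_mul_cancel_left₀ (two_ne hr2) w
    have hdp : C 0 v w + C 1 v w + C (-1) v w = C 0 (2 * v) (2 * w) := by
      have := h.dp v w
      rw [s3] at this
      exact this
    revert a
    refine cases4 _ ?_ ?_ ?_ ?_
    · rw [zero_add, mul_zero, FCC_0, FCC_2, FCC_0, e0, e0']
      abel
    · have e1 : (1 : ZMod 4) + 2 = -1 := by decide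
      rw [e1, mul_one, FCC_1, FCC_n, FCC_2, e0, e0', ← hdp]
      abel
    · have e1 : (2 : ZMod 4) + 2 = 0 := by decide
      have e2 : (2 : ZMod 4) * 2 = 0 := by decide
      rw [e1, e2, FCC_2, FCC_0, FCC_0, e0, e0']
      abel
    · have e1 : (-1 : ZMod 4) + 2 = 1 := by decide
      have e2 : (2 : ZMod 4) * -1 = 2 := by decide
      rw [e1, e2, FCC_1, FCC_n, FCC_2, e0, e0', ← hdp]
      abel
  dq := by
    intro a w
    have h0 : ∀ w, ∑ v, C 0 v w = C 0 0 ((q : ZMod r) * w) := fun w => by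
      have : ∑ v, C 0 v w = C (eps q * 0) 0 ((q : ZMod r) * w) := h.dq 0 w
      rwa [mul_zero] at this
    revert a
    refine cases4 _ ?_ ?_ ?_ ?_
    · rw [mul_zero]
      simp only [FCC_0]
      rw [sum_half_mul hq2 (fun v => C 0 v (2⁻¹ * w)), h0, mul_zero]
      congr 1
      ring
    · rw [(FCC_eps hq2 C 0 ((q : ZMod r) * w)).1]
      simp only [FCC_1]
      exact h.dq 1 w
    · rw [odd_mul_two hq2]
      simp only [FCC_2]
      rw [sum_sub_distrib, sum_half_mul hq2 (fun v => C 0 v (2⁻¹ * w)), h0, h0, mul_zero]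
      congr 2
      ring
    · rw [(FCC_eps hq2 C 0 ((q : ZMod r) * w)).2]
      simp only [FCC_n]
      exact h.dq (-1) w
  dr := by
    intro a v
    have h0 : ∀ v, ∑ w, C 0 v w = C 0 ((r : ZMod q) * v) 0 := fun v => by
      have : ∑ w, C 0 v w = C (eps r * 0) ((r : ZMod q) * v) 0 := h.dr 0 v
      rwa [mul_zero] at this
    revert a
    refine cases4 _ ?_ ?_ ?_ ?_
    · rw [mul_zero]
      simp only [FCC_0]
      rw [sum_half_mul hr2 (fun w => C 0 (2⁻¹ * v) w), h0, mul_zero]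
      congr 1
      ring
    · rw [(FCC_eps hr2 C ((r : ZMod q) * v) 0).1]
      simp only [FCC_1]
      exact h.dr 1 v
    · rw [odd_mul_two hr2]
      simp only [FCC_2]
      rw [sum_sub_distrib, sum_half_mul hr2 (fun w => C 0 (2⁻¹ * v) w), h0, h0, mul_zero]
      congr 2
      ring
    · rw [(FCC_eps hr2 C ((r : ZMod q) * v) 0).2]
      simp only [FCC_n]
      exact h.dr (-1) v

include hq2 hr2 in
lemma ccf_fcc (C : ZMod 3 → ZMod q → ZMod r → Q) : CCF (FCC C) = C := by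
  funext u v w
  revert u
  refine cases3 _ ?_ ?_ ?_
  · rw [CCF_0, FCC_0, inv_mul_cancel_left₀ (two_ne hq2), inv_mul_cancel_left₀ (two_ne hr2)]
  · rw [CCF_1, FCC_1]
  · rw [CCF_n, FCC_n]

/-- the coefficients in the coordinates of `ZMod 3` -/
def XX (x : ZMod 4 → ZMod q → ZMod r → ℤ) (u : ZMod 3) (v : ZMod q) (w : ZMod r) : ℤ :=
  if u = 0 then x 0 (2 * v) (2 * w) + x 2 v w - x 2 (2 * v) (2 * w) else
    if u = 1 then x 1 v w else x (-1) v w

include hq2 hr2 in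
lemma sum_XX (x : ZMod 4 → ZMod q → ZMod r → ℤ) {F : ZMod 4 → ZMod q → ZMod r → Q} (h : D4 F) :
    ∑ a, ∑ v, ∑ w, x a v w • F a v w = ∑ u, ∑ v, ∑ w, XX x u v w • CCF F u v w := by
  have e0 : ∀ v w, XX x 0 v w = x 0 (2 * v) (2 * w) + x 2 v w - x 2 (2 * v) (2 * w) :=
    fun v w => if_pos rfl
  have e1 : ∀ v w, XX x 1 v w = x 1 v w := fun v w => by
    unfold XX; rw [if_neg (by decide), if_pos rfl]
  have en : ∀ v w, XX x (-1) v w = x (-1) v w := fun v w => by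
    unfold XX; rw [if_neg (by decide), if_neg (by decide)]
  have hF2 : ∀ v w, F 2 v w = F 0 (2 * v) (2 * w) - F 0 v w := fun v w => by
    have := h.d2 0 v w
    rw [mul_zero, zero_add] at this
    rw [← this]; abel
  have hdil : ∀ f : ZMod q → ZMod r → Q, ∑ v, ∑ w, f (2 * v) (2 * w) = ∑ v, ∑ w, f v w := by
    intro f
    rw [sum_two_mul hq2 (fun v => ∑ w, f v (2 * w))]
    exact sum_congr rfl fun v _ => sum_two_mul hr2 (fun w => f v w)
  rw [s4, s3]
  simp only [e0, e1, en, CCF_0, CCF_1, CCF_n]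
  have k0 : ∑ v, ∑ w, (x 0 (2 * v) (2 * w) + x 2 v w - x 2 (2 * v) (2 * w)) •
      F 0 (2 * v) (2 * w) = ∑ v, ∑ w, x 0 v w • F 0 v w + ∑ v, ∑ w, x 2 v w • F 2 v w := by
    simp only [hF2, sub_smul, add_smul, smul_sub, sum_sub_distrib, sum_add_distrib]
    rw [hdil (fun v w => x 0 v w • F 0 v w), hdil (fun v w => x 2 v w • F 0 v w)]
    abel
  rw [k0]
  abel

end cc

end F4

end Pool.Agent.NH35.HE
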