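import Pool.Agent.NH35.HE.StmF

/-! Products of Gauss sums and their weights. -/

set_option autoImplicit false
set_option linter.unusedSectionVars false

namespace Pool.Agent.NH35.HE

open Finset NumberField Ideal
open Pool.Agent.NH35.HD (sa xw iw zt)

theorem mon_append {n : ℕ} {R : Type} [CommMonoid R] (P Q : List (ZMod n × ZMod n))
    (y : ZMod n → ZMod n → R) : mon (P ++ Q) y = mon P y * mon Q y := by
  unfold mon
  rw [List.map_append, List.prod_append]

theorem mon_nil {n : ℕ} {R : Type} [CommMonoid R] (y : ZMod n → ZMod n → R) :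
    mon [] y = 1 := rfl

theorem mw_append {n : ℕ} [NeZero n] (P Q : List (ZMod n × ZMod n)) (t : (ZMod n)ˣ) :
    mw (P ++ Q) t = mw P t + mw Q t := by
  unfold mw
  rw [List.map_append, List.sum_append]

section
variable {n : ℕ} [NeZero n] {K : Type} [Field K] [NumberField K] [IsCyclotomicExtension {n} ℚ K]

theorem gp_inj (n : ℕ) [NeZero n] {K : Type} [Field K] [NumberField K]
    [IsCyclotomicExtension {n} ℚ K] {A : Type} [CommRing A] [IsDomain A] [CharZero A]
    (τ : 𝓞 K →+* A) : Function.Injective τ := by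
  rw [injective_iff_map_eq_zero]
  intro x hx
  have h2 := congrArg τ (HD.norm_prod n K x)
  rw [map_intCast, map_prod, Finset.prod_eq_zero (i := 1) (Finset.mem_univ _)
    (by rw [HD.sa_one, hx])] at h2
  exact Algebra.norm_eq_zero_iff.1 (Int.cast_eq_zero.1 h2)

variable {F : Type} [Field F] [Fintype F] {χ : MulChar F (𝓞 K)} {A : Type} [CommRing A]
  [IsDomain A] [CharZero A]

/-- the negative of the Gauss sum -/
noncomputable def gpG (χ : MulChar F (𝓞 K)) (τ : 𝓞 K →+* A) (ψ : AddChar F A) (a : ZMod n) : A :=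
  -gaussSum ((χ.ringHomComp τ) ^ a.val) ψ

theorem gpG_zero {τ : 𝓞 K →+* A} {ψ : AddChar F A} (hψ : ψ ≠ 1) :
    gpG χ τ ψ (0 : ZMod n) = 1 := by
  unfold gpG
  rw [ZMod.val_zero, pow_zero, gaussSum_one_left hψ, neg_neg]

theorem gp_step (hn : 2 < n) (ho : orderOf χ = n) {τ : 𝓞 K →+* A} {ψ : AddChar F A}
    (hψ : ψ ≠ 1) (S a : ZMod n) :
    gpG χ τ ψ S * gpG χ τ ψ a = τ (mon (st S a) (yj χ)) * gpG χ τ ψ (S + a) := by
  classical
  have hχ : χ ^ n = 1 := by rw [← ho]; exact pow_orderOf_eq_one χ
  have hinj := gp_inj n (K := K) τ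
  have hnt : ∀ {c : ZMod n}, c ≠ 0 → (χ.ringHomComp τ) ^ c.val ≠ 1 := by
    intro c hc
    rw [MulChar.ringHomComp_pow]
    exact (MulChar.ringHomComp_ne_one_iff hinj).2 (HG.jpow_ne ho hc)
  have hadd : ∀ c d : ZMod n, (χ.ringHomComp τ) ^ c.val * (χ.ringHomComp τ) ^ d.val =
      (χ.ringHomComp τ) ^ (c + d).val := by
    intro c d
    rw [MulChar.ringHomComp_pow, MulChar.ringHomComp_pow, MulChar.ringHomComp_pow,
      ← MulChar.ringHomComp_mul, HG.jpow_add hχ]
  by_cases ha : a = 0
  · rw [ha, gpG_zero hψ]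
    have h1 : st S (0 : ZMod n) = [] := by
      unfold st
      rw [if_pos rfl]
    rw [h1, mon_nil, map_one, add_zero, mul_one, one_mul]
  by_cases hSa : S + a = 0
  · have hst : st S a = [(S, a), (1, 0)] := by
      unfold st
      rw [if_neg ha, if_pos hSa]
    have hS : S ≠ 0 := by
      intro h
      rw [h, zero_add] at hSa
      exact ha hSa
    have h10 : (1 : ZMod n) ≠ 0 := by
      have : Fact (1 < n) := ⟨by omega⟩
      exact one_ne_zero
    have hinv : χ ^ a.val = (χ ^ S.val)⁻¹ := by
      have h1 : χ ^ S.val * χ ^ a.val = 1 := by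
        rw [HG.jpow_add hχ, hSa, ZMod.val_zero, pow_zero]
      exact (inv_eq_of_mul_eq_one_right h1).symm
    have hy1 : yj χ S a = (χ ^ S.val) (-1) := by
      unfold yj
      rw [if_neg ha, add_zero, hinv, jacobiSum_nontrivial_inv (HG.jpow_ne ho hS), neg_neg]
    have hy2 : yj χ (1 : ZMod n) 0 = ((Fintype.card F : ℕ) : 𝓞 K) := by
      unfold yj
      rw [if_pos rfl, ZMod.val_zero, pow_zero, jacobiSum_comm,
        jacobiSum_one_nontrivial (HG.jpow_ne ho h10)]
      ring
    have hmon : mon (st S a) (yj χ) = (χ ^ S.val) (-1) * ((Fintype.card F : ℕ) : 𝓞 K) := by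
      rw [hst]
      unfold mon
      simp only [List.map_cons, List.map_nil, List.prod_cons, List.prod_nil, mul_one]
      rw [hy1, hy2]
    have hinv' : (χ.ringHomComp τ) ^ a.val = ((χ.ringHomComp τ) ^ S.val)⁻¹ := by
      have h1 : (χ.ringHomComp τ) ^ S.val * (χ.ringHomComp τ) ^ a.val = 1 := by
        rw [hadd, hSa, ZMod.val_zero, pow_zero]
      exact (inv_eq_of_mul_eq_one_right h1).symm
    rw [hmon, hSa, gpG_zero hψ, mul_one, map_mul, map_natCast]
    unfold gpG
    rw [neg_mul_neg, hinv', ← mul_gaussSum_inv_eq_gaussSum ((χ.ringHomComp τ) ^ S.val)⁻¹ ψ]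
    have h2 := gaussSum_mul_gaussSum_eq_card (hnt hS) (AddChar.IsPrimitive.of_ne_one hψ)
    have h3 : ((χ.ringHomComp τ) ^ S.val)⁻¹ (-1) = τ ((χ ^ S.val) (-1)) := by
      rw [MulChar.inv_apply', inv_neg_one, MulChar.ringHomComp_pow, MulChar.ringHomComp_apply]
    rw [h3, mul_left_comm, h2]
  · have hst : st S a = [(S, a)] := by
      unfold st
      rw [if_neg ha, if_neg hSa]
    have hmon : mon (st S a) (yj χ) = -jacobiSum (χ ^ S.val) (χ ^ a.val) := by
      rw [hst]
      unfold mon
      simp only [List.map_cons, List.map_nil, List.prod_cons, List.prod_nil, mul_one]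
      unfold yj
      rw [if_neg ha, add_zero]
    have h1 := jacobiSum_mul_nontrivial (χ := (χ.ringHomComp τ) ^ S.val)
      (φ := (χ.ringHomComp τ) ^ a.val) (by rw [hadd]; exact hnt hSa) ψ
    rw [hmon, map_neg]
    unfold gpG
    rw [neg_mul_neg, neg_mul_neg, ← h1, hadd, MulChar.ringHomComp_pow, MulChar.ringHomComp_pow,
      MulChar.ringHomComp_pow, jacobiSum_ringHomComp, mul_comm]

theorem gp_ind (hn : 2 < n) (ho : orderOf χ = n) {τ : 𝓞 K →+* A} {ψ : AddChar F A}
    (hψ : ψ ≠ 1) (L : List (ZMod n)) : ∀ S : ZMod n,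
    gpG χ τ ψ S * (L.map fun a => gpG χ τ ψ a).prod =
      τ (mon (gl S L) (yj χ)) * gpG χ τ ψ (S + L.sum) := by
  induction L with
  | nil =>
    intro S
    have h1 : gl S ([] : List (ZMod n)) = [] := rfl
    rw [h1, mon_nil, map_one, List.map_nil, List.prod_nil, List.sum_nil, mul_one, one_mul, add_zero]
  | cons a L ih =>
    intro S
    have h1 : gl S (a :: L) = st S a ++ gl (S + a) L := rfl
    rw [h1, mon_append, map_mul, List.map_cons, List.prod_cons, List.sum_cons, ← mul_assoc,
      gp_step hn ho hψ, mul_assoc, ih (S + a), ← add_assoc, mul_assoc]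

/-- one step for the weights -/
theorem gw_step (hn : 2 < n) (S a : ZMod n) (t : (ZMod n)ˣ) :
    n * mw (st S a) t + (-((S + a) * (t : ZMod n))).val =
      (-(S * (t : ZMod n))).val + (-(a * (t : ZMod n))).val := by
  have hmul : ∀ {c : ZMod n}, c ≠ 0 → c * (t : ZMod n) ≠ 0 := fun hc => HG.jmul_ne hc t
  by_cases ha : a = 0
  · have h1 : st S a = [] := by
      unfold st
      rw [if_pos ha]
    have h2 : mw (st S a) t = 0 := by rw [h1]; rfl
    rw [h2, ha, zero_mul, neg_zero, ZMod.val_zero, add_zero, mul_zero, zero_add, add_zero]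
  have hneg : ∀ {x : ZMod n}, x ≠ 0 → (-x).val = n - x.val := by
    intro x hx
    have : NeZero x := ⟨hx⟩
    exact ZMod.val_neg_of_ne_zero x
  by_cases hSa : S + a = 0
  · have hst : st S a = [(S, a), (1, 0)] := by
      unfold st
      rw [if_neg ha, if_pos hSa]
    have h10 : (1 : ZMod n) ≠ 0 := by
      have : Fact (1 < n) := ⟨by omega⟩
      exact one_ne_zero
    have h1 : mw (st S a) t = 1 := by
      rw [hst]
      unfold mw
      simp only [List.map_cons, List.map_nil, List.sum_cons, List.sum_nil, add_zero]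
      have e1 : WW S a t = 0 := by
        unfold WW
        rw [if_neg ha, if_pos (Or.inr hSa)]
      have e2 : WW (1 : ZMod n) 0 t = 1 := by
        unfold WW
        rw [if_pos rfl, if_neg h10]
      rw [e1, e2]
    have hS : S = -a := eq_neg_of_add_eq_zero_left hSa
    rw [h1, hSa, zero_mul, neg_zero, ZMod.val_zero, hS, neg_mul, neg_neg, hneg (hmul ha)]
    have := ZMod.val_lt (a * (t : ZMod n))
    omega
  · have hst : st S a = [(S, a)] := by
      unfold st
      rw [if_neg ha, if_neg hSa]
    have h1 : mw (st S a) t = WW S a t := by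
      rw [hst]
      unfold mw
      simp only [List.map_cons, List.map_nil, List.sum_cons, List.sum_nil, add_zero]
    rw [h1]
    by_cases hS : S = 0
    · have e1 : WW S a t = 0 := by
        unfold WW
        rw [if_neg ha, if_pos (Or.inl hS)]
      rw [e1, hS, zero_add, zero_mul, neg_zero, ZMod.val_zero, mul_zero, zero_add]
    · have h2 : S * (t : ZMod n) ≠ 0 := hmul hS
      have h3 : a * (t : ZMod n) ≠ 0 := hmul ha
      have h4 : (S + a) * (t : ZMod n) ≠ 0 := hmul hSa
      rw [hneg h2, hneg h3, hneg h4]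
      have e1 : WW S a t = if (S * (t : ZMod n)).val + (a * (t : ZMod n)).val < n then 1 else 0 := by
        unfold WW
        rw [if_neg ha, if_neg (by tauto)]
      have h5 : ((S + a) * (t : ZMod n)).val =
          ((S * (t : ZMod n)).val + (a * (t : ZMod n)).val) % n := by
        rw [add_mul, ZMod.val_add]
      have h6 := ZMod.val_lt (S * (t : ZMod n))
      have h7 := ZMod.val_lt (a * (t : ZMod n))
      have h8 : ((S + a) * (t : ZMod n)).val ≠ 0 := by rwa [Ne, ZMod.val_eq_zero]
      rw [e1]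
      split_ifs with hlt
      · rw [Nat.mod_eq_of_lt hlt] at h5
        omega
      · have h9 : ((S * (t : ZMod n)).val + (a * (t : ZMod n)).val) % n =
            (S * (t : ZMod n)).val + (a * (t : ZMod n)).val - n := by
          rw [Nat.mod_eq_sub_mod (by omega), Nat.mod_eq_of_lt (by omega)]
        rw [h9] at h5
        omega

theorem gw_ind (hn : 2 < n) (t : (ZMod n)ˣ) (L : List (ZMod n)) : ∀ S : ZMod n,
    n * mw (gl S L) t + (-((S + L.sum) * (t : ZMod n))).val =
      (-(S * (t : ZMod n))).val + (L.map fun a => (-(a * (t : ZMod n))).val).sum := by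
  induction L with
  | nil =>
    intro S
    have h1 : gl S ([] : List (ZMod n)) = [] := rfl
    have h2 : mw ([] : List (ZMod n × ZMod n)) t = 0 := rfl
    rw [h1, h2, List.map_nil, List.sum_nil, List.sum_nil, mul_zero, zero_add, add_zero, add_zero]
  | cons a L ih =>
    intro S
    have h1 : gl S (a :: L) = st S a ++ gl (S + a) L := rfl
    have h2 := ih (S + a)
    have h3 := gw_step hn S a t
    rw [h1, mw_append, List.map_cons, List.sum_cons, List.sum_cons, ← add_assoc, mul_add]
    omega

end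

/-- (N6) -/
theorem gp : S_gp := by
  intro n _ K _ _ _ hn F _ _ χ ho L hL A _ _ _ τ ψ hψ
  have h := gp_ind hn ho hψ (τ := τ) L 0
  rw [hL, add_zero, gpG_zero hψ, one_mul, mul_one] at h
  exact h.symm

/-- (N7) -/
theorem gw : S_gw := by
  intro n _ hn L hL t
  have h := gw_ind hn t L 0
  rw [hL, add_zero, zero_mul, neg_zero, ZMod.val_zero, add_zero, zero_add] at h
  exact h

end Pool.Agent.NH35.HE
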