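import Pool.Agent.NH35.HE.StmF
import Pool.Agent.NH35.HG.Gsum

/-! The normalised Jacobi sums of a prime of degree one form a family. -/

set_option autoImplicit false
set_option linter.unusedSectionVars false

namespace Pool.Agent.NH35.HE

open Finset Pool.Agent.H916R2 Pool.Agent.H916K NumberField Ideal
open Pool.Agent.NH35.HD (sa xw iw zt zt_prim map_ztm sa_root distinct mem_map_sa absNorm_map_sa
  absNorm_nat map_sa_inj sa_one sa_mul norm_prod map_map_sa)
open Pool.Agent.NH35.HG (jn_dvd jexists_res jorder jchi_pow jchi_mod jsa_chi jmul_ne jval_ne jkey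
  jq jsa jpow_ne jpow_add jnorm jw jw_add jfac iw_add iw_zero iw_map)

section roots
variable {n : ℕ} [NeZero n] {R : Type} [CommRing R]

theorem jf_add {z : R} (hz : z ^ n = 1) (a b : ZMod n) :
    z ^ (a + b).val = z ^ a.val * z ^ b.val := by
  rw [ZMod.val_add, ← pow_add, ← pow_eq_pow_mod _ hz]

theorem jf_mul {z : R} (hz : z ^ n = 1) (a b : ZMod n) :
    z ^ (a * b).val = (z ^ b.val) ^ a.val := by
  rw [ZMod.val_mul, ← pow_mul, mul_comm b.val, ← pow_eq_pow_mod _ hz]

theorem jf_sum [IsDomain R] {z : R} (hz : z ^ n = 1) :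
    ((n : ℕ) : R) ∣ ∑ a : ZMod n, z ^ a.val := by
  by_cases h : z = 1
  · subst h
    simp
  · have h1 : z * ∑ a : ZMod n, z ^ a.val = ∑ a : ZMod n, z ^ a.val := by
      rw [Finset.mul_sum]
      refine Fintype.sum_equiv (Equiv.addRight 1) _ _ fun a => ?_
      rw [Equiv.coe_addRight, jf_add hz, mul_comm]
      congr 1
      by_cases h1 : n = 1
      · subst h1
        rw [pow_one] at hz
        exact absurd hz h
      · have : Fact (1 < n) := ⟨by have := NeZero.ne n; omega⟩
        rw [ZMod.val_one, pow_one]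
    have h2 : (z - 1) * ∑ a : ZMod n, z ^ a.val = 0 := by
      rw [sub_mul, h1, one_mul, sub_self]
    rcases mul_eq_zero.1 h2 with h3 | h3
    · exact absurd (sub_eq_zero.1 h3) h
    · rw [h3]
      exact dvd_zero _

end roots

section
variable {n : ℕ} [NeZero n] {K : Type} [Field K] [NumberField K] [IsCyclotomicExtension {n} ℚ K]
  {F : Type} [Field F] [Fintype F] {χ : MulChar F (𝓞 K)}

theorem jf_apply {x : F} (hx : x ≠ 0) (k : ℕ) : (χ ^ k) x = χ x ^ k := by
  have := MulChar.pow_apply_coe χ k (Units.mk0 x hx)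
  simpa using this

theorem jf_chi (hχ : χ ^ n = 1) (t : (ZMod n)ˣ) (a : ZMod n) (x : F) :
    sa n K t ((χ ^ a.val) x) = (χ ^ ((t : ZMod n) * a).val) x := by
  by_cases hx : x = 0
  · rw [hx, MulChar.map_zero, MulChar.map_zero, map_zero]
  · rw [jf_apply hx, jf_apply hx, map_pow, jsa_chi hχ t hx, mul_comm (t : ZMod n) a,
      jf_mul (jchi_pow hχ hx)]

theorem jf_ga (hχ : χ ^ n = 1) (t : (ZMod n)ˣ) (a b : ZMod n) :
    sa n K t (yj χ a b) = yj χ ((t : ZMod n) * a) ((t : ZMod n) * b) := by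
  have h1 : (t : ZMod n) * b = 0 ↔ b = 0 := Units.mul_right_eq_zero t
  unfold yj
  rw [map_add, map_neg]
  congr 1
  · congr 1
    unfold jacobiSum
    rw [map_sum]
    refine Finset.sum_congr rfl fun x _ => ?_
    rw [map_mul, jf_chi hχ, jf_chi hχ]
  · by_cases hb : b = 0
    · rw [if_pos hb, if_pos (h1.2 hb), map_sub, map_natCast, map_one]
    · rw [if_neg hb, if_neg (fun h => hb (h1.1 h)), map_zero]

theorem jf_zl (ho : orderOf χ = n) (b : ZMod n) : yj χ 0 b = 1 := by
  unfold yj
  rw [ZMod.val_zero, pow_zero]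
  by_cases hb : b = 0
  · rw [hb, if_pos rfl, ZMod.val_zero, pow_zero, jacobiSum_one_one]
    ring
  · rw [if_neg hb, jacobiSum_one_nontrivial (jpow_ne ho hb)]
    ring

theorem jf_zr (ho : orderOf χ = n) {a : ZMod n} (ha : a ≠ 0) :
    yj χ a 0 = ((Fintype.card F : ℕ) : 𝓞 K) := by
  unfold yj
  rw [if_pos rfl, ZMod.val_zero, pow_zero, jacobiSum_comm,
    jacobiSum_one_nontrivial (jpow_ne ho ha)]
  ring

theorem jf_inv (ho : orderOf χ = n) {a b : ZMod n} (ha : a ≠ 0) (hb : b ≠ 0) (hab : a + b = 0) :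
    yj χ a b = (χ ^ a.val) (-1) := by
  have hχ : χ ^ n = 1 := by rw [← ho]; exact pow_orderOf_eq_one χ
  have h1 : χ ^ b.val = (χ ^ a.val)⁻¹ := by
    rw [eq_comm, inv_eq_iff_mul_eq_one, jpow_add hχ, hab, ZMod.val_zero, pow_zero]
  unfold yj
  rw [if_neg hb, h1, jacobiSum_nontrivial_inv (jpow_ne ho ha)]
  ring

theorem jf_gen {a b : ZMod n} (hb : b ≠ 0) : yj χ a b = -jq a b χ := by
  unfold yj jq
  rw [if_neg hb, add_zero]

theorem jf_pm (k : ℕ) : (χ ^ k) (-1) = 1 ∨ (χ ^ k) (-1) = -1 := by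
  apply mul_self_eq_one_iff.1
  rw [← map_mul, neg_one_mul, neg_neg, map_one]

theorem jf_nm (ho : orderOf χ = n) {I : Ideal (𝓞 K)} (hIn : absNorm I = Fintype.card F)
    (a b : ZMod n) :
    yj χ a b * sa n K (-1) (yj χ a b) = ((absNorm I : ℕ) : 𝓞 K) ^ cc a b := by
  rw [hIn]
  unfold cc
  by_cases hb : b = 0
  · subst hb
    rw [if_pos rfl]
    by_cases ha : a = 0
    · subst ha
      rw [if_pos rfl, jf_zl ho, map_one, mul_one, pow_zero]
    · rw [if_neg ha, jf_zr ho ha, map_natCast, pow_two]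
  · rw [if_neg hb]
    by_cases ha : a = 0
    · subst ha
      rw [if_pos (Or.inl rfl), jf_zl ho, map_one, mul_one, pow_zero]
    · by_cases hab : a + b = 0
      · rw [if_pos (Or.inr hab), jf_inv ho ha hb hab, pow_zero]
        rcases jf_pm (χ := χ) a.val with h | h
        · rw [h, map_one, mul_one]
        · rw [h, map_neg, map_one, neg_mul_neg, mul_one]
      · rw [if_neg (by tauto), pow_one, jf_gen hb, map_neg, neg_mul_neg, jnorm ho ha hb hab]

theorem jf_sp (hn : 2 < n) (π : 𝓞 K →+* F) (hF : ((n : ℕ) : F) ≠ 0)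
    (hFp : (Fintype.card F).Prime) {I : Ideal (𝓞 K)} (hI : ∀ x, x ∈ I ↔ π x = 0)
    (hI0 : I ≠ ⊥) (hIp : I.IsPrime) (hIn : absNorm I = Fintype.card F)
    (hχ : χ ^ n = 1) (hχ2 : ∀ y : F, π (χ y) = y ^ ((Fintype.card F - 1) / n)) (a b : ZMod n) :
    span {yj χ a b} = iw n K (WW a b) I := by
  have ho := jorder π hF hχ hχ2
  by_cases hb : b = 0
  · subst hb
    by_cases ha : a = 0
    · subst ha
      have e : (WW (0 : ZMod n) 0) = fun _ => 0 := by
        funext t
        unfold WW
        rw [if_pos rfl, if_pos rfl]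
      rw [e, iw_zero, jf_zl ho, Ideal.span_singleton_one]
    · have e : (WW a 0) = fun _ => 1 := by
        funext t
        unfold WW
        rw [if_pos rfl, if_neg ha]
      rw [e, jf_zr ho ha]
      have h1n : (1 : ZMod n) ≠ 0 := by
        have : Fact (1 < n) := ⟨by omega⟩
        exact one_ne_zero
      have h2n : (1 : ZMod n) + 1 ≠ 0 := by
        intro h
        have h3 : ((2 : ℕ) : ZMod n) = 0 := by push_cast; rw [← h]; ring
        rw [ZMod.natCast_eq_zero_iff] at h3
        have := Nat.le_of_dvd (by norm_num) h3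
        omega
      rw [← jnorm (K := K) ho h1n h1n h2n, ← Ideal.span_singleton_mul_span_singleton]
      have e : span {sa n K (-1) (jq (1 : ZMod n) 1 χ)} =
          (span {jq (1 : ZMod n) 1 χ}).map (sa n K (-1)) := by
        rw [Ideal.map_span, Set.image_singleton]
      rw [e, jfac π hF hFp hI hI0 hIp hIn hχ hχ2 h1n h1n h2n, iw_map, iw_add]
      congr 1
      funext t
      exact jw_add h1n h1n h2n t
  · by_cases ha : a = 0
    · subst ha
      have e : (WW (0 : ZMod n) b) = fun _ => 0 := by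
        funext t
        unfold WW
        rw [if_neg hb, if_pos (Or.inl rfl)]
      rw [e, iw_zero, jf_zl ho, Ideal.span_singleton_one]
    · by_cases hab : a + b = 0
      · have e : (WW a b) = fun _ => 0 := by
          funext t
          unfold WW
          rw [if_neg hb, if_pos (Or.inr hab)]
        rw [e, iw_zero, jf_inv ho ha hb hab]
        rcases jf_pm (χ := χ) a.val with h | h
        · rw [h, Ideal.span_singleton_one]
        · rw [h, Ideal.span_singleton_neg, Ideal.span_singleton_one]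
      · have e : (WW a b) = jw a b := by
          funext t
          unfold WW jw
          rw [if_neg hb, if_neg (by tauto)]
        rw [e, jf_gen hb, Ideal.span_singleton_neg]
        exact jfac π hF hFp hI hI0 hIp hIn hχ hχ2 ha hb hab

theorem jf_it (π : 𝓞 K →+* F) (hF : ((n : ℕ) : F) ≠ 0) (hχ : χ ^ n = 1) (u v : ZMod n) :
    ((n : ℕ) : 𝓞 K) ^ 2 ∣
      ∑ a : ZMod n, ∑ b : ZMod n, zt n K ^ (a * u + b * v).val * yj χ a b := by
  have hz : zt n K ^ n = 1 := (zt_prim n K).pow_eq_one
  have hP : ∀ (u : ZMod n) (x : F),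
      ((n : ℕ) : 𝓞 K) ∣ ∑ a : ZMod n, zt n K ^ (a * u).val * (χ ^ a.val) x := by
    intro u x
    by_cases hx : x = 0
    · subst hx
      simp only [MulChar.map_zero, mul_zero, Finset.sum_const_zero, dvd_zero]
    · have h1 : ∀ a : ZMod n, zt n K ^ (a * u).val * (χ ^ a.val) x =
          (zt n K ^ u.val * χ x) ^ a.val := by
        intro a
        rw [jf_apply hx, jf_mul hz, mul_pow]
      simp only [h1]
      apply jf_sum
      rw [mul_pow, ← pow_mul, mul_comm u.val, pow_mul, hz, one_pow, one_mul, jchi_pow hχ hx]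
  have e1 : ∑ a : ZMod n, ∑ b : ZMod n, zt n K ^ (a * u + b * v).val * yj χ a b =
      -(∑ x : F, (∑ a : ZMod n, zt n K ^ (a * u).val * (χ ^ a.val) x) *
        (∑ b : ZMod n, zt n K ^ (b * v).val * (χ ^ b.val) (1 - x))) +
      (∑ a : ZMod n, zt n K ^ (a * u).val) * (((Fintype.card F : ℕ) : 𝓞 K) - 1) := by
    have e2 : ∀ a b : ZMod n, zt n K ^ (a * u + b * v).val * yj χ a b =
        -(∑ x : F, (zt n K ^ (a * u).val * (χ ^ a.val) x) *
          (zt n K ^ (b * v).val * (χ ^ b.val) (1 - x))) +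
        (if b = 0 then zt n K ^ (a * u).val * (((Fintype.card F : ℕ) : 𝓞 K) - 1) else 0) := by
      intro a b
      unfold yj jacobiSum
      rw [mul_add, mul_neg, Finset.mul_sum]
      congr 1
      · congr 1
        refine Finset.sum_congr rfl fun x _ => ?_
        rw [jf_add hz]
        ring
      · by_cases hb : b = 0
        · rw [if_pos hb, if_pos hb, hb, zero_mul, add_zero]
        · rw [if_neg hb, if_neg hb, mul_zero]
    simp only [e2, Finset.sum_add_distrib, Finset.sum_ite_eq', Finset.mem_univ, if_true,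
      Finset.sum_neg_distrib]
    congr 1
    · congr 1
      have e3 : ∀ x : F, (∑ a : ZMod n, zt n K ^ (a * u).val * (χ ^ a.val) x) *
          (∑ b : ZMod n, zt n K ^ (b * v).val * (χ ^ b.val) (1 - x)) =
          ∑ a : ZMod n, ∑ b : ZMod n, (zt n K ^ (a * u).val * (χ ^ a.val) x) *
          (zt n K ^ (b * v).val * (χ ^ b.val) (1 - x)) := fun x => by
        rw [Finset.sum_mul_sum]
      simp only [e3]
      exact (Finset.sum_comm.trans (Finset.sum_congr rfl fun a _ => Finset.sum_comm)).symm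
    · rw [Finset.sum_mul]
  rw [e1]
  refine dvd_add (dvd_neg.2 (Finset.dvd_sum fun x _ => ?_)) ?_
  · rw [pow_two]
    exact mul_dvd_mul (hP u x) (hP v (1 - x))
  · rw [pow_two]
    refine mul_dvd_mul ?_ ?_
    · have h1 : ∀ a : ZMod n, zt n K ^ (a * u).val = (zt n K ^ u.val) ^ a.val :=
        fun a => jf_mul hz a u
      simp only [h1]
      apply jf_sum
      rw [← pow_mul, mul_comm u.val, pow_mul, hz, one_pow]
    · have h1 := jn_dvd π hF
      have h2 : ((Fintype.card F : ℕ) : 𝓞 K) - 1 = ((Fintype.card F - 1 : ℕ) : 𝓞 K) := by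
        rw [Nat.cast_sub Fintype.card_pos, Nat.cast_one]
      rw [h2]
      exact Nat.cast_dvd_cast h1

end

/-- **The normalised Jacobi sums of a prime of degree one form a family.** -/
theorem jac : S_jac := by
  intro n _ K _ _ _ hn F _ _ π hπ hFp hF
  obtain ⟨χ, hχ, hχ2⟩ := jexists_res (n := n) π hF
  have ho := jorder π hF hχ hχ2
  have hI : ∀ x, x ∈ RingHom.ker π ↔ π x = 0 := fun x => RingHom.mem_ker
  have hIp : (RingHom.ker π).IsPrime := RingHom.ker_isPrime π
  have hIn : absNorm (RingHom.ker π) = Fintype.card F := by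
    rw [Ideal.absNorm_apply, Submodule.cardQuot_apply, ← Nat.card_eq_fintype_card]
    exact Nat.card_congr (RingHom.quotientKerEquivOfSurjective hπ).toEquiv
  have hI0 : RingHom.ker π ≠ ⊥ := by
    intro h
    rw [h, Ideal.absNorm_bot] at hIn
    exact hFp.ne_zero hIn.symm
  refine ⟨χ, ho, hIn, ⟨fun b => jf_zl ho b, fun a ha => ?_, fun a b => ?_, fun a b => ?_,
    fun t a b => jf_ga hχ t a b, fun u v => jf_it π hF hχ u v⟩⟩
  · rw [jf_zr ho ha, hIn]
  · exact jf_sp hn π hF hFp hI hI0 hIp hIn hχ hχ2 a b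
  · exact jf_nm ho hIn a b

end Pool.Agent.NH35.HE
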