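import Pool.Agent.NH35.HE.StmF

/-! The residue character of `4` in terms of Jacobi sums. -/

set_option autoImplicit false
set_option linter.unusedSectionVars false

namespace Pool.Agent.NH35.HE

open Finset Pool.Agent.H916K NumberField

section

variable {F : Type} [Field F] [Fintype F] [DecidableEq F] {R : Type} [CommRing R] [IsDomain R]

/-- a character of order two is the quadratic character -/
private lemma k2_rho {ρ : MulChar F R} (hρ : orderOf ρ = 2) (x : F) :
    ρ x = ((quadraticChar F x : ℤ) : R) := by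
  by_cases hx : x = 0
  · rw [hx, MulChar.map_zero, quadraticChar_zero, Int.cast_zero]
  have hsq : ρ ^ 2 = 1 := by rw [← hρ]; exact pow_orderOf_eq_one _
  have h1 : ρ ≠ 1 := by
    intro h
    rw [h, orderOf_one] at hρ
    omega
  have h2 : ∀ y : F, y ≠ 0 → ρ y ^ 2 = 1 := by
    intro y hy
    rw [← mulChar_pow_apply ρ 2 hy, hsq]
    exact MulChar.one_apply (isUnit_iff_ne_zero.mpr hy)
  have hsquare : ∀ y : F, y ≠ 0 → IsSquare y → ρ y = 1 := by
    rintro y hy ⟨z, rfl⟩
    have hz : z ≠ 0 := by
      rintro rfl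
      simp at hy
    rw [map_mul, ← pow_two, h2 z hz]
  by_cases hs : IsSquare x
  · rw [hsquare x hx hs, (quadraticChar_one_iff_isSquare hx).mpr hs, Int.cast_one]
  · obtain ⟨c, hc⟩ := MulChar.ne_one_iff.mp h1
    have hcs : ¬ IsSquare (c : F) := fun h => hc (hsquare c c.ne_zero h)
    have hc1 : ρ (c : F) = -1 := (sq_eq_one_iff.mp (h2 c c.ne_zero)).resolve_left hc
    have hq1 : quadraticChar F x = -1 := quadraticChar_neg_one_iff_not_isSquare.mpr hs
    have hq2 : quadraticChar F (c : F) = -1 := quadraticChar_neg_one_iff_not_isSquare.mpr hcs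
    have hxc : IsSquare (x * (c : F)) := by
      rw [← quadraticChar_one_iff_isSquare (mul_ne_zero hx c.ne_zero), map_mul, hq1, hq2]
      norm_num
    have h3 := hsquare _ (mul_ne_zero hx c.ne_zero) hxc
    rw [map_mul, hc1, mul_neg_one] at h3
    rw [hq1]
    push_cast
    linear_combination -h3

/-- Jacobi sums with the quadratic character -/
private lemma k2_jac (h2 : ringChar F ≠ 2) {ρ θ : MulChar F R} (hρ : orderOf ρ = 2) (hθ : θ ≠ 1) :
    jacobiSum θ ρ = θ 4 * jacobiSum θ θ := by
  have h20 : (2 : F) ≠ 0 := Ring.two_ne_zero h2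
  have e1 : jacobiSum θ ρ = ∑ y : F, θ (1 - y) * ρ y := by
    rw [jacobiSum]
    refine Fintype.sum_equiv (Equiv.subLeft (1 : F)) _ _ fun x => ?_
    simp
  have e2 : ∑ y : F, θ (1 - y) = 0 := by
    rw [← MulChar.sum_eq_zero_of_ne_one hθ]
    exact Fintype.sum_equiv (Equiv.subLeft (1 : F)) _ _ fun x => by simp
  have e3 : ∑ x : F, θ (1 - x ^ 2) = ∑ y : F, θ (1 - y) * (ρ y + 1) := by
    rw [← Finset.sum_fiberwise (s := univ) (g := fun x : F => x ^ 2)]
    refine sum_congr rfl fun y _ => ?_
    have e4 : ∑ x ∈ univ.filter (fun x : F => x ^ 2 = y), θ (1 - x ^ 2) =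
        ∑ x ∈ univ.filter (fun x : F => x ^ 2 = y), θ (1 - y) := by
      refine sum_congr rfl fun x hx => ?_
      rw [(mem_filter.mp hx).2]
    rw [e4, sum_const, nsmul_eq_mul, mul_comm]
    congr 1
    have e5 := quadraticChar_card_sqrts h2 y
    have e6 : univ.filter (fun x : F => x ^ 2 = y) = {x : F | x ^ 2 = y}.toFinset := by
      ext x; simp
    rw [e6, k2_rho hρ]
    have e7 : ((({x : F | x ^ 2 = y}.toFinset.card : ℕ) : ℤ) : R) =
      (((quadraticChar F y : ℤ) + 1 : ℤ) : R) := congrArg _ e5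
    push_cast at e7
    exact e7
  have e8 : ∑ x : F, θ (1 - x ^ 2) = θ 4 * jacobiSum θ θ := by
    rw [jacobiSum, mul_sum]
    symm
    refine Fintype.sum_bijective (fun u : F => 1 - 2 * u) ?_ _ _ fun u => ?_
    · constructor
      · intro a b hab
        simp only at hab
        have : (2 : F) * a = 2 * b := by linear_combination -hab
        exact mul_left_cancel₀ h20 this
      · intro y
        refine ⟨(1 - y) / 2, ?_⟩
        simp only
        field_simp
        ring
    · rw [← map_mul, ← map_mul]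
      congr 1
      ring
  rw [e1, ← e8, e3]
  simp only [mul_add, mul_one, sum_add_distrib, e2, add_zero]

end

/-- (N9) -/
theorem k2 : S_k2 := by
  classical
  intro n n' _ K _ _ _ hn hn' F _ _ χ hχ h2 a
  have hring : ringChar F ≠ 2 := by
    intro h
    apply h2
    have := ringChar.Nat.cast_ringChar (R := F)
    rw [h] at this
    exact_mod_cast this
  have hn'0 : 0 < n' := by omega
  have hval : ((n' : ℕ) : ZMod n).val = n' := ZMod.val_cast_of_lt (by omega)
  have hn'Z : ((n' : ℕ) : ZMod n) ≠ 0 := by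
    intro h
    rw [h, ZMod.val_zero] at hval
    omega
  have hne : ∀ b : ZMod n, b ≠ 0 → χ ^ b.val ≠ 1 := by
    intro b hb h
    have h3 := orderOf_dvd_of_pow_eq_one h
    rw [hχ] at h3
    have h4 : b.val ≠ 0 := (ZMod.val_ne_zero b).mpr hb
    exact absurd (Nat.le_of_dvd (by omega) h3) (not_le.mpr (ZMod.val_lt b))
  have h4 : (4 : F) ≠ 0 := by
    have : (4 : F) = 2 ^ 2 := by norm_num
    rw [this]
    exact pow_ne_zero 2 h2
  unfold yj
  rw [if_neg hn'Z, add_zero]
  by_cases ha : a = 0
  · subst ha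
    rw [if_pos rfl, ZMod.val_zero, pow_zero, jacobiSum_one_one,
      jacobiSum_one_nontrivial (hne _ hn'Z), MulChar.one_apply (isUnit_iff_ne_zero.mpr h4)]
    ring
  · have hord : orderOf (χ ^ n') = 2 := by
      rw [orderOf_pow_of_dvd hn'0.ne' (by rw [hχ, hn']; exact Dvd.intro_left _ rfl), hχ, hn']
      exact Nat.mul_div_cancel _ hn'0
    rw [if_neg ha, add_zero, hval, k2_jac hring hord (hne a ha)]
    ring

end Pool.Agent.NH35.HE
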