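import Pool.Agent.NH35.HE.StmF
import Pool.Agent.NH35.HG.Asm

/-! The residue character of an odd prime `p` in terms of Jacobi sums modulo a prime above `p`
(S_kp). -/

set_option autoImplicit false
set_option linter.unusedSectionVars false

namespace Pool.Agent.NH35.HE

open Finset Pool.Agent.H916R2 Pool.Agent.H916K NumberField Ideal
open Pool.Agent.NH35.HG (asm_tau asm_psi)

/-- a residue field of the algebraic integers above a given residue field -/
theorem kp_phi {K : Type} [Field K] [NumberField K] (τ : 𝓞 K →+* AI)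
    (hτ : Function.Injective τ) {p : ℕ} (hp : p.Prime) (P' : Ideal (𝓞 K)) [hP : P'.IsPrime]
    (hpP : (p : 𝓞 K) ∈ P') :
    ∃ (k : Type) (_ : Field k) (_ : CharP k p) (φ : AI →+* k), ∀ x : 𝓞 K, φ (τ x) = 0 → x ∈ P' := by
  have hP0 : P' ≠ ⊥ := by
    rintro rfl
    rw [Ideal.mem_bot] at hpP
    exact hp.ne_zero (by exact_mod_cast hpP)
  have hPm : P'.IsMaximal := hP.isMaximal hP0
  let _ : Algebra (𝓞 K) AI := τ.toAlgebra
  have hint : Algebra.IsIntegral (𝓞 K) AI := by
    constructor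
    intro x
    have h1 : IsIntegral ℤ x := Algebra.IsIntegral.isIntegral x
    obtain ⟨f, hf, hf2⟩ := h1
    refine ⟨f.map (algebraMap ℤ (𝓞 K)), hf.map _, ?_⟩
    rw [Polynomial.eval₂_map]
    have h2 : (algebraMap (𝓞 K) AI).comp (algebraMap ℤ (𝓞 K)) = algebraMap ℤ AI :=
      RingHom.ext_int _ _
    rw [h2]
    exact hf2
  obtain ⟨Q, hQ, hcomap⟩ := Ideal.exists_ideal_over_maximal_of_isIntegral (S := AI) P' (by
    intro x hx
    rw [RingHom.mem_ker] at hx
    have h1 : τ x = τ 0 := by rw [map_zero]; exact hx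
    rw [hτ h1]
    exact Ideal.zero_mem _)
  let _ : Field (AI ⧸ Q) := Ideal.Quotient.field Q
  refine ⟨AI ⧸ Q, inferInstance, ?_, Ideal.Quotient.mk Q, ?_⟩
  · have h0 : ((p : ℕ) : AI ⧸ Q) = 0 := by
      have h1 : (p : 𝓞 K) ∈ Ideal.comap (algebraMap (𝓞 K) AI) Q := by
        rw [hcomap]; exact hpP
      rw [Ideal.mem_comap, map_natCast] at h1
      have h3 := Ideal.Quotient.eq_zero_iff_mem.mpr h1
      simpa using h3
    exact (CharP.charP_iff_prime_eq_zero hp).mpr h0
  · intro x hx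
    rw [← hcomap, Ideal.mem_comap]
    exact Ideal.Quotient.eq_zero_iff_mem.mp hx

/-- the Frobenius of a Gauss sum modulo a prime above `p` -/
theorem kp_frob {F : Type} [Field F] [Fintype F] {A : Type} [CommRing A] {k : Type} [Field k]
    {p : ℕ} [Fact p.Prime] [CharP k p] (φ : A →+* k) (θ : MulChar F A) (ψ : AddChar F A)
    (hpF : ((p : ℕ) : F) ≠ 0) :
    φ (gaussSum θ ψ) ^ p * φ (θ ((p : ℕ) : F)) ^ p = φ (gaussSum (θ ^ p) ψ) := by
  have hg : ∀ θ' : MulChar F A, φ (gaussSum θ' ψ) =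
      gaussSum (θ'.ringHomComp φ) ((φ : A →* k).compAddChar ψ) := by
    intro θ'
    unfold gaussSum
    rw [map_sum]
    refine sum_congr rfl fun x _ => ?_
    rw [map_mul]
    rfl
  rw [hg, hg, gaussSum_frob, AddChar.pow_mulShift]
  have h1 := gaussSum_mulShift ((θ.ringHomComp φ) ^ p) ((φ : A →* k).compAddChar ψ)
    (Units.mk0 ((p : ℕ) : F) hpF)
  rw [Units.val_mk0] at h1
  have h2 : (θ ^ p).ringHomComp φ = (θ.ringHomComp φ) ^ p := by
    rw [MulChar.ringHomComp_pow]
  rw [h2, ← h1, mul_comm]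
  congr 1
  rw [MulChar.pow_apply' _ (Fact.out : p.Prime).ne_zero]
  rfl

/-- **(N8)** the residue character of an odd prime `p` modulo a prime above `p`. -/
theorem kp (h : S_gp) : S_kp := by
  intro n _ K _ _ _ hn F _ _ χ hχ hF p hp hp2 hpF P' hP' hpP' a
  classical
  have hfact : Fact p.Prime := ⟨hp⟩
  obtain ⟨τ, hτ⟩ := asm_tau K
  obtain ⟨ψ, hψ⟩ := asm_psi hF
  obtain ⟨k, _, _, φ, hφ⟩ := kp_phi τ hτ hp P' hpP'
  apply hφ
  have hL : (List.replicate p a ++ [-((p : ZMod n) * a)]).sum = 0 := by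
    rw [List.sum_append, List.sum_replicate, List.sum_singleton, nsmul_eq_mul, add_neg_cancel]
  have hL1 : ([(p : ZMod n) * a, -((p : ZMod n) * a)]).sum = 0 := by
    simp
  have e1 := h n K hn F χ hχ _ hL AI τ ψ hψ
  have e2 := h n K hn F χ hχ _ hL1 AI τ ψ hψ
  rw [map_sub, map_mul, e1, e2]
  rw [List.map_append, List.map_replicate, List.prod_append, List.prod_replicate, List.map_singleton,
    List.prod_singleton, List.map_cons, List.map_singleton, List.prod_cons, List.prod_singleton]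
  have hodd : Odd p := hp.odd_of_ne_two hp2
  have hχn : (χ.ringHomComp τ) ^ n = 1 := by
    rw [MulChar.ringHomComp_pow, ← hχ, pow_orderOf_eq_one, MulChar.ringHomComp_one]
  have h3 := kp_frob φ ((χ.ringHomComp τ) ^ a.val) ψ hpF
  have h4 : ((χ.ringHomComp τ) ^ a.val) ^ p = (χ.ringHomComp τ) ^ ((p : ZMod n) * a).val := by
    rw [← pow_mul, pow_eq_pow_mod _ hχn, mul_comm a.val p, ZMod.val_mul, ZMod.val_natCast,
      Nat.mod_mul_mod]
  rw [h4] at h3
  have h5 : ((χ.ringHomComp τ) ^ a.val) ((p : ℕ) : F) = τ ((χ ^ a.val) ((p : ℕ) : F)) := by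
    rw [MulChar.ringHomComp_pow]
    rfl
  rw [h5] at h3
  rw [map_sub, map_mul, map_mul, map_mul, map_pow, map_neg, map_neg, map_neg, map_pow, map_pow,
    hodd.neg_pow, ← h3]
  ring

end Pool.Agent.NH35.HE
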