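import Pool.Agent.NH35.HE.StmF
import Pool.Agent.NH35.HD.Cz
import Pool.Agent.NH35.HG.He
import Pool.Agent.NH35.HE.Fam1

/-! Kummer characters of `2`-power order as Hecke characters. -/

set_option autoImplicit false
set_option linter.unusedSectionVars false
open NumberField NumberField.InfinitePlace IsDedekindDomain
open Module nonZeroDivisors Ideal IsCyclotomicExtension
open scoped ComplexConjugate

namespace Pool.Agent.NH35.HE
open Pool.Agent.NH35.HD (sa xw iw zt hk_mul)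
open Pool.Agent.NH35.HC (Hk exists_ext_monoid)

section
variable {K : Type} [Field K] [NumberField K]

theorem km_two {p : ℕ} (hp : p.Prime) (hp2 : p ≠ 2) {P' : Ideal (𝓞 K)} (hP : P'.IsPrime)
    (hpP : (p : 𝓞 K) ∈ P') : (2 : 𝓞 K) ∉ P' := by
  intro h
  have hc : Nat.Coprime p 2 := (Nat.coprime_primes hp Nat.prime_two).2 hp2
  obtain ⟨x, y, hxy⟩ := Nat.isCoprime_iff_coprime.2 hc
  apply hP.ne_top
  rw [Ideal.eq_top_iff_one]
  have h1 := congrArg (fun z : ℤ => (z : 𝓞 K)) hxy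
  push_cast at h1
  rw [← h1]
  exact P'.add_mem (P'.mul_mem_left _ hpP) (P'.mul_mem_left _ h)

theorem km_root {P' : Ideal (𝓞 K)} (h2 : (2 : 𝓞 K) ∉ P') (e : ℕ) :
    ∀ z : 𝓞 K, z ^ 2 ^ e = 1 → z - 1 ∈ P' → z = 1 := by
  induction e with
  | zero =>
    intro z h _
    simpa using h
  | succ e ih =>
    intro z h hz
    have h1 : z ^ 2 = 1 := by
      apply ih (z ^ 2)
      · rw [← pow_mul, mul_comm, ← pow_succ]
        exact h
      · have : z ^ 2 - 1 = (z + 1) * (z - 1) := by ring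
        rw [this]
        exact P'.mul_mem_left _ hz
    have h3 : (z - 1) * (z + 1) = 0 := by linear_combination h1
    rcases mul_eq_zero.1 h3 with h3 | h3
    · exact sub_eq_zero.1 h3
    · exfalso
      apply h2
      have : (2 : 𝓞 K) = -(z - 1) := by linear_combination h3
      rw [this]
      exact P'.neg_mem hz

/-- transport of a character on the roots of unity of `2`-power order -/
theorem km_omega {P' : Ideal (𝓞 K)} (h2 : (2 : 𝓞 K) ∉ P') (R : Ideal (𝓞 K))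
    (ω : (𝓞 K ⧸ R)ˣ →* Circle) (e : ℕ) : ∃ ω' : (𝓞 K ⧸ P')ˣ →* Circle,
    ∀ z : (𝓞 K)ˣ, z ^ 2 ^ e = 1 → ω' (Units.map (Ideal.Quotient.mk P' : 𝓞 K →* 𝓞 K ⧸ P') z) =
      ω (Units.map (Ideal.Quotient.mk R : 𝓞 K →* 𝓞 K ⧸ R) z) := by
  let T : Subgroup (𝓞 K)ˣ := (powMonoidHom (2 ^ e) : (𝓞 K)ˣ →* (𝓞 K)ˣ).ker
  let f1 : T →* (𝓞 K ⧸ P')ˣ :=
    (Units.map (Ideal.Quotient.mk P' : 𝓞 K →* 𝓞 K ⧸ P')).comp T.subtype
  have hinj : Function.Injective f1 := by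
    rw [injective_iff_map_eq_one]
    intro z hz
    have h3 := congrArg Units.val hz
    have h4 : Ideal.Quotient.mk P' ((z : (𝓞 K)ˣ) : 𝓞 K) = 1 := h3
    rw [← map_one (Ideal.Quotient.mk P'), Ideal.Quotient.mk_eq_mk_iff_sub_mem] at h4
    have h5 : ((z : (𝓞 K)ˣ) : 𝓞 K) ^ 2 ^ e = 1 := by
      have h6 : (z : (𝓞 K)ˣ) ^ 2 ^ e = 1 := z.2
      rw [← Units.val_pow_eq_pow_val, h6, Units.val_one]
    apply Subtype.ext
    apply Units.ext
    exact km_root h2 e _ h5 h4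
  let g : f1.range.toSubmonoid →* Circle :=
    ((ω.comp (Units.map (Ideal.Quotient.mk R : 𝓞 K →* 𝓞 K ⧸ R))).comp T.subtype).comp
      (MonoidHom.ofInjective hinj).symm.toMonoidHom
  obtain ⟨ω', hω'⟩ := exists_ext_monoid f1.range.toSubmonoid g
  refine ⟨ω', fun z hz => ?_⟩
  have hzT : z ∈ T := hz
  have h3 := hω' ⟨f1 ⟨z, hzT⟩, ⟨⟨z, hzT⟩, rfl⟩⟩
  have h4 : (MonoidHom.ofInjective hinj).symm ⟨f1 ⟨z, hzT⟩, ⟨⟨z, hzT⟩, rfl⟩⟩ = ⟨z, hzT⟩ := by
    rw [MulEquiv.symm_apply_eq]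
    rfl
  have h5 : g ⟨f1 ⟨z, hzT⟩, ⟨⟨z, hzT⟩, rfl⟩⟩ =
      ω (Units.map (Ideal.Quotient.mk R : 𝓞 K →* 𝓞 K ⧸ R)
        ((MonoidHom.ofInjective hinj).symm ⟨f1 ⟨z, hzT⟩, ⟨⟨z, hzT⟩, rfl⟩⟩ : T)) := rfl
  rw [h4] at h5
  exact h3.trans h5

/-- the complex conjugate of a Hecke character -/
theorem km_conj {χ : Ideal (𝓞 K) → ℂ} {N : Ideal (𝓞 K)} (h : Hk χ N (fun _ => 1)) :
    Hk (fun I => conj (χ I)) N (fun _ => 1) := by
  refine ⟨h.m0, fun I hI => ?_, fun I hI => ?_, fun I I' => ?_, fun α h0 h1 => ?_,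
    fun x y hx hy => (one_mul _).symm, fun x hx => norm_one, h.lip⟩
  · rw [h.zero I hI, map_zero]
  · rw [RCLike.norm_conj, h.one I hI]
  · rw [h.mul, map_mul]
  · rw [h.prin α h0 h1, map_one]

theorem km_comb {χ χ' : Ideal (𝓞 K) → ℂ} {N : ℕ} (h : Hk χ (span {(N : 𝓞 K)}) (fun _ => 1))
    (h' : Hk χ' (span {(N : 𝓞 K)}) (fun _ => 1)) :
    Hk (fun I => χ I * conj (χ' I)) (span {((N * N : ℕ) : 𝓞 K)}) (fun _ => 1) := by
  have h1 := hk_mul h (km_conj h')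
  rw [Ideal.span_singleton_mul_span_singleton] at h1
  simpa using h1

/-- the kernel of a map to a field where `N` is nonzero -/
theorem km_coprime {F : Type} [Field F] (π : 𝓞 K →+* F) (hπ : Function.Surjective π) {N : ℕ}
    (hN : (N : F) ≠ 0) : IsCoprime (RingHom.ker π) (span {(N : 𝓞 K)}) := by
  obtain ⟨c, hc⟩ := hπ ((N : F)⁻¹)
  rw [Ideal.isCoprime_iff_exists]
  refine ⟨1 - c * N, ?_, c * N, Ideal.mem_span_singleton'.2 ⟨c, rfl⟩, by ring⟩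
  rw [RingHom.mem_ker, map_sub, map_mul, map_one, map_natCast, hc, inv_mul_cancel₀ hN, sub_self]

theorem km_above {p : ℕ} (hp : p.Prime) : ∃ P' : Ideal (𝓞 K), P'.IsPrime ∧ (p : 𝓞 K) ∈ P' := by
  have h1 : span {(p : 𝓞 K)} ≠ ⊤ := by
    intro h
    have h2 : absNorm (span {(p : 𝓞 K)}) = 1 := by rw [h, Ideal.absNorm_top]
    have h3 : Algebra.norm ℤ ((p : ℕ) : 𝓞 K) = (p : ℤ) ^ Module.finrank ℤ (𝓞 K) := by
      have := Algebra.norm_algebraMap (R := ℤ) (S := 𝓞 K) (p : ℤ)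
      simpa using this
    rw [Ideal.absNorm_span_singleton, h3, Int.natAbs_pow, Int.natAbs_natCast] at h2
    rw [Nat.pow_eq_one] at h2
    rcases h2 with h2 | h2
    · exact hp.one_lt.ne' h2
    · exact (Module.finrank_pos (R := ℤ) (M := 𝓞 K)).ne' h2
  obtain ⟨P', hP', h2⟩ := Ideal.exists_le_maximal _ h1
  exact ⟨P', hP'.isPrime, h2 (Ideal.mem_span_singleton_self _)⟩

theorem km_unitmul {P' : Ideal (𝓞 K)} (ω' : (𝓞 K ⧸ P')ˣ →* Circle) {x x1 : 𝓞 K} {z : (𝓞 K)ˣ}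
    {u : ℕ} (hx : IsUnit (Ideal.Quotient.mk P' x)) (hx1 : IsUnit (Ideal.Quotient.mk P' x1))
    (h : x * (z : 𝓞 K) ^ u - x1 ∈ P') : (ω' hx1.unit : ℂ) * conj (ω' hx.unit : ℂ) =
      (ω' (Units.map (Ideal.Quotient.mk P' : 𝓞 K →* 𝓞 K ⧸ P') z) : ℂ) ^ u := by
  have h1 : hx1.unit = hx.unit * Units.map (Ideal.Quotient.mk P' : 𝓞 K →* 𝓞 K ⧸ P') z ^ u := by
    apply Units.ext
    rw [IsUnit.unit_spec, Units.val_mul, IsUnit.unit_spec, Units.val_pow_eq_pow_val,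
      Units.coe_map]
    show Ideal.Quotient.mk P' x1 = Ideal.Quotient.mk P' x * (Ideal.Quotient.mk P' (z : 𝓞 K)) ^ u
    rw [← map_pow, ← map_mul, eq_comm, Ideal.Quotient.mk_eq_mk_iff_sub_mem]
    exact h
  rw [h1, map_mul, map_pow, Circle.coe_mul, Circle.coe_pow]
  have h2 : (ω' hx.unit : ℂ) * conj (ω' hx.unit : ℂ) = 1 := by
    rw [Complex.mul_conj, Complex.normSq_eq_norm_sq, Circle.norm_coe]
    simp
  linear_combination ((ω' (Units.map (Ideal.Quotient.mk P' : 𝓞 K →* 𝓞 K ⧸ P') z) : ℂ) ^ u) * h2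

end

section
variable {n : ℕ} [NeZero n] {K : Type} [Field K] [NumberField K] [IsCyclotomicExtension {n} ℚ K]

/-- the value at the kernel of a map onto a prime field -/
theorem km_A {q : ℕ} {P' R : Ideal (𝓞 K)} {ω' : (𝓞 K ⧸ P')ˣ →* Circle}
    {ω : (𝓞 K ⧸ R)ˣ →* Circle} {e b : ℕ} (hn : n = 2 ^ (e + 1) * b)
    (hω : ∀ z : (𝓞 K)ˣ, z ^ 2 ^ e = 1 →
      ω' (Units.map (Ideal.Quotient.mk P' : 𝓞 K →* 𝓞 K ⧸ P') z) =
        ω (Units.map (Ideal.Quotient.mk R : 𝓞 K →* 𝓞 K ⧸ R) z))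
    {Q Q1 : List (ZMod n × ZMod n)} {χ1 χ2 : Ideal (𝓞 K) → ℂ}
    (h1 : ∀ (I : Ideal (𝓞 K)) (y : ZMod n → ZMod n → 𝓞 K),
      IsCoprime I (span {((n ^ 2 * q : ℕ) : 𝓞 K)}) → Fam I y →
      ∃ h : IsUnit (Ideal.Quotient.mk P' (mon Q1 y)), χ1 I = (ω' h.unit : ℂ))
    (h2 : ∀ (I : Ideal (𝓞 K)) (y : ZMod n → ZMod n → 𝓞 K),
      IsCoprime I (span {((n ^ 2 * q : ℕ) : 𝓞 K)}) → Fam I y →
      ∃ h : IsUnit (Ideal.Quotient.mk P' (mon Q y)), χ2 I = (ω' h.unit : ℂ))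
    {p u : ℕ} {F : Type} [Field F] [Fintype F] (π : 𝓞 K →+* F) (hπ : Function.Surjective π)
    (hN : ((n ^ 2 * q : ℕ) : F) ≠ 0) (hp : ((p : ℕ) : F) ≠ 0) {χ : MulChar F (𝓞 K)}
    (hχ : orderOf χ = n) (hfam : Fam (n := n) (RingHom.ker π) (yj χ))
    (hrel : mon Q (yj χ) * ((χ ^ (2 * b)) ((p : ℕ) : F)) ^ u - mon Q1 (yj χ) ∈ P') :
    ∃ h : IsUnit (Ideal.Quotient.mk R ((χ ^ (2 * b)) ((p : ℕ) : F))),
      χ1 (RingHom.ker π) * conj (χ2 (RingHom.ker π)) = (ω h.unit : ℂ) ^ u := by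
  have hI := km_coprime π hπ hN
  obtain ⟨k1, e1⟩ := h1 _ _ hI hfam
  obtain ⟨k2, e2⟩ := h2 _ _ hI hfam
  have hz : ((χ ^ (2 * b)) ((p : ℕ) : F)) ^ 2 ^ e = 1 := by
    have h3 : ((p : ℕ) : F) = ((Units.mk0 _ hp : Fˣ) : F) := rfl
    rw [h3, ← MulChar.pow_apply_coe, ← pow_mul]
    have h4 : 2 * b * 2 ^ e = n := by
      rw [hn]
      ring
    have h5 : χ ^ n = 1 := by
      rw [← hχ]
      exact pow_orderOf_eq_one χ
    rw [h4, h5, MulChar.one_apply_coe]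
  let z : (𝓞 K)ˣ := Units.ofPowEqOne _ (2 ^ e) hz (by positivity)
  have hzv : (z : 𝓞 K) = (χ ^ (2 * b)) ((p : ℕ) : F) := rfl
  have hz1 : z ^ 2 ^ e = 1 := by
    apply Units.ext
    rw [Units.val_pow_eq_pow_val, hzv, hz, Units.val_one]
  have hu : IsUnit (Ideal.Quotient.mk R ((χ ^ (2 * b)) ((p : ℕ) : F))) := by
    rw [← hzv]
    exact z.isUnit.map _
  refine ⟨hu, ?_⟩
  rw [← hzv] at hrel
  have hv : Units.map (Ideal.Quotient.mk R : 𝓞 K →* 𝓞 K ⧸ R) z = hu.unit :=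
    Units.ext (by rw [IsUnit.unit_spec]; rfl)
  rw [e1, e2, km_unitmul ω' k2 k1 hrel, hω z hz1, hv]

theorem km_xw_add (W W' : (ZMod n)ˣ → ℕ) (x : 𝓞 K) :
    xw n K (fun t => W t + W' t) x = xw n K W x * xw n K W' x := by
  unfold Pool.Agent.NH35.HD.xw
  rw [← Finset.prod_mul_distrib]
  exact Finset.prod_congr rfl fun t _ => pow_add _ _ _

theorem km_xw_zero {W : (ZMod n)ˣ → ℕ} (hW : ∀ t, W t = 0) (x : 𝓞 K) : xw n K W x = 1 := by
  unfold Pool.Agent.NH35.HD.xw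
  exact Finset.prod_eq_one fun t _ => by rw [hW, pow_zero]

theorem km_mon (P : List (ZMod n × ZMod n)) (x : 𝓞 K) :
    mon P (fun a b => xw n K (WW a b) x) = xw n K (mw P) x := by
  induction P with
  | nil => exact (km_xw_zero (fun t => rfl) x).symm
  | cons p P ih =>
    have h1 : mon (p :: P) (fun a b => xw n K (WW a b) x) =
        xw n K (WW p.1 p.2) x * mon P (fun a b => xw n K (WW a b) x) := by
      unfold mon
      rw [List.map_cons, List.prod_cons]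
    have h2 : mw (p :: P) = fun t => WW p.1 p.2 t + mw P t := by
      funext t
      unfold mw
      rw [List.map_cons, List.sum_cons]
    rw [h1, ih, h2, km_xw_add]

theorem km_gl {x : ZMod n} (hx : x ≠ 0) : gl 0 [x, -x] = [(0, x), (x, -x), (1, 0)] := by
  have h1 : -x ≠ 0 := neg_ne_zero.2 hx
  unfold gl
  unfold gl
  unfold gl
  unfold st
  rw [zero_add, if_neg hx, if_neg hx, if_neg h1, if_pos (add_neg_cancel x)]
  rfl

theorem km_weight (h3 : S_gw) (hn2 : 2 < n) (r b : ℕ) (t : (ZMod n)ˣ) :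
    mw (gl 0 (List.replicate r ((2 * b : ℕ) : ZMod n) ++
      [-((r : ZMod n) * ((2 * b : ℕ) : ZMod n))])) t = Wk n b r t := by
  set a0 : ZMod n := ((2 * b : ℕ) : ZMod n) with ha0
  have hs : (List.replicate r a0 ++ [-((r : ZMod n) * a0)]).sum = 0 := by
    rw [List.sum_append, List.sum_replicate, List.sum_singleton, nsmul_eq_mul, add_neg_cancel]
  have h4 := h3 n hn2 _ hs t
  rw [List.map_append, List.map_replicate, List.sum_append, List.sum_replicate, List.map_singleton,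
    List.sum_singleton, smul_eq_mul] at h4
  have h5 : -(-((r : ZMod n) * a0) * (t : ZMod n)) = (r : ZMod n) * (a0 * (t : ZMod n)) := by ring
  rw [h5] at h4
  unfold Wk
  rw [← ha0, ← h4, Nat.mul_div_cancel_left _ (Nat.pos_of_ne_zero (NeZero.ne n))]

/-- the value at principal ideals -/
theorem km_C (h1 : S_fam) (h3 : S_gw) (hn2 : 2 < n) {r b : ℕ}
    (ha : (r : ZMod n) * ((2 * b : ℕ) : ZMod n) ≠ 0) {R : Ideal (𝓞 K)} (hrR : (r : 𝓞 K) ∈ R)
    {ω : (𝓞 K ⧸ R)ˣ →* Circle} {χ1 χ2 : Ideal (𝓞 K) → ℂ}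
    (k1 : ∀ (I : Ideal (𝓞 K)) (y : ZMod n → ZMod n → 𝓞 K),
      IsCoprime I (span {((n ^ 2 * r : ℕ) : 𝓞 K)}) → Fam I y →
      ∃ h : IsUnit (Ideal.Quotient.mk R (mon (gl 0 [(r : ZMod n) * ((2 * b : ℕ) : ZMod n),
        -((r : ZMod n) * ((2 * b : ℕ) : ZMod n))]) y)), χ1 I = (ω h.unit : ℂ))
    (k2 : ∀ (I : Ideal (𝓞 K)) (y : ZMod n → ZMod n → 𝓞 K),
      IsCoprime I (span {((n ^ 2 * r : ℕ) : 𝓞 K)}) → Fam I y →
      ∃ h : IsUnit (Ideal.Quotient.mk R (mon (gl 0 (List.replicate r ((2 * b : ℕ) : ZMod n) ++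
      [-((r : ZMod n) * ((2 * b : ℕ) : ZMod n))])) y)), χ2 I = (ω h.unit : ℂ))
    {β : 𝓞 K} (hβ : β ≠ 0) (hβ1 : β - 1 ∈ span {((n : ℕ) : 𝓞 K) ^ 2})
    (hβr : IsCoprime (span {β}) (span {((r : ℕ) : 𝓞 K)}))
    (hnorm : ((Algebra.norm ℤ β : ℤ) : ZMod r) = 1) :
    ∃ h : IsUnit (Ideal.Quotient.mk R (xw n K (fun t => Wk n b r t) β)),
      χ1 (span {β}) * conj (χ2 (span {β})) * (ω h.unit : ℂ) = 1 := by
  have hcop : IsCoprime (span {β}) (span {((n ^ 2 * r : ℕ) : 𝓞 K)}) := by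
    have h4 : span {((n ^ 2 * r : ℕ) : 𝓞 K)} =
        span {((n : ℕ) : 𝓞 K) ^ 2} * span {((r : ℕ) : 𝓞 K)} := by
      rw [Ideal.span_singleton_mul_span_singleton]
      push_cast
      rfl
    rw [h4]
    exact IsCoprime.mul_right (HC.coprime_span hβ1) hβr
  have hfam := (h1 n K hn2).2.2 β hβ hβ1
  obtain ⟨u1, e1⟩ := k1 _ _ hcop hfam
  obtain ⟨u2, e2⟩ := k2 _ _ hcop hfam
  have hm2 : mon (gl 0 (List.replicate r ((2 * b : ℕ) : ZMod n) ++
      [-((r : ZMod n) * ((2 * b : ℕ) : ZMod n))])) (fun a b => xw n K (WW a b) β) =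
      xw n K (fun t => Wk n b r t) β := by
    rw [km_mon]
    congr 1
    funext t
    exact km_weight h3 hn2 r b t
  have hm1 : Ideal.Quotient.mk R (mon (gl 0 [(r : ZMod n) * ((2 * b : ℕ) : ZMod n),
        -((r : ZMod n) * ((2 * b : ℕ) : ZMod n))]) (fun a b => xw n K (WW a b) β)) = 1 := by
    rw [km_gl ha]
    set x := (r : ZMod n) * ((2 * b : ℕ) : ZMod n) with hx
    have a1 : xw n K (WW 0 x) β = 1 := hfam.zl x
    have a2 : xw n K (WW x (-x)) β = 1 := by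
      refine km_xw_zero (fun t => ?_) β
      unfold WW
      rw [if_neg (neg_ne_zero.2 ha), if_pos (Or.inr (add_neg_cancel x))]
    have hn1 : (1 : ZMod n) ≠ 0 := by
      have : Fact (1 < n) := ⟨by omega⟩
      exact one_ne_zero
    have a3 : xw n K (WW 1 0) β = ((absNorm (span {β}) : ℕ) : 𝓞 K) := hfam.zr 1 hn1
    have a4 : mon [((0 : ZMod n), x), (x, -x), (1, 0)] (fun a b => xw n K (WW a b) β) =
        ((absNorm (span {β}) : ℕ) : 𝓞 K) := by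
      unfold mon
      simp only [List.map_cons, List.map_nil, List.prod_cons, List.prod_nil]
      rw [a1, a2, a3, one_mul, one_mul, mul_one]
    rw [a4, fabs hn2, ← map_one (Ideal.Quotient.mk R), Ideal.Quotient.mk_eq_mk_iff_sub_mem]
    have a5 : (r : ℤ) ∣ Algebra.norm ℤ β - 1 := by
      rw [← ZMod.intCast_zmod_eq_zero_iff_dvd]
      push_cast
      rw [hnorm, sub_self]
    obtain ⟨c, hc⟩ := a5
    have a6 : ((Algebra.norm ℤ β : ℤ) : 𝓞 K) - 1 = (c : 𝓞 K) * (r : 𝓞 K) := by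
      have := congrArg (fun z : ℤ => (z : 𝓞 K)) hc
      push_cast at this
      rw [this]
      ring
    rw [a6]
    exact R.mul_mem_left _ hrR
  have hu : IsUnit (Ideal.Quotient.mk R (xw n K (fun t => Wk n b r t) β)) := by
    rw [← hm2]
    exact u2
  refine ⟨hu, ?_⟩
  have b1 : u1.unit = 1 := Units.ext hm1
  have b2 : u2.unit = hu.unit := Units.ext (by rw [IsUnit.unit_spec, IsUnit.unit_spec, hm2])
  rw [e1, e2, b1, b2, map_one, Circle.coe_one, one_mul, mul_comm, Complex.mul_conj,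
    Complex.normSq_eq_norm_sq, Circle.norm_coe]
  simp

end

/-- (N10) -/
theorem kum_of (h1 : S_fam) (h2 : S_hk) (h3 : S_gw) (h4 : S_kp) (h5 : S_k2) : S_kum := by
  intro n e b _ K _ _ _ hn hb he r hr hr2 hrn R hR hrR ω p hp
  have hb0 : 0 < b := hb.pos
  have h4e : 4 ≤ 2 ^ e := by
    calc 4 = 2 ^ 2 := by norm_num
      _ ≤ 2 ^ e := Nat.pow_le_pow_right (by norm_num) he
  have hn8 : 8 * b ≤ n := by
    rw [hn, pow_succ]
    exact Nat.mul_le_mul_right _ (by omega)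
  have hn2 : 2 < n := by omega
  have hn0 : 0 < n := by omega
  by_cases hp2 : p = 2
  · -- the prime two
    subst hp2
    obtain ⟨q, hq, hq2, hqr⟩ : ∃ q : ℕ, q.Prime ∧ q ≠ 2 ∧ q ≠ r := by
      by_cases h : r = 3
      · exact ⟨5, by norm_num, by norm_num, by omega⟩
      · exact ⟨3, by norm_num, by norm_num, fun h' => h h'.symm⟩
    obtain ⟨Q0, hQ0, hqQ⟩ := km_above (K := K) hq
    obtain ⟨ω', hω'⟩ := km_omega (km_two hq hq2 hQ0 hqQ) R ω e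
    obtain ⟨χ1, a1, b1⟩ := h2 n K hn2 q hq Q0 hQ0 hqQ ω' [((b : ZMod n), ((2 ^ e * b : ℕ) : ZMod n))]
    obtain ⟨χ2, a2, b2⟩ := h2 n K hn2 q hq Q0 hQ0 hqQ ω' [((b : ZMod n), (b : ZMod n))]
    have hM0 : 0 < n ^ 2 * q := Nat.mul_pos (pow_pos hn0 2) hq.pos
    refine ⟨fun I => χ1 I * conj (χ2 I), n ^ 2 * q * (n ^ 2 * q), 1, Nat.mul_pos hM0 hM0, odd_one,
      km_comb a1 a2, ?_, ?_, fun h => absurd h.symm hr2⟩
    · intro F _ _ π hπ _ hM hp χ hχ hfam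
      have hN : ((n ^ 2 * q : ℕ) : F) ≠ 0 := by
        intro h
        apply hM
        rw [Nat.cast_mul, h, zero_mul]
      refine km_A hn hω' b1 b2 π hπ hN hp hχ hfam ?_
      have c1 := h5 n (2 ^ e * b) K hn2 (by rw [hn]; ring) F χ hχ (by exact_mod_cast hp) (b : ZMod n)
      have c2 : ((b : ℕ) : ZMod n).val = b := ZMod.val_cast_of_lt (by omega)
      rw [c2] at c1
      have c3 : (χ ^ b) (4 : F) = (χ ^ (2 * b)) ((2 : ℕ) : F) := by
        have d1 : (4 : F) = (2 : ℕ) * (2 : ℕ) := by norm_num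
        rw [d1, map_mul, MulChar.pow_apply' _ hb0.ne', MulChar.pow_apply' _ (by omega),
          ← pow_add, two_mul]
      have c4 : mon [((b : ZMod n), (b : ZMod n))] (yj χ) = yj χ (b : ZMod n) (b : ZMod n) := by
        unfold mon
        simp
      have c5 : mon [((b : ZMod n), ((2 ^ e * b : ℕ) : ZMod n))] (yj χ) =
          yj χ (b : ZMod n) ((2 ^ e * b : ℕ) : ZMod n) := by
        unfold mon
        simp
      rw [c4, c5, pow_one, ← c3, c1, sub_self]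
      exact Q0.zero_mem
    · intro _ h
      rcases (Nat.Prime.dvd_mul hr).1 h with h | h <;>
      · rcases (Nat.Prime.dvd_mul hr).1 h with h | h
        · exact hrn (hr.dvd_of_dvd_pow h)
        · exact hqr ((Nat.prime_dvd_prime_iff_eq hr hq).1 h).symm
  · -- the odd primes
    have hval : ((2 * b : ℕ) : ZMod n).val = 2 * b := ZMod.val_cast_of_lt (by omega)
    have hA : ∀ (P' : Ideal (𝓞 K)) (ω' : (𝓞 K ⧸ P')ˣ →* Circle) (hP' : P'.IsPrime)
        (hpP : (p : 𝓞 K) ∈ P') (hω' : ∀ z : (𝓞 K)ˣ, z ^ 2 ^ e = 1 →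
          ω' (Units.map (Ideal.Quotient.mk P' : 𝓞 K →* 𝓞 K ⧸ P') z) =
            ω (Units.map (Ideal.Quotient.mk R : 𝓞 K →* 𝓞 K ⧸ R) z)),
        ∃ χ1 χ2 : Ideal (𝓞 K) → ℂ,
        Hk (fun I => χ1 I * conj (χ2 I)) (span {((n ^ 2 * p * (n ^ 2 * p) : ℕ) : 𝓞 K)})
          (fun _ => 1) ∧
        (∀ (I : Ideal (𝓞 K)) (y : ZMod n → ZMod n → 𝓞 K),
          IsCoprime I (span {((n ^ 2 * p : ℕ) : 𝓞 K)}) → Fam I y →
          ∃ h : IsUnit (Ideal.Quotient.mk P' (mon (gl 0 [(p : ZMod n) * ((2 * b : ℕ) : ZMod n),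
            -((p : ZMod n) * ((2 * b : ℕ) : ZMod n))]) y)), χ1 I = (ω' h.unit : ℂ)) ∧
        (∀ (I : Ideal (𝓞 K)) (y : ZMod n → ZMod n → 𝓞 K),
          IsCoprime I (span {((n ^ 2 * p : ℕ) : 𝓞 K)}) → Fam I y →
          ∃ h : IsUnit (Ideal.Quotient.mk P' (mon (gl 0 (List.replicate p ((2 * b : ℕ) : ZMod n) ++
            [-((p : ZMod n) * ((2 * b : ℕ) : ZMod n))])) y)), χ2 I = (ω' h.unit : ℂ)) ∧
        (∀ (F : Type) [Field F] [Fintype F] (π : 𝓞 K →+* F), Function.Surjective π →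
          (Fintype.card F).Prime → ((n ^ 2 * p * (n ^ 2 * p) : ℕ) : F) ≠ 0 → ((p : ℕ) : F) ≠ 0 →
          ∀ χ : MulChar F (𝓞 K), orderOf χ = n → Fam (n := n) (RingHom.ker π) (yj χ) →
          ∃ h : IsUnit (Ideal.Quotient.mk R ((χ ^ (2 * b)) ((p : ℕ) : F))),
            χ1 (RingHom.ker π) * conj (χ2 (RingHom.ker π)) = (ω h.unit : ℂ) ^ p) := by
      intro P' ω' hP' hpP hω'
      obtain ⟨χ1, a1, b1⟩ := h2 n K hn2 p hp P' hP' hpP ω' (gl 0 [(p : ZMod n) *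
        ((2 * b : ℕ) : ZMod n), -((p : ZMod n) * ((2 * b : ℕ) : ZMod n))])
      obtain ⟨χ2, a2, b2⟩ := h2 n K hn2 p hp P' hP' hpP ω' (gl 0 (List.replicate p
        ((2 * b : ℕ) : ZMod n) ++ [-((p : ZMod n) * ((2 * b : ℕ) : ZMod n))]))
      refine ⟨χ1, χ2, km_comb a1 a2, b1, b2, ?_⟩
      intro F _ _ π hπ hF hM hp0 χ hχ hfam
      have hN : ((n ^ 2 * p : ℕ) : F) ≠ 0 := by
        intro h
        apply hM
        rw [Nat.cast_mul, h, zero_mul]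
      refine km_A hn hω' b1 b2 π hπ hN hp0 hχ hfam ?_
      have c1 := h4 n K hn2 F χ hχ hF p hp hp2 hp0 P' hP' hpP ((2 * b : ℕ) : ZMod n)
      rw [hval] at c1
      exact c1
    have hM0 : 0 < n ^ 2 * p := Nat.mul_pos (pow_pos hn0 2) hp.pos
    have hpodd : Odd p := hp.odd_of_ne_two hp2
    by_cases hpr : p = r
    · subst hpr
      obtain ⟨χ1, χ2, c1, c2, c3, c4⟩ := hA R ω hR hrR fun z _ => rfl
      refine ⟨fun I => χ1 I * conj (χ2 I), _, p, Nat.mul_pos hM0 hM0, hpodd, c1, c4,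
        fun h => absurd rfl h, fun _ β hβ hβ1 hβr hnorm => ?_⟩
      refine km_C h1 h3 hn2 ?_ hrR c2 c3 hβ hβ1 hβr hnorm
      rw [← Nat.cast_mul, Ne, ZMod.natCast_eq_zero_iff]
      intro h
      have h6 : 2 ^ (e + 1) ∣ p * (2 * b) := (Dvd.intro b hn.symm).trans h
      have h7 : Nat.Coprime (2 ^ (e + 1)) (p * b) := by
        apply Nat.Coprime.pow_left
        exact Nat.Coprime.mul_right ((Nat.coprime_primes Nat.prime_two hp).2 (Ne.symm hp2))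
          (Nat.coprime_two_left.2 hb)
      have h8 : 2 ^ (e + 1) ∣ 2 * (p * b) := by
        have : p * (2 * b) = 2 * (p * b) := by ring
        rwa [this] at h6
      have h9 := Nat.le_of_dvd (by norm_num) (h7.dvd_of_dvd_mul_right h8)
      rw [pow_succ] at h9
      omega
    · obtain ⟨P', hP', hpP⟩ := km_above (K := K) hp
      obtain ⟨ω', hω'⟩ := km_omega (km_two hp hp2 hP' hpP) R ω e
      obtain ⟨χ1, χ2, c1, c2, c3, c4⟩ := hA P' ω' hP' hpP hω'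
      refine ⟨fun I => χ1 I * conj (χ2 I), _, p, Nat.mul_pos hM0 hM0, hpodd, c1, c4,
        fun _ h => ?_, fun h => absurd h hpr⟩
      rcases (Nat.Prime.dvd_mul hr).1 h with h | h <;>
      · rcases (Nat.Prime.dvd_mul hr).1 h with h | h
        · exact hrn (hr.dvd_of_dvd_pow h)
        · exact hpr ((Nat.prime_dvd_prime_iff_eq hr hp).1 h).symm

end Pool.Agent.NH35.HE
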