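import Pool.Agent.NH35.HE.StmC
import Pool.Agent.H916R2.Relations

/-! Reduction to a lower level for all distributions at once; transfer of the criterion. -/

set_option autoImplicit false

namespace Pool.Agent.NH35.HE

open Finset Pool.Agent.H916R2

namespace LowE

/-! ### the universal odd distribution -/

section
variable {m : ℕ} [NeZero m]

/-- the homomorphism attached to a function -/
def Lc {Q : Type} [AddCommGroup Q] (c : ZMod m → Q) : (ZMod m → ℤ) →+ Q where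
  toFun x := ∑ z, x z • c z
  map_zero' := by simp
  map_add' x y := by
    simp only [Pi.add_apply, add_smul, Finset.sum_add_distrib]

lemma Lc_single {Q : Type} [AddCommGroup Q] (c : ZMod m → Q) (a : ZMod m) :
    Lc c (Pi.single a 1) = c a := by
  show ∑ z, (Pi.single a (1 : ℤ) : ZMod m → ℤ) z • c z = c a
  rw [Finset.sum_eq_single a]
  · simp
  · intro b _ hb
    rw [Pi.single_eq_of_ne hb, zero_smul]
  · intro h
    exact absurd (Finset.mem_univ a) h

/-- the functions killed by all odd distributions -/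
def R0 (m : ℕ) [NeZero m] : AddSubgroup (ZMod m → ℤ) where
  carrier := {x | ∀ (Q : Type) [AddCommGroup Q] (c : ZMod m → Q), OddDist c → Lc c x = 0}
  zero_mem' := by
    intro Q _ c _
    exact map_zero _
  add_mem' := by
    intro x y hx hy Q _ c hc
    rw [map_add, hx Q c hc, hy Q c hc, add_zero]
  neg_mem' := by
    intro x hx Q _ c hc
    rw [map_neg, hx Q c hc, neg_zero]

/-- the universal odd distribution -/
def cU (a : ZMod m) : (ZMod m → ℤ) ⧸ R0 m := QuotientAddGroup.mk (Pi.single a 1)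

lemma mk_eq (x y : ZMod m → ℤ) (h : ∀ (Q : Type) [AddCommGroup Q] (c : ZMod m → Q), OddDist c →
    Lc c x = Lc c y) : (QuotientAddGroup.mk x : (ZMod m → ℤ) ⧸ R0 m) = QuotientAddGroup.mk y := by
  rw [QuotientAddGroup.eq]
  intro Q _ c hc
  rw [map_add, map_neg, h Q c hc, neg_add_cancel]

lemma cU_odd : OddDist (cU (m := m)) where
  neg a := by
    unfold cU
    rw [← QuotientAddGroup.mk_neg]
    apply mk_eq
    intro Q _ c hc
    rw [map_neg, Lc_single, Lc_single, hc.neg]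
  half a ha := by
    unfold cU
    rw [← QuotientAddGroup.mk_zero]
    apply mk_eq
    intro Q _ c hc
    rw [Lc_single, hc.half a ha, map_zero]
  dist p d hp hpd a := by
    have h1 : ∑ i ∈ range p, cU (a + (i : ZMod m) * (d : ZMod m)) =
        QuotientAddGroup.mk' (R0 m)
          (∑ i ∈ range p, Pi.single (a + (i : ZMod m) * (d : ZMod m)) 1) := by
      rw [map_sum]
      rfl
    rw [h1]
    apply mk_eq
    intro Q _ c hc
    rw [map_sum, Lc_single, ← hc.dist p d hp hpd a]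
    exact Finset.sum_congr rfl fun i _ => Lc_single c _

lemma Lc_cU (x : ZMod m → ℤ) : ∑ z, x z • cU z = QuotientAddGroup.mk' (R0 m) x := by
  have h1 : x = ∑ z, x z • (Pi.single z (1 : ℤ) : ZMod m → ℤ) := by
    funext b
    rw [Finset.sum_apply, Finset.sum_eq_single b]
    · simp
    · intro z _ hz
      rw [Pi.smul_apply, Pi.single_eq_of_ne (Ne.symm hz), smul_zero]
    · intro h
      exact absurd (Finset.mem_univ b) h
  conv_rhs => rw [h1]
  rw [map_sum]
  refine Finset.sum_congr rfl fun z _ => ?_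
  rw [map_zsmul]
  rfl

end

/-! ### differences of residues -/

section
variable {n : ℕ}

/-- the difference of two residues -/
def gd (s s' : (ZMod n)ˣ) (y : ZMod n) : ℤ :=
  (((s : ZMod n) * y).val : ℤ) - (((s' : ZMod n) * y).val : ℤ)

lemma gd_saw [NeZero n] (s s' : (ZMod n)ˣ) (y : ZMod n) :
    2 * gd s s' y = saw ((s : ZMod n) * y) - saw ((s' : ZMod n) * y) := by
  unfold gd saw
  by_cases h : y = 0
  · simp [h]
  · have h1 : (s : ZMod n) * y ≠ 0 := fun h2 => h ((Units.mul_right_eq_zero s).1 h2)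
    have h2 : (s' : ZMod n) * y ≠ 0 := fun h2 => h ((Units.mul_right_eq_zero s').1 h2)
    rw [if_neg h1, if_neg h2]
    ring

lemma gd_neg [NeZero n] (s s' : (ZMod n)ˣ) (y : ZMod n) : gd s s' (-y) = -gd s s' y := by
  have h1 := gd_saw s s' y
  have h2 := gd_saw s s' (-y)
  rw [mul_neg, mul_neg, saw_neg, saw_neg] at h2
  omega

lemma gd_half [NeZero n] (s s' : (ZMod n)ˣ) (y : ZMod n) (hy : y + y = 0) : gd s s' y = 0 := by
  have h1 := gd_saw s s' y
  rw [saw_half (by rw [← mul_add, hy, mul_zero]), saw_half (by rw [← mul_add, hy, mul_zero])] at h1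
  omega

lemma gd_dist {l e : ℕ} [NeZero n] (hle : l * e = n) (s s' : (ZMod n)ˣ) (y : ZMod n) :
    ∑ i ∈ range l, gd s s' (y + (i : ZMod n) * (e : ZMod n)) = gd s s' ((l : ZMod n) * y) := by
  have h1 := saw_dist_unit hle s y
  have h2 := saw_dist_unit hle s' y
  have h3 : 2 * ∑ i ∈ range l, gd s s' (y + (i : ZMod n) * (e : ZMod n)) =
      2 * gd s s' ((l : ZMod n) * y) := by
    rw [Finset.mul_sum, gd_saw, ← h1, ← h2, ← Finset.sum_sub_distrib]
    exact Finset.sum_congr rfl fun i _ => gd_saw s s' _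
  linarith

/-- the differences modulo the level -/
lemma gd_cong [NeZero n] (s s' : (ZMod n)ˣ) (y : ℕ) :
    (n : ℤ) ∣ gd s s' (y : ZMod n) -
      (y : ℤ) * ((((s : ZMod n).val : ℤ)) - (((s' : ZMod n).val : ℤ))) := by
  rw [← ZMod.intCast_zmod_eq_zero_iff_dvd]
  unfold gd
  push_cast
  rw [ZMod.natCast_zmod_val, ZMod.natCast_zmod_val, ZMod.natCast_zmod_val, ZMod.natCast_zmod_val]
  ring

end

lemma dI_gd {r n f m : ℕ} (t t' : (ZMod n)ˣ) (z : ZMod m) :
    dI r n f t t' z = ∑ j ∈ range f, (r : ℤ) ^ (f - j) *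
      gd t t' ((r : ZMod n) ^ j * (z.val : ZMod n)) := rfl

/-- the sum shifted by `s` -/
def es {n : ℕ} (r f : ℕ) (t t' : (ZMod n)ˣ) (y : ZMod n) (s : ℕ) : ℤ :=
  ∑ j ∈ range f, (r : ℤ) ^ (f - j) * gd t t' ((r : ZMod n) ^ (j + s) * y)

lemma tele (r : ℤ) (f : ℕ) (H : ℕ → ℤ) (hH : H f = H 0) :
    ∑ j ∈ range f, r ^ (f - j) * H (j + 1) =
      r * ∑ j ∈ range f, r ^ (f - j) * H j - r * (r ^ f - 1) * H 0 := by
  have h1 : ∑ j ∈ range (f + 1), r ^ (f + 1 - j) * H j =
      r * ∑ j ∈ range f, r ^ (f - j) * H j + r * H f := by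
    rw [Finset.sum_range_succ, Finset.mul_sum]
    congr 1
    · refine Finset.sum_congr rfl fun j hj => ?_
      rw [Finset.mem_range] at hj
      have : f + 1 - j = (f - j) + 1 := by omega
      rw [this, pow_succ']
      ring
    · rw [Nat.add_sub_cancel_left, pow_one]
  have h2 : ∑ j ∈ range (f + 1), r ^ (f + 1 - j) * H j =
      ∑ j ∈ range f, r ^ (f - j) * H (j + 1) + r ^ (f + 1) * H 0 := by
    rw [Finset.sum_range_succ']
    congr 1
    refine Finset.sum_congr rfl fun j _ => ?_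
    rw [Nat.add_sub_add_right]
  have h3 := h1.symm.trans h2
  rw [hH] at h3
  rw [pow_succ] at h3
  linarith

lemma es_succ {n r f : ℕ} (hrf : (r : ZMod n) ^ f = 1) (t t' : (ZMod n)ˣ) (y : ZMod n) (s : ℕ) :
    es r f t t' y (s + 1) = r * es r f t t' y s -
      r * ((r : ℤ) ^ f - 1) * gd t t' ((r : ZMod n) ^ s * y) := by
  have h := tele (r : ℤ) f (fun j => gd t t' ((r : ZMod n) ^ (j + s) * y)) (by
    rw [pow_add, hrf, one_mul, zero_add])
  simp only [zero_add] at h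
  unfold es
  rw [← h]
  refine Finset.sum_congr rfl fun j _ => ?_
  rw [show j + (s + 1) = j + 1 + s by ring]

lemma es_cong {n r f : ℕ} [NeZero n] (hrf : (r : ZMod n) ^ f = 1) (t t' : (ZMod n)ˣ) (y : ℕ)
    (s : ℕ) : ∃ C : ℤ, C = -((s : ℤ) * (r : ℤ) ^ s * y) ∧
    ((n : ℤ) * ((r : ℤ) ^ f - 1)) ∣ es r f t t' (y : ZMod n) s - (r : ℤ) ^ s *
      es r f t t' (y : ZMod n) 0 - C * ((r : ℤ) ^ f - 1) *
        ((((t : ZMod n).val : ℤ)) - (((t' : ZMod n).val : ℤ))) := by
  refine ⟨_, rfl, ?_⟩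
  induction s with
  | zero => simp
  | succ s ih =>
    rw [es_succ hrf]
    obtain ⟨c1, h1⟩ := ih
    obtain ⟨c2, h2⟩ := gd_cong t t' (r ^ s * y)
    have e1 : (((r ^ s * y : ℕ)) : ZMod n) = (r : ZMod n) ^ s * (y : ZMod n) := by push_cast; ring
    rw [e1] at h2
    refine ⟨r * c1 - r * c2, ?_⟩
    push_cast at h1 h2 ⊢
    linear_combination (r : ℤ) * h1 - (r : ℤ) * ((r : ℤ) ^ f - 1) * h2

/-! ### the quotient -/

section
variable {n : ℕ} [NeZero n]

/-- the functions of pairs of units which are multiples of the standard one modulo `n M` -/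
def H0 (n : ℕ) [NeZero n] (M : ℤ) : AddSubgroup ((ZMod n)ˣ × (ZMod n)ˣ → ℤ) where
  carrier := {g | ∃ k : ℤ, ∀ t : (ZMod n)ˣ × (ZMod n)ˣ, ((n : ℤ) * M) ∣ g t -
    k * M * ((((t.1 : ZMod n).val : ℤ)) - (((t.2 : ZMod n).val : ℤ)))}
  zero_mem' := ⟨0, fun t => by simp⟩
  add_mem' := by
    rintro x y ⟨k, hk⟩ ⟨l, hl⟩
    refine ⟨k + l, fun t => ?_⟩
    have e : (x + y) t - (k + l) * M * ((((t.1 : ZMod n).val : ℤ)) - (((t.2 : ZMod n).val : ℤ))) =
        (x t - k * M * ((((t.1 : ZMod n).val : ℤ)) - (((t.2 : ZMod n).val : ℤ)))) +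
        (y t - l * M * ((((t.1 : ZMod n).val : ℤ)) - (((t.2 : ZMod n).val : ℤ)))) := by
      rw [Pi.add_apply]
      ring
    rw [e]
    exact dvd_add (hk t) (hl t)
  neg_mem' := by
    rintro x ⟨k, hk⟩
    refine ⟨-k, fun t => ?_⟩
    have e : (-x) t - (-k) * M * ((((t.1 : ZMod n).val : ℤ)) - (((t.2 : ZMod n).val : ℤ))) =
        -(x t - k * M * ((((t.1 : ZMod n).val : ℤ)) - (((t.2 : ZMod n).val : ℤ)))) := by
      rw [Pi.neg_apply]
      ring
    rw [e]
    exact (dvd_neg (a := (n : ℤ) * M)).2 (hk t)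

/-- the distribution with values in the quotient -/
def cH {m : ℕ} (r n f : ℕ) [NeZero n] (z : ZMod m) :
    ((ZMod n)ˣ × (ZMod n)ˣ → ℤ) ⧸ H0 n ((r : ℤ) ^ f - 1) :=
  QuotientAddGroup.mk (fun t => dI r n f t.1 t.2 z)

end

lemma val_castHom {n m : ℕ} [NeZero m] (h : n ∣ m) (z : ZMod m) :
    ((z.val : ℕ) : ZMod n) = ZMod.castHom h (ZMod n) z := by
  rw [ZMod.castHom_apply, ZMod.natCast_val]

/-- the value of `dI` in terms of the shifted sums -/
lemma dI_es {r n f m : ℕ} (t t' : (ZMod n)ˣ) (z : ZMod m) :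
    dI r n f t t' z = es r f t t' (z.val : ZMod n) 0 := rfl

lemma cH_odd {r a n f m : ℕ} [NeZero m] [NeZero n] (hr : r.Prime) (ha : 0 < a) (hrn : ¬ r ∣ n)
    (hm : r ^ a * n = m) (hrf : (r : ZMod n) ^ f = 1) :
    OddDist (cH (m := m) r n f) := by
  have hnm : n ∣ m := ⟨r ^ a, by rw [← hm, mul_comm]⟩
  have hcop : r.Coprime n := (Nat.Prime.coprime_iff_not_dvd hr).2 hrn
  obtain ⟨R, hR⟩ : ∃ R : (ZMod n)ˣ, (R : ZMod n) = (r : ZMod n) :=
    ⟨ZMod.unitOfCoprime r hcop, ZMod.coe_unitOfCoprime r hcop⟩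
  refine
    { neg := fun z => ?_
      half := fun z hz => ?_
      dist := fun l d hl hld z => ?_ }
  · unfold cH
    rw [← QuotientAddGroup.mk_neg]
    congr 1
    funext t
    rw [Pi.neg_apply, dI_gd, dI_gd, ← Finset.sum_neg_distrib]
    refine Finset.sum_congr rfl fun j _ => ?_
    rw [val_castHom hnm, val_castHom hnm, map_neg, mul_neg, gd_neg]
    ring
  · unfold cH
    rw [← QuotientAddGroup.mk_zero]
    congr 1
    funext t
    rw [Pi.zero_apply, dI_gd]
    refine Finset.sum_eq_zero fun j _ => ?_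
    rw [val_castHom hnm, gd_half, mul_zero]
    rw [← mul_add, ← map_add, hz, map_zero, mul_zero]
  · by_cases hlr : l = r
    · subst hlr
      have hd : d = l ^ (a - 1) * n := by
        have h1 : l * d = l * (l ^ (a - 1) * n) := by
          rw [hld, ← hm, ← mul_assoc, ← pow_succ', Nat.sub_add_cancel ha]
        exact Nat.eq_of_mul_eq_mul_left hl.pos h1
      have hd0 : (ZMod.castHom hnm (ZMod n)) (d : ZMod m) = 0 := by
        rw [map_natCast, hd, Nat.cast_mul, ZMod.natCast_self, mul_zero]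
      have h1 : ∀ i ∈ range l, cH l n f (z + (i : ZMod m) * (d : ZMod m)) = cH l n f z := by
        intro i _
        unfold cH
        congr 1
        funext t
        rw [dI_gd, dI_gd]
        refine Finset.sum_congr rfl fun j _ => ?_
        rw [val_castHom hnm, val_castHom hnm, map_add, map_mul, hd0, mul_zero, add_zero]
      rw [Finset.sum_congr rfl h1, Finset.sum_const, card_range]
      unfold cH
      rw [← QuotientAddGroup.mk_nsmul, QuotientAddGroup.eq]
      refine ⟨-((l : ℤ) * z.val), fun t => ?_⟩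
      obtain ⟨c2, h2⟩ := gd_cong t.1 t.2 z.val
      refine ⟨-(l : ℤ) * c2, ?_⟩
      have e1 : dI l n f t.1 t.2 ((l : ZMod m) * z) = es l f t.1 t.2 (z.val : ZMod n) 1 := by
        rw [dI_gd, val_castHom hnm, map_mul, map_natCast, ← val_castHom hnm]
        unfold es
        refine Finset.sum_congr rfl fun j _ => ?_
        rw [pow_succ, mul_assoc]
      have e2 := es_succ hrf t.1 t.2 (z.val : ZMod n) 0
      rw [zero_add, pow_zero, one_mul, ← dI_es] at e2
      show -(l • fun t : (ZMod n)ˣ × (ZMod n)ˣ => dI l n f t.1 t.2 z) t +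
        dI l n f t.1 t.2 ((l : ZMod m) * z) - _ = _
      rw [Pi.smul_apply, nsmul_eq_mul, e1, e2]
      linear_combination (-(l : ℤ) * ((l : ℤ) ^ f - 1)) * h2
    · have hln : l ∣ n := by
        have h1 : l ∣ r ^ a * n := by rw [hm, ← hld]; exact Dvd.intro _ rfl
        rcases (Nat.Prime.dvd_mul hl).1 h1 with h2 | h2
        · exact absurd ((Nat.prime_dvd_prime_iff_eq hl hr).1 (hl.dvd_of_dvd_pow h2)) hlr
        · exact h2
      obtain ⟨e, he⟩ := hln
      have hd : d = r ^ a * e := by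
        have h1 : l * d = l * (r ^ a * e) := by
          rw [hld, ← hm, he]
          ring
        exact Nat.eq_of_mul_eq_mul_left hl.pos h1
      have hde : (ZMod.castHom hnm (ZMod n)) (d : ZMod m) =
          ((R ^ a : (ZMod n)ˣ) : ZMod n) * (e : ZMod n) := by
        rw [map_natCast, hd, Nat.cast_mul, Nat.cast_pow, Units.val_pow_eq_pow_val, hR]
      have hgr : ∀ (t t' : (ZMod n)ˣ) (j : ℕ) (y : ZMod n), gd t t' ((r : ZMod n) ^ j * y) =
          gd (t * R ^ j) (t' * R ^ j) y := by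
        intro t t' j y
        unfold gd
        rw [Units.val_mul, Units.val_mul, Units.val_pow_eq_pow_val, hR, mul_assoc, mul_assoc]
      have key : ∀ (t t' : (ZMod n)ˣ) (j : ℕ), ∑ i ∈ range l, gd (t * R ^ j) (t' * R ^ j)
          (((z + (i : ZMod m) * (d : ZMod m)).val : ℕ) : ZMod n) =
          gd (t * R ^ j) (t' * R ^ j) ((((l : ZMod m) * z).val : ℕ) : ZMod n) := by
        intro t t' j
        rw [val_castHom hnm, map_mul, map_natCast, ← gd_dist he.symm]
        have h1 := coset_sum_unit (fun y => gd (t * R ^ j) (t' * R ^ j) y) he.symm (R ^ a)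
          (((R ^ a)⁻¹ : (ZMod n)ˣ) * (ZMod.castHom hnm (ZMod n)) z)
        have h2 : ((R ^ a : (ZMod n)ˣ) : ZMod n) * ((((R ^ a)⁻¹ : (ZMod n)ˣ) : ZMod n) *
            (ZMod.castHom hnm (ZMod n)) z) = (ZMod.castHom hnm (ZMod n)) z := by
          rw [← mul_assoc, Units.mul_inv, one_mul]
        rw [h2] at h1
        rw [← h1]
        refine Finset.sum_congr rfl fun i _ => ?_
        rw [val_castHom hnm, map_add, map_mul, map_natCast, hde, mul_add, h2]
        congr 2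
        ring
      unfold cH
      have e0 : ∑ i ∈ range l, (QuotientAddGroup.mk (fun t : (ZMod n)ˣ × (ZMod n)ˣ =>
          dI r n f t.1 t.2 (z + (i : ZMod m) * (d : ZMod m))) :
          ((ZMod n)ˣ × (ZMod n)ˣ → ℤ) ⧸ H0 n ((r : ℤ) ^ f - 1)) =
          QuotientAddGroup.mk' (H0 n ((r : ℤ) ^ f - 1)) (∑ i ∈ range l,
            fun t : (ZMod n)ˣ × (ZMod n)ˣ => dI r n f t.1 t.2 (z + (i : ZMod m) * (d : ZMod m))) := by
        rw [map_sum]
        rfl
      rw [e0]
      show QuotientAddGroup.mk _ = QuotientAddGroup.mk _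
      congr 1
      funext t
      rw [Finset.sum_apply]
      simp only [dI_gd]
      rw [Finset.sum_comm]
      refine Finset.sum_congr rfl fun j _ => ?_
      rw [← Finset.mul_sum, hgr]
      simp only [hgr]
      rw [key]

lemma val_mul_low {c n0 n : ℕ} (hc : n = n0 * c) (hd : n0 ∣ n) (h0 : NeZero n)
    (t : (ZMod n)ˣ) (y : ℕ) :
    ((t : ZMod n) * ((c : ZMod n) * (y : ZMod n))).val =
      c * ((ZMod.unitsMap hd t : ZMod n0) * (y : ZMod n0)).val := by
  have h1 : (t : ZMod n) = (((t : ZMod n).val : ℕ) : ZMod n) := (ZMod.natCast_zmod_val _).symm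
  have h2 : ((ZMod.unitsMap hd t : (ZMod n0)ˣ) : ZMod n0) = (((t : ZMod n).val : ℕ) : ZMod n0) := by
    rw [val_castHom hd]
    rfl
  have h3 : (t : ZMod n) * ((c : ZMod n) * (y : ZMod n)) =
      ((c * ((t : ZMod n).val * y) : ℕ) : ZMod n) := by
    push_cast
    rw [← h1]
    ring
  have h4 : ((ZMod.unitsMap hd t : (ZMod n0)ˣ) : ZMod n0) * (y : ZMod n0) =
      (((t : ZMod n).val * y : ℕ) : ZMod n0) := by
    rw [h2]
    push_cast
    rfl
  rw [h3, h4, ZMod.val_natCast, ZMod.val_natCast]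
  generalize (t : ZMod n).val = w
  rw [hc, mul_comm n0 c, Nat.mul_mod_mul_left]

/-- the residue of a unit at the lower level -/
lemma val_low {n0 n : ℕ} (hd : n0 ∣ n) [NeZero n] [NeZero n0] (t : (ZMod n)ˣ) :
    (n0 : ℤ) ∣ ((t : ZMod n).val : ℤ) - (((ZMod.unitsMap hd t : (ZMod n0)ˣ) : ZMod n0).val : ℤ) := by
  rw [← ZMod.intCast_zmod_eq_zero_iff_dvd]
  push_cast
  rw [ZMod.natCast_zmod_val, val_castHom hd]
  have : ((ZMod.unitsMap hd t : (ZMod n0)ˣ) : ZMod n0) = ZMod.castHom hd (ZMod n0) t := rfl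
  rw [this, sub_self]

end LowE

/-- (C0) -/
theorem red : S_red := by
  intro m m0 k _ _ hkm hpr h4 x hx
  obtain ⟨x0, hx0, he⟩ := red_exists k m m0 k rfl hkm hpr h4 ((ZMod m → ℤ) ⧸ LowE.R0 m)
    LowE.cU LowE.cU_odd x hx
  refine ⟨x0, hx0, ?_⟩
  intro Q _ c hc
  rw [LowE.Lc_cU] at he
  have h1 : ∑ b : ZMod m0, x0 b • LowE.cU (iota k b : ZMod m) = QuotientAddGroup.mk' (LowE.R0 m)
      (∑ b : ZMod m0, x0 b • (Pi.single (iota k b : ZMod m) (1 : ℤ) : ZMod m → ℤ)) := by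
    rw [map_sum]
    refine Finset.sum_congr rfl fun z _ => ?_
    rw [map_zsmul]
    rfl
  rw [h1] at he
  have h2 := (QuotientAddGroup.eq).1 he
  have h3 := h2 Q c hc
  rw [map_add, map_neg, neg_add_eq_zero] at h3
  rw [map_sum] at h3
  have h4 : LowE.Lc c x = ∑ z, x z • c z := rfl
  rw [← h4, h3]
  refine Finset.sum_congr rfl fun z _ => ?_
  rw [map_zsmul, LowE.Lc_single]

/-- (C1) -/
theorem low : S_low := by
  intro r a n n0 k m m0 _ _ hr hr2 ha hrn hm hm0 hk hd hpr x x0 hx hce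
  have hmne : m ≠ 0 := NeZero.ne m
  have hn : NeZero n := ⟨by rintro rfl; exact hmne (by rw [← hm, mul_zero])⟩
  have hn0 : NeZero n0 := ⟨by rintro rfl; exact NeZero.ne m0 (by rw [← hm0, mul_zero])⟩
  obtain ⟨f, hf, hrf, N, k1, hN, hdv⟩ := hce
  obtain ⟨c, hc⟩ := id hd
  have hc0 : 0 < c := Nat.pos_of_ne_zero (by rintro rfl; exact NeZero.ne n (by rw [hc, mul_zero]))
  have hk' : k = r ^ (a - 1) * c := by
    have h1 : (r * n0) * k = (r * n0) * (r ^ (a - 1) * c) := by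
      rw [hm0, mul_comm m0 k, hk, ← hm, ← hm0, hc]
      obtain ⟨a', rfl⟩ : ∃ a', a = a' + 1 := ⟨a - 1, by omega⟩
      rw [Nat.add_sub_cancel]
      ring
    exact Nat.eq_of_mul_eq_mul_left (Nat.mul_pos hr.pos (NeZero.pos n0)) h1
  have hrf0 : (r : ZMod n0) ^ f = 1 := by
    have h3 := congrArg (ZMod.castHom hd (ZMod n0)) hrf
    rwa [map_pow, map_natCast, map_one] at h3
  set M : ℤ := (r : ℤ) ^ f - 1 with hM
  -- the relation in the quotient
  have hq := hx (((ZMod n)ˣ × (ZMod n)ˣ → ℤ) ⧸ LowE.H0 n ((r : ℤ) ^ f - 1)) (LowE.cH r n f)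
    (LowE.cH_odd hr ha hrn hm hrf)
  have e1 : ∑ z : ZMod m, x z • LowE.cH r n f z = QuotientAddGroup.mk' (LowE.H0 n ((r : ℤ) ^ f - 1))
      (∑ z : ZMod m, x z • fun t : (ZMod n)ˣ × (ZMod n)ˣ => dI r n f t.1 t.2 z) := by
    rw [map_sum]
    refine Finset.sum_congr rfl fun z _ => ?_
    rw [map_zsmul]
    rfl
  have e2 : ∑ b : ZMod m0, x0 b • LowE.cH r n f (iota k b : ZMod m) =
      QuotientAddGroup.mk' (LowE.H0 n ((r : ℤ) ^ f - 1))
      (∑ b : ZMod m0, x0 b • fun t : (ZMod n)ˣ × (ZMod n)ˣ =>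
        dI r n f t.1 t.2 (iota k b : ZMod m)) := by
    rw [map_sum]
    refine Finset.sum_congr rfl fun z _ => ?_
    rw [map_zsmul]
    rfl
  rw [e1, e2] at hq
  have hmem : N • (∑ z : ZMod m, x z • fun t : (ZMod n)ˣ × (ZMod n)ˣ => dI r n f t.1 t.2 z) ∈
      LowE.H0 n ((r : ℤ) ^ f - 1) := by
    refine ⟨k1, fun t => ?_⟩
    have := hdv t.1 t.2
    rw [Pi.smul_apply, Finset.sum_apply]
    simpa [smul_eq_mul] using this
  have hmem2 : N • (∑ b : ZMod m0, x0 b • fun t : (ZMod n)ˣ × (ZMod n)ˣ =>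
        dI r n f t.1 t.2 (iota k b : ZMod m)) ∈ LowE.H0 n ((r : ℤ) ^ f - 1) := by
    rw [← QuotientAddGroup.eq_zero_iff] at hmem ⊢
    rw [QuotientAddGroup.mk_zsmul] at hmem ⊢
    have hq' : (QuotientAddGroup.mk (∑ z : ZMod m, x z • fun t : (ZMod n)ˣ × (ZMod n)ˣ =>
        dI r n f t.1 t.2 z) : ((ZMod n)ˣ × (ZMod n)ˣ → ℤ) ⧸ LowE.H0 n ((r : ℤ) ^ f - 1)) =
        QuotientAddGroup.mk (∑ b : ZMod m0, x0 b • fun t : (ZMod n)ˣ × (ZMod n)ˣ =>
        dI r n f t.1 t.2 (iota k b : ZMod m)) := hq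
    rw [← hq']
    exact hmem
  obtain ⟨k2, hk2⟩ := hmem2
  -- the values at the lower level
  have hval : ∀ (t t' : (ZMod n)ˣ) (b : ZMod m0), dI r n f t t' (iota k b : ZMod m) =
      c * LowE.es r f (ZMod.unitsMap hd t) (ZMod.unitsMap hd t') ((b.val : ℕ) : ZMod n0) (a - 1) := by
    intro t t' b
    rw [LowE.dI_gd]
    unfold LowE.es
    rw [Finset.mul_sum]
    refine Finset.sum_congr rfl fun j _ => ?_
    have h5 : (((iota k b : ZMod m).val : ℕ) : ZMod n) = ((k * b.val : ℕ) : ZMod n) := by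
      have hnm : n ∣ m := ⟨r ^ a, by rw [← hm, mul_comm]⟩
      rw [LowE.val_castHom hnm]
      unfold iota
      rw [map_natCast]
    have h6 : (r : ZMod n) ^ j * (((iota k b : ZMod m).val : ℕ) : ZMod n) =
        (c : ZMod n) * ((r ^ (j + (a - 1)) * b.val : ℕ) : ZMod n) := by
      rw [h5, hk']
      push_cast
      ring
    unfold LowE.gd
    rw [h6, LowE.val_mul_low hc hd hn, LowE.val_mul_low hc hd hn]
    push_cast
    ring
  -- the sum at the lower level
  let S : (ZMod n0)ˣ → (ZMod n0)ˣ → ℤ := fun t t' =>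
    ∑ b : ZMod m0, x0 b * LowE.es r f t t' ((b.val : ℕ) : ZMod n0) (a - 1)
  have hk3 : ∀ t t' : (ZMod n)ˣ, ((n : ℤ) * M) ∣ N * (c * S (ZMod.unitsMap hd t)
      (ZMod.unitsMap hd t')) - k2 * M * ((((t : ZMod n).val : ℤ)) - (((t' : ZMod n).val : ℤ))) := by
    intro t t'
    have h1 := hk2 (t, t')
    rw [Pi.smul_apply, Finset.sum_apply] at h1
    have h2 : ∑ b : ZMod m0, (x0 b • fun t : (ZMod n)ˣ × (ZMod n)ˣ =>
        dI r n f t.1 t.2 (iota k b : ZMod m)) (t, t') = c * S (ZMod.unitsMap hd t)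
        (ZMod.unitsMap hd t') := by
      show _ = (c : ℤ) * ∑ b : ZMod m0, x0 b * LowE.es r f (ZMod.unitsMap hd t)
        (ZMod.unitsMap hd t') ((b.val : ℕ) : ZMod n0) (a - 1)
      rw [Finset.mul_sum]
      refine Finset.sum_congr rfl fun b _ => ?_
      rw [Pi.smul_apply, smul_eq_mul]
      show x0 b * dI r n f t t' (iota k b : ZMod m) = _
      rw [hval]
      ring
    rw [h2] at h1
    exact h1
  have hMpos : 0 < M := by
    have h1 : (2 : ℤ) ≤ r := by exact_mod_cast hr.two_le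
    have h2 : (r : ℤ) ^ 1 ≤ (r : ℤ) ^ f := pow_le_pow_right₀ (by linarith) hf
    rw [hM]
    linarith
  -- divisibility of `k2`
  have hcop : Nat.Coprime (1 + n0) n := by
    by_contra hnc
    obtain ⟨p, hp, h1, h2⟩ := Nat.Prime.not_coprime_iff_dvd.1 hnc
    have h3 := hpr p hp h2
    have h4 : p ∣ 1 := (Nat.dvd_add_left h3).1 h1
    exact hp.one_lt.ne' (Nat.dvd_one.1 h4)
  have hck : (c : ℤ) ∣ k2 := by
    have h1 := hk3 (ZMod.unitOfCoprime (1 + n0) hcop) 1
    have h2 : ZMod.unitsMap hd (ZMod.unitOfCoprime (1 + n0) hcop) = 1 := by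
      apply Units.ext
      show ZMod.castHom hd (ZMod n0) ((ZMod.unitOfCoprime (1 + n0) hcop : (ZMod n)ˣ) : ZMod n) = 1
      rw [ZMod.coe_unitOfCoprime, map_natCast]
      push_cast
      rw [ZMod.natCast_self, add_zero]
    have h3 : ∀ u : (ZMod n0)ˣ, S u u = 0 := by
      intro u
      show ∑ b : ZMod m0, x0 b * LowE.es r f u u ((b.val : ℕ) : ZMod n0) (a - 1) = 0
      refine Finset.sum_eq_zero fun b _ => ?_
      have : LowE.es r f u u ((b.val : ℕ) : ZMod n0) (a - 1) = 0 := by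
        unfold LowE.es
        refine Finset.sum_eq_zero fun j _ => ?_
        unfold LowE.gd
        rw [sub_self, mul_zero]
      rw [this, mul_zero]
    rw [h2, map_one, h3] at h1
    have h4 : (n : ℤ) ∣ ((((ZMod.unitOfCoprime (1 + n0) hcop : (ZMod n)ˣ) : ZMod n).val : ℤ)) -
        ((((1 : (ZMod n)ˣ) : ZMod n).val : ℤ)) - n0 := by
      rw [← ZMod.intCast_zmod_eq_zero_iff_dvd]
      push_cast
      rw [ZMod.natCast_zmod_val, ZMod.natCast_zmod_val, ZMod.coe_unitOfCoprime]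
      push_cast
      ring
    obtain ⟨u1, hu1⟩ := h1
    obtain ⟨u2, hu2⟩ := h4
    have h5 : M * ((n : ℤ) * (-u1 - k2 * u2)) = M * (k2 * n0) := by
      linear_combination hu1 + (k2 * M) * hu2
    have h6 := mul_left_cancel₀ hMpos.ne' h5
    have h7 : (n : ℤ) = n0 * c := by exact_mod_cast hc
    have hn0z : (n0 : ℤ) ≠ 0 := by exact_mod_cast NeZero.ne n0
    refine ⟨-u1 - k2 * u2, ?_⟩
    apply mul_left_cancel₀ hn0z
    rw [h7] at h6
    linarith
  obtain ⟨k3, hk3'⟩ := hck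
  have hk4 : ∀ t t' : (ZMod n)ˣ, ((n0 : ℤ) * M) ∣ N * S (ZMod.unitsMap hd t)
      (ZMod.unitsMap hd t') - k3 * M * ((((t : ZMod n).val : ℤ)) - (((t' : ZMod n).val : ℤ))) := by
    intro t t'
    obtain ⟨u, hu⟩ := hk3 t t'
    refine ⟨u, ?_⟩
    have hcz : (c : ℤ) ≠ 0 := by exact_mod_cast hc0.ne'
    apply mul_left_cancel₀ hcz
    have h7 : (n : ℤ) = n0 * c := by exact_mod_cast hc
    rw [h7, hk3'] at hu
    linear_combination hu
  refine ⟨f, hf, hrf0, N * (r : ℤ) ^ (a - 1), k3 - N * ∑ b : ZMod m0, x0 b *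
    (-(((a - 1 : ℕ) : ℤ) * (r : ℤ) ^ (a - 1) * (b.val : ℕ))), ?_, ?_⟩
  · exact hN.mul (Odd.pow (by exact_mod_cast hr.odd_of_ne_two hr2))
  · intro s s'
    obtain ⟨t, rfl⟩ := ZMod.unitsMap_surjective hd s
    obtain ⟨t', rfl⟩ := ZMod.unitsMap_surjective hd s'
    obtain ⟨u, hu⟩ := hk4 t t'
    obtain ⟨w, hw⟩ := LowE.val_low hd t
    obtain ⟨w', hw'⟩ := LowE.val_low hd t'
    have hes : ∀ b : ZMod m0, ∃ v : ℤ, LowE.es r f (ZMod.unitsMap hd t) (ZMod.unitsMap hd t')
        ((b.val : ℕ) : ZMod n0) (a - 1) - (r : ℤ) ^ (a - 1) *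
        dI r n0 f (ZMod.unitsMap hd t) (ZMod.unitsMap hd t') b -
        (-(((a - 1 : ℕ) : ℤ) * (r : ℤ) ^ (a - 1) * (b.val : ℕ))) * M *
        ((((ZMod.unitsMap hd t : (ZMod n0)ˣ) : ZMod n0).val : ℤ) -
          (((ZMod.unitsMap hd t' : (ZMod n0)ˣ) : ZMod n0).val : ℤ)) = (n0 : ℤ) * M * v := by
      intro b
      obtain ⟨C, hC, v, hv⟩ := LowE.es_cong (f := f) hrf0 (ZMod.unitsMap hd t) (ZMod.unitsMap hd t')
        b.val (a - 1)
      refine ⟨v, ?_⟩
      rw [hC] at hv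
      exact hv
    choose v hv using hes
    have hsum : S (ZMod.unitsMap hd t) (ZMod.unitsMap hd t') - (r : ℤ) ^ (a - 1) *
        ∑ b : ZMod m0, x0 b * dI r n0 f (ZMod.unitsMap hd t) (ZMod.unitsMap hd t') b -
        (∑ b : ZMod m0, x0 b * (-(((a - 1 : ℕ) : ℤ) * (r : ℤ) ^ (a - 1) * (b.val : ℕ)))) * M *
        ((((ZMod.unitsMap hd t : (ZMod n0)ˣ) : ZMod n0).val : ℤ) -
          (((ZMod.unitsMap hd t' : (ZMod n0)ˣ) : ZMod n0).val : ℤ)) =
        (n0 : ℤ) * M * ∑ b : ZMod m0, x0 b * v b := by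
      show (∑ b : ZMod m0, x0 b * LowE.es r f (ZMod.unitsMap hd t) (ZMod.unitsMap hd t')
        ((b.val : ℕ) : ZMod n0) (a - 1)) - _ - _ = _
      rw [Finset.mul_sum, Finset.mul_sum, Finset.sum_mul, Finset.sum_mul,
        ← Finset.sum_sub_distrib, ← Finset.sum_sub_distrib]
      refine Finset.sum_congr rfl fun b _ => ?_
      linear_combination (x0 b) * hv b
    refine ⟨u - N * ∑ b : ZMod m0, x0 b * v b + k3 * (w - w'), ?_⟩
    linear_combination hu - N * hsum + k3 * M * (hw - hw')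

end Pool.Agent.NH35.HE
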