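import Pool.Agent.NH35.HG.StmG
import Pool.Agent.H916K.ThreeD

/-! Statements of the project on diagonal hypersurfaces of degree divisible by four:
combinatorial part. -/

set_option autoImplicit false
set_option linter.unusedSectionVars false

namespace Pool.Agent.NH35.HE

open Finset Pool.Agent.H916R2 Pool.Agent.H916K
open Pool.Agent.NH35.HG (FH)

/-- the integral digit distribution attached to a prime `r`, the level `n` and two units -/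
def dI (r n f : ℕ) {m : ℕ} (t t' : (ZMod n)ˣ) (z : ZMod m) : ℤ :=
  ∑ j ∈ range f, (r : ℤ) ^ (f - j) *
    ((((t : ZMod n) * ((r : ZMod n) ^ j * (z.val : ZMod n))).val : ℤ) -
      (((t' : ZMod n) * ((r : ZMod n) ^ j * (z.val : ZMod n))).val : ℤ))

/-- the criterion at the prime `r`, for functions of level `m = r ^ a * n` -/
def CE (r n : ℕ) {m : ℕ} [NeZero m] (x : ZMod m → ℤ) : Prop :=
  ∃ f : ℕ, 0 < f ∧ (r : ZMod n) ^ f = 1 ∧ ∃ N k : ℤ, Odd N ∧ ∀ t t' : (ZMod n)ˣ,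
    ((n : ℤ) * ((r : ℤ) ^ f - 1)) ∣ N * ∑ z : ZMod m, x z * dI r n f t t' z -
      k * ((r : ℤ) ^ f - 1) * ((((t : ZMod n).val : ℤ)) - (((t' : ZMod n).val : ℤ)))

/-- the criterion at all odd primes dividing `m` -/
def CEall (m : ℕ) [NeZero m] (x : ZMod m → ℤ) : Prop :=
  ∀ r a n : ℕ, r.Prime → r ≠ 2 → 0 < a → ¬ r ∣ n → r ^ a * n = m → CE r n x

/-- the criterion at level `r * n` in terms of `FH` -/
def CF (r n : ℕ) {m : ℕ} [NeZero m] (x : ZMod m → ℤ) : Prop :=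
  ∃ N k : ℤ, Odd N ∧ ∀ t t' : (ZMod n)ˣ,
    ((n : ℤ) * ((r : ℤ) - 1)) ∣ N * FH r n x t t' -
      k * ((r : ℤ) - 1) * ((((t : ZMod n).val : ℤ)) - (((t' : ZMod n).val : ℤ)))

/-- (C0) reduction to a lower level, for all distributions at once -/
def S_red : Prop := ∀ (m m0 k : ℕ) [NeZero m] [NeZero m0], k * m0 = m →
  (∀ p : ℕ, p.Prime → p ∣ m → p ∣ m0) → (4 ∣ m → 4 ∣ m0) → ∀ x : ZMod m → ℤ, Rel x →
  ∃ x0 : ZMod m0 → ℤ, Rel x0 ∧ ∀ (Q : Type) [AddCommGroup Q] (c : ZMod m → Q), OddDist c →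
    ∑ z, x z • c z = ∑ b : ZMod m0, x0 b • c (iota k b)

/-- (C1) transfer of the criterion to a lower level (also used with `k = 1`) -/
def S_low : Prop := ∀ (r a n n0 k m m0 : ℕ) [NeZero m] [NeZero m0], r.Prime → r ≠ 2 → 0 < a →
  ¬ r ∣ n → r ^ a * n = m → r * n0 = m0 → k * m0 = m → n0 ∣ n →
  (∀ l : ℕ, l.Prime → l ∣ n → l ∣ n0) →
  ∀ (x : ZMod m → ℤ) (x0 : ZMod m0 → ℤ),
  (∀ (Q : Type) [AddCommGroup Q] (c : ZMod m → Q), OddDist c →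
    ∑ z, x z • c z = ∑ b : ZMod m0, x0 b • c (iota k b)) →
  CE r n x → CE r n0 x0

/-- (C2) the criterion in terms of `FH` -/
def S_cf : Prop := ∀ (r n m : ℕ) [NeZero m], r.Prime → r ≠ 2 → ¬ r ∣ n → 1 < n → r * n = m →
  ∀ x : ZMod m → ℤ, Rel x → CE r n x → CF r n x

/-! General multipliers -/

/-- odd distributions in two coordinates with general multipliers -/
structure G2 {p q : ℕ} [NeZero p] [NeZero q] (a : ZMod p) (b : ZMod q) {Q : Type*}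
    [AddCommGroup Q] (c : ZMod p → ZMod q → Q) : Prop where
  neg : ∀ u v, c (-u) (-v) = - c u v
  zero : c 0 0 = 0
  dp : ∀ v, ∑ u, c u v = c 0 (b * v)
  dq : ∀ u, ∑ v, c u v = c (a * u) 0

/-- integral relations -/
def GR2 {p q : ℕ} [NeZero p] [NeZero q] (a : ZMod p) (b : ZMod q) (x : ZMod p → ZMod q → ℤ) :
    Prop := ∀ g : ZMod p → ZMod q → ℤ, G2 a b g → ∑ u, ∑ v, x u v * g u v = 0

/-- (C3) two coordinates with general multipliers: the functions `AA x` and `BB x` are those of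
`Pool.Agent.H916K.Two` -/
def S_g2 : Prop := ∀ (p q : ℕ) [Fact p.Prime] [Fact q.Prime], p ≠ 2 → q ≠ 2 →
  ∀ (a : ZMod p) (b : ZMod q), a ≠ 0 → b ≠ 0 → ∀ x : ZMod p → ZMod q → ℤ, GR2 a b x →
  (∀ u v, u ≠ 0 → v ≠ 0 → 2 * yy x u v = AA x u + BB x v) ∧
  (2 ∣ AA x 1 → ∀ {Q : Type} [AddCommGroup Q] {c : ZMod p → ZMod q → Q}, G2 a b c →
    ∑ u, ∑ v, x u v • c u v = 0)

/-- multipliers in three coordinates: `pq` is the multiplier of the first prime on the second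
coordinate, and so on -/
structure Mu (p q r : ℕ) where
  pq : ZMod q
  pr : ZMod r
  qp : ZMod p
  qr : ZMod r
  rp : ZMod p
  rq : ZMod q

/-- all multipliers are nonzero -/
def Mu.Ok {p q r : ℕ} (μ : Mu p q r) : Prop :=
  μ.pq ≠ 0 ∧ μ.pr ≠ 0 ∧ μ.qp ≠ 0 ∧ μ.qr ≠ 0 ∧ μ.rp ≠ 0 ∧ μ.rq ≠ 0

/-- rotation -/
def Mu.rot {p q r : ℕ} (μ : Mu p q r) : Mu q r p := ⟨μ.qr, μ.qp, μ.rq, μ.rp, μ.pq, μ.pr⟩

/-- odd distributions in three coordinates with general multipliers -/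
structure G3 {p q r : ℕ} [NeZero p] [NeZero q] [NeZero r] (μ : Mu p q r) {Q : Type*}
    [AddCommGroup Q] (c : ZMod p → ZMod q → ZMod r → Q) : Prop where
  neg : ∀ u v w, c (-u) (-v) (-w) = - c u v w
  zero : c 0 0 0 = 0
  dp : ∀ v w, ∑ u, c u v w = c 0 (μ.pq * v) (μ.pr * w)
  dq : ∀ u w, ∑ v, c u v w = c (μ.qp * u) 0 (μ.qr * w)
  dr : ∀ u v, ∑ w, c u v w = c (μ.rp * u) (μ.rq * v) 0

/-- integral relations -/
def GR3 {p q r : ℕ} [NeZero p] [NeZero q] [NeZero r] (μ : Mu p q r)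
    (x : ZMod p → ZMod q → ZMod r → ℤ) : Prop :=
  ∀ g : ZMod p → ZMod q → ZMod r → ℤ, G3 μ g → ∑ u, ∑ v, ∑ w, x u v w * g u v w = 0

/-- relations without interior -/
structure GThin {p q r : ℕ} [Fact p.Prime] [Fact q.Prime] [Fact r.Prime] (μ : Mu p q r)
    (x : ZMod p → ZMod q → ZMod r → ℤ) : Prop where
  rel : GR3 μ x
  top : ∀ u v w, u ≠ 0 → v ≠ 0 → w ≠ 0 → Y3 x u v w = 0

/-- (C4) reduction to the faces -/
def S_thin : Prop := ∀ (p q r : ℕ) [Fact p.Prime] [Fact q.Prime] [Fact r.Prime], p ≠ 2 → q ≠ 2 →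
  r ≠ 2 → ∀ μ : Mu p q r, μ.Ok → ∀ x : ZMod p → ZMod q → ZMod r → ℤ, GR3 μ x →
  ∃ x' : ZMod p → ZMod q → ZMod r → ℤ, GThin μ x' ∧
    ∀ {Q : Type} [AddCommGroup Q] {c : ZMod p → ZMod q → ZMod r → Q}, G3 μ c →
      ∑ u, ∑ v, ∑ w, x u v w • c u v w = ∑ u, ∑ v, ∑ w, x' u v w • c u v w

/-- (C5) faces of thin relations, rotation, and the final sum -/
def S_zero : Prop := ∀ (p q r : ℕ) [Fact p.Prime] [Fact q.Prime] [Fact r.Prime], p ≠ 2 → q ≠ 2 →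
  r ≠ 2 → ∀ μ : Mu p q r, μ.Ok → ∀ x : ZMod p → ZMod q → ZMod r → ℤ, GThin μ x →
  GThin μ.rot (rt x) ∧ IsFace (FF x) ∧
  (EvF (FF x) → EvF (FF (rt x)) → EvF (FF (rt (rt x))) →
    ∀ {Q : Type} [AddCommGroup Q] {c : ZMod p → ZMod q → ZMod r → Q}, G3 μ c →
      ∑ u, ∑ v, ∑ w, x u v w • c u v w = 0)

/-- (C6) level `4 * r` -/
def S_four1 : Prop := ∀ (r : ℕ) [Fact r.Prime] [NeZero (4 * r)], r ≠ 2 →
  ∀ x : ZMod (4 * r) → ℤ, Rel x → CE r 4 x →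
  ∀ {Q : Type} [AddCommGroup Q] {c : ZMod (4 * r) → Q}, OddDist c → ∑ b, x b • c b = 0

/-- (C7) level `4 * q * r` -/
def S_four2 : Prop := ∀ (q r : ℕ) [Fact q.Prime] [Fact r.Prime] [NeZero (4 * q * r)], q ≠ 2 →
  r ≠ 2 → q ≠ r → ∀ x : ZMod (4 * q * r) → ℤ, Rel x → CE r (4 * q) x → CE q (4 * r) x →
  ∀ {Q : Type} [AddCommGroup Q] {c : ZMod (4 * q * r) → Q}, OddDist c → ∑ b, x b • c b = 0

/-- (C8) the combinatorial core -/
def S_core4 : Prop := ∀ (m : ℕ) [NeZero m], 4 ∣ m → (m.primeFactors.erase 2).card ≤ 2 →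
  ∀ x : ZMod m → ℤ, Rel x → CEall m x →
  ∀ {Q : Type} [AddCommGroup Q] {c : ZMod m → Q}, OddDist c → ∑ b, x b • c b = 0

end Pool.Agent.NH35.HE
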