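import Pool.Agent.NH35.HE.StmC
import Pool.Agent.NH35.HG.StmN
import Pool.Agent.NH35.HG.Jac

/-! Statements of the project on diagonal hypersurfaces of degree divisible by four:
number theoretic part. -/

set_option autoImplicit false
set_option linter.unusedSectionVars false

namespace Pool.Agent.NH35.HE

open Finset Pool.Agent.H916R2 Pool.Agent.H916K NumberField Ideal
open Pool.Agent.NH35.HD (sa xw iw zt)
open Pool.Agent.NH35.HC (Hk)
open Pool.Agent.NH35.HG (EW)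

section
variable {n : ℕ} [NeZero n]

/-- the weights of the normalised Jacobi sums -/
def WW (a b : ZMod n) (t : (ZMod n)ˣ) : ℕ :=
  if b = 0 then (if a = 0 then 0 else 1)
  else if a = 0 ∨ a + b = 0 then 0
  else if (a * (t : ZMod n)).val + (b * (t : ZMod n)).val < n then 1 else 0

/-- the exponents of the norm in the absolute values of the normalised Jacobi sums -/
def cc (a b : ZMod n) : ℕ :=
  if b = 0 then (if a = 0 then 0 else 2) else if a = 0 ∨ a + b = 0 then 0 else 1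

/-- families of elements with the formal properties of the normalised Jacobi sums of an ideal -/
structure Fam {K : Type} [Field K] [NumberField K] [IsCyclotomicExtension {n} ℚ K]
    (I : Ideal (𝓞 K)) (y : ZMod n → ZMod n → 𝓞 K) : Prop where
  zl : ∀ b, y 0 b = 1
  zr : ∀ a, a ≠ 0 → y a 0 = ((absNorm I : ℕ) : 𝓞 K)
  sp : ∀ a b, span {y a b} = iw n K (WW a b) I
  nm : ∀ a b, y a b * sa n K (-1) (y a b) = ((absNorm I : ℕ) : 𝓞 K) ^ cc a b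
  ga : ∀ (t : (ZMod n)ˣ) (a b : ZMod n),
    sa n K t (y a b) = y ((t : ZMod n) * a) ((t : ZMod n) * b)
  it : ∀ u v : ZMod n, ((n : ℕ) : 𝓞 K) ^ 2 ∣
    ∑ a : ZMod n, ∑ b : ZMod n, zt n K ^ (a * u + b * v).val * y a b

/-- the normalised Jacobi sums of a character -/
noncomputable def yj {K : Type} [Field K] [NumberField K] {F : Type} [Field F] [Fintype F]
    (χ : MulChar F (𝓞 K)) (a b : ZMod n) : 𝓞 K :=
  -jacobiSum (χ ^ a.val) (χ ^ b.val) + if b = 0 then (((Fintype.card F : ℕ) : 𝓞 K) - 1) else 0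

/-- monomials -/
def mon {R : Type} [CommMonoid R] (P : List (ZMod n × ZMod n)) (y : ZMod n → ZMod n → R) : R :=
  (P.map fun p => y p.1 p.2).prod

/-- the weight of a monomial -/
def mw (P : List (ZMod n × ZMod n)) (t : (ZMod n)ˣ) : ℕ := (P.map fun p => WW p.1 p.2 t).sum

/-- one step in a product of Gauss sums -/
def st (S a : ZMod n) : List (ZMod n × ZMod n) :=
  if a = 0 then [] else if S + a = 0 then [(S, a), (1, 0)] else [(S, a)]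

/-- the monomial attached to a product of Gauss sums -/
def gl : ZMod n → List (ZMod n) → List (ZMod n × ZMod n)
  | _, [] => []
  | S, a :: L => st S a ++ gl (S + a) L

end

/-- (N1) the families: unit ideal, products, principal ideals -/
def S_fam : Prop := ∀ (n : ℕ) [NeZero n] (K : Type) [Field K] [NumberField K]
  [IsCyclotomicExtension {n} ℚ K], 2 < n →
  Fam (n := n) (⊤ : Ideal (𝓞 K)) (fun _ _ => 1) ∧
  (∀ (I I' : Ideal (𝓞 K)) (y y' : ZMod n → ZMod n → 𝓞 K), Fam I y → Fam I' y' →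
    Fam (I * I') (fun a b => y a b * y' a b)) ∧
  (∀ α : 𝓞 K, α ≠ 0 → α - 1 ∈ span {((n : ℕ) : 𝓞 K) ^ 2} →
    Fam (n := n) (span {α}) (fun a b => xw n K (WW a b) α))

/-- (N2) Weil's lemma -/
def S_weil : Prop := ∀ (n : ℕ) [NeZero n] (K : Type) [Field K] [NumberField K]
  [IsCyclotomicExtension {n} ℚ K], 2 < n → ∀ (α : 𝓞 K) (y : ZMod n → ZMod n → 𝓞 K), α ≠ 0 →
  α - 1 ∈ span {((n : ℕ) : 𝓞 K) ^ 2} → Fam (span {α}) y → ∀ a b, y a b = xw n K (WW a b) α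

/-- (N3) uniqueness -/
def S_uni : Prop := ∀ (n : ℕ) [NeZero n] (K : Type) [Field K] [NumberField K]
  [IsCyclotomicExtension {n} ℚ K], 2 < n → ∀ (I : Ideal (𝓞 K)) (y y' : ZMod n → ZMod n → 𝓞 K),
  IsCoprime I (span {((n : ℕ) : 𝓞 K)}) → Fam I y → Fam I y' → y = y'

/-- (N4) the Hecke characters attached to monomials -/
def S_hk : Prop := ∀ (n : ℕ) [NeZero n] (K : Type) [Field K] [NumberField K]
  [IsCyclotomicExtension {n} ℚ K], 2 < n → ∀ (r : ℕ), r.Prime → ∀ (R : Ideal (𝓞 K)), R.IsPrime →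
  (r : 𝓞 K) ∈ R → ∀ (ω : (𝓞 K ⧸ R)ˣ →* Circle) (P : List (ZMod n × ZMod n)),
  ∃ χ : Ideal (𝓞 K) → ℂ, Hk χ (span {((n ^ 2 * r : ℕ) : 𝓞 K)}) (fun _ => 1) ∧
    ∀ (I : Ideal (𝓞 K)) (y : ZMod n → ZMod n → 𝓞 K),
      IsCoprime I (span {((n ^ 2 * r : ℕ) : 𝓞 K)}) → Fam I y →
      ∃ h : IsUnit (Ideal.Quotient.mk R (mon P y)), χ I = (ω h.unit : ℂ)

/-- (N5) the normalised Jacobi sums of a prime of degree one form a family -/
def S_jac : Prop := ∀ (n : ℕ) [NeZero n] (K : Type) [Field K] [NumberField K]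
  [IsCyclotomicExtension {n} ℚ K], 2 < n → ∀ (F : Type) [Field F] [Fintype F]
  (π : 𝓞 K →+* F), Function.Surjective π → (Fintype.card F).Prime → ((n : ℕ) : F) ≠ 0 →
  ∃ χ : MulChar F (𝓞 K), orderOf χ = n ∧ absNorm (RingHom.ker π) = Fintype.card F ∧
    Fam (n := n) (RingHom.ker π) (yj χ)

/-- (N6) products of Gauss sums -/
def S_gp : Prop := ∀ (n : ℕ) [NeZero n] (K : Type) [Field K] [NumberField K]
  [IsCyclotomicExtension {n} ℚ K], 2 < n → ∀ (F : Type) [Field F] [Fintype F]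
  (χ : MulChar F (𝓞 K)), orderOf χ = n → ∀ (L : List (ZMod n)), L.sum = 0 →
  ∀ (A : Type) [CommRing A] [IsDomain A] [CharZero A] (τ : 𝓞 K →+* A) (ψ : AddChar F A), ψ ≠ 1 →
    τ (mon (gl 0 L) (yj χ)) = (L.map fun a => -gaussSum ((χ.ringHomComp τ) ^ a.val) ψ).prod

/-- (N7) the weights of products of Gauss sums -/
def S_gw : Prop := ∀ (n : ℕ) [NeZero n], 2 < n → ∀ (L : List (ZMod n)), L.sum = 0 →
  ∀ t : (ZMod n)ˣ, n * mw (gl 0 L) t = (L.map fun a => (-(a * (t : ZMod n))).val).sum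

/-- (N8) the residue character of an odd prime `p` in terms of Jacobi sums modulo a prime
above `p` -/
def S_kp : Prop := ∀ (n : ℕ) [NeZero n] (K : Type) [Field K] [NumberField K]
  [IsCyclotomicExtension {n} ℚ K], 2 < n → ∀ (F : Type) [Field F] [Fintype F]
  (χ : MulChar F (𝓞 K)), orderOf χ = n → (Fintype.card F).Prime →
  ∀ p : ℕ, p.Prime → p ≠ 2 → ((p : ℕ) : F) ≠ 0 → ∀ P' : Ideal (𝓞 K), P'.IsPrime →
  (p : 𝓞 K) ∈ P' → ∀ a : ZMod n,
  mon (gl 0 (List.replicate p a ++ [-((p : ZMod n) * a)])) (yj χ) *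
    ((χ ^ a.val) ((p : ℕ) : F)) ^ p - mon (gl 0 [(p : ZMod n) * a, -((p : ZMod n) * a)]) (yj χ) ∈ P'

/-- (N9) the residue character of `4` -/
def S_k2 : Prop := ∀ (n n' : ℕ) [NeZero n] (K : Type) [Field K] [NumberField K]
  [IsCyclotomicExtension {n} ℚ K], 2 < n → n = 2 * n' → ∀ (F : Type) [Field F] [Fintype F]
  (χ : MulChar F (𝓞 K)), orderOf χ = n → (2 : F) ≠ 0 → ∀ a : ZMod n,
  yj χ a a * (χ ^ a.val) (4 : F) = yj χ a ((n' : ℕ) : ZMod n)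

/-- the weight of the Kummer character of a prime `r` -/
def Wk (n b r : ℕ) (t : ZMod n) : ℕ :=
  (r * (-(((2 * b : ℕ) : ZMod n) * t)).val + ((r : ZMod n) * (((2 * b : ℕ) : ZMod n) * t)).val) / n

/-- (N10) the Kummer characters of `2`-power order as Hecke characters -/
def S_kum : Prop := ∀ (n e b : ℕ) [NeZero n] (K : Type) [Field K] [NumberField K]
  [IsCyclotomicExtension {n} ℚ K], n = 2 ^ (e + 1) * b → Odd b → 2 ≤ e →
  ∀ (r : ℕ), r.Prime → r ≠ 2 → ¬ r ∣ n → ∀ (R : Ideal (𝓞 K)), R.IsPrime → (r : 𝓞 K) ∈ R →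
  ∀ (ω : (𝓞 K ⧸ R)ˣ →* Circle) (p : ℕ), p.Prime →
  ∃ (κ : Ideal (𝓞 K) → ℂ) (M u : ℕ), 0 < M ∧ Odd u ∧ Hk κ (span {((M : ℕ) : 𝓞 K)}) (fun _ => 1) ∧
    (∀ (F : Type) [Field F] [Fintype F] (π : 𝓞 K →+* F), Function.Surjective π →
      (Fintype.card F).Prime → ((M : ℕ) : F) ≠ 0 → ((p : ℕ) : F) ≠ 0 →
      ∀ χ : MulChar F (𝓞 K), orderOf χ = n → Fam (n := n) (RingHom.ker π) (yj χ) →
      ∃ h : IsUnit (Ideal.Quotient.mk R ((χ ^ (2 * b)) ((p : ℕ) : F))),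
        κ (RingHom.ker π) = (ω h.unit : ℂ) ^ u) ∧
    (p ≠ r → ¬ r ∣ M) ∧
    (p = r → ∀ β : 𝓞 K, β ≠ 0 → β - 1 ∈ span {((n : ℕ) : 𝓞 K) ^ 2} →
      IsCoprime (span {β}) (span {((r : ℕ) : 𝓞 K)}) → ((Algebra.norm ℤ β : ℤ) : ZMod r) = 1 →
      ∃ h : IsUnit (Ideal.Quotient.mk R (xw n K (fun t => Wk n b r t) β)),
        κ (span {β}) * (ω h.unit : ℂ) = 1)

/-- (N11) the choice of the element `β` -/
def S_beta : Prop := ∀ (n : ℕ) [NeZero n] (K : Type) [Field K] [NumberField K]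
  [IsCyclotomicExtension {n} ℚ K], 2 < n → ∀ (r f : ℕ), r.Prime → ¬ r ∣ n →
  f = orderOf (r : ZMod n) → ∀ (R : Ideal (𝓞 K)), R.IsPrime → (r : 𝓞 K) ∈ R →
  ∀ (W : ZMod n → ℕ) (t t' : (ZMod n)ˣ),
  ¬ ((r : ℤ) ^ f - 1) ∣ (EW n r f W t - EW n r f W t') →
  ∀ (M A : ℕ), 0 < M → ¬ r ∣ M → 0 < A → ∃ β : 𝓞 K, β ≠ 0 ∧ β - 1 ∈ span {(M : 𝓞 K)} ∧
    ((Algebra.norm ℤ β : ℤ) : ZMod (r ^ A)) = 1 ∧ IsCoprime (span {β}) (span {(r : 𝓞 K)}) ∧
    Ideal.Quotient.mk R (xw n K (fun u => W u) β) ≠ 1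

/-- relations between Gauss sums over the prime fields with `ℓ` elements, `ℓ` congruent to one
modulo a fixed number, up to the residue characters of finitely many primes -/
def WeakE (m : ℕ) (s : Multiset (ZMod m)) : Prop :=
  ∃ (e mo M N : ℕ) (P : Finset ℕ) (κ : ℕ → ℕ), m = 2 ^ e * mo ∧ Odd mo ∧ 0 < M ∧
    (∀ p ∈ P, p.Prime) ∧ ∀ ℓ : ℕ, N < ℓ → ℓ.Prime → ℓ ≡ 1 [MOD M] →
    ∀ (F : Type) [Field F] [Fintype F], Fintype.card F = ℓ → ∀ (χ : MulChar F ℂ) (ψ : AddChar F ℂ),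
    orderOf χ = m → ψ ≠ 1 →
    (s.map fun z => -gaussSum (χ ^ z.val) ψ).prod ^ mo = (ℓ : ℂ) ^ (Multiset.card s / 2 * mo) *
      ∏ p ∈ P, ((χ ^ mo) ((p : ℕ) : F)) ^ κ p

/-- (N12) -/
def S_we1 : Prop := ∀ (m : ℕ), 4 ∣ m → 0 < m → ∀ s : Multiset (ZMod m × ℤ),
  Even (Multiset.card s) → (∀ z ∈ s, z.1 ≠ 0 ∧ z.2 ≠ 0) → RationalClass m s →
  WeakE m (s.map Prod.fst)

/-- (N13) reduction modulo primes above `r` -/
def S_we2 : Prop := ∀ (r a n m : ℕ), r.Prime → r ≠ 2 → 0 < a → ¬ r ∣ n → r ^ a * n = m → 4 ∣ m →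
  0 < m → ∀ s : Multiset (ZMod m), WeakE m s →
  ∃ (e b : ℕ) (P : Finset ℕ) (κ : ℕ → ℕ), n = 2 ^ e * b ∧ Odd b ∧ (∀ p ∈ P, p.Prime) ∧
  ∀ (k : Type) [Field k] [CharP k r] (φ : AI →+* k),
  ∃ M B : ℕ, 0 < M ∧ ∀ ℓ : ℕ, B < ℓ → ℓ.Prime → ℓ ≡ 1 [MOD M] →
    ∀ (F : Type) [Field F] [Fintype F], Fintype.card F = ℓ → ∀ (χ : MulChar F AI) (ψ : AddChar F AI),
    orderOf χ = n → ψ ≠ 1 →
    φ ((s.map fun z => -gaussSum (χ ^ ((z.val : ℕ) : ZMod n).val) ψ).prod ^ (r ^ a * b)) =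
      φ (∏ p ∈ P, ((χ ^ (r ^ a * b)) ((p : ℕ) : F)) ^ κ p)

/-- (N14) the number theoretic core -/
def S_thmE : Prop := ∀ (m : ℕ) [NeZero m], 4 ∣ m → ∀ s : Multiset (ZMod m), s.sum = 0 →
  WeakE m s → CEall m (fun z => (s.count z : ℤ))

/-- the total weight -/
def WT (n b r N0 kr : ℕ) (L : List (ZMod n)) (t : ZMod n) : ℕ :=
  N0 * ((L.map fun a => (-(a * t)).val).sum / n) + kr * Wk n b r t

/-- (N15) arithmetic of the weights: the level of the characters is `2 * n` -/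
def S_ar : Prop := ∀ (r a n e b f m : ℕ) [NeZero m], r.Prime → r ≠ 2 → 0 < a → ¬ r ∣ n →
  r ^ a * n = m → n = 2 ^ e * b → Odd b → 2 ≤ e → 0 < f → ((r : ℕ) : ZMod (2 * n)) ^ f = 1 →
  ∀ (s : Multiset (ZMod m)), s.sum = 0 → ∀ (N0 kr : ℕ), Odd N0 →
  (∀ t t' : (ZMod (2 * n))ˣ, ((r : ℤ) ^ f - 1) ∣
    EW (2 * n) r f (WT (2 * n) b r N0 kr (s.toList.map fun z => ((2 * z.val : ℕ) : ZMod (2 * n)))) t -
    EW (2 * n) r f (WT (2 * n) b r N0 kr (s.toList.map fun z => ((2 * z.val : ℕ) : ZMod (2 * n)))) t') →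
  CE r n (fun z => (s.count z : ℤ))

end Pool.Agent.NH35.HE
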