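import Pool.Agent.NH35.HE.StmC

/-!
# Three coordinates with general multipliers
-/

set_option autoImplicit false
set_option linter.unusedSectionVars false

namespace Pool.Agent.NH35.HE

open Finset Pool.Agent.H916R2 Pool.Agent.H916K

section gthree
variable {p q r : ℕ} [Fact p.Prime] [Fact q.Prime] [Fact r.Prime] {μ : Mu p q r}

lemma Mu.Ok.rot (h : μ.Ok) : μ.rot.Ok :=
  ⟨h.2.2.2.1, h.2.2.1, h.2.2.2.2.2, h.2.2.2.2.1, h.1, h.2.1⟩

lemma G3.rot {Q : Type*} [AddCommGroup Q] {c : ZMod p → ZMod q → ZMod r → Q} (h : G3 μ c) :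
    G3 μ.rot (fun v w u => c u v w) where
  neg := fun v w u => h.neg u v w
  zero := h.zero
  dp := fun w u => h.dq u w
  dq := fun v u => h.dr u v
  dr := fun v w => h.dp v w

lemma GR3.rot {x : ZMod p → ZMod q → ZMod r → ℤ} (h : GR3 μ x) :
    GR3 μ.rot (fun v w u => x u v w) := by
  intro g hg
  rw [sum_rot (fun u v w => x u v w * g v w u)]
  exact h _ hg.rot.rot

/-- relations in terms of the odd part -/
lemma GR3.odd {x : ZMod p → ZMod q → ZMod r → ℤ} (h : GR3 μ x)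
    {g : ZMod p → ZMod q → ZMod r → ℤ} (hg : G3 μ g) :
    ∑ u, ∑ v, ∑ w, Y3 x u v w * g u v w = 0 := by
  have h1 := h g hg
  have h2 : ∑ u, ∑ v, ∑ w, x (-u) (-v) (-w) * g u v w = 0 := by
    rw [← sum_neg3 (fun u v w => x (-u) (-v) (-w) * g u v w)]
    simp only [neg_neg, hg.neg, mul_neg, sum_neg_distrib]
    rw [h1, neg_zero]
  unfold Y3
  simp only [sub_mul, sum_sub_distrib]
  rw [h1, h2, sub_zero]

/-- the third mixed difference -/
lemma gmixed3 {x : ZMod p → ZMod q → ZMod r → ℤ} (hx : GR3 μ x) {a a' : ZMod p} {b b' : ZMod q}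
    {c c' : ZMod r} (ha : a ≠ 0) (ha' : a' ≠ 0) (hb : b ≠ 0) (hb' : b' ≠ 0) (hc : c ≠ 0)
    (hc' : c' ≠ 0) :
    Y3 x a b c - Y3 x a b c' - Y3 x a b' c + Y3 x a b' c' - Y3 x a' b c + Y3 x a' b c' +
      Y3 x a' b' c - Y3 x a' b' c' = 0 := by
  set D : ZMod p → ZMod q → ZMod r → ℤ := fun u v w => dd a a' u * dd b b' v * dd c c' w with hD
  have hg : G3 μ (fun u v w => D u v w - D (-u) (-v) (-w)) := by
    have h1 : ∀ v w, ∑ u, D u v w = 0 := by
      intro v w; simp only [hD]; rw [← sum_mul, ← sum_mul, sum_dd]; ring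
    have h2 : ∀ u w, ∑ v, D u v w = 0 := by
      intro u w; simp only [hD]; rw [← sum_mul, ← mul_sum, sum_dd]; ring
    have h3 : ∀ u v, ∑ w, D u v w = 0 := by
      intro u v; simp only [hD]; rw [← mul_sum, sum_dd]; ring
    refine ⟨?_, ?_, ?_, ?_, ?_⟩
    · intro u v w
      simp only [neg_neg]; ring
    · simp [hD, dd_zero ha ha']
    · intro v w
      rw [sum_sub_distrib, sum_neg (fun u => D u (-v) (-w)), h1, h1]
      simp [hD, dd_zero ha ha']
    · intro u w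
      rw [sum_sub_distrib, sum_neg (fun v => D (-u) v (-w)), h2, h2]
      simp [hD, dd_zero hb hb']
    · intro u v
      rw [sum_sub_distrib, sum_neg (fun w => D (-u) (-v) w), h3, h3]
      simp [hD, dd_zero hc hc']
  have h1 := hx.odd hg
  rw [odd_test (Y3_neg x)] at h1
  have h2 : ∑ u, ∑ v, ∑ w, Y3 x u v w * D u v w =
      ∑ u, (∑ v, (∑ w, Y3 x u v w * dd c c' w) * dd b b' v) * dd a a' u := by
    refine sum_congr rfl fun u _ => ?_
    rw [sum_mul]
    refine sum_congr rfl fun v _ => ?_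
    rw [sum_mul, sum_mul]
    refine sum_congr rfl fun w _ => ?_
    simp only [hD]; ring
  rw [h2] at h1
  simp only [sum_mul_dd] at h1
  linarith

/-- the mixed difference on a face -/
lemma gface3 (hpq' : μ.pq ≠ 0) (hpr' : μ.pr ≠ 0) {x : ZMod p → ZMod q → ZMod r → ℤ} (hx : GR3 μ x)
    (htop : ∀ u v w, u ≠ 0 → v ≠ 0 → w ≠ 0 → Y3 x u v w = 0) {b b' : ZMod q}
    {c c' : ZMod r} (hb : b ≠ 0) (hb' : b' ≠ 0) (hc : c ≠ 0) (hc' : c' ≠ 0) :
    Y3 x 0 b c - Y3 x 0 b c' - Y3 x 0 b' c + Y3 x 0 b' c' = 0 := by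
  classical
  set E : ZMod q → ZMod r → ℤ := fun v w => dd b b' v * dd c c' w with hE
  set D : ZMod q → ZMod r → ℤ := fun v w => E v w - E (-v) (-w) with hD
  have hDneg : ∀ v w, D (-v) (-w) = - D v w := by
    intro v w; simp only [hD, neg_neg]; ring
  have hD0 : ∀ w, D 0 w = 0 := by
    intro w; simp only [hD, hE, neg_zero, dd_zero hb hb']; ring
  have hD0' : ∀ v, D v 0 = 0 := by
    intro v; simp only [hD, hE, neg_zero, dd_zero hc hc']; ring
  have hDq : ∀ w, ∑ v, D v w = 0 := by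
    intro w
    simp only [hD]
    rw [sum_sub_distrib, sum_neg (fun v => E v (-w))]
    simp only [hE]
    rw [← sum_mul, ← sum_mul, sum_dd]; ring
  have hDr : ∀ v, ∑ w, D v w = 0 := by
    intro v
    simp only [hD]
    rw [sum_sub_distrib, sum_neg (fun w => E (-v) w)]
    simp only [hE]
    rw [← mul_sum, ← mul_sum, sum_dd]; ring
  have hDq' : ∀ w, ∑ v, D (μ.pq * v) w = 0 := by
    intro w
    rw [← hDq w]
    exact Fintype.sum_bijective _ (mulLeft_bijective₀ _ hpq') _ _ fun v => rfl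
  have hDr' : ∀ v, ∑ w, D v (μ.pr * w) = 0 := by
    intro v
    rw [← hDr v]
    exact Fintype.sum_bijective _ (mulLeft_bijective₀ _ hpr') _ _ fun v => rfl
  set g : ZMod p → ZMod q → ZMod r → ℤ := fun u v w =>
    if u = 0 then ((p : ℤ) - 1) * D v w else D (μ.pq * v) (μ.pr * w) - D v w with hg
  have hcardp : ((univ.erase (0 : ZMod p)).card : ℤ) = (p : ℤ) - 1 := by
    rw [card_erase_of_mem (mem_univ _), card_univ, ZMod.card,
      Nat.cast_sub (Fact.out : p.Prime).one_lt.le]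
    simp
  have hgD : G3 μ g := by
    refine ⟨?_, ?_, ?_, ?_, ?_⟩
    · intro u v w
      simp only [hg, neg_eq_zero, mul_neg, hDneg]
      split_ifs <;> ring
    · simp [hg, hD0]
    · intro v w
      rw [← add_sum_erase _ _ (mem_univ (0 : ZMod p)),
        sum_congr rfl (fun u hu => by simp only [hg]; rw [if_neg (ne_of_mem_erase hu)]), sum_const,
        nsmul_eq_mul, hcardp]
      simp only [hg, if_true]
      ring
    · intro u w
      have h0 : g (μ.qp * u) 0 (μ.qr * w) = 0 := by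
        simp only [hg, mul_zero, hD0, sub_zero, ite_self]
      rw [h0]
      by_cases hu : u = 0
      · simp only [hg, hu, if_true]
        rw [← mul_sum, hDq, mul_zero]
      · simp only [hg, hu, if_false]
        rw [sum_sub_distrib, hDq', hDq, sub_zero]
    · intro u v
      have h0 : g (μ.rp * u) (μ.rq * v) 0 = 0 := by
        simp only [hg, mul_zero, hD0', sub_zero, ite_self]
      rw [h0]
      by_cases hu : u = 0
      · simp only [hg, hu, if_true]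
        rw [← mul_sum, hDr, mul_zero]
      · simp only [hg, hu, if_false]
        rw [sum_sub_distrib, hDr', hDr, sub_zero]
  have h1 := hx.odd hgD
  have h2 : ∀ u, u ≠ 0 → ∑ v, ∑ w, Y3 x u v w * g u v w = 0 := by
    intro u hu
    refine sum_eq_zero fun v _ => sum_eq_zero fun w _ => ?_
    simp only [hg, hu, if_false]
    by_cases hv : v = 0
    · rw [hv, mul_zero, hD0, hD0]; ring
    · by_cases hw : w = 0
      · rw [hw, mul_zero, hD0', hD0']; ring
      · rw [htop u v w hu hv hw, zero_mul]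
  rw [← add_sum_erase _ _ (mem_univ (0 : ZMod p)),
    sum_congr rfl (fun u hu => h2 u (ne_of_mem_erase hu)), sum_const_zero, add_zero] at h1
  simp only [hg, if_true] at h1
  have h3 : ∑ v, ∑ w, Y3 x 0 v w * (((p : ℤ) - 1) * D v w) =
      ((p : ℤ) - 1) * ∑ v, ∑ w, Y3 x 0 v w * D v w := by
    rw [mul_sum]
    refine sum_congr rfl fun v _ => ?_
    rw [mul_sum]
    refine sum_congr rfl fun w _ => ?_
    ring
  rw [h3] at h1
  have hp1 : ((p : ℤ) - 1) ≠ 0 := by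
    have := (Fact.out : p.Prime).one_lt
    omega
  have h4 := (mul_eq_zero.mp h1).resolve_left hp1
  have h5 : ∀ F : ZMod q → ZMod r → ℤ, ∑ v, ∑ w, F v w * E v w =
      F b c - F b c' - (F b' c - F b' c') := by
    intro F
    have : ∑ v, ∑ w, F v w * E v w = ∑ v, (∑ w, F v w * dd c c' w) * dd b b' v := by
      refine sum_congr rfl fun v _ => ?_
      rw [sum_mul]
      refine sum_congr rfl fun w _ => ?_
      simp only [hE]; ring
    rw [this]
    simp only [sum_mul_dd]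
  have h6 : ∑ v, ∑ w, Y3 x 0 v w * E (-v) (-w) = - ∑ v, ∑ w, Y3 x 0 v w * E v w := by
    rw [← sum_neg (fun v => ∑ w, Y3 x 0 v w * E (-v) (-w)), ← sum_neg_distrib]
    refine sum_congr rfl fun v _ => ?_
    rw [← sum_neg (fun w => Y3 x 0 (-v) w * E (- -v) (-w)), ← sum_neg_distrib]
    refine sum_congr rfl fun w _ => ?_
    have := Y3_neg x 0 v w
    rw [neg_zero] at this
    rw [this, neg_neg, neg_neg]; ring
  have h7 : ∑ v, ∑ w, Y3 x 0 v w * D v w = 2 * ∑ v, ∑ w, Y3 x 0 v w * E v w := by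
    simp only [hD, mul_sub, sum_sub_distrib]
    rw [h6]; ring
  rw [h7, h5] at h4
  linarith

/-- the formula on an axis -/
lemma gaxis3 (hμ : μ.Ok) {x : ZMod p → ZMod q → ZMod r → ℤ}
    (hx : GR3 μ x) (htop : ∀ u v w, u ≠ 0 → v ≠ 0 → w ≠ 0 → Y3 x u v w = 0) {b13 b23 : ZMod r → ℤ}
    (h13 : ∀ w, w ≠ 0 → 2 * ∑ u ∈ univ.erase (0 : ZMod p), Y3 x u 0 w = ((p : ℤ) - 1) * b13 w)
    (h23 : ∀ w, w ≠ 0 → 2 * ∑ v ∈ univ.erase (0 : ZMod q), Y3 x 0 v w = ((q : ℤ) - 1) * b23 w)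
    {w0 : ZMod r} (hw : w0 ≠ 0) :
    2 * Y3 x 0 0 w0 = (b13 w0 - b13 (μ.pr⁻¹ * w0)) + (b23 w0 - b23 (μ.qr⁻¹ * w0)) := by
  classical
  obtain ⟨hpq1, hpr', hqp1, hqr', -, -⟩ := hμ
  set lam : ZMod r → ℤ := fun u => dl w0 u - dl (-w0) u with hlam
  have hwm : -w0 ≠ 0 := neg_ne_zero.mpr hw
  have hlneg : ∀ u, lam (-u) = - lam u := by
    intro u; simp only [hlam, dl_neg, neg_neg]; ring
  have hl0 : lam 0 = 0 := by simp [hlam, dl_zero hw, dl_zero hwm]
  have hlsum : ∑ u, lam u = 0 := by simp only [hlam, sum_sub_distrib, sum_dl, sub_self]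
  have hlmul : ∀ k : ZMod r, k ≠ 0 → ∑ u, lam (k * u) = 0 := by
    intro k hk
    rw [← hlsum]
    exact Fintype.sum_bijective _ (mulLeft_bijective₀ _ hk) _ _ fun u => rfl
  set L0 : ZMod r → ℤ := fun w => ((p : ℤ) - 1) * (((q : ℤ) - 1) * lam w) with hL0
  set L1 : ZMod r → ℤ := fun w => ((p : ℤ) - 1) * (lam (μ.qr * w) - lam w) with hL1
  set L2 : ZMod r → ℤ := fun w => ((q : ℤ) - 1) * (lam (μ.pr * w) - lam w) with hL2
  set L3 : ZMod r → ℤ := fun w => lam (μ.pr * (μ.qr * w)) - lam (μ.pr * w) -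
    lam (μ.qr * w) + lam w with hL3
  set g : ZMod p → ZMod q → ZMod r → ℤ := fun u v w =>
    if u = 0 then (if v = 0 then L0 w else L1 w) else (if v = 0 then L2 w else L3 w) with hg
  have hn : ∀ w, L0 (-w) = - L0 w ∧ L1 (-w) = - L1 w ∧ L2 (-w) = - L2 w ∧ L3 (-w) = - L3 w := by
    intro w
    refine ⟨?_, ?_, ?_, ?_⟩
    · simp only [hL0]; rw [hlneg]; ring
    · simp only [hL1]; rw [mul_neg, hlneg, hlneg]; ring
    · simp only [hL2]; rw [mul_neg, hlneg, hlneg]; ring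
    · simp only [hL3]; rw [mul_neg, mul_neg, mul_neg, hlneg, hlneg, hlneg, hlneg]; ring
  have hz : L0 0 = 0 ∧ L1 0 = 0 ∧ L2 0 = 0 ∧ L3 0 = 0 := by
    refine ⟨?_, ?_, ?_, ?_⟩
    · simp only [hL0]; rw [hl0]; ring
    · simp only [hL1]; rw [mul_zero, hl0]; ring
    · simp only [hL2]; rw [mul_zero, hl0]; ring
    · simp only [hL3]; rw [mul_zero, mul_zero, hl0]; ring
  have hs : ∑ w, L0 w = 0 ∧ ∑ w, L1 w = 0 ∧ ∑ w, L2 w = 0 ∧ ∑ w, L3 w = 0 := by
    have e1 := hlmul _ hpr'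
    have e2 := hlmul _ hqr'
    have e3 : ∑ w, lam (μ.pr * (μ.qr * w)) = 0 := by
      rw [← hlmul _ (mul_ne_zero hpr' hqr')]
      refine sum_congr rfl fun w _ => ?_
      rw [mul_assoc]
    refine ⟨?_, ?_, ?_, ?_⟩
    · simp only [hL0]; rw [← mul_sum, ← mul_sum, hlsum]; ring
    · simp only [hL1]; rw [← mul_sum, sum_sub_distrib, e2, hlsum]; ring
    · simp only [hL2]; rw [← mul_sum, sum_sub_distrib, e1, hlsum]; ring
    · simp only [hL3]; rw [sum_add_distrib, sum_sub_distrib, sum_sub_distrib, e1, e2, e3, hlsum]; ring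
  have hgD : G3 μ g := by
    refine ⟨?_, ?_, ?_, ?_, ?_⟩
    · intro u v w
      obtain ⟨n0, n1, n2, n3⟩ := hn w
      simp only [hg, neg_eq_zero, n0, n1, n2, n3]
      split_ifs <;> rfl
    · simp only [hg, if_true]; exact hz.1
    · intro v w
      rw [← add_sum_erase _ _ (mem_univ (0 : ZMod p)),
        sum_congr rfl (fun u hu => by simp only [hg]; rw [if_neg (ne_of_mem_erase hu)]), sum_const,
        nsmul_eq_mul, card_erase_int]
      by_cases hv : v = 0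
      · simp only [hg, hv, mul_zero, if_true, hL0, hL2]; ring
      · have hv' : μ.pq * v ≠ 0 := mul_ne_zero hpq1 hv
        simp only [hg, hv, hv', if_true, if_false, hL1, hL3]
        have e4 : μ.qr * (μ.pr * w) = μ.pr * (μ.qr * w) := by ring
        rw [e4]; ring
    · intro u w
      rw [← add_sum_erase _ _ (mem_univ (0 : ZMod q)),
        sum_congr rfl (fun v hv => by simp only [hg]; rw [if_neg (ne_of_mem_erase hv),
          if_neg (ne_of_mem_erase hv)]), sum_const,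
        nsmul_eq_mul, card_erase_int]
      by_cases hu : u = 0
      · simp only [hg, hu, mul_zero, if_true, hL0, hL1]; ring
      · have hu' : μ.qp * u ≠ 0 := mul_ne_zero hqp1 hu
        simp only [hg, hu, hu', if_true, if_false, hL2, hL3]
        ring
    · intro u v
      have h1 : g (μ.rp * u) (μ.rq * v) 0 = 0 := by
        simp only [hg, hz.1, hz.2.1, hz.2.2.1, hz.2.2.2, ite_self]
      rw [h1]
      by_cases hu : u = 0
      · by_cases hv : v = 0
        · simp only [hg, hu, hv, if_true]; exact hs.1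
        · simp only [hg, hu, hv, if_true, if_false]; exact hs.2.1
      · by_cases hv : v = 0
        · simp only [hg, hu, hv, if_true, if_false]; exact hs.2.2.1
        · simp only [hg, hu, hv, if_false]; exact hs.2.2.2
  have h1 := hx.odd hgD
  -- pairings
  have k1 : ∀ F : ZMod r → ℤ, (∀ w, F (-w) = - F w) → ∑ w, F w * lam w = 2 * F w0 := by
    intro F hF
    have := sum_lam (f := F) w0
    simp only [hlam]
    rw [this, hF]; ring
  have k2 : ∀ (F : ZMod r → ℤ) (k : ZMod r), k ≠ 0 → (∀ w, F (-w) = - F w) →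
      ∑ w, F w * lam (k * w) = 2 * F (k⁻¹ * w0) := by
    intro F k hk hF
    have h7 : ∑ w, F w * lam (k * w) = ∑ w, F (k⁻¹ * w) * lam w := by
      refine (Fintype.sum_bijective _ (mulLeft_bijective₀ _ hk) _ _ fun w => ?_)
      rw [inv_mul_cancel_left₀ hk]
    rw [h7, k1 (fun w => F (k⁻¹ * w))]
    intro w
    rw [mul_neg, hF]
  have s00 : ∀ w, Y3 x 0 0 (-w) = - Y3 x 0 0 w := by
    intro w
    have := Y3_neg x 0 0 w
    rwa [neg_zero, neg_zero] at this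
  set F1 : ZMod r → ℤ := fun w => ∑ v ∈ univ.erase (0 : ZMod q), Y3 x 0 v w with hF1
  set F2 : ZMod r → ℤ := fun w => ∑ u ∈ univ.erase (0 : ZMod p), Y3 x u 0 w with hF2
  have hrefl : ∀ {n : ℕ} [Fact n.Prime] (G : ZMod n → ℤ),
      ∑ v ∈ univ.erase (0 : ZMod n), G (-v) = ∑ v ∈ univ.erase (0 : ZMod n), G v := by
    intro n _ G
    refine sum_bij' (fun v _ => -v) (fun v _ => -v) ?_ ?_ ?_ ?_ ?_
    · intro v hv; exact mem_erase.mpr ⟨neg_ne_zero.mpr (ne_of_mem_erase hv), mem_univ _⟩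
    · intro v hv; exact mem_erase.mpr ⟨neg_ne_zero.mpr (ne_of_mem_erase hv), mem_univ _⟩
    · intro v _; exact neg_neg v
    · intro v _; exact neg_neg v
    · intro v _; rfl
  have hF1n : ∀ w, F1 (-w) = - F1 w := by
    intro w
    simp only [hF1]
    rw [← hrefl (fun v => Y3 x 0 v (-w)), ← sum_neg_distrib]
    refine sum_congr rfl fun v _ => ?_
    have := Y3_neg x 0 v w
    rwa [neg_zero] at this
  have hF2n : ∀ w, F2 (-w) = - F2 w := by
    intro w
    simp only [hF2]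
    rw [← hrefl (fun u => Y3 x u 0 (-w)), ← sum_neg_distrib]
    refine sum_congr rfl fun u _ => ?_
    have := Y3_neg x u 0 w
    rwa [neg_zero] at this
  -- decomposition
  have d0 : ∑ v, ∑ w, Y3 x 0 v w * g 0 v w = ((p : ℤ) - 1) * ((q : ℤ) - 1) * (2 * Y3 x 0 0 w0) +
      ((p : ℤ) - 1) * (2 * F1 (μ.qr⁻¹ * w0) - 2 * F1 w0) := by
    rw [← add_sum_erase _ _ (mem_univ (0 : ZMod q))]
    congr 1
    · rw [← k1 _ s00, mul_sum]
      refine sum_congr rfl fun w _ => ?_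
      simp only [hg, if_true, hL0]; ring
    · rw [sum_comm, ← k2 F1 _ hqr' hF1n, ← k1 F1 hF1n, ← sum_sub_distrib, mul_sum]
      refine sum_congr rfl fun w _ => ?_
      simp only [hF1]
      rw [sum_mul, sum_mul, ← sum_sub_distrib, mul_sum]
      refine sum_congr rfl fun v hv => ?_
      simp only [hg, if_true, ne_of_mem_erase hv, if_false, hL1]; ring
  have d1 : ∑ u ∈ univ.erase (0 : ZMod p), ∑ v, ∑ w, Y3 x u v w * g u v w =
      ((q : ℤ) - 1) * (2 * F2 (μ.pr⁻¹ * w0) - 2 * F2 w0) := by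
    have e1 : ∀ u ∈ univ.erase (0 : ZMod p), ∑ v, ∑ w, Y3 x u v w * g u v w =
        ∑ w, Y3 x u 0 w * L2 w := by
      intro u hu
      rw [← add_sum_erase _ _ (mem_univ (0 : ZMod q))]
      have e2 : ∑ v ∈ univ.erase (0 : ZMod q), ∑ w, Y3 x u v w * g u v w = 0 := by
        refine sum_eq_zero fun v hv => sum_eq_zero fun w _ => ?_
        by_cases hw : w = 0
        · rw [hw]
          simp only [hg, ne_of_mem_erase hu, ne_of_mem_erase hv, if_false, hz.2.2.2]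
          ring
        · rw [htop u v w (ne_of_mem_erase hu) (ne_of_mem_erase hv) hw, zero_mul]
      rw [e2, add_zero]
      refine sum_congr rfl fun w _ => ?_
      simp only [hg, if_true, ne_of_mem_erase hu, if_false]
    rw [sum_congr rfl e1, sum_comm, ← k2 F2 _ hpr' hF2n, ← k1 F2 hF2n, ← sum_sub_distrib, mul_sum]
    refine sum_congr rfl fun w _ => ?_
    simp only [hF2]
    rw [sum_mul, sum_mul, ← sum_sub_distrib, mul_sum]
    refine sum_congr rfl fun v hv => ?_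
    simp only [hL2]; ring
  rw [← add_sum_erase _ _ (mem_univ (0 : ZMod p)), d0, d1] at h1
  have hpw : μ.pr⁻¹ * w0 ≠ 0 := mul_ne_zero (inv_ne_zero hpr') hw
  have hqw : μ.qr⁻¹ * w0 ≠ 0 := mul_ne_zero (inv_ne_zero hqr') hw
  have m1 : 2 * F1 w0 = ((q : ℤ) - 1) * b23 w0 := h23 _ hw
  have m2 : 2 * F1 (μ.qr⁻¹ * w0) = ((q : ℤ) - 1) * b23 (μ.qr⁻¹ * w0) := h23 _ hqw
  have m3 : 2 * F2 w0 = ((p : ℤ) - 1) * b13 w0 := h13 _ hw
  have m4 : 2 * F2 (μ.pr⁻¹ * w0) = ((p : ℤ) - 1) * b13 (μ.pr⁻¹ * w0) := h13 _ hpw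
  rw [m1, m2, m3, m4] at h1
  have hp1 : ((p : ℤ) - 1) ≠ 0 := by
    have := (Fact.out : p.Prime).one_lt
    omega
  have hq1 : ((q : ℤ) - 1) ≠ 0 := by
    have := (Fact.out : q.Prime).one_lt
    omega
  apply mul_left_cancel₀ (mul_ne_zero hp1 hq1)
  linear_combination h1

end gthree

section gpair
variable {p q : ℕ} [Fact p.Prime] [Fact q.Prime] {a : ZMod p} {b : ZMod q}

/-- the sum of a distribution in two coordinates against a standard relation -/
lemma gpair_sum (hp2 : p ≠ 2) (hq2 : q ≠ 2) (hqp : a ≠ 0) (hpq' : b ≠ 0) {Q : Type*} [AddCommGroup Q]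
    {c : ZMod p → ZMod q → Q} (hc : G2 a b c) {α : ZMod p → ℤ} {β : ZMod q → ℤ}
    (hαn : ∀ u, α (-u) = - α u) (hβn : ∀ v, β (-v) = - β v) :
    ∑ u ∈ HS p, ∑ v ∈ univ.erase (0 : ZMod q), (α u + β v) • c u v +
      ∑ u ∈ HS p, (α u - α (a⁻¹ * u)) • c u 0 +
      ∑ v ∈ HS q, (β v - β (b⁻¹ * v)) • c 0 v = 0 := by
  classical
  have hcn : ∀ u v, c (-u) v = - c u (-v) := by
    intro u v
    have := hc.neg u (-v)
    rwa [neg_neg] at this
  have hH := half_HS (p := p) hp2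
  have hK := half_HS (p := q) hq2
  have hrow : ∀ u, ∑ v ∈ univ.erase (0 : ZMod q), c u v = c (a * u) 0 - c u 0 := by
    intro u
    rw [← hc.dq u, ← add_sum_erase _ _ (mem_univ (0 : ZMod q))]; abel
  have hcol : ∀ v, ∑ u ∈ univ.erase (0 : ZMod p), c u v = c 0 (b * v) - c 0 v := by
    intro v
    rw [← hc.dp v, ← add_sum_erase _ _ (mem_univ (0 : ZMod p))]; abel
  have hz1 : ∑ u ∈ HS p, (α u • c (a * u) 0 - α (a⁻¹ * u) • c u 0) = 0 := by
    rw [sum_sub_distrib, sub_eq_zero]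
    have h1 := hH.sum_mul hqp (fun u => α (a⁻¹ * u) • c u 0) (by
      intro u
      rw [mul_neg, hαn, hcn, neg_zero, neg_smul, smul_neg, neg_neg])
    rw [← h1]
    refine sum_congr rfl fun u _ => ?_
    rw [inv_mul_cancel_left₀ hqp]
  have hz2 : ∑ v ∈ HS q, (β v • c 0 (b * v) - β (b⁻¹ * v) • c 0 v) = 0 := by
    rw [sum_sub_distrib, sub_eq_zero]
    have h1 := hK.sum_mul hpq' (fun v => β (b⁻¹ * v) • c 0 v) (by
      intro v
      have h2 : c 0 (-v) = - c 0 v := by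
        have := hc.neg 0 v
        rwa [neg_zero] at this
      rw [mul_neg, hβn, h2, neg_smul, smul_neg, neg_neg])
    rw [← h1]
    refine sum_congr rfl fun v _ => ?_
    rw [inv_mul_cancel_left₀ hpq']
  have hcross : ∑ u ∈ HS p, ∑ v ∈ univ.erase (0 : ZMod q), β v • c u v =
      ∑ v ∈ HS q, β v • (c 0 (b * v) - c 0 v) := by
    rw [sum_comm, hK.sum_all (fun v => ∑ u ∈ HS p, β v • c u v)]
    refine sum_congr rfl fun v _ => ?_
    rw [← hcol, hH.sum_all (fun u => c u v), ← smul_sum, ← smul_sum, hβn, sum_add_distrib, smul_add]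
    congr 1
    rw [neg_smul, ← smul_neg, ← sum_neg_distrib]
    congr 1
    refine sum_congr rfl fun u _ => ?_
    rw [hcn]
  have h1 : ∑ u ∈ HS p, ∑ v ∈ univ.erase (0 : ZMod q), (α u + β v) • c u v =
      ∑ u ∈ HS p, α u • (c (a * u) 0 - c u 0) +
        ∑ v ∈ HS q, β v • (c 0 (b * v) - c 0 v) := by
    rw [← hcross, ← sum_add_distrib]
    refine sum_congr rfl fun u _ => ?_
    rw [← hrow, smul_sum, ← sum_add_distrib]
    refine sum_congr rfl fun v _ => ?_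
    rw [add_smul]
  rw [h1]
  have h2 : ∑ u ∈ HS p, α u • (c (a * u) 0 - c u 0) +
      ∑ u ∈ HS p, (α u - α (a⁻¹ * u)) • c u 0 = 0 := by
    rw [← hz1, ← sum_add_distrib]
    refine sum_congr rfl fun u _ => ?_
    rw [smul_sub, sub_smul]; abel
  have h3 : ∑ v ∈ HS q, β v • (c 0 (b * v) - c 0 v) +
      ∑ v ∈ HS q, (β v - β (b⁻¹ * v)) • c 0 v = 0 := by
    rw [← hz2, ← sum_add_distrib]
    refine sum_congr rfl fun v _ => ?_
    rw [smul_sub, sub_smul]; abel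
  calc _ = (∑ u ∈ HS p, α u • (c (a * u) 0 - c u 0) +
      ∑ u ∈ HS p, (α u - α (a⁻¹ * u)) • c u 0) +
      (∑ v ∈ HS q, β v • (c 0 (b * v) - c 0 v) +
      ∑ v ∈ HS q, (β v - β (b⁻¹ * v)) • c 0 v) := by abel
    _ = 0 := by rw [h2, h3, add_zero]

end gpair

section gred
variable {p q r : ℕ} [Fact p.Prime] [Fact q.Prime] [Fact r.Prime] {μ : Mu p q r}

/-- the standard relations with first coordinate free -/
def glift1 (μ : Mu p q r) (H : ZMod q → ZMod r → ℤ) (u : ZMod p) (v : ZMod q) (w : ZMod r) : ℤ :=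
  H v w - if u = 0 then H (μ.pq⁻¹ * v) (μ.pr⁻¹ * w) else 0

lemma glift1_sum (hpq' : μ.pq ≠ 0) (hpr' : μ.pr ≠ 0) (H : ZMod q → ZMod r → ℤ) {Q : Type*} [AddCommGroup Q]
    {c : ZMod p → ZMod q → ZMod r → Q} (hc : G3 μ c) :
    ∑ u, ∑ v, ∑ w, glift1 μ H u v w • c u v w = 0 := by
  classical
  unfold glift1
  simp only [sub_smul, sum_sub_distrib]
  rw [sub_eq_zero]
  have h1 : ∑ u, ∑ v, ∑ w, H v w • c u v w =
      ∑ v, ∑ w, H v w • c 0 (μ.pq * v) (μ.pr * w) := by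
    rw [← sum_rot (fun u v w => H v w • c u v w)]
    refine sum_congr rfl fun v _ => sum_congr rfl fun w _ => ?_
    rw [← smul_sum, hc.dp]
  have h2 : ∑ u : ZMod p, ∑ v, ∑ w,
      (if u = 0 then H (μ.pq⁻¹ * v) (μ.pr⁻¹ * w) else 0) • c u v w =
      ∑ v, ∑ w, H (μ.pq⁻¹ * v) (μ.pr⁻¹ * w) • c 0 v w := by
    rw [← add_sum_erase _ _ (mem_univ (0 : ZMod p))]
    have e1 : ∑ u ∈ univ.erase (0 : ZMod p), ∑ v, ∑ w,
        (if u = 0 then H (μ.pq⁻¹ * v) (μ.pr⁻¹ * w) else 0) • c u v w = 0 := by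
      refine sum_eq_zero fun u hu => sum_eq_zero fun v _ => sum_eq_zero fun w _ => ?_
      rw [if_neg (ne_of_mem_erase hu), zero_smul]
    rw [e1, add_zero]
    refine sum_congr rfl fun v _ => sum_congr rfl fun w _ => ?_
    rw [if_pos rfl]
  rw [h1, h2]
  refine Fintype.sum_bijective _ (mulLeft_bijective₀ _ hpq') _ _ fun v => ?_
  refine Fintype.sum_bijective _ (mulLeft_bijective₀ _ hpr') _ _ fun w => ?_
  rw [inv_mul_cancel_left₀ hpq', inv_mul_cancel_left₀ hpr']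

/-- **Reduction to the faces.** -/
lemma greduce3 (hp2 : p ≠ 2) (hq2 : q ≠ 2) (hr2 : r ≠ 2) (hμ : μ.Ok)
    {x : ZMod p → ZMod q → ZMod r → ℤ} (hx : GR3 μ x) :
    ∃ x' : ZMod p → ZMod q → ZMod r → ℤ, GR3 μ x' ∧
      (∀ u v w, u ≠ 0 → v ≠ 0 → w ≠ 0 → Y3 x' u v w = 0) ∧
      ∀ {Q : Type} [AddCommGroup Q] {c : ZMod p → ZMod q → ZMod r → Q}, G3 μ c →
        ∑ u, ∑ v, ∑ w, x u v w • c u v w = ∑ u, ∑ v, ∑ w, x' u v w • c u v w := by
  classical
  have hH := half_HS (p := p) hp2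
  have hK := half_HS (p := q) hq2
  obtain ⟨A, B, C, hA, hB, hC, hABC⟩ := decomp3 hp2 hq2 hr2 (Y3_neg x)
    (fun a a' b b' c c' ha ha' hb hb' hc hc' => gmixed3 hx ha ha' hb hb' hc hc')
  set hA' : ZMod q → ZMod r → ℤ := fun v w => if v ∈ HS q then A v w else 0 with hhA
  set hB' : ZMod r → ZMod p → ℤ := fun w u => if u ∈ HS p then B u w else 0 with hhB
  set hC' : ZMod p → ZMod q → ℤ := fun u v => if u ∈ HS p then C u v else 0 with hhC
  set x' : ZMod p → ZMod q → ZMod r → ℤ := fun u v w => x u v w - glift1 μ hA' u v w -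
    glift1 μ.rot hB' v w u - glift1 μ.rot.rot hC' w u v with hx'
  have key : ∀ {Q : Type} [AddCommGroup Q] {c : ZMod p → ZMod q → ZMod r → Q}, G3 μ c →
        ∑ u, ∑ v, ∑ w, x u v w • c u v w = ∑ u, ∑ v, ∑ w, x' u v w • c u v w := by
    intro Q _ c hc
    have e1 := glift1_sum hμ.1 hμ.2.1 hA' hc
    have e2 := glift1_sum (p := q) (q := r) (r := p) hμ.rot.1 hμ.rot.2.1 hB' hc.rot
    have e3 := glift1_sum (p := r) (q := p) (r := q) hμ.rot.rot.1 hμ.rot.rot.2.1 hC'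
      hc.rot.rot
    have e2' : ∑ u, ∑ v, ∑ w, glift1 μ.rot hB' v w u • c u v w = 0 := by
      rw [← e2]; exact (sum_rot (fun u v w => glift1 μ.rot hB' v w u • c u v w)).symm
    have e3' : ∑ u, ∑ v, ∑ w, glift1 μ.rot.rot hC' w u v • c u v w = 0 := by
      rw [← e3, ← sum_rot (fun u v w => glift1 μ.rot.rot hC' w u v • c u v w)]
      exact (sum_rot (fun v w u => glift1 μ.rot.rot hC' w u v • c u v w)).symm
    simp only [hx', sub_smul, sum_sub_distrib]
    rw [e1, e2', e3']; abel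
  refine ⟨x', ?_, ?_, key⟩
  · intro g hg
    have h1 := key hg
    simp only [smul_eq_mul] at h1
    rw [← h1]
    exact hx g hg
  · intro u v w hu hv hw
    have h1 := hABC u v w hu hv hw
    have g1 : ∀ {n k : ℕ} [Fact n.Prime] [Fact k.Prime] (_ : Half (HS n)) (G : ZMod n → ZMod k → ℤ)
        (v : ZMod n) (w : ZMod k), v ≠ 0 → G (-v) (-w) = - G v w →
        (if v ∈ HS n then G v w else 0) - (if -v ∈ HS n then G (-v) (-w) else 0) = G v w := by
      intro n k _ _ hHn G v w hv he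
      by_cases h1 : v ∈ HS n
      · rw [if_pos h1, if_neg ((hHn.one v hv).mp h1), sub_zero]
      · have h2 : -v ∈ HS n := by
          by_contra h2; exact h1 ((hHn.one v hv).mpr h2)
        rw [if_neg h1, if_pos h2, he]; ring
    have e1 := g1 hK A v w hv (hA v w hv hw)
    have e2 := g1 hH B u w hu (hB u w hu hw)
    have e3 := g1 hH C u v hu (hC u v hu hv)
    have hu' : -u ≠ 0 := neg_ne_zero.mpr hu
    have hv' : -v ≠ 0 := neg_ne_zero.mpr hv
    have hw' : -w ≠ 0 := neg_ne_zero.mpr hw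
    unfold Y3 at h1 ⊢
    simp only [hx', glift1, hu, hv, hw, hu', hv', hw', if_false, hhA, hhB, hhC]
    linarith


end gred

section gthin
variable {p q r : ℕ} [Fact p.Prime] [Fact q.Prime] [Fact r.Prime] {μ : Mu p q r}

lemma GThin.rot {x : ZMod p → ZMod q → ZMod r → ℤ} (h : GThin μ x) : GThin μ.rot (rt x) where
  rel := h.rel.rot
  top := fun v w u hv hw hu => h.top u v w hu hv hw

lemma GThin.face (hμ : μ.Ok) {x : ZMod p → ZMod q → ZMod r → ℤ} (h : GThin μ x) :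
    IsFace (FF x) where
  neg := fun v w => by
    have := Y3_neg x 0 v w
    rwa [neg_zero] at this
  mixed := fun _ _ _ _ hb hb' hc hc' => gface3 hμ.1 hμ.2.1 h.rel h.top hb hb' hc hc'

lemma GThin.axis (hμ : μ.Ok) {x : ZMod p → ZMod q → ZMod r → ℤ}
    (h : GThin μ x) {w : ZMod r} (hw : w ≠ 0) :
    2 * Y3 x 0 0 w = (fa (FF (rt x)) w - fa (FF (rt x)) (μ.pr⁻¹ * w)) +
      (fb (FF x) w - fb (FF x) (μ.qr⁻¹ * w)) := by
  refine gaxis3 hμ h.rel h.top ?_ ?_ hw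
  · intro w hw
    have h1 := (h.rot.face hμ.rot).sum_second hw
    exact h1
  · intro w hw
    exact (h.face hμ).sum_first hw

lemma G3.face {Q : Type*} [AddCommGroup Q] {c : ZMod p → ZMod q → ZMod r → Q} (h : G3 μ c) :
    G2 μ.rq μ.qr (fun v w => c 0 v w) where
  neg := fun v w => by
    have := h.neg 0 v w
    rwa [neg_zero] at this
  zero := h.zero
  dp := fun w => by
    have := h.dq 0 w
    rwa [mul_zero] at this
  dq := fun v => by
    have := h.dr 0 v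
    rwa [mul_zero] at this

/-- the sum over a face -/
lemma GThin.face_sum (hq2 : q ≠ 2) (hr2 : r ≠ 2) (hμ : μ.Ok)
    {x : ZMod p → ZMod q → ZMod r → ℤ} (h : GThin μ x) (hE : EvF (FF x))
    {Q : Type*} [AddCommGroup Q] {c : ZMod p → ZMod q → ZMod r → Q} (hc : G3 μ c) :
    ∑ v ∈ HS q, ∑ w ∈ univ.erase (0 : ZMod r), Y3 x 0 v w • c 0 v w +
      ∑ v ∈ HS q, ((fa (FF x) v - fa (FF x) (μ.rq⁻¹ * v)) / 2) • c 0 v 0 +
      ∑ w ∈ HS r, ((fb (FF x) w - fb (FF x) (μ.qr⁻¹ * w)) / 2) • c 0 0 w = 0 := by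
  classical
  have hf := h.face hμ
  have a0 : fa (FF x) 0 = 0 := by have := hf.fa_neg 0; rw [neg_zero] at this; linarith
  have b0 : fb (FF x) 0 = 0 := by have := hf.fb_neg 0; rw [neg_zero] at this; linarith
  obtain ⟨α, hα⟩ : ∃ α : ZMod q → ℤ, ∀ v, fa (FF x) v = 2 * α v := by
    refine ⟨fun v => fa (FF x) v / 2, fun v => ?_⟩
    by_cases hv : v = 0
    · simp [hv, a0]
    · exact (Int.mul_ediv_cancel' ((hf.fa_even hv).mpr hE)).symm
  obtain ⟨β, hβ⟩ : ∃ β : ZMod r → ℤ, ∀ w, fb (FF x) w = 2 * β w := by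
    refine ⟨fun w => fb (FF x) w / 2, fun w => ?_⟩
    by_cases hw : w = 0
    · simp [hw, b0]
    · exact (Int.mul_ediv_cancel' ((hf.fb_even hw).mpr hE)).symm
  have hαn : ∀ v, α (-v) = - α v := by
    intro v; have := hf.fa_neg v; rw [hα, hα] at this; linarith
  have hβn : ∀ v, β (-v) = - β v := by
    intro v; have := hf.fb_neg v; rw [hβ, hβ] at this; linarith
  have h1 := gpair_sum hq2 hr2 hμ.2.2.2.2.2 hμ.2.2.2.1 hc.face hαn hβn
  rw [← h1]
  congr 1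
  · congr 1
    · refine sum_congr rfl fun v hv => sum_congr rfl fun w hw => ?_
      have h2 : 2 * Y3 x 0 v w = fa (FF x) v + fb (FF x) w :=
        hf.two_mul ((half_HS hq2).ne v hv) (ne_of_mem_erase hw)
      rw [hα, hβ] at h2
      have h3 : Y3 x 0 v w = α v + β w := by linarith
      rw [h3]
    · refine sum_congr rfl fun v _ => ?_
      rw [hα, hα]
      congr 1
      omega
  · refine sum_congr rfl fun v _ => ?_
    rw [hβ, hβ]
    congr 1
    omega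

/-- the sum in terms of the odd part -/
lemma ghalf_sum3 (hp2 : p ≠ 2) (hq2 : q ≠ 2) (hr2 : r ≠ 2) (x : ZMod p → ZMod q → ZMod r → ℤ)
    {Q : Type*} [AddCommGroup Q] {c : ZMod p → ZMod q → ZMod r → Q} (hc : G3 μ c) :
    ∑ u, ∑ v, ∑ w, x u v w • c u v w = ∑ u ∈ HS p, ∑ v, ∑ w, Y3 x u v w • c u v w +
      ∑ v ∈ HS q, ∑ w, Y3 x 0 v w • c 0 v w + ∑ w ∈ HS r, Y3 x 0 0 w • c 0 0 w := by
  classical
  rw [← add_sum_erase _ _ (mem_univ (0 : ZMod p)),
    (half_HS hp2).sum_all (fun u => ∑ v, ∑ w, x u v w • c u v w)]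
  have e1 : ∀ u, ∑ v, ∑ w, x u v w • c u v w + ∑ v, ∑ w, x (-u) v w • c (-u) v w =
      ∑ v, ∑ w, Y3 x u v w • c u v w := by
    intro u
    rw [← sum_neg (fun v => ∑ w, x (-u) v w • c (-u) v w), ← sum_add_distrib]
    refine sum_congr rfl fun v _ => ?_
    rw [← sum_neg (fun w => x (-u) (-v) w • c (-u) (-v) w), ← sum_add_distrib]
    refine sum_congr rfl fun w _ => ?_
    rw [hc.neg, smul_neg, ← sub_eq_add_neg, ← sub_smul]; rfl
  have e2 : ∑ v, ∑ w, x 0 v w • c 0 v w =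
      ∑ v ∈ HS q, ∑ w, Y3 x 0 v w • c 0 v w + ∑ w ∈ HS r, Y3 x 0 0 w • c 0 0 w := by
    rw [← add_sum_erase _ _ (mem_univ (0 : ZMod q)),
      (half_HS hq2).sum_all (fun v => ∑ w, x 0 v w • c 0 v w), add_comm]
    congr 1
    · refine sum_congr rfl fun v _ => ?_
      rw [← sum_neg (fun w => x 0 (-v) w • c 0 (-v) w), ← sum_add_distrib]
      refine sum_congr rfl fun w _ => ?_
      have h1 : c 0 (-v) (-w) = - c 0 v w := hc.face.neg v w
      rw [h1, smul_neg, ← sub_eq_add_neg, ← sub_smul]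
      unfold Y3; rw [neg_zero]
    · rw [← add_sum_erase _ _ (mem_univ (0 : ZMod r)), hc.zero, smul_zero, zero_add,
        (half_HS hr2).sum_all (fun w => x 0 0 w • c 0 0 w)]
      refine sum_congr rfl fun w _ => ?_
      have h1 : c 0 0 (-w) = - c 0 0 w := by
        have := hc.neg 0 0 w
        rwa [neg_zero, neg_zero] at this
      rw [h1, smul_neg, ← sub_eq_add_neg, ← sub_smul]
      unfold Y3; rw [neg_zero, neg_zero]
  rw [e2, sum_congr rfl fun u _ => e1 u]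
  abel

/-- thin relations with even faces -/
lemma GThin.zero_sum (hp2 : p ≠ 2) (hq2 : q ≠ 2) (hr2 : r ≠ 2) (hμ : μ.Ok)
    {x : ZMod p → ZMod q → ZMod r → ℤ} (h : GThin μ x) (h0 : EvF (FF x))
    (h1 : EvF (FF (rt x))) (h2 : EvF (FF (rt (rt x))))
    {Q : Type*} [AddCommGroup Q] {c : ZMod p → ZMod q → ZMod r → Q} (hc : G3 μ c) :
    ∑ u, ∑ v, ∑ w, x u v w • c u v w = 0 := by
  classical
  have hH := half_HS (p := p) hp2
  have hK := half_HS (p := q) hq2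
  have hL := half_HS (p := r) hr2
  obtain ⟨hpq', hpr', hqp', hqr', hrp', hrq'⟩ := id hμ
  have s0 := h.face_sum hq2 hr2 hμ h0 hc
  have s1 := h.rot.face_sum hr2 hp2 hμ.rot h1 hc.rot
  have s2 := h.rot.rot.face_sum hp2 hq2 hμ.rot.rot h2 hc.rot.rot
  have hf0 := h.face hμ
  have hf1 := h.rot.face hμ.rot
  have hf2 := h.rot.rot.face hμ.rot.rot
  -- axes
  have aw : ∀ w ∈ HS r, Y3 x 0 0 w = (fa (FF (rt x)) w - fa (FF (rt x)) (μ.pr⁻¹ * w)) / 2 +
      (fb (FF x) w - fb (FF x) (μ.qr⁻¹ * w)) / 2 := by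
    intro w hw
    have hw0 := hL.ne w hw
    have e := h.axis hμ hw0
    have e1 := (hf1.fa_even hw0).mpr h1
    have e2 := (hf1.fa_even (mul_ne_zero (inv_ne_zero hpr') hw0)).mpr h1
    have e3 := (hf0.fb_even hw0).mpr h0
    have e4 := (hf0.fb_even (mul_ne_zero (inv_ne_zero hqr') hw0)).mpr h0
    omega
  have au : ∀ u ∈ HS p, Y3 x u 0 0 =
      (fa (FF (rt (rt x))) u - fa (FF (rt (rt x))) (μ.qp⁻¹ * u)) / 2 +
      (fb (FF (rt x)) u - fb (FF (rt x)) (μ.rp⁻¹ * u)) / 2 := by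
    intro u hu
    have hu0 := hH.ne u hu
    have e : 2 * Y3 x u 0 0 =
      (fa (FF (rt (rt x))) u - fa (FF (rt (rt x))) (μ.qp⁻¹ * u)) +
      (fb (FF (rt x)) u - fb (FF (rt x)) (μ.rp⁻¹ * u)) :=
      h.rot.axis hμ.rot hu0
    have e1 := (hf2.fa_even hu0).mpr h2
    have e2 := (hf2.fa_even (mul_ne_zero (inv_ne_zero hqp') hu0)).mpr h2
    have e3 := (hf1.fb_even hu0).mpr h1
    have e4 := (hf1.fb_even (mul_ne_zero (inv_ne_zero hrp') hu0)).mpr h1
    omega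
  have av : ∀ v ∈ HS q, Y3 x 0 v 0 =
      (fa (FF x) v - fa (FF x) (μ.rq⁻¹ * v)) / 2 +
      (fb (FF (rt (rt x))) v - fb (FF (rt (rt x))) (μ.pq⁻¹ * v)) / 2 := by
    intro v hv
    have hv0 := hK.ne v hv
    have e : 2 * Y3 x 0 v 0 = (fa (FF x) v - fa (FF x) (μ.rq⁻¹ * v)) +
      (fb (FF (rt (rt x))) v - fb (FF (rt (rt x))) (μ.pq⁻¹ * v)) :=
      h.rot.rot.axis hμ.rot.rot hv0
    have e1 := (hf0.fa_even hv0).mpr h0
    have e2 := (hf0.fa_even (mul_ne_zero (inv_ne_zero hrq') hv0)).mpr h0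
    have e3 := (hf2.fb_even hv0).mpr h2
    have e4 := (hf2.fb_even (mul_ne_zero (inv_ne_zero hpq') hv0)).mpr h2
    omega
  -- the three parts
  have p1 : ∑ u ∈ HS p, ∑ v, ∑ w, Y3 x u v w • c u v w =
      ∑ u ∈ HS p, Y3 x u 0 0 • c u 0 0 +
      ∑ u ∈ HS p, ∑ w ∈ univ.erase (0 : ZMod r), Y3 x u 0 w • c u 0 w +
      ∑ u ∈ HS p, ∑ v ∈ univ.erase (0 : ZMod q), Y3 x u v 0 • c u v 0 := by
    rw [← sum_add_distrib, ← sum_add_distrib]
    refine sum_congr rfl fun u hu => ?_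
    rw [← add_sum_erase _ _ (mem_univ (0 : ZMod q)), ← add_sum_erase _ _ (mem_univ (0 : ZMod r))]
    congr 1
    refine sum_congr rfl fun v hv => ?_
    rw [← add_sum_erase _ _ (mem_univ (0 : ZMod r))]
    have : ∑ w ∈ univ.erase (0 : ZMod r), Y3 x u v w • c u v w = 0 := by
      refine sum_eq_zero fun w hw => ?_
      rw [h.top u v w (hH.ne u hu) (ne_of_mem_erase hv) (ne_of_mem_erase hw), zero_smul]
    rw [this, add_zero]
  have p2 : ∑ v ∈ HS q, ∑ w, Y3 x 0 v w • c 0 v w =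
      ∑ v ∈ HS q, Y3 x 0 v 0 • c 0 v 0 +
      ∑ v ∈ HS q, ∑ w ∈ univ.erase (0 : ZMod r), Y3 x 0 v w • c 0 v w := by
    rw [← sum_add_distrib]
    refine sum_congr rfl fun v _ => ?_
    rw [← add_sum_erase _ _ (mem_univ (0 : ZMod r))]
  have p3 : ∑ u ∈ HS p, ∑ w ∈ univ.erase (0 : ZMod r), Y3 x u 0 w • c u 0 w =
      ∑ w ∈ HS r, ∑ u ∈ univ.erase (0 : ZMod p), Y3 x u 0 w • c u 0 w := by
    refine swap_half hp2 hr2 (fun u w => Y3 x u 0 w • c u 0 w) ?_
    intro u w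
    have e1 := Y3_neg x u 0 w
    have e2 := hc.neg u 0 w
    rw [neg_zero] at e1 e2
    rw [e1, e2, neg_smul, smul_neg, neg_neg]
  have q1 : ∑ u ∈ HS p, Y3 x u 0 0 • c u 0 0 =
      ∑ u ∈ HS p, ((fa (FF (rt (rt x))) u - fa (FF (rt (rt x))) (μ.qp⁻¹ * u)) / 2) • c u 0 0 +
      ∑ u ∈ HS p, ((fb (FF (rt x)) u - fb (FF (rt x)) (μ.rp⁻¹ * u)) / 2) • c u 0 0 := by
    rw [← sum_add_distrib]
    refine sum_congr rfl fun u hu => ?_
    rw [au u hu, add_smul]
  have q2 : ∑ v ∈ HS q, Y3 x 0 v 0 • c 0 v 0 =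
      ∑ v ∈ HS q, ((fa (FF x) v - fa (FF x) (μ.rq⁻¹ * v)) / 2) • c 0 v 0 +
      ∑ v ∈ HS q, ((fb (FF (rt (rt x))) v - fb (FF (rt (rt x))) (μ.pq⁻¹ * v)) / 2) • c 0 v 0 := by
    rw [← sum_add_distrib]
    refine sum_congr rfl fun v hv => ?_
    rw [av v hv, add_smul]
  have q3 : ∑ w ∈ HS r, Y3 x 0 0 w • c 0 0 w =
      ∑ w ∈ HS r, ((fa (FF (rt x)) w - fa (FF (rt x)) (μ.pr⁻¹ * w)) / 2) • c 0 0 w +
      ∑ w ∈ HS r, ((fb (FF x) w - fb (FF x) (μ.qr⁻¹ * w)) / 2) • c 0 0 w := by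
    rw [← sum_add_distrib]
    refine sum_congr rfl fun w hw => ?_
    rw [aw w hw, add_smul]
  have t1 : ∑ w ∈ HS r, ∑ u ∈ univ.erase (0 : ZMod p), Y3 x u 0 w • c u 0 w +
      ∑ w ∈ HS r, ((fa (FF (rt x)) w - fa (FF (rt x)) (μ.pr⁻¹ * w)) / 2) • c 0 0 w +
      ∑ u ∈ HS p, ((fb (FF (rt x)) u - fb (FF (rt x)) (μ.rp⁻¹ * u)) / 2) • c u 0 0 = 0 := s1
  have t2 : ∑ u ∈ HS p, ∑ v ∈ univ.erase (0 : ZMod q), Y3 x u v 0 • c u v 0 +
      ∑ u ∈ HS p, ((fa (FF (rt (rt x))) u - fa (FF (rt (rt x))) (μ.qp⁻¹ * u)) / 2) • c u 0 0 +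
      ∑ v ∈ HS q, ((fb (FF (rt (rt x))) v - fb (FF (rt (rt x))) (μ.pq⁻¹ * v)) / 2) • c 0 v 0 = 0 :=
    s2
  rw [ghalf_sum3 hp2 hq2 hr2 x hc, p1, p2, p3, q1, q2, q3]
  calc _ = (∑ v ∈ HS q, ∑ w ∈ univ.erase (0 : ZMod r), Y3 x 0 v w • c 0 v w +
      ∑ v ∈ HS q, ((fa (FF x) v - fa (FF x) (μ.rq⁻¹ * v)) / 2) • c 0 v 0 +
      ∑ w ∈ HS r, ((fb (FF x) w - fb (FF x) (μ.qr⁻¹ * w)) / 2) • c 0 0 w) +
      (∑ w ∈ HS r, ∑ u ∈ univ.erase (0 : ZMod p), Y3 x u 0 w • c u 0 w +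
      ∑ w ∈ HS r, ((fa (FF (rt x)) w - fa (FF (rt x)) (μ.pr⁻¹ * w)) / 2) • c 0 0 w +
      ∑ u ∈ HS p, ((fb (FF (rt x)) u - fb (FF (rt x)) (μ.rp⁻¹ * u)) / 2) • c u 0 0) +
      (∑ u ∈ HS p, ∑ v ∈ univ.erase (0 : ZMod q), Y3 x u v 0 • c u v 0 +
      ∑ u ∈ HS p, ((fa (FF (rt (rt x))) u - fa (FF (rt (rt x))) (μ.qp⁻¹ * u)) / 2) • c u 0 0 +
      ∑ v ∈ HS q, ((fb (FF (rt (rt x))) v - fb (FF (rt (rt x))) (μ.pq⁻¹ * v)) / 2) • c 0 v 0) := by
        abel
    _ = 0 := by rw [s0, t1, t2]; simp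


end gthin

/-- reduction to the faces -/
theorem thin : S_thin := by
  intro p q r _ _ _ hp hq hr μ hμ x hx
  obtain ⟨x', h1, h2, h3⟩ := greduce3 hp hq hr hμ hx
  exact ⟨x', ⟨h1, h2⟩, h3⟩

/-- faces of thin relations, rotation, and the final sum -/
theorem zero : S_zero := by
  intro p q r _ _ _ hp hq hr μ hμ x hx
  refine ⟨hx.rot, hx.face hμ, ?_⟩
  intro h0 h1 h2 Q _ c hc
  exact hx.zero_sum hp hq hr hμ h0 h1 h2 hc

end Pool.Agent.NH35.HE
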