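import Pool.Agent.NH35.HE.StmC
import Pool.Agent.H916K.Two
import Pool.Agent.H916K.LevelFour

/-! Two coordinates with general multipliers; relations of level `4 * r`. -/

set_option autoImplicit false
set_option linter.unusedSectionVars false

namespace Pool.Agent.NH35.HE

open Finset Pool.Agent.H916R2 Pool.Agent.H916K
open Pool.Agent.NH35.HG (FH)

section GenMult

variable {p q : ℕ} [Fact p.Prime] [Fact q.Prime] {ma : ZMod p} {mb : ZMod q}

private lemma g2_swap {Q : Type*} [AddCommGroup Q] {c : ZMod p → ZMod q → Q} (h : G2 ma mb c) :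
    G2 mb ma (fun v u => c u v) where
  neg := fun u v => h.neg v u
  zero := h.zero
  dp := h.dq
  dq := h.dp

private lemma gr2_swap {x : ZMod p → ZMod q → ℤ} (h : GR2 ma mb x) :
    GR2 mb ma (fun v u => x u v) := by
  intro g hg
  rw [sum_comm]
  exact h _ (g2_swap hg)

private lemma g2_mixed {x : ZMod p → ZMod q → ℤ} (hx : GR2 ma mb x) {a a' : ZMod p} {b b' : ZMod q}
    (ha : a ≠ 0) (ha' : a' ≠ 0) (hb : b ≠ 0) (hb' : b' ≠ 0) :
    yy x a b - yy x a' b - yy x a b' + yy x a' b' = 0 := by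
  set D : ZMod p → ZMod q → ℤ := fun u v => (dl a u - dl a' u) * (dl b v - dl b' v) with hD
  have hg : G2 ma mb (fun u v => D u v - D (-u) (-v)) := by
    refine ⟨?_, ?_, ?_, ?_⟩
    · intro u v
      simp only [neg_neg]; ring
    · simp [hD, dl_zero ha, dl_zero ha', dl_zero hb, dl_zero hb']
    · intro v
      have h1 : ∀ w, ∑ u, D u w = 0 := by
        intro w
        simp only [hD]
        rw [← sum_mul, sum_sub_distrib, sum_dl, sum_dl]; ring
      rw [sum_sub_distrib, sum_neg (fun u => D u (-v)), h1, h1]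
      simp [hD, dl_zero ha, dl_zero ha']
    · intro u
      have h1 : ∀ w, ∑ v, D w v = 0 := by
        intro w
        simp only [hD]
        rw [← mul_sum, sum_sub_distrib, sum_dl, sum_dl]; ring
      rw [sum_sub_distrib, sum_neg (fun v => D (-u) v), h1, h1]
      simp [hD, dl_zero hb, dl_zero hb']
  have h1 := hx _ hg
  rw [test_sum] at h1
  have h2 : ∀ u, ∑ v, yy x u v * D u v = (yy x u b - yy x u b') * dl a u - (yy x u b - yy x u b') * dl a' u := by
    intro u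
    have : ∀ v, yy x u v * D u v = (dl a u - dl a' u) * (yy x u v * dl b v) -
        (dl a u - dl a' u) * (yy x u v * dl b' v) := by
      intro v; simp only [hD]; ring
    rw [sum_congr rfl fun v _ => this v, sum_sub_distrib, ← mul_sum, ← mul_sum, sum_mul_dl,
      sum_mul_dl]
    ring
  rw [sum_congr rfl fun u _ => h2 u, sum_sub_distrib, sum_mul_dl, sum_mul_dl] at h1
  linarith

private lemma g2_two_yy {x : ZMod p → ZMod q → ℤ} (hx : GR2 ma mb x) {u : ZMod p} {v : ZMod q}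
    (hu : u ≠ 0) (hv : v ≠ 0) : 2 * yy x u v = AA x u + BB x v := by
  have h1 := g2_mixed hx hu (neg_ne_zero.mpr hu) (one_ne_zero : (1 : ZMod q) ≠ 0) hv
  have h2 := g2_mixed hx (one_ne_zero : (1 : ZMod p) ≠ 0) hu hv (neg_ne_zero.mpr hv)
  have e1 := yy_neg x u (-1)
  have e2 := yy_neg x u v
  have e3 := yy_neg x 1 v
  have e4 := yy_neg x u (-v)
  have e5 := yy_neg x (-1) v
  rw [neg_neg] at e1 e4 e5
  unfold AA BB
  linarith

private lemma g2_edge (hma : ma ≠ 0) (hmb : mb ≠ 0) {x : ZMod p → ZMod q → ℤ} (hx : GR2 ma mb x) {w : ZMod p} (hw : w ≠ 0) :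
    2 * yy x w 0 = AA x w - AA x (ma⁻¹ * w) := by
  classical
  have hwm : -w ≠ 0 := neg_ne_zero.mpr hw
  set lam : ZMod p → ℤ := fun u => dl w u - dl (-w) u with hlam
  have hlneg : ∀ u, lam (-u) = - lam u := by
    intro u; simp only [hlam, dl_neg, neg_neg]; ring
  have hl0 : lam 0 = 0 := by simp [hlam, dl_zero hw, dl_zero hwm]
  have hlsum : ∑ u, lam u = 0 := by simp only [hlam, sum_sub_distrib, sum_dl, sub_self]
  have hlsum' : ∑ u, lam (ma * u) = 0 := by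
    rw [← hlsum]
    exact Fintype.sum_bijective _ (mulLeft_bijective₀ _ hma) _ _ fun u => rfl
  set g : ZMod p → ZMod q → ℤ := fun u v =>
    if v = 0 then ((q : ℤ) - 1) * lam u else lam (ma * u) - lam u with hgdef
  have hcardq : ((univ.erase (0 : ZMod q)).card : ℤ) = (q : ℤ) - 1 := by
    rw [card_erase_of_mem (mem_univ _), card_univ, ZMod.card,
      Nat.cast_sub (Fact.out : q.Prime).one_lt.le]
    simp
  have hg : G2 ma mb g := by
    refine ⟨?_, ?_, ?_, ?_⟩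
    · intro u v
      simp only [hgdef, neg_eq_zero, mul_neg, hlneg]
      split_ifs <;> ring
    · simp [hgdef, hl0]
    · intro v
      by_cases hv : v = 0
      · simp only [hgdef, hv, mul_zero, if_true]
        rw [← mul_sum, hlsum, hl0]
      · have hpv : mb * v ≠ 0 := mul_ne_zero hmb hv
        simp only [hgdef, hv, hpv, if_false]
        rw [sum_sub_distrib, hlsum, hlsum', mul_zero, hl0]
    · intro u
      have h1 : ∑ v, g u v = g u 0 + ∑ v ∈ univ.erase (0 : ZMod q), g u v :=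
        (add_sum_erase _ _ (mem_univ _)).symm
      have h2 : ∑ v ∈ univ.erase (0 : ZMod q), g u v = ((q : ℤ) - 1) * (lam (ma * u) - lam u) := by
        rw [sum_congr rfl (fun v hv => by
          simp only [hgdef]; rw [if_neg (ne_of_mem_erase hv)]), sum_const, nsmul_eq_mul, hcardq]
      rw [h1, h2]
      simp only [hgdef, if_true]
      ring
  have h1 := hx g hg
  set X : ZMod p → ℤ := fun u => ∑ v ∈ univ.erase (0 : ZMod q), x u v with hX
  have h2 : ∀ u, ∑ v, x u v * g u v = ((q : ℤ) - 1) * (x u 0 * lam u) +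
      (X u * lam (ma * u) - X u * lam u) := by
    intro u
    rw [← add_sum_erase _ _ (mem_univ (0 : ZMod q))]
    have h3 : ∑ v ∈ univ.erase (0 : ZMod q), x u v * g u v =
        X u * (lam (ma * u) - lam u) := by
      rw [hX, sum_mul]
      refine sum_congr rfl fun v hv => ?_
      simp only [hgdef]; rw [if_neg (ne_of_mem_erase hv)]
    rw [h3]
    simp only [hgdef, if_true]
    ring
  rw [sum_congr rfl fun u _ => h2 u, sum_add_distrib, sum_sub_distrib, ← mul_sum] at h1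
  have h4 : ∑ u, x u 0 * lam u = x w 0 - x (-w) 0 := sum_lam w
  have h5 : ∑ u, X u * lam u = X w - X (-w) := sum_lam w
  have h6 : ∑ u, X u * lam (ma * u) = X (ma⁻¹ * w) - X (-(ma⁻¹ * w)) := by
    have h7 : ∑ u, X u * lam (ma * u) = ∑ u, X (ma⁻¹ * u) * lam u := by
      refine (Fintype.sum_bijective _ (mulLeft_bijective₀ _ hma) _ _ fun u => ?_)
      rw [inv_mul_cancel_left₀ hma]
    rw [h7, sum_lam (f := fun u => X (ma⁻¹ * u)) w, mul_neg]
  rw [h4, h5, h6] at h1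
  have hY : ∀ a : ZMod p, X a - X (-a) = ∑ v ∈ univ.erase (0 : ZMod q), yy x a v := by
    intro a
    simp only [yy, sum_sub_distrib, hX]
    congr 1
    refine sum_bij' (fun v _ => -v) (fun v _ => -v) ?_ ?_ ?_ ?_ ?_
    · intro v hv; exact mem_erase.mpr ⟨neg_ne_zero.mpr (ne_of_mem_erase hv), mem_univ _⟩
    · intro v hv; exact mem_erase.mpr ⟨neg_ne_zero.mpr (ne_of_mem_erase hv), mem_univ _⟩
    · intro v _; exact neg_neg v
    · intro v _; exact neg_neg v
    · intro v _; rw [neg_neg]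
  have hB : ∑ v ∈ univ.erase (0 : ZMod q), BB x v = 0 := by
    have h8 : ∑ v ∈ univ.erase (0 : ZMod q), BB x v = ∑ v ∈ univ.erase (0 : ZMod q), BB x (-v) := by
      refine sum_bij' (fun v _ => -v) (fun v _ => -v) ?_ ?_ ?_ ?_ ?_
      · intro v hv; exact mem_erase.mpr ⟨neg_ne_zero.mpr (ne_of_mem_erase hv), mem_univ _⟩
      · intro v hv; exact mem_erase.mpr ⟨neg_ne_zero.mpr (ne_of_mem_erase hv), mem_univ _⟩
      · intro v _; exact neg_neg v
      · intro v _; exact neg_neg v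
      · intro v _; rw [neg_neg]
    have h9 : ∑ v ∈ univ.erase (0 : ZMod q), BB x (-v) = - ∑ v ∈ univ.erase (0 : ZMod q), BB x v := by
      rw [← sum_neg_distrib]
      exact sum_congr rfl fun v _ => BB_neg x v
    linarith
  have hYA : ∀ a : ZMod p, a ≠ 0 →
      2 * ∑ v ∈ univ.erase (0 : ZMod q), yy x a v = ((q : ℤ) - 1) * AA x a := by
    intro a ha
    rw [mul_sum, sum_congr rfl fun v hv => g2_two_yy hx ha (ne_of_mem_erase hv), sum_add_distrib, hB,
      sum_const, nsmul_eq_mul, hcardq]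
    ring
  have hqw : ma⁻¹ * w ≠ 0 := mul_ne_zero (inv_ne_zero hma) hw
  have e1 := hYA w hw
  have e2 := hYA _ hqw
  rw [hY, hY] at h1
  have hq1 : ((q : ℤ) - 1) ≠ 0 := by
    have := (Fact.out : q.Prime).one_lt
    omega
  have e3 : yy x w 0 = x w 0 - x (-w) 0 := by unfold yy; rw [neg_zero]
  rw [← e3] at h1
  apply mul_left_cancel₀ hq1
  linarith

/-- the relation holds when the row and column functions are even -/
private theorem g2_even (hp2 : p ≠ 2) (hq2 : q ≠ 2) (hma : ma ≠ 0) (hmb : mb ≠ 0) {x : ZMod p → ZMod q → ℤ}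
    (hx : GR2 ma mb x) (hA : ∀ u, u ≠ 0 → 2 ∣ AA x u) (hB : ∀ v, v ≠ 0 → 2 ∣ BB x v)
    {Q : Type*} [AddCommGroup Q] {c : ZMod p → ZMod q → Q} (hc : G2 ma mb c) :
    ∑ u, ∑ v, x u v • c u v = 0 := by
  classical
  have hA0 : AA x 0 = 0 := by have := AA_neg x 0; rw [neg_zero] at this; linarith
  have hB0 : BB x 0 = 0 := by have := BB_neg x 0; rw [neg_zero] at this; linarith
  obtain ⟨α, hα⟩ : ∃ α : ZMod p → ℤ, ∀ u, AA x u = 2 * α u := by
    refine ⟨fun u => AA x u / 2, fun u => ?_⟩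
    by_cases hu : u = 0
    · simp [hu, hA0]
    · exact (Int.mul_ediv_cancel' (hA u hu)).symm
  obtain ⟨β, hβ⟩ : ∃ β : ZMod q → ℤ, ∀ v, BB x v = 2 * β v := by
    refine ⟨fun v => BB x v / 2, fun v => ?_⟩
    by_cases hv : v = 0
    · simp [hv, hB0]
    · exact (Int.mul_ediv_cancel' (hB v hv)).symm
  have hαn : ∀ u, α (-u) = - α u := by
    intro u; have := AA_neg x u; rw [hα, hα] at this; linarith
  have hβn : ∀ v, β (-v) = - β v := by
    intro v; have := BB_neg x v; rw [hβ, hβ] at this; linarith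
  have e1 : ∀ u v, u ≠ 0 → v ≠ 0 → yy x u v = α u + β v := by
    intro u v hu hv
    have := g2_two_yy hx hu hv
    rw [hα, hβ] at this; linarith
  have e2 : ∀ u, u ≠ 0 → yy x u 0 = α u - α (ma⁻¹ * u) := by
    intro u hu
    have := g2_edge hma hmb hx hu
    rw [hα, hα] at this; linarith
  have e3 : ∀ v, v ≠ 0 → yy x 0 v = β v - β (mb⁻¹ * v) := by
    intro v hv
    have h1 : 2 * yy x 0 v = BB x v - BB x (mb⁻¹ * v) :=
      g2_edge (p := q) (q := p) hmb hma (gr2_swap hx) hv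
    rw [hβ, hβ] at h1; linarith
  have hcn : ∀ u v, c (-u) v = - c u (-v) := by
    intro u v
    have := hc.neg u (-v)
    rwa [neg_neg] at this
  have hH := half_HS (p := p) hp2
  have hK := half_HS (p := q) hq2
  set R : ZMod p → Q := fun u => ∑ v, x u v • c u v with hR
  have hRR : ∀ u, R u + R (-u) = ∑ v, yy x u v • c u v := by
    intro u
    have h1 : R (-u) = ∑ v, -(x (-u) (-v) • c u v) := by
      rw [hR]
      simp only
      rw [← sum_neg (fun v => x (-u) v • c (-u) v)]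
      refine sum_congr rfl fun v _ => ?_
      rw [hc.neg, smul_neg]
    rw [h1, hR, ← sum_add_distrib]
    refine sum_congr rfl fun v _ => ?_
    rw [← sub_eq_add_neg, ← sub_smul]
    rfl
  have hR0 : R 0 = ∑ v ∈ HS q, yy x 0 v • c 0 v := by
    rw [hR]
    simp only
    rw [← add_sum_erase _ _ (mem_univ (0 : ZMod q)), hc.zero, smul_zero, zero_add,
      hK.sum_all (fun v => x 0 v • c 0 v)]
    refine sum_congr rfl fun v _ => ?_
    have h1 : c 0 (-v) = - c 0 v := by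
      have := hc.neg 0 v
      rwa [neg_zero] at this
    rw [h1, smul_neg, ← sub_eq_add_neg, ← sub_smul]
    congr 1
    unfold yy; rw [neg_zero]
  have hrow : ∀ u, ∑ v ∈ univ.erase (0 : ZMod q), c u v = c (ma * u) 0 - c u 0 := by
    intro u
    rw [← hc.dq u, ← add_sum_erase _ _ (mem_univ (0 : ZMod q))]; abel
  have hcol : ∀ v, ∑ u ∈ univ.erase (0 : ZMod p), c u v = c 0 (mb * v) - c 0 v := by
    intro v
    rw [← hc.dp v, ← add_sum_erase _ _ (mem_univ (0 : ZMod p))]; abel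
  have hmain : ∀ u ∈ HS p, ∑ v, yy x u v • c u v =
      (α u • c (ma * u) 0 - α (ma⁻¹ * u) • c u 0) +
        ∑ v ∈ univ.erase (0 : ZMod q), β v • c u v := by
    intro u hu
    have hu0 := hH.ne u hu
    rw [← add_sum_erase _ _ (mem_univ (0 : ZMod q)), e2 u hu0]
    have h1 : ∑ v ∈ univ.erase (0 : ZMod q), yy x u v • c u v =
        α u • ∑ v ∈ univ.erase (0 : ZMod q), c u v + ∑ v ∈ univ.erase (0 : ZMod q), β v • c u v := by
      rw [smul_sum, ← sum_add_distrib]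
      refine sum_congr rfl fun v hv => ?_
      rw [e1 u v hu0 (ne_of_mem_erase hv), add_smul]
    rw [h1, hrow, sub_smul, smul_sub]
    abel
  have hz1 : ∑ u ∈ HS p, (α u • c (ma * u) 0 - α (ma⁻¹ * u) • c u 0) = 0 := by
    rw [sum_sub_distrib, sub_eq_zero]
    have h1 := hH.sum_mul hma (fun u => α (ma⁻¹ * u) • c u 0) (by
      intro u
      rw [mul_neg, hαn, hcn, neg_zero, neg_smul, smul_neg, neg_neg])
    rw [← h1]
    refine sum_congr rfl fun u _ => ?_
    rw [inv_mul_cancel_left₀ hma]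
  have hz2 : ∑ v ∈ HS q, (β v • c 0 (mb * v) - β (mb⁻¹ * v) • c 0 v) = 0 := by
    rw [sum_sub_distrib, sub_eq_zero]
    have h1 := hK.sum_mul hmb (fun v => β (mb⁻¹ * v) • c 0 v) (by
      intro v
      have h2 : c 0 (-v) = - c 0 v := by
        have := hc.neg 0 v
        rwa [neg_zero] at this
      rw [mul_neg, hβn, h2, neg_smul, smul_neg, neg_neg])
    rw [← h1]
    refine sum_congr rfl fun v _ => ?_
    rw [inv_mul_cancel_left₀ hmb]
  have hcross : ∑ u ∈ HS p, ∑ v ∈ univ.erase (0 : ZMod q), β v • c u v =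
      ∑ v ∈ HS q, β v • (c 0 (mb * v) - c 0 v) := by
    rw [sum_comm, hK.sum_all (fun v => ∑ u ∈ HS p, β v • c u v)]
    refine sum_congr rfl fun v _ => ?_
    rw [← hcol, hH.sum_all (fun u => c u v), ← smul_sum, ← smul_sum, hβn, sum_add_distrib, smul_add]
    congr 1
    rw [neg_smul, ← smul_neg, ← sum_neg_distrib]
    congr 1
    refine sum_congr rfl fun u _ => ?_
    rw [hcn]
  have hS : ∑ u, ∑ v, x u v • c u v = R 0 + ∑ u ∈ HS p, (R u + R (-u)) := by
    rw [← hH.sum_all, add_sum_erase _ _ (mem_univ (0 : ZMod p))]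
  rw [hS, sum_congr rfl fun u _ => hRR u, sum_congr rfl hmain, sum_add_distrib, hz1, zero_add,
    hcross, hR0, ← hz2, ← sum_add_distrib]
  refine sum_congr rfl fun v hv => ?_
  rw [e3 v (hK.ne v hv), sub_smul, smul_sub]
  abel

end GenMult

/-- two coordinates with general multipliers -/
theorem g2 : S_g2 := by
  intro p q hp hq hp2 hq2 a b ha hb x hx
  refine ⟨fun u v hu hv => g2_two_yy hx hu hv, ?_⟩
  intro h Q _ c hc
  have h11 : ∀ u v, u ≠ 0 → v ≠ 0 → (2 ∣ AA x u ↔ 2 ∣ BB x v) := by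
    intro u v hu hv
    have := g2_two_yy hx hu hv
    omega
  have hB : ∀ v, v ≠ 0 → 2 ∣ BB x v := fun v hv => (h11 1 v one_ne_zero hv).mp h
  exact g2_even hp2 hq2 ha hb hx
    (fun u hu => (h11 u 1 hu one_ne_zero).mpr (hB 1 one_ne_zero)) hB hc

section LevelFour

variable {r : ℕ} [hr : Fact r.Prime]

private lemma sum_three {Q : Type*} [AddCommMonoid Q] (f : ZMod 3 → Q) :
    ∑ u, f u = f 0 + f 1 + f 2 := Fin.sum_univ_three f

private lemma forall3 {P : ZMod 3 → Prop} (h0 : P 0) (h1 : P 1) (h2 : P 2) : ∀ u, P u := by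
  intro u
  fin_cases u
  · exact h0
  · exact h1
  · exact h2

/-- the multiplier modulo 3 -/
private def m3 (r : ℕ) : ZMod 3 := if ((r : ℕ) : ZMod 4) = 1 then 1 else -1

private lemma m3_cases (hr2 : r ≠ 2) :
    (((r : ℕ) : ZMod 4) = 1 ∧ m3 r = 1) ∨ (((r : ℕ) : ZMod 4) = 3 ∧ m3 r = 2) := by
  rcases q_mod4 hr2 with h | h
  · exact Or.inl ⟨h, if_pos h⟩
  · refine Or.inr ⟨h, ?_⟩
    unfold m3
    rw [if_neg (by rw [h]; decide)]
    rfl

private lemma m3_ne (hr2 : r ≠ 2) : m3 r ≠ 0 := by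
  rcases m3_cases hr2 with ⟨_, h⟩ | ⟨_, h⟩ <;> rw [h] <;> decide

/-- from coordinates modulo 4 to coordinates modulo 3 -/
private def to3 {Q : Type*} (c : ZMod 4 → ZMod r → Q) (u : ZMod 3) (v : ZMod r) : Q :=
  if u = 0 then c 0 (2 * v) else if u = 1 then c 1 v else c 3 v

/-- the relation in coordinates modulo 3 -/
private def x3 (x : ZMod 4 → ZMod r → ℤ) (u : ZMod 3) (v : ZMod r) : ℤ :=
  if u = 0 then x 0 (2 * v) + x 2 v - x 2 (2 * v) else if u = 1 then x 1 v else x 3 v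

private lemma sum_dbl (hr2 : r ≠ 2) {Q : Type*} [AddCommMonoid Q] (f : ZMod r → Q) :
    ∑ v, f (2 * v) = ∑ v, f v :=
  Fintype.sum_bijective _ (mulLeft_bijective₀ _ (two_ne hr2)) _ _ fun _ => rfl

private lemma sum_half (hr2 : r ≠ 2) {Q : Type*} [AddCommMonoid Q] (f : ZMod r → Q) :
    ∑ v, f (2⁻¹ * v) = ∑ v, f v :=
  Fintype.sum_bijective _ (mulLeft_bijective₀ _ (inv_ne_zero (two_ne hr2))) _ _ fun _ => rfl

private lemma to3_g2 (hr2 : r ≠ 2) {Q : Type*} [AddCommGroup Q] {c : ZMod 4 → ZMod r → Q}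
    (hc : D4 c) : G2 (m3 r) (2 : ZMod r) (to3 c) where
  neg := by
    refine forall3 ?_ ?_ ?_
    · intro v
      show c 0 (2 * (-v)) = - c 0 (2 * v)
      rw [mul_neg]
      have := hc.neg 0 (2 * v)
      rwa [neg_zero] at this
    · intro v
      exact hc.neg 1 v
    · intro v
      exact hc.neg 3 v
  zero := by
    show c 0 (2 * 0) = 0
    rw [mul_zero]; exact hc.zero
  dp := fun v => by
    rw [sum_three]
    show c 0 (2 * v) + c 1 v + c 3 v = c 0 (2 * (2 * v))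
    have h1 := hc.d2 1 v
    have h2 := hc.d2 0 (2 * v)
    have e1 : (1 : ZMod 4) + 2 = 3 := rfl
    have e2 : (2 : ZMod 4) * 1 = 2 := rfl
    have e3 : (0 : ZMod 4) + 2 = 2 := rfl
    have e4 : (2 : ZMod 4) * 0 = 0 := rfl
    rw [e1, e2] at h1
    rw [e3, e4] at h2
    rw [← h2, add_assoc, h1]
  dq := by
    refine forall3 ?_ ?_ ?_
    · show ∑ v, c 0 (2 * v) = to3 c (m3 r * 0) 0
      rw [mul_zero, sum_dbl hr2 (fun v => c 0 v), hc.dq, mul_zero]
      show c 0 0 = c 0 (2 * 0)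
      rw [mul_zero]
    · show ∑ v, c 1 v = to3 c (m3 r * 1) 0
      rw [hc.dq, mul_one, mul_one]
      rcases m3_cases hr2 with ⟨h, h'⟩ | ⟨h, h'⟩ <;> rw [h, h'] <;> rfl
    · show ∑ v, c 3 v = to3 c (m3 r * 2) 0
      rw [hc.dq]
      rcases m3_cases hr2 with ⟨h, h'⟩ | ⟨h, h'⟩ <;> rw [h, h'] <;> rfl

/-- from coordinates modulo 3 to coordinates modulo 4 -/
private def to4 {Q : Type*} [AddCommGroup Q] (g : ZMod 3 → ZMod r → Q) : ZMod 4 → ZMod r → Q :=
  mk4 (fun v => g 0 (2⁻¹ * v)) (g 1) (fun v => g 0 v - g 0 (2⁻¹ * v)) (g 2)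

private lemma to4_d4 (hr2 : r ≠ 2) {g : ZMod 3 → ZMod r → ℤ} (hg : G2 (m3 r) (2 : ZMod r) g) :
    D4 (to4 g) := by
  have h2 : (2 : ZMod r) ≠ 0 := two_ne hr2
  have n0 : ∀ v, g 0 (-v) = - g 0 v := by
    intro v
    have := hg.neg 0 v
    rwa [neg_zero] at this
  have s0 : ∑ v, g 0 v = 0 := by
    rw [hg.dq, mul_zero]; exact hg.zero
  refine D4.mk' hr2 ?_ ?_ ?_ ?_ ?_ ?_ ?_ ?_ ?_ ?_
  · intro v
    rw [mul_neg, n0]
  · intro v
    exact hg.neg 1 v
  · intro v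
    rw [mul_neg, n0, n0]; ring
  · rw [mul_zero]; exact hg.zero
  · rw [mul_zero, sub_self]
  · intro v
    rw [inv_mul_cancel_left₀ h2]; ring
  · intro v
    rw [inv_mul_cancel_left₀ h2]
    have h3 := hg.dp v
    rw [sum_three] at h3
    linarith
  · rw [sum_half hr2 (fun v => g 0 v), s0]
  · rw [sum_sub_distrib, sum_half hr2 (fun v => g 0 v), s0, sub_zero]
  · rw [hg.dq, mul_one]
    rcases m3_cases hr2 with ⟨h, h'⟩ | ⟨h, h'⟩ <;> rw [h, h'] <;> rfl

private lemma to3_to4 (hr2 : r ≠ 2) {g : ZMod 3 → ZMod r → ℤ} : to3 (to4 g) = g := by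
  have h2 : (2 : ZMod r) ≠ 0 := two_ne hr2
  funext u v
  revert u
  refine forall3 ?_ ?_ ?_
  · show g 0 (2⁻¹ * (2 * v)) = g 0 v
    rw [inv_mul_cancel_left₀ h2]
  · rfl
  · rfl

private lemma sum_x3 (hr2 : r ≠ 2) (x : ZMod 4 → ZMod r → ℤ) {Q : Type*} [AddCommGroup Q]
    {c : ZMod 4 → ZMod r → Q} (hc : D4 c) :
    ∑ u, ∑ v, x u v • c u v = ∑ u, ∑ v, x3 x u v • to3 c u v := by
  rw [sum_four, sum_three]
  show ∑ v, x 0 v • c 0 v + ∑ v, x 1 v • c 1 v + ∑ v, x 2 v • c 2 v + ∑ v, x 3 v • c 3 v =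
    ∑ v, (x 0 (2 * v) + x 2 v - x 2 (2 * v)) • c 0 (2 * v) + ∑ v, x 1 v • c 1 v +
      ∑ v, x 3 v • c 3 v
  have h1 : ∀ v, c 2 v = c 0 (2 * v) - c 0 v := by
    intro v
    have h2 := hc.d2 0 v
    have e3 : (0 : ZMod 4) + 2 = 2 := rfl
    have e4 : (2 : ZMod 4) * 0 = 0 := rfl
    rw [e3, e4] at h2
    rw [← h2]; abel
  have h2 : ∑ v, x 2 v • c 2 v = ∑ v, x 2 v • c 0 (2 * v) - ∑ v, x 2 (2 * v) • c 0 (2 * v) := by
    rw [sum_dbl hr2 (fun v => x 2 v • c 0 v), ← sum_sub_distrib]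
    refine sum_congr rfl fun v _ => ?_
    rw [h1, smul_sub]
  have h3 : ∑ v, (x 0 (2 * v) + x 2 v - x 2 (2 * v)) • c 0 (2 * v) =
      ∑ v, x 0 v • c 0 v + (∑ v, x 2 v • c 0 (2 * v) - ∑ v, x 2 (2 * v) • c 0 (2 * v)) := by
    rw [← sum_dbl hr2 (fun v => x 0 v • c 0 v), ← sum_sub_distrib, ← sum_add_distrib]
    refine sum_congr rfl fun v _ => ?_
    rw [sub_smul, add_smul]; abel
  rw [h2, h3]; abel

private lemma x3_gr2 (hr2 : r ≠ 2) {x : ZMod 4 → ZMod r → ℤ} (hx : Rel4 x) :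
    GR2 (m3 r) (2 : ZMod r) (x3 x) := by
  intro g hg
  have hd := to4_d4 hr2 hg
  have h1 := hx _ hd
  have h2 := sum_x3 hr2 x hd
  simp only [smul_eq_mul] at h2
  rw [h2, to3_to4 hr2] at h1
  exact h1

/-- the reduced relation modulo 4 -/
private def x4 (X : ZMod 3 → ZMod r → ℤ) : ZMod 4 → ZMod r → ℤ :=
  mk4 (fun v => X 0 (2⁻¹ * v)) (X 1) (fun _ => 0) (X 2)

private lemma sum_x4 (hr2 : r ≠ 2) (X : ZMod 3 → ZMod r → ℤ) {Q : Type*} [AddCommGroup Q]
    {c : ZMod 4 → ZMod r → Q} :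
    ∑ u, ∑ v, x4 X u v • c u v = ∑ u, ∑ v, X u v • to3 c u v := by
  have h2 : (2 : ZMod r) ≠ 0 := two_ne hr2
  rw [sum_four, sum_three]
  show ∑ v, X 0 (2⁻¹ * v) • c 0 v + ∑ v, X 1 v • c 1 v + ∑ v, (0 : ℤ) • c 2 v +
    ∑ v, X 2 v • c 3 v = ∑ v, X 0 v • c 0 (2 * v) + ∑ v, X 1 v • c 1 v + ∑ v, X 2 v • c 3 v
  have h3 : ∑ v, X 0 v • c 0 (2 * v) = ∑ v, X 0 (2⁻¹ * v) • c 0 v := by
    rw [← sum_dbl hr2 (fun v => X 0 (2⁻¹ * v) • c 0 v)]
    refine sum_congr rfl fun v _ => ?_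
    rw [inv_mul_cancel_left₀ h2]
  rw [h3]
  simp

private lemma row3 {X : ZMod 3 → ZMod r → ℤ}
    (h : ∀ u v, u ≠ 0 → v ≠ 0 → 2 * yy X u v = AA X u + BB X v) :
    2 * (∑ v ∈ univ.erase (0 : ZMod r), X 1 v - ∑ v ∈ univ.erase (0 : ZMod r), X 2 v) =
      ((r : ℤ) - 1) * AA X 1 := by
  classical
  have hcardq : ((univ.erase (0 : ZMod r)).card : ℤ) = (r : ℤ) - 1 := by
    rw [card_erase_of_mem (mem_univ _), card_univ, ZMod.card,
      Nat.cast_sub (Fact.out : r.Prime).one_lt.le]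
    simp
  have hnegsum : ∀ F : ZMod r → ℤ, ∑ v ∈ univ.erase (0 : ZMod r), F v =
      ∑ v ∈ univ.erase (0 : ZMod r), F (-v) := by
    intro F
    refine sum_bij' (fun v _ => -v) (fun v _ => -v) ?_ ?_ ?_ ?_ ?_
    · intro v hv; exact mem_erase.mpr ⟨neg_ne_zero.mpr (ne_of_mem_erase hv), mem_univ _⟩
    · intro v hv; exact mem_erase.mpr ⟨neg_ne_zero.mpr (ne_of_mem_erase hv), mem_univ _⟩
    · intro v _; exact neg_neg v
    · intro v _; exact neg_neg v
    · intro v _; rw [neg_neg]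
  have hB : ∑ v ∈ univ.erase (0 : ZMod r), BB X v = 0 := by
    have h8 := hnegsum (fun v => BB X v)
    have h9 : ∑ v ∈ univ.erase (0 : ZMod r), BB X (-v) =
        - ∑ v ∈ univ.erase (0 : ZMod r), BB X v := by
      rw [← sum_neg_distrib]
      exact sum_congr rfl fun v _ => BB_neg X v
    linarith
  have hY : ∑ v ∈ univ.erase (0 : ZMod r), X 1 v - ∑ v ∈ univ.erase (0 : ZMod r), X 2 v =
      ∑ v ∈ univ.erase (0 : ZMod r), yy X 1 v := by
    rw [hnegsum (fun v => X 2 v), ← sum_sub_distrib]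
    rfl
  rw [hY, mul_sum, sum_congr rfl fun v hv => h 1 v one_ne_zero (ne_of_mem_erase hv),
    sum_add_distrib, hB, sum_const, nsmul_eq_mul, hcardq]
  ring

private lemma fh_four (hr2 : r ≠ 2) (x : ZMod (4 * r) → ℤ) :
    FH r 4 x 1 (-1) = -2 * (∑ v ∈ univ.erase (0 : ZMod r), fr hr2 x 1 v -
      ∑ v ∈ univ.erase (0 : ZMod r), fr hr2 x 3 v) := by
  classical
  unfold FH
  rw [sum_fr hr2]
  have hco : ∀ (u : ZMod 4) (v : ZMod r), (((((ef hr2).symm (u, v)).val : ℕ) : ZMod 4) = u) ∧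
      (((((ef hr2).symm (u, v)).val : ℕ) : ZMod r) = v) := by
    intro u v
    have h1 := ef_natCast hr2 ((ef hr2).symm (u, v)).val
    rw [ZMod.natCast_zmod_val, RingEquiv.apply_symm_apply] at h1
    exact ⟨(congrArg Prod.fst h1).symm, (congrArg Prod.snd h1).symm⟩
  have hrow : ∀ u : ZMod 4, ∑ v, fr hr2 (fun z : ZMod (4 * r) =>
      if (z.val : ZMod r) = 0 then 0 else
      x z * (((((1 : (ZMod 4)ˣ) : ZMod 4) * (z.val : ZMod 4)).val : ℤ) -
        ((((-1 : (ZMod 4)ˣ) : ZMod 4) * (z.val : ZMod 4)).val : ℤ))) u v =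
      (∑ v ∈ univ.erase (0 : ZMod r), fr hr2 x u v) * ((u.val : ℤ) - ((-u).val : ℤ)) := by
    intro u
    rw [← add_sum_erase _ _ (mem_univ (0 : ZMod r))]
    have h0 : fr hr2 (fun z : ZMod (4 * r) =>
      if (z.val : ZMod r) = 0 then 0 else
      x z * (((((1 : (ZMod 4)ˣ) : ZMod 4) * (z.val : ZMod 4)).val : ℤ) -
        ((((-1 : (ZMod 4)ˣ) : ZMod 4) * (z.val : ZMod 4)).val : ℤ))) u 0 = 0 := by
      unfold fr
      simp only [(hco u 0).2, if_true]
    rw [h0, zero_add, sum_mul]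
    refine sum_congr rfl fun v hv => ?_
    unfold fr
    simp only [(hco u v).2, (hco u v).1]
    rw [if_neg (ne_of_mem_erase hv)]
    simp
  rw [sum_congr rfl fun u _ => hrow u, sum_four]
  have e0 : (((0 : ZMod 4).val : ℤ) - ((-(0 : ZMod 4)).val : ℤ)) = 0 := rfl
  have e1 : (((1 : ZMod 4).val : ℤ) - ((-(1 : ZMod 4)).val : ℤ)) = -2 := rfl
  have e2 : (((2 : ZMod 4).val : ℤ) - ((-(2 : ZMod 4)).val : ℤ)) = 0 := rfl
  have e3 : (((3 : ZMod 4).val : ℤ) - ((-(3 : ZMod 4)).val : ℤ)) = 2 := rfl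
  rw [e0, e1, e2, e3]
  ring

/-- level `4 * r` -/
theorem four1 (h0 : S_low) (h1 : S_cf) : S_four1 := by
  intro r hr hnz hr2 x hx hce Q _ c hc
  classical
  have hX4 := rel_four hr2 hx
  set X : ZMod 3 → ZMod r → ℤ := x3 (fr hr2 x) with hXdef
  have hG : GR2 (m3 r) (2 : ZMod r) X := x3_gr2 hr2 hX4
  have : Fact (Nat.Prime 3) := ⟨Nat.prime_three⟩
  obtain ⟨hyy, hfin⟩ := g2 3 r (by norm_num) hr2 (m3 r) 2 (m3_ne hr2) (two_ne hr2) X hG
  -- the modified relation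
  set x2 : ZMod (4 * r) → ℤ := fun a => x4 X (ef hr2 a).1 (ef hr2 a).2 with hx2
  have hfr : fr hr2 x2 = x4 X := by
    funext u v
    simp only [hx2, fr, RingEquiv.apply_symm_apply]
  have hsum : ∀ (Q : Type) [AddCommGroup Q] (c : ZMod (4 * r) → Q), OddDist c →
      ∑ z, x z • c z = ∑ z, x2 z • c z := by
    intro Q _ c hc
    have e1 : ∑ z, x z • c z = ∑ u, ∑ v, fr hr2 x u v • fr hr2 c u v := sum_fr hr2 _
    have e2 : ∑ z, x2 z • c z = ∑ u, ∑ v, fr hr2 x2 u v • fr hr2 c u v := sum_fr hr2 _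
    rw [e1, e2, hfr, sum_x3 hr2 _ (fr_d4 hr2 hc), sum_x4 hr2]
  have hrel : Rel x2 := by
    intro t
    have hodd : OddDist (fun a : ZMod (4 * r) => saw ((t : ZMod (4 * r)) * a)) := by
      refine ⟨?_, ?_, ?_⟩
      · intro a; simp only [mul_neg, saw_neg]
      · intro a ha
        apply saw_half
        rw [← mul_add, ha, mul_zero]
      · intro p d _ hpd a
        exact saw_dist_unit hpd t a
    have h3 := hsum ℤ _ hodd
    simp only [smul_eq_mul] at h3
    rw [← h3]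
    exact hx t
  have hnr : ¬ r ∣ 4 := by
    intro h
    have h2 : r ∣ 2 ^ 2 := h
    exact hr2 ((Nat.prime_dvd_prime_iff_eq hr.out Nat.prime_two).mp (hr.out.dvd_of_dvd_pow h2))
  have hce2 : CE r 4 x2 := by
    refine h0 r 1 4 4 1 (4 * r) (4 * r) hr.out hr2 one_pos hnr (by ring) (by ring) (by ring)
      (dvd_refl 4) (fun l _ hl => hl) x x2 ?_ hce
    intro Q _ c hc
    rw [hsum Q c hc]
    refine sum_congr rfl fun b _ => ?_
    have : (iota 1 b : ZMod (4 * r)) = b := by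
      unfold iota
      rw [one_mul, ZMod.natCast_zmod_val]
    rw [this]
  obtain ⟨N, k, hN, hdiv⟩ := h1 r 4 (4 * r) hr.out hr2 hnr (by norm_num) (by ring) x2 hrel hce2
  have h4 := hdiv 1 (-1)
  rw [fh_four hr2, hfr] at h4
  have e1 : (((((1 : (ZMod 4)ˣ) : ZMod 4)).val : ℤ) - ((((-1 : (ZMod 4)ˣ) : ZMod 4)).val : ℤ)) = -2 :=
    rfl
  rw [e1] at h4
  have h5 : -2 * (∑ v ∈ univ.erase (0 : ZMod r), x4 X 1 v - ∑ v ∈ univ.erase (0 : ZMod r), x4 X 3 v)
      = -(((r : ℤ) - 1) * AA X 1) := by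
    rw [← row3 hyy]
    show -2 * (∑ v ∈ univ.erase (0 : ZMod r), X 1 v - ∑ v ∈ univ.erase (0 : ZMod r), X 2 v) = _
    ring
  rw [h5] at h4
  have hr1 : ((r : ℤ) - 1) ≠ 0 := by
    have := hr.out.one_lt
    omega
  have h6 : (4 : ℤ) ∣ -(N * AA X 1) + 2 * k := by
    have h7 : ((r : ℤ) - 1) * 4 ∣ ((r : ℤ) - 1) * (-(N * AA X 1) + 2 * k) := by
      have h8 : N * -(((r : ℤ) - 1) * AA X 1) - k * ((r : ℤ) - 1) * -2 =
          ((r : ℤ) - 1) * (-(N * AA X 1) + 2 * k) := by ring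
      rw [h8] at h4
      have h9 : ((4 : ℕ) : ℤ) * ((r : ℤ) - 1) = ((r : ℤ) - 1) * 4 := by push_cast; ring
      rwa [h9] at h4
    exact Int.dvd_of_mul_dvd_mul_left hr1 h7
  have h7 : (2 : ℤ) ∣ AA X 1 := by
    have h8 : (2 : ℤ) ∣ N * AA X 1 := by
      obtain ⟨e, he⟩ := h6
      exact ⟨k - 2 * e, by linarith⟩
    rcases Int.even_mul.mp (even_iff_two_dvd.mpr h8) with h9 | h9
    · exact absurd h9 (Int.not_even_iff_odd.mpr hN)
    · exact h9.two_dvd
  have h8 := hfin h7 (to3_g2 hr2 (fr_d4 hr2 hc))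
  rw [hsum Q c hc]
  have e2 : ∑ z, x2 z • c z = ∑ u, ∑ v, fr hr2 x2 u v • fr hr2 c u v := sum_fr hr2 _
  rw [e2, hfr, sum_x4 hr2]
  exact h8

end LevelFour

end Pool.Agent.NH35.HE
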