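import Pool.Agent.NH35.HE.StmF
import Pool.Agent.NH35.HG.He

/-! Uniqueness of the families; the Hecke characters attached to monomials. -/

set_option autoImplicit false
set_option linter.unusedSectionVars false
open NumberField NumberField.InfinitePlace IsDedekindDomain
open Module nonZeroDivisors Ideal IsCyclotomicExtension

namespace Pool.Agent.NH35.HE

open Pool.Agent.NH35.HD (sa xw iw zt MRel exists_hecke)
open Pool.Agent.NH35.HC (Hk)
open Pool.Agent.NH35.HG (he_xw_one he_ne he_iw_coprime)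

section cls
variable {K : Type} [Field K] [NumberField K]

theorem uni_principal (I : Ideal (𝓞 K)) (hI : I ≠ ⊥) :
    ∃ (h : ℕ) (γ : 𝓞 K), 0 < h ∧ γ ≠ 0 ∧ I ^ h = span {γ} := by
  classical
  let J : (Ideal (𝓞 K))⁰ := ⟨I, mem_nonZeroDivisors_of_ne_zero hI⟩
  have h1 : ClassGroup.mk0 J ^ Fintype.card (ClassGroup (𝓞 K)) = 1 := pow_card_eq_one
  rw [← map_pow, ClassGroup.mk0_eq_one_iff] at h1
  obtain ⟨γ, hγ⟩ := h1
  have h2 : I ^ Fintype.card (ClassGroup (𝓞 K)) = span {γ} := by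
    have e : (((J ^ Fintype.card (ClassGroup (𝓞 K)) : (Ideal (𝓞 K))⁰)) : Ideal (𝓞 K)) =
        I ^ Fintype.card (ClassGroup (𝓞 K)) := by
      rw [SubmonoidClass.coe_pow]
    rw [← e, hγ]
  refine ⟨Fintype.card (ClassGroup (𝓞 K)), γ, Fintype.card_pos, ?_, h2⟩
  rintro rfl
  rw [Ideal.span_singleton_eq_bot.2 rfl] at h2
  exact hI ((pow_eq_zero_iff (M₀ := Ideal (𝓞 K)) Fintype.card_ne_zero).1 h2)

theorem uni_pow_one {N : Ideal (𝓞 K)} (hN : N ≠ ⊥) {γ : 𝓞 K} (h : IsCoprime (span {γ}) N) :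
    ∃ k : ℕ, 0 < k ∧ γ ^ k - 1 ∈ N := by
  have hf : Finite (𝓞 K ⧸ N) := Ideal.finiteQuotientOfFreeOfNeBot N hN
  have hu : IsUnit (Ideal.Quotient.mk N γ) := by
    rw [Ideal.isCoprime_iff_exists] at h
    obtain ⟨a, ha, b, hb, hab⟩ := h
    obtain ⟨z, hz⟩ := Ideal.mem_span_singleton'.1 ha
    have h1 := congrArg (Ideal.Quotient.mk N) hab
    rw [← hz, map_add, map_mul, Ideal.Quotient.eq_zero_iff_mem.2 hb, add_zero, map_one] at h1
    exact IsUnit.of_mul_eq_one (Ideal.Quotient.mk N z) (by rw [mul_comm]; exact h1)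
  have hfu : Finite (𝓞 K ⧸ N)ˣ := inferInstance
  refine ⟨Nat.card (𝓞 K ⧸ N)ˣ, Nat.card_pos, ?_⟩
  rw [← Ideal.Quotient.eq_zero_iff_mem, map_sub, map_pow, map_one, sub_eq_zero]
  have h2 : hu.unit ^ Nat.card (𝓞 K ⧸ N)ˣ = 1 := pow_card_eq_one'
  have h3 := congrArg Units.val h2
  rw [Units.val_pow_eq_pow_val, IsUnit.unit_spec, Units.val_one] at h3
  exact h3

theorem uni_ray {I N : Ideal (𝓞 K)} (hI : I ≠ ⊥) (hN : N ≠ ⊥) (h : IsCoprime I N) :
    ∃ (H : ℕ) (α : 𝓞 K), 0 < H ∧ α ≠ 0 ∧ I ^ H = span {α} ∧ α - 1 ∈ N := by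
  obtain ⟨m, γ, hm, hγ0, hγ⟩ := uni_principal I hI
  have hc : IsCoprime (span {γ}) N := by
    rw [← hγ]
    exact h.pow_left
  obtain ⟨k, hk, hk1⟩ := uni_pow_one hN hc
  refine ⟨m * k, γ ^ k, Nat.mul_pos hm hk, pow_ne_zero _ hγ0, ?_, hk1⟩
  rw [pow_mul, hγ, Ideal.span_singleton_pow]

end cls

section
variable {n : ℕ} [NeZero n] {K : Type} [Field K] [NumberField K] [IsCyclotomicExtension {n} ℚ K]

theorem uni_ne {I : Ideal (𝓞 K)} (hI : I ≠ ⊥) {y : ZMod n → ZMod n → 𝓞 K} (h : Fam I y)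
    (a b : ZMod n) : y a b ≠ 0 := by
  intro h0
  have h1 := h.nm a b
  rw [h0, zero_mul] at h1
  have h2 : absNorm I ≠ 0 := fun h => hI (absNorm_eq_zero_iff.1 h)
  exact pow_ne_zero (cc a b) (Nat.cast_ne_zero.2 h2 : ((absNorm I : ℕ) : 𝓞 K) ≠ 0) h1.symm

theorem uni_fpow (h1 : S_fam) (hn : 2 < n) {I : Ideal (𝓞 K)} {y : ZMod n → ZMod n → 𝓞 K}
    (h : Fam I y) (m : ℕ) : Fam (I ^ m) (fun a b => y a b ^ m) := by
  obtain ⟨h2, h3, -⟩ := h1 n K hn
  induction m with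
  | zero =>
      have e : (fun a b : ZMod n => y a b ^ 0) = fun _ _ => 1 := by
        funext a b
        exact pow_zero _
      rw [e, pow_zero, Ideal.one_eq_top]
      exact h2
  | succ m ih =>
      have k := h3 _ _ _ _ ih h
      have e : (fun a b : ZMod n => y a b ^ (m + 1)) = fun a b => y a b ^ m * y a b := by
        funext a b
        exact pow_succ _ _
      rw [e, pow_succ]
      exact k

theorem uni_mon_mul (P : List (ZMod n × ZMod n)) (y y' : ZMod n → ZMod n → 𝓞 K) :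
    mon P (fun a b => y a b * y' a b) = mon P y * mon P y' := by
  unfold mon
  induction P with
  | nil => simp
  | cons p P ih =>
      rw [List.map_cons, List.map_cons, List.map_cons, List.prod_cons, List.prod_cons,
        List.prod_cons, ih]
      ring

theorem uni_mon_hom {A : Type} [CommRing A] (φ : 𝓞 K →+* A) (P : List (ZMod n × ZMod n))
    (y : ZMod n → ZMod n → 𝓞 K) (h : ∀ a b, φ (y a b) = 1) : φ (mon P y) = 1 := by
  unfold mon
  induction P with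
  | nil => simp
  | cons p P ih => rw [List.map_cons, List.prod_cons, map_mul, h, ih, one_mul]

theorem uni_mon_unit {A : Type} [CommRing A] (φ : 𝓞 K →+* A) (P : List (ZMod n × ZMod n))
    (y : ZMod n → ZMod n → 𝓞 K) (h : ∀ a b, IsUnit (φ (y a b))) : IsUnit (φ (mon P y)) := by
  unfold mon
  induction P with
  | nil => simp
  | cons p P ih =>
      rw [List.map_cons, List.prod_cons, map_mul]
      exact (h _ _).mul ih

end

theorem uni (h1 : S_fam) (h2 : S_weil) : S_uni := by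
  intro n _ K _ _ _ hn I y y' hI hy hy'
  have hnK : ((n : ℕ) : 𝓞 K) ≠ 0 := Nat.cast_ne_zero.2 (NeZero.ne n)
  have hN0 : span {((n : ℕ) : 𝓞 K)} ≠ ⊥ := by
    rw [Ne, Ideal.span_singleton_eq_bot]
    exact hnK
  have hN1 : span {((n : ℕ) : 𝓞 K)} ≠ ⊤ := by
    intro h
    have h3 := congrArg absNorm h
    rw [Ideal.absNorm_top, Ideal.absNorm_span_singleton] at h3
    have h4 : Algebra.norm ℤ ((n : ℕ) : 𝓞 K) = (n : ℤ) ^ Module.finrank ℤ (𝓞 K) := by
      have := Algebra.norm_algebraMap_of_basis (RingOfIntegers.basis K) (n : ℤ)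
      rw [← Module.finrank_eq_card_basis (RingOfIntegers.basis K)] at this
      rw [← this]
      simp
    rw [h4, Int.natAbs_pow, Int.natAbs_natCast] at h3
    have h5 : 0 < Module.finrank ℤ (𝓞 K) := by
      rw [RingOfIntegers.rank]
      exact Module.finrank_pos
    have h6 : 1 < n ^ Module.finrank ℤ (𝓞 K) := Nat.one_lt_pow h5.ne' (by omega)
    omega
  have hIb : I ≠ ⊥ := HD.coprime_ne hN1 I hI
  have hI2 : IsCoprime I (span {((n : ℕ) : 𝓞 K) ^ 2}) := by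
    rw [← Ideal.span_singleton_pow]
    exact hI.pow_right
  have hN2 : span {((n : ℕ) : 𝓞 K) ^ 2} ≠ ⊥ := by
    rw [Ne, Ideal.span_singleton_eq_bot]
    exact pow_ne_zero _ hnK
  obtain ⟨H, α, hH, hα0, hα, hα1⟩ := uni_ray hIb hN2 hI2
  obtain ⟨H', rfl⟩ : ∃ H', H = H' + 1 := ⟨H - 1, by omega⟩
  have h3 := (h1 n K hn).2.1
  have k1 := h3 _ _ _ _ (uni_fpow h1 hn hy H') hy
  have k2 := h3 _ _ _ _ (uni_fpow h1 hn hy H') hy'
  rw [← pow_succ, hα] at k1 k2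
  have l1 := h2 n K hn α _ hα0 hα1 k1
  have l2 := h2 n K hn α _ hα0 hα1 k2
  funext a b
  have l3 := (l1 a b).trans (l2 a b).symm
  exact mul_left_cancel₀ (pow_ne_zero _ (uni_ne hIb hy a b)) l3

/-- the relation defining the Hecke characters -/
def uniRl {n : ℕ} [NeZero n] {K : Type} [Field K] [NumberField K]
    [IsCyclotomicExtension {n} ℚ K] (N R : Ideal (𝓞 K)) (ω : (𝓞 K ⧸ R)ˣ →* Circle)
    (P : List (ZMod n × ZMod n)) (I : Ideal (𝓞 K)) (z : Circle) : Prop :=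
  IsCoprime I N ∧ ∃ y : ZMod n → ZMod n → 𝓞 K, Fam I y ∧ ∃ u : (𝓞 K ⧸ R)ˣ,
    (u : 𝓞 K ⧸ R) = Ideal.Quotient.mk R (mon P y) ∧ z = ω u

theorem hk_of (h1 : S_fam) (h3 : S_uni) : S_hk := by
  intro n _ K _ _ _ hn r hr R hR hrR ω P
  have hnr : n ^ 2 * r ≠ 0 := Nat.mul_ne_zero (pow_ne_zero _ (NeZero.ne n)) hr.ne_zero
  have hN0 : span {((n ^ 2 * r : ℕ) : 𝓞 K)} ≠ ⊥ := by
    rw [Ne, Ideal.span_singleton_eq_bot]
    exact_mod_cast hnr
  have hNR : span {((n ^ 2 * r : ℕ) : 𝓞 K)} ≤ R := by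
    rw [Ideal.span_singleton_le_iff_mem]
    push_cast
    exact R.mul_mem_left _ hrR
  have hN1 : span {((n ^ 2 * r : ℕ) : 𝓞 K)} ≠ ⊤ := fun h => hR.ne_top (top_le_iff.1 (h ▸ hNR))
  have hquot : (((n ^ 2 * r : ℕ) : 𝓞 K ⧸ R)) = 0 := by
    rw [← map_natCast (Ideal.Quotient.mk R), Ideal.Quotient.eq_zero_iff_mem]
    exact hNR (Ideal.mem_span_singleton_self _)
  obtain ⟨f1, f2, f3⟩ := h1 n K hn
  have htop : uniRl (span {((n ^ 2 * r : ℕ) : 𝓞 K)}) R ω P ⊤ 1 := by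
    refine ⟨Ideal.isCoprime_iff_sup_eq.2 (top_sup_eq _), _, f1, 1, ?_,
      (MonoidHom.map_one ω).symm⟩
    rw [Units.val_one]
    exact (uni_mon_hom _ P _ fun _ _ => map_one _).symm
  have hmul : ∀ I I' z z', uniRl (span {((n ^ 2 * r : ℕ) : 𝓞 K)}) R ω P I z →
      uniRl (span {((n ^ 2 * r : ℕ) : 𝓞 K)}) R ω P I' z' →
      uniRl (span {((n ^ 2 * r : ℕ) : 𝓞 K)}) R ω P (I * I') (z * z') := by
    intro I I' z z' g1 g2
    obtain ⟨hI, y, h, u, hu, hz⟩ := g1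
    obtain ⟨hI', y', h', u', hu', hz'⟩ := g2
    refine ⟨IsCoprime.mul_left hI hI', _, f2 _ _ _ _ h h', u * u', ?_, ?_⟩
    · rw [Units.val_mul, hu, hu', uni_mon_mul]
      exact (RingHom.map_mul (Ideal.Quotient.mk R) _ _).symm
    · rw [hz, hz']
      exact (MonoidHom.map_mul ω u u').symm
  have huniq : ∀ I z z', I ≠ ⊥ → uniRl (span {((n ^ 2 * r : ℕ) : 𝓞 K)}) R ω P I z →
      uniRl (span {((n ^ 2 * r : ℕ) : 𝓞 K)}) R ω P I z' → z = z' := by
    intro I z z' _ g1 g2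
    obtain ⟨hI, y, h, u, hu, hz⟩ := g1
    obtain ⟨-, y', h', u', hu', hz'⟩ := g2
    have hIn : IsCoprime I (span {((n : ℕ) : 𝓞 K)}) := by
      have e : span {((n ^ 2 * r : ℕ) : 𝓞 K)} =
          span {((n : ℕ) : 𝓞 K)} * span {((n * r : ℕ) : 𝓞 K)} := by
        rw [Ideal.span_singleton_mul_span_singleton]
        congr 2
        push_cast
        ring
      rw [e] at hI
      exact (IsCoprime.mul_right_iff.1 hI).1
    have e : y = y' := h3 n K hn I y y' hIn h h'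
    have e2 : u = u' := Units.ext (by rw [hu, hu', e])
    rw [hz, hz', e2]
  have hprin : ∀ α : 𝓞 K, α ≠ 0 → α - 1 ∈ span {((n ^ 2 * r : ℕ) : 𝓞 K)} →
      uniRl (span {((n ^ 2 * r : ℕ) : 𝓞 K)}) R ω P (span {α}) 1 := by
    intro α hα0 hα
    have hα' : α - 1 ∈ span {((n : ℕ) : 𝓞 K) ^ 2} := by
      refine (Ideal.span_singleton_le_span_singleton.2 ?_) hα
      push_cast
      exact dvd_mul_right _ _
    refine ⟨HC.coprime_span hα, _, f3 α hα0 hα', 1, ?_, (MonoidHom.map_one ω).symm⟩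
    rw [Units.val_one]
    exact (uni_mon_hom _ P _ fun a b => he_xw_one hα (Ideal.Quotient.mk R) hquot).symm
  obtain ⟨χ, hχ, hχ2⟩ := exists_hecke (K := K) ⟨htop, hmul, huniq⟩ hN0 hN1 (ci := fun _ => 1)
    (fun _ _ _ _ => (one_mul _).symm) ⟨0, le_rfl, fun _ _ _ _ δ _ _ => by simp⟩ hprin
  have hχ' : Hk χ (span {((n ^ 2 * r : ℕ) : 𝓞 K)}) (fun _ => 1) := by
    have e : (fun _ : 𝓞 K => ((1 : Circle) : ℂ)) = fun _ => 1 := funext fun _ => Circle.coe_one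
    rwa [e] at hχ
  refine ⟨χ, hχ', fun I y hI h => ?_⟩
  have : Nontrivial (𝓞 K ⧸ R) := Ideal.Quotient.nontrivial_iff.2 hR.ne_top
  have hu : IsUnit (Ideal.Quotient.mk R (mon P y)) := by
    refine uni_mon_unit _ P y fun a b => ?_
    refine he_ne (N := n ^ 2 * r) ?_ _ hquot
    rw [h.sp]
    exact he_iw_coprime hI (WW a b)
  exact ⟨hu, hχ2 I _ hI ⟨hI, y, h, hu.unit, hu.unit_spec, rfl⟩⟩

end Pool.Agent.NH35.HE
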