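import Pool.Agent.NH35.HE.StmF

/-! Weak rationality and reduction modulo primes above `r`, degree divisible by four. -/

set_option autoImplicit false

namespace Pool.Agent.NH35.HE

open Finset Pool.Agent.H916R2 Pool.Agent.H916K NumberField Ideal

private lemma wf_prod_neg {α R : Type} [CommRing R] (s : Multiset α) (g : α → R) :
    (s.map fun z => -g z).prod = (-1) ^ Multiset.card s * (s.map g).prod := by
  induction s using Multiset.induction_on with
  | empty => simp
  | cons a s ih =>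
    rw [Multiset.map_cons, Multiset.prod_cons, ih, Multiset.card_cons, Multiset.map_cons,
      Multiset.prod_cons, pow_succ]
    ring

/-- `-1` is an `m`-th power -/
private lemma wf_neg_one {F : Type} [Field F] [Fintype F] {ℓ m : ℕ} (hF : Fintype.card F = ℓ)
    (hℓ : 2 < ℓ) (hm : 0 < m) (hd : 2 * m ∣ ℓ - 1) {R : Type} [CommRing R] {χ : MulChar F R}
    (hχ : orderOf χ = m) : χ (-1) = 1 := by
  classical
  obtain ⟨g, hg⟩ := IsCyclic.exists_generator (α := Fˣ)
  have hord : orderOf g = ℓ - 1 := by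
    rw [orderOf_eq_card_of_forall_mem_zpowers hg, Nat.card_eq_fintype_card, Fintype.card_units, hF]
  obtain ⟨k, hk⟩ := hd
  have hk0 : 0 < k := by
    rcases Nat.eq_zero_or_pos k with h | h
    · rw [h] at hk; omega
    · exact h
  have h1 : (((g ^ k) ^ m : Fˣ) : F) ^ 2 = 1 := by
    have : ((g ^ k) ^ m) ^ 2 = 1 := by
      rw [← pow_mul, ← pow_mul, ← orderOf_dvd_iff_pow_eq_one, hord, hk]
      exact ⟨1, by ring⟩
    rw [← Units.val_pow_eq_pow_val, this, Units.val_one]
  have h2 : (((g ^ k) ^ m : Fˣ) : F) ≠ 1 := by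
    intro h
    have h3 : (g ^ k) ^ m = 1 := Units.ext h
    rw [← pow_mul, ← orderOf_dvd_iff_pow_eq_one, hord, hk] at h3
    have h4 := Nat.le_of_dvd (by positivity) h3
    have h5 : 0 < k * m := by positivity
    have h6 : 2 * m * k = 2 * (k * m) := by ring
    omega
  have h3 : (((g ^ k) ^ m : Fˣ) : F) = -1 := (sq_eq_one_iff.mp h1).resolve_left h2
  rw [← h3, Units.val_pow_eq_pow_val, map_pow]
  exact mulChar_pow_one hχ (Units.ne_zero _)

/-- a character at an integer as a product over primes -/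
private lemma wf_int {F : Type} [Field F] {R : Type} [CommRing R] (χ : MulChar F R)
    (hχ : χ (-1) = 1) (P : Finset ℕ) (c : ℤ) (hc : c ≠ 0) (hP : c.natAbs.primeFactors ⊆ P) :
    χ (c : F) = ∏ p ∈ P, χ ((p : ℕ) : F) ^ c.natAbs.factorization p := by
  have h1 : χ (c : F) = χ ((c.natAbs : ℕ) : F) := by
    rcases Int.natAbs_eq c with h | h
    · conv_lhs => rw [h]
      rw [Int.cast_natCast]
    · conv_lhs => rw [h]
      rw [Int.cast_neg, Int.cast_natCast, ← neg_one_mul, map_mul, hχ, one_mul]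
  have h0 : c.natAbs ≠ 0 := Int.natAbs_ne_zero.mpr hc
  rw [h1]
  conv_lhs => rw [← Nat.prod_factorization_pow_eq_self h0]
  rw [Finsupp.prod, Nat.support_factorization, Nat.cast_prod, map_prod]
  rw [← Finset.prod_subset hP]
  · refine Finset.prod_congr rfl fun p _ => ?_
    rw [Nat.cast_pow, map_pow]
  · intro p _ hp
    rw [← Nat.support_factorization, Finsupp.notMem_support_iff] at hp
    rw [hp, pow_zero]

private lemma wf_exch {α R : Type} [CommRing R] (s : Multiset α) (P : Finset ℕ) (x : ℕ → R)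
    (v : α → ℕ → ℕ) (w : α → ℕ) :
    (s.map fun z => (∏ p ∈ P, x p ^ v z p) ^ w z).prod =
      ∏ p ∈ P, x p ^ (s.map fun z => w z * v z p).sum := by
  induction s using Multiset.induction_on with
  | empty => simp
  | cons a s ih =>
    rw [Multiset.map_cons, Multiset.prod_cons, ih, ← Finset.prod_pow, ← Finset.prod_mul_distrib]
    refine Finset.prod_congr rfl fun p _ => ?_
    rw [Multiset.map_cons, Multiset.sum_cons, pow_add, ← pow_mul, mul_comm (v a p)]

/-- (N12) -/
theorem we1 : S_we1 := by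
  classical
  intro m hm4 hm0 s hs hne hR
  obtain ⟨N, hN⟩ := hR
  obtain ⟨e, mo, hmo, hme⟩ := Nat.exists_eq_two_pow_mul_odd hm0.ne'
  refine ⟨e, mo, 2 * m, N + 2 + (s.map fun z : ZMod m × ℤ => z.2.natAbs).sum,
    (s.map fun z : ZMod m × ℤ => z.2.natAbs).prod.primeFactors,
    fun p => (s.map fun z : ZMod m × ℤ => z.1.val * z.2.natAbs.factorization p).sum, hme, hmo,
    by omega,
    fun p hp => Nat.prime_of_mem_primeFactors hp, ?_⟩
  intro ℓ hℓN hℓ hℓm F _ _ hF χ ψ hχ hψ
  have : Fact ℓ.Prime := ⟨hℓ⟩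
  have : CharP F ℓ := charP_of_card_eq_prime hF
  have h1 : (ℓ : ZMod m) = 1 := by
    have := (ZMod.natCast_eq_natCast_iff _ _ _).mpr (hℓm.of_mul_left 2)
    simpa using this
  have hd : 2 * m ∣ ℓ - 1 := (Nat.modEq_iff_dvd' hℓ.one_lt.le).mp hℓm.symm
  have hneg : χ (-1) = 1 := wf_neg_one hF (by omega) hm0 hd hχ
  have h2 := hN ℓ (by omega) hℓ F (by rw [h1, orderOf_one, pow_one]; exact hF) χ ψ hχ hψ
  rw [Multiset.map_map]
  have h3 : (s.map ((fun z => -gaussSum (χ ^ z.val) ψ) ∘ Prod.fst)).prod =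
      (ℓ : ℂ) ^ (Multiset.card s / 2) * (s.map fun z => (χ ^ z.1.val) (z.2 : F)).prod := by
    change (s.map fun z => -gaussSum (χ ^ z.1.val) ψ).prod = _
    rw [wf_prod_neg, hs.neg_one_pow, one_mul, h2, hF]
  rw [h3, mul_pow, ← pow_mul, Multiset.card_map, ← Multiset.prod_map_pow]
  congr 1
  have hnegm : (χ ^ mo) (-1) = 1 := by
    rw [mulChar_pow_apply χ mo (neg_ne_zero.mpr one_ne_zero), hneg, one_pow]
  have h4 : (s.map fun z => (χ ^ z.1.val) (z.2 : F) ^ mo) = s.map fun z =>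
      (∏ p ∈ (s.map fun z : ZMod m × ℤ => z.2.natAbs).prod.primeFactors,
        (χ ^ mo) ((p : ℕ) : F) ^ z.2.natAbs.factorization p) ^ z.1.val := by
    refine Multiset.map_congr rfl fun z hz => ?_
    have hz0 : (z.2 : F) ≠ 0 := by
      apply int_cast_ne_zero (ℓ := ℓ) (hne z hz).2
      have : z.2.natAbs ≤ (s.map fun z => z.2.natAbs).sum :=
        Multiset.single_le_sum (fun _ _ => Nat.zero_le _) _ (Multiset.mem_map_of_mem _ hz)
      omega
    rw [← wf_int (χ ^ mo) hnegm _ z.2 (hne z hz).2, mulChar_pow_apply χ _ hz0,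
      mulChar_pow_apply χ _ hz0, pow_right_comm]
    apply Nat.primeFactors_mono
    · exact Multiset.dvd_prod (Multiset.mem_map_of_mem _ hz)
    · intro h0
      rw [Multiset.prod_eq_zero_iff, Multiset.mem_map] at h0
      obtain ⟨y, hy, hy0⟩ := h0
      exact (hne y hy).2 (Int.natAbs_eq_zero.mp hy0)
  rw [h4, wf_exch]

private lemma wf_root (n : ℕ) (hn : n ≠ 0) : ∃ ζ : AI, IsPrimitiveRoot ζ n := by
  have hinj : Function.Injective (algebraMap AI ℂ) := Subtype.val_injective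
  have h1 := Complex.isPrimitiveRoot_exp n hn
  have h2 : IsIntegral ℤ (Complex.exp (2 * Real.pi * Complex.I / n)) :=
    h1.isIntegral (Nat.pos_of_ne_zero hn)
  refine ⟨⟨_, h2⟩, ?_⟩
  exact IsPrimitiveRoot.of_map_of_injective (f := algebraMap AI ℂ) h1 hinj

/-- (N13) -/
theorem we2 : S_we2 := by
  classical
  intro r a n m hr hr2 ha hrn hm hm4 hm0 s hW
  have : Fact r.Prime := ⟨hr⟩
  obtain ⟨e, mo, M0, N, P, κ, hme, hmo, hM0, hP, hN⟩ := hW
  have hrmo : r ^ a ∣ mo := by
    have h1 : r ^ a ∣ 2 ^ e * mo := by rw [← hme, ← hm]; exact Dvd.intro _ rfl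
    have h2 : (r ^ a).Coprime (2 ^ e) := by
      apply Nat.Coprime.pow
      exact (Nat.coprime_primes hr Nat.prime_two).mpr hr2
    exact h2.dvd_of_dvd_mul_left h1
  obtain ⟨b, hb⟩ := hrmo
  have hra0 : 0 < r ^ a := pow_pos hr.pos a
  have hnb : n = 2 ^ e * b := by
    apply Nat.eq_of_mul_eq_mul_left hra0
    rw [hm, hme, hb]
    ring
  have hbodd : Odd b := by
    rw [hb] at hmo
    exact (Nat.odd_mul.mp hmo).2
  refine ⟨e, b, P, κ, hnb, hbodd, hP, ?_⟩
  intro k _ _ φ
  rw [← hb]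
  refine ⟨M0 * m * r, N + ∑ p ∈ P, p, by have := hr.pos; positivity, ?_⟩
  intro ℓ hℓN hℓ hℓM F _ _ hF χ ψ hχ hψ
  have hℓ1 := hℓ.one_lt
  have : Fact ℓ.Prime := ⟨hℓ⟩
  have : CharP F ℓ := charP_of_card_eq_prime hF
  have hmℓ : m ∣ ℓ - 1 := by
    have h1 : ℓ ≡ 1 [MOD m] := (Nat.ModEq.of_mul_right _ hℓM).of_mul_left _
    exact (Nat.modEq_iff_dvd' hℓ1.le).mp h1.symm
  have hrℓ : r ∣ ℓ - 1 := by
    have h1 : ℓ ≡ 1 [MOD r] := hℓM.of_mul_left _
    exact (Nat.modEq_iff_dvd' hℓ1.le).mp h1.symm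
  have hraℓ : r ^ a ∣ ℓ - 1 := (Dvd.intro _ hm).trans hmℓ
  obtain ⟨ζ, hζ⟩ := wf_root (r ^ a) (pow_ne_zero a hr.ne_zero)
  obtain ⟨χ', hχ'⟩ := MulChar.exists_mulChar_orderOf F (n := r ^ a)
    (by rw [hF]; exact hraℓ) hζ
  have hcop : (orderOf χ).Coprime (orderOf χ') := by
    rw [hχ, hχ']
    exact Nat.Coprime.pow_right a ((Nat.Prime.coprime_iff_not_dvd hr).mpr hrn).symm
  have hord : orderOf (χ * χ') = m := by
    rw [Commute.orderOf_mul_eq_mul_orderOf_of_coprime (Commute.all _ _) hcop, hχ, hχ', ← hm,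
      mul_comm]
  -- transfer to the complex numbers
  have hinj : Function.Injective (algebraMap AI ℂ) := Subtype.val_injective
  set χc : MulChar F ℂ := (χ * χ').ringHomComp (algebraMap AI ℂ) with hχc
  set ψc : AddChar F ℂ := (algebraMap AI ℂ).toMonoidHom.compAddChar ψ with hψc
  have hordc : orderOf χc = m := by
    rw [← hord]
    exact orderOf_injective (MulChar.ringHomCompHom (algebraMap AI ℂ))
      (MulChar.injective_ringHomComp hinj) _
  have hψc1 : ψc ≠ 1 := by
    intro h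
    apply hψ
    ext x
    have h1 : ψc x = 1 := by rw [h]; rfl
    exact h1
  have h1 := hN ℓ (by omega) hℓ ((Nat.ModEq.of_mul_right _ hℓM).of_mul_right _) F hF χc ψc hordc hψc1
  have hg : ∀ a : ℕ, gaussSum (χc ^ a) ψc = algebraMap AI ℂ (gaussSum ((χ * χ') ^ a) ψ) := by
    intro a
    unfold gaussSum
    rw [map_sum]
    refine sum_congr rfl fun x _ => ?_
    rw [map_mul, hχc, MulChar.ringHomComp_pow, MulChar.ringHomComp_apply]
    rfl
  have h2 : (s.map fun z => -gaussSum ((χ * χ') ^ z.val) ψ).prod ^ mo =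
      (ℓ : AI) ^ (Multiset.card s / 2 * mo) *
        ∏ p ∈ P, (((χ * χ') ^ mo) ((p : ℕ) : F)) ^ κ p := by
    apply hinj
    rw [map_pow, map_mul, map_pow, map_natCast, map_multiset_prod, Multiset.map_map, map_prod]
    have e1 : ∏ p ∈ P, algebraMap AI ℂ ((((χ * χ') ^ mo) ((p : ℕ) : F)) ^ κ p) =
        ∏ p ∈ P, ((χc ^ mo) ((p : ℕ) : F)) ^ κ p := by
      refine Finset.prod_congr rfl fun p _ => ?_
      rw [map_pow, hχc, MulChar.ringHomComp_pow, MulChar.ringHomComp_apply]
    rw [e1, ← h1]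
    congr 2
    refine Multiset.map_congr rfl fun z _ => ?_
    rw [Function.comp_apply, map_neg, hg]
  -- reduction
  have hℓk : ((ℓ : ℕ) : k) = 1 := by
    have h3 : ((ℓ - 1 : ℕ) : k) = 0 := by
      rw [CharP.cast_eq_zero_iff k r]
      exact hrℓ
    rw [Nat.cast_sub hℓ1.le, Nat.cast_one] at h3
    exact sub_eq_zero.mp h3
  have hone : ∀ x : F, x ≠ 0 → φ (χ' x) = 1 := by
    intro x hx
    apply pow_one_of_char (q := r) (b := a)
    rw [← map_pow, mulChar_pow_one hχ' hx, map_one]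
  have h4 : ∀ z : ZMod m, φ (-gaussSum ((χ * χ') ^ z.val) ψ) =
      φ (-gaussSum (χ ^ ((z.val : ℕ) : ZMod n).val) ψ) := by
    intro z
    rw [map_neg, map_neg]
    congr 1
    unfold gaussSum
    rw [map_sum, map_sum]
    refine sum_congr rfl fun x _ => ?_
    rw [map_mul, map_mul]
    congr 1
    by_cases hx : x = 0
    · rw [hx, MulChar.map_zero, MulChar.map_zero]
    · rw [ZMod.val_natCast, ← hχ, pow_mod_orderOf, mul_pow, MulChar.mul_apply, map_mul,
        mulChar_pow_apply χ' _ hx, map_pow, hone x hx, one_pow, mul_one]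
  have h5 := congrArg φ h2
  rw [map_pow, map_mul, map_pow, map_natCast, hℓk, one_pow, one_mul, map_multiset_prod,
    Multiset.map_map, map_prod] at h5
  rw [map_pow, map_multiset_prod, Multiset.map_map, map_prod]
  have h6 : s.map (φ ∘ fun z => -gaussSum ((χ * χ') ^ z.val) ψ) =
      s.map (φ ∘ fun z => -gaussSum (χ ^ ((z.val : ℕ) : ZMod n).val) ψ) :=
    Multiset.map_congr rfl fun z _ => h4 z
  rw [h6] at h5
  rw [h5]
  refine Finset.prod_congr rfl fun p hp => ?_
  rw [map_pow, map_pow]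
  congr 1
  have hpF : ((p : ℕ) : F) ≠ 0 := by
    intro h0
    rw [CharP.cast_eq_zero_iff F ℓ] at h0
    have h7 := Nat.le_of_dvd (hP p hp).pos h0
    have h8 : p ≤ ∑ p ∈ P, p := Finset.single_le_sum (f := fun p => p) (fun _ _ => Nat.zero_le _) hp
    omega
  rw [mul_pow, MulChar.mul_apply, map_mul, mulChar_pow_apply χ' _ hpF, map_pow, hone _ hpF,
    one_pow, mul_one]

end Pool.Agent.NH35.HE
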