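import Pool.Agent.NH35.HE.StmF
import Pool.Agent.NH35.HG.He

/-! Weil's lemma: the family of a principal ideal. -/

set_option autoImplicit false
set_option linter.unusedSectionVars false

namespace Pool.Agent.NH35.HE

open Finset Pool.Agent.H916R2 Pool.Agent.H916K NumberField Ideal
open Pool.Agent.NH35.HD (sa xw iw zt zt_prim sa_root iw_span xw_ne xw_cong gal coe_sa)

section WeilLemma
variable {n : ℕ} [NeZero n] {K : Type} [Field K] [NumberField K] [IsCyclotomicExtension {n} ℚ K]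

variable (n K) in
/-- the additive character `a ↦ ζ ^ a` -/
noncomputable def wlc : AddChar (ZMod n) (𝓞 K) :=
  AddChar.zmodChar n (zt_prim n K).pow_eq_one

theorem wlc_apply (a : ZMod n) : wlc n K a = zt n K ^ a.val := AddChar.zmodChar_apply _ a

theorem wlc_prim : (wlc n K).IsPrimitive :=
  AddChar.zmodChar_primitive_of_primitive_root n (zt_prim n K)

theorem wlc_sum (b : ZMod n) :
    ∑ x : ZMod n, wlc n K (x * b) = if b = 0 then ((n : ℕ) : 𝓞 K) else 0 := by
  rw [AddChar.sum_mulShift b wlc_prim, ZMod.card]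
  split_ifs <;> simp

theorem wlc_one {a : ZMod n} (h : wlc n K a = 1) : a = 0 := by
  rw [wlc_apply] at h
  have h1 := (zt_prim n K).dvd_of_pow_eq_one _ h
  have h2 : a.val = 0 := Nat.eq_zero_of_dvd_of_lt h1 (ZMod.val_lt a)
  exact (ZMod.val_eq_zero a).1 h2

theorem wlc_sa (t : (ZMod n)ˣ) (a : ZMod n) :
    sa n K t (wlc n K a) = wlc n K ((t : ZMod n) * a) := by
  have h1 : (wlc n K a) ^ n = 1 := by
    rw [← AddChar.map_nsmul_eq_pow]
    simp
  rw [sa_root n K t h1, ← AddChar.map_nsmul_eq_pow]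
  congr 1
  rw [nsmul_eq_mul, ZMod.natCast_zmod_val]

/-- an integer which is fixed by the Galois group is rational -/
theorem wl_fixed {z : 𝓞 K} (h : ∀ t : (ZMod n)ˣ, sa n K t z = z) : ∃ k : ℤ, z = (k : 𝓞 K) := by
  have : IsGalois ℚ K := IsCyclotomicExtension.isGalois {n} ℚ K
  have h1 : ∀ f : K ≃ₐ[ℚ] K, f (z : K) = (z : K) := by
    intro f
    have h2 : f = gal n K (IsCyclotomicExtension.Rat.galEquivZMod n K f) := by
      unfold gal
      rw [MulEquiv.symm_apply_apply]
    rw [h2, ← coe_sa, h]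
  obtain ⟨q, hq⟩ := (IsGalois.mem_range_algebraMap_iff_fixed (F := ℚ) (E := K) (z : K)).2 h1
  have h3 : IsIntegral ℤ (algebraMap ℚ K q) := by
    rw [hq]
    exact z.isIntegral_coe
  have h4 : IsIntegral ℤ q :=
    (isIntegral_algebraMap_iff (algebraMap ℚ K).injective).1 h3
  obtain ⟨k, hk⟩ := IsIntegrallyClosed.isIntegral_iff.1 h4
  refine ⟨k, RingOfIntegers.ext ?_⟩
  rw [← hq, ← hk]
  have : ((k : 𝓞 K) : K) = ((k : ℤ) : K) := map_intCast (algebraMap (𝓞 K) K) k
  rw [this]
  simp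

/-- the Fourier transform -/
noncomputable def wlS (ε : ZMod n → ZMod n → 𝓞 K) (u v : ZMod n) : 𝓞 K :=
  ∑ a : ZMod n, ∑ b : ZMod n, wlc n K (a * u + b * v) * ε a b

/-- Fourier inversion -/
theorem wl_inv (ε : ZMod n → ZMod n → 𝓞 K) (c d : ZMod n) :
    ∑ u : ZMod n, ∑ v : ZMod n, wlc n K (-(c * u + d * v)) * wlS ε u v =
      ((n : ℕ) : 𝓞 K) ^ 2 * ε c d := by
  have h1 : ∀ u v : ZMod n, wlc n K (-(c * u + d * v)) * wlS ε u v =
      ∑ a : ZMod n, ∑ b : ZMod n,
        wlc n K (u * (a - c)) * (wlc n K (v * (b - d)) * ε a b) := by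
    intro u v
    unfold wlS
    rw [mul_sum]
    refine sum_congr rfl fun a _ => ?_
    rw [mul_sum]
    refine sum_congr rfl fun b _ => ?_
    rw [← mul_assoc, ← mul_assoc, ← AddChar.map_add_eq_mul, ← AddChar.map_add_eq_mul]
    congr 2
    ring
  simp only [h1]
  have h2 : ∑ u : ZMod n, ∑ v : ZMod n, ∑ a : ZMod n, ∑ b : ZMod n,
      wlc n K (u * (a - c)) * (wlc n K (v * (b - d)) * ε a b) =
      ∑ a : ZMod n, ∑ b : ZMod n, (∑ u : ZMod n, wlc n K (u * (a - c))) *
        ((∑ v : ZMod n, wlc n K (v * (b - d))) * ε a b) := by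
    calc _ = ∑ u : ZMod n, ∑ a : ZMod n, ∑ v : ZMod n, ∑ b : ZMod n,
          wlc n K (u * (a - c)) * (wlc n K (v * (b - d)) * ε a b) :=
          sum_congr rfl fun u _ => sum_comm
      _ = ∑ u : ZMod n, ∑ a : ZMod n, ∑ b : ZMod n, ∑ v : ZMod n,
          wlc n K (u * (a - c)) * (wlc n K (v * (b - d)) * ε a b) :=
          sum_congr rfl fun u _ => sum_congr rfl fun a _ => sum_comm
      _ = ∑ a : ZMod n, ∑ u : ZMod n, ∑ b : ZMod n, ∑ v : ZMod n,
          wlc n K (u * (a - c)) * (wlc n K (v * (b - d)) * ε a b) := sum_comm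
      _ = ∑ a : ZMod n, ∑ b : ZMod n, ∑ u : ZMod n, ∑ v : ZMod n,
          wlc n K (u * (a - c)) * (wlc n K (v * (b - d)) * ε a b) :=
          sum_congr rfl fun a _ => sum_comm
      _ = _ := by
          refine sum_congr rfl fun a _ => sum_congr rfl fun b _ => ?_
          rw [sum_mul, sum_mul]
          refine sum_congr rfl fun u _ => ?_
          rw [mul_sum]
  rw [h2]
  simp only [wlc_sum, sub_eq_zero]
  rw [sum_eq_single c]
  · rw [sum_eq_single d]
    · rw [if_pos rfl, if_pos rfl]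
      ring
    · intro b _ hb
      rw [if_neg hb, zero_mul, mul_zero]
    · intro h
      exact absurd (mem_univ _) h
  · intro a _ ha
    refine sum_eq_zero fun b _ => ?_
    rw [if_neg ha, zero_mul]
  · intro h
    exact absurd (mem_univ _) h

/-- the Galois action on the Fourier transform -/
theorem wl_ga {ε : ZMod n → ZMod n → 𝓞 K} (hga : ∀ (t : (ZMod n)ˣ) (a b : ZMod n),
    sa n K t (ε a b) = ε ((t : ZMod n) * a) ((t : ZMod n) * b)) (t : (ZMod n)ˣ) (u v : ZMod n) :
    sa n K t (wlS ε u v) = wlS ε u v := by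
  unfold wlS
  rw [map_sum]
  refine Fintype.sum_equiv (Units.mulLeft t) _ _ fun a => ?_
  rw [map_sum]
  refine Fintype.sum_equiv (Units.mulLeft t) _ _ fun b => ?_
  rw [map_mul, wlc_sa, hga]
  simp only [Units.mulLeft_apply]
  congr 2
  ring

theorem wl_conj (ε : ZMod n → ZMod n → 𝓞 K) (u v : ZMod n) :
    sa n K (-1) (wlS ε u v) =
      ∑ c : ZMod n, ∑ d : ZMod n, wlc n K (-(c * u + d * v)) * sa n K (-1) (ε c d) := by
  unfold wlS
  rw [map_sum]
  refine sum_congr rfl fun c _ => ?_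
  rw [map_sum]
  refine sum_congr rfl fun d _ => ?_
  rw [map_mul, wlc_sa]
  congr 2
  push_cast
  ring

/-- Parseval -/
theorem wl_pars {ε : ZMod n → ZMod n → 𝓞 K} (hn : ∀ a b, ε a b * sa n K (-1) (ε a b) = 1) :
    ∑ u : ZMod n, ∑ v : ZMod n, wlS ε u v * sa n K (-1) (wlS ε u v) = ((n : ℕ) : 𝓞 K) ^ 4 := by
  have h1 : ∀ u v : ZMod n, wlS ε u v * sa n K (-1) (wlS ε u v) =
      ∑ c : ZMod n, ∑ d : ZMod n,
        sa n K (-1) (ε c d) * (wlc n K (-(c * u + d * v)) * wlS ε u v) := by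
    intro u v
    rw [wl_conj, mul_sum]
    refine sum_congr rfl fun c _ => ?_
    rw [mul_sum]
    refine sum_congr rfl fun d _ => ?_
    ring
  simp only [h1]
  have h2 : ∑ u : ZMod n, ∑ v : ZMod n, ∑ c : ZMod n, ∑ d : ZMod n,
        sa n K (-1) (ε c d) * (wlc n K (-(c * u + d * v)) * wlS ε u v) =
      ∑ c : ZMod n, ∑ d : ZMod n, sa n K (-1) (ε c d) * ∑ u : ZMod n, ∑ v : ZMod n,
        wlc n K (-(c * u + d * v)) * wlS ε u v := by
    calc _ = ∑ u : ZMod n, ∑ c : ZMod n, ∑ v : ZMod n, ∑ d : ZMod n,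
          sa n K (-1) (ε c d) * (wlc n K (-(c * u + d * v)) * wlS ε u v) :=
          sum_congr rfl fun u _ => sum_comm
      _ = ∑ u : ZMod n, ∑ c : ZMod n, ∑ d : ZMod n, ∑ v : ZMod n,
          sa n K (-1) (ε c d) * (wlc n K (-(c * u + d * v)) * wlS ε u v) :=
          sum_congr rfl fun u _ => sum_congr rfl fun c _ => sum_comm
      _ = ∑ c : ZMod n, ∑ u : ZMod n, ∑ d : ZMod n, ∑ v : ZMod n,
          sa n K (-1) (ε c d) * (wlc n K (-(c * u + d * v)) * wlS ε u v) := sum_comm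
      _ = ∑ c : ZMod n, ∑ d : ZMod n, ∑ u : ZMod n, ∑ v : ZMod n,
          sa n K (-1) (ε c d) * (wlc n K (-(c * u + d * v)) * wlS ε u v) :=
          sum_congr rfl fun c _ => sum_comm
      _ = _ := by
          refine sum_congr rfl fun c _ => sum_congr rfl fun d _ => ?_
          rw [mul_sum]
          refine sum_congr rfl fun u _ => ?_
          rw [mul_sum]
  rw [h2]
  have h3 : ∀ c d : ZMod n, sa n K (-1) (ε c d) * ∑ u : ZMod n, ∑ v : ZMod n,
        wlc n K (-(c * u + d * v)) * wlS ε u v = ((n : ℕ) : 𝓞 K) ^ 2 := by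
    intro c d
    rw [wl_inv, mul_comm, mul_assoc, hn, mul_one]
  simp only [h3, sum_const, card_univ, ZMod.card, nsmul_eq_mul]
  ring

/-- an integral family with trivial values on the axes is trivial -/
theorem wl_core {ε : ZMod n → ZMod n → 𝓞 K}
    (hn : ∀ a b, ε a b * sa n K (-1) (ε a b) = 1)
    (hga : ∀ (t : (ZMod n)ˣ) (a b : ZMod n),
      sa n K t (ε a b) = ε ((t : ZMod n) * a) ((t : ZMod n) * b))
    (hl : ∀ b, ε 0 b = 1) (hr : ∀ a, ε a 0 = 1)
    (hit : ∀ u v : ZMod n, ((n : ℕ) : 𝓞 K) ^ 2 ∣ wlS ε u v) (a b : ZMod n) : ε a b = 1 := by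
  have hn0 : ((n : ℕ) : 𝓞 K) ≠ 0 := by exact_mod_cast NeZero.ne n
  choose g hg using hit
  have h1 : ∀ u v : ZMod n, ∃ k : ℤ, g u v = (k : 𝓞 K) := by
    intro u v
    apply wl_fixed (n := n)
    intro t
    have h2 := wl_ga hga t u v
    rw [hg, map_mul, map_pow, map_natCast] at h2
    exact mul_left_cancel₀ (pow_ne_zero 2 hn0) h2
  choose G hG using h1
  have h3 : ∑ u : ZMod n, ∑ v : ZMod n, G u v ^ 2 = 1 := by
    have h4 := wl_pars hn
    simp only [wl_ga hga] at h4
    simp only [hg, hG] at h4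
    have h5 : ((n : ℕ) : 𝓞 K) ^ 4 * (((∑ u : ZMod n, ∑ v : ZMod n, G u v ^ 2 : ℤ)) : 𝓞 K) =
        ((n : ℕ) : 𝓞 K) ^ 4 * 1 := by
      rw [mul_one]
      refine Eq.trans ?_ h4
      push_cast
      rw [mul_sum]
      refine sum_congr rfl fun u _ => ?_
      rw [mul_sum]
      refine sum_congr rfl fun v _ => ?_
      ring
    have h6 := mul_left_cancel₀ (pow_ne_zero 4 hn0) h5
    exact_mod_cast h6
  -- exactly one value is nonzero
  obtain ⟨u0, v0, h0⟩ : ∃ u0 v0, G u0 v0 ≠ 0 := by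
    by_contra hcon
    push Not at hcon
    simp only [hcon] at h3
    norm_num at h3
  rw [← Fintype.sum_prod_type'] at h3
  have h7 : ∀ q : ZMod n × ZMod n, q ≠ (u0, v0) → G q.1 q.2 = 0 := by
    intro q hq
    by_contra hne
    have h8 : G u0 v0 ^ 2 + G q.1 q.2 ^ 2 ≤ 1 := by
      rw [← h3]
      have h9 : ∑ x ∈ ({(u0, v0), q} : Finset (ZMod n × ZMod n)), G x.1 x.2 ^ 2 ≤
          ∑ x : ZMod n × ZMod n, G x.1 x.2 ^ 2 :=
        sum_le_sum_of_subset_of_nonneg (subset_univ _) fun _ _ _ => sq_nonneg _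
      rw [sum_pair (Ne.symm hq)] at h9
      exact h9
    have h10 : 1 ≤ G u0 v0 ^ 2 := by
      have := pow_pos (abs_pos.2 h0) 2
      rw [sq_abs] at this
      omega
    have h11 : 1 ≤ G q.1 q.2 ^ 2 := by
      have := pow_pos (abs_pos.2 hne) 2
      rw [sq_abs] at this
      omega
    omega
  -- Fourier inversion
  have h12 : ∀ c d : ZMod n, ε c d = (G u0 v0 : 𝓞 K) * wlc n K (-(c * u0 + d * v0)) := by
    intro c d
    have h13 := wl_inv ε c d
    have h14 : ∑ u : ZMod n, ∑ v : ZMod n, wlc n K (-(c * u + d * v)) * wlS ε u v =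
        ((n : ℕ) : 𝓞 K) ^ 2 * ((G u0 v0 : 𝓞 K) * wlc n K (-(c * u0 + d * v0))) := by
      rw [← Fintype.sum_prod_type', sum_eq_single (u0, v0)]
      · rw [hg, hG]
        ring
      · intro q _ hq
        rw [hg, hG, h7 q hq]
        simp
      · intro h
        exact absurd (mem_univ _) h
    rw [h14] at h13
    exact (mul_left_cancel₀ (pow_ne_zero 2 hn0) h13).symm
  have h15 : (G u0 v0 : 𝓞 K) = 1 := by
    have := h12 0 0
    rw [hl 0, zero_mul, zero_mul, add_zero, neg_zero, AddChar.map_zero_eq_one, mul_one] at this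
    exact this.symm
  have h16 : u0 = 0 := by
    have := h12 1 0
    rw [hr 1, one_mul, zero_mul, add_zero, h15, one_mul] at this
    have := wlc_one this.symm
    exact neg_eq_zero.1 this
  have h17 : v0 = 0 := by
    have := h12 0 1
    rw [hl 1, one_mul, zero_mul, zero_add, h15, one_mul] at this
    have := wlc_one this.symm
    exact neg_eq_zero.1 this
  rw [h12 a b, h15, h16, h17, mul_zero, mul_zero, add_zero, neg_zero, AddChar.map_zero_eq_one,
    mul_one]

end WeilLemma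

/-- Weil's lemma -/
theorem weil (h1 : S_fam) : S_weil := by
  intro n _ K _ _ _ h2n α y hα hα1 hy
  obtain ⟨-, -, h3⟩ := h1 n K h2n
  have hx := h3 α hα hα1
  set x : ZMod n → ZMod n → 𝓞 K := fun a b => xw n K (WW a b) α with hxdef
  have hx0 : ∀ a b, x a b ≠ 0 := fun a b => xw_ne hα
  have hass : ∀ a b, ∃ u : (𝓞 K)ˣ, x a b * (u : 𝓞 K) = y a b := by
    intro a b
    exact Ideal.span_singleton_eq_span_singleton.1 ((hx.sp a b).trans (hy.sp a b).symm)
  choose ε hε using hass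
  have key : ∀ a b, ((ε a b : (𝓞 K)ˣ) : 𝓞 K) = 1 := by
    apply wl_core (n := n) (ε := fun a b => ((ε a b : (𝓞 K)ˣ) : 𝓞 K))
    · intro a b
      have e1 := hx.nm a b
      have e2 := hy.nm a b
      rw [← hε a b, map_mul, ← e1] at e2
      have hne : x a b * sa n K (-1) (x a b) ≠ 0 := mul_ne_zero (hx0 a b) (HD.sa_ne (hx0 a b))
      apply mul_left_cancel₀ hne
      linear_combination e2
    · intro t a b
      have e1 := hx.ga t a b
      have e2 := hy.ga t a b
      rw [← hε a b, ← hε, map_mul, e1] at e2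
      exact mul_left_cancel₀ (hx0 _ _) e2
    · intro b
      have e1 := hε 0 b
      rw [hx.zl b, hy.zl b, one_mul] at e1
      exact e1
    · intro a
      by_cases ha : a = 0
      · have e1 := hε 0 0
        rw [hx.zl 0, hy.zl 0, one_mul] at e1
        rw [ha]
        exact e1
      · have e1 := hε a 0
        have e2 := hx0 a 0
        rw [hx.zr a ha] at e1 e2
        rw [hy.zr a ha] at e1
        exact mul_left_cancel₀ e2 (by rw [e1, mul_one])
    · intro u v
      have e1 := hy.it u v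
      have e2 : ∀ a b, ((n : ℕ) : 𝓞 K) ^ 2 ∣ x a b - 1 := by
        intro a b
        refine xw_cong (fun t => by rw [map_pow, map_natCast]) ?_
        exact Ideal.mem_span_singleton.1 hα1
      have e3 : wlS (n := n) (fun a b => ((ε a b : (𝓞 K)ˣ) : 𝓞 K)) u v =
          ∑ a : ZMod n, ∑ b : ZMod n, zt n K ^ (a * u + b * v).val * y a b -
          ∑ a : ZMod n, ∑ b : ZMod n, zt n K ^ (a * u + b * v).val *
            ((x a b - 1) * ((ε a b : (𝓞 K)ˣ) : 𝓞 K)) := by
        unfold wlS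
        rw [← sum_sub_distrib]
        refine sum_congr rfl fun a _ => ?_
        rw [← sum_sub_distrib]
        refine sum_congr rfl fun b _ => ?_
        rw [wlc_apply, ← hε a b]
        ring
      rw [e3]
      refine dvd_sub e1 (dvd_sum fun a _ => dvd_sum fun b _ => ?_)
      exact Dvd.dvd.mul_left (Dvd.dvd.mul_right (e2 a b) _) _
  intro a b
  rw [← hε a b, key a b, mul_one]

end Pool.Agent.NH35.HE
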